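import Pool.Agent.Lib.L8.HS.B2

/-!
# HS, chunk B3 (M): the level estimate for the central coordinate
-/

namespace Pool.Agent.Lib.L8.HS

open Matrix NumberField IsDedekindDomain Pool.Agent.Lib.H89N Pool.Agent.Lib.L1S
open Pool.Agent.Lib.L8.FI (fx fn fh)
open Pool.Agent.Lib.L8.FL (av aI Gv Kv Ah TK tv PJ G1 Chi nW wW Uw)

noncomputable section

set_option linter.unusedSectionVars false

variable {ι M N : Type} [Fintype ι] [DecidableEq ι] [AddCommGroup M] [Module ℚ M] [AddCommGroup N] [Module ℚ N]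
  {P : RootPairing ι ℚ M N} [P.IsCrystallographic] [P.IsReduced] [P.IsIrreducible] [P.IsRootSystem] {b : P.Base} {K : Type} [Field K] [NumberField K]

theorem b3_yt_swap {i j : b.support} (h : Adj b i j) (t : K) : yt b j i t = yt b i j (-t) := by
  apply FI.f_ext
  rw [yt_val h.symm, yt_val h, ff_swap i j, smul_neg, neg_smul]

theorem b3_ytn (i j : b.support) (t : K) : fn b K i * fx b (ng P j) t * (fn b K i)⁻¹ = yt b j i t := rfl

theorem b3_grp {G : Type*} [Group G] {ni nj xi xj yi yj V W : G} (h1 : ni * xi = yi * ni) (h2 : nj * xj = yj * nj)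
    (h3 : ni * yj * ni⁻¹ = V) (h4 : ni * (nj * yi * nj⁻¹) * ni⁻¹ = W) :
    nj * xj * (ni * xi) * ni⁻¹ * nj⁻¹ * ni⁻¹ = ni⁻¹ * (V * W) := by
  rw [h1, h2, ← h3, ← h4]
  group

/-- The identity (E1). PROOF. With `y_k(t) = fx b (ng P k) t`: `n_i x_i(x) n_i⁻¹ = y_i(-x)` (`FI.fn_x`), `n_j x_j(s) = y_j(-s) n_j` and `n_j y_i(-x) n_j⁻¹ = yt(-x)` (definition of `yt b i j`), so the left side is `y_j(-s) yt(-x) n_i⁻¹`. By `r_g` `n_i y_j(t) ..`: `n_i⁻¹ y_j(t) n_i = yt(t)`; so `yt(s) = n_i⁻¹ y_j(s) n_i` and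
`n_i yt(-x) n_i⁻¹ = y_j(-x)`. We need `n_i y_j(-s) n_i⁻¹ = yt(s)`: from `r_g` for `n_i⁻¹` and `n_i²` (`FI.fn_sq`: `n_i² = h_i(-1)`, which maps `f_j` to `-f_j`), or from `B1`, Step 1 (`n_i f_j = -φ n_i` and `qb0_comm`, `yt_val`). So `n_i` (left side) `= yt(s) y_j(-x) = x_i(-q) yt(s) x_i(q)` with `q = x / s` (`r_h` with `c = s`),
and `yt(s) = n_i⁻¹ y_j(s) n_i`, `y_j(s) = h_j(-1/s)⁻¹..`: `FI.fn_fx j t` with `t = 1/s`: `n_j x_j(1/s) = x_j(-s) h_j(-s) y_j(s)`, so `y_j(s) = h_j(-1/s) x_j(s) n_j x_j(1/s)` (`fh_mul`). -/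
theorem e1 {i j : b.support} (h : Adj b i j) (s : Kˣ) (x : K) :
    fn b K j * fx b (j : ι) (s : K) * (fn b K i * fx b (i : ι) x) * (fn b K i)⁻¹ * (fn b K j)⁻¹ * (fn b K i)⁻¹ =
      (fn b K i)⁻¹ * fx b (i : ι) (-(x / s)) * (fn b K i)⁻¹ * fh b j (-s⁻¹) * fx b (j : ι) (s : K) * (fn b K j * fx b (j : ι) ((s : K)⁻¹)) * (fn b K i * fx b (i : ι) (x / s)) := by
  have h1 : fn b K i * fx b (i : ι) x = fx b (ng P i) (-x) * fn b K i := FI.fn_x i x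
  have h2 : fn b K j * fx b (j : ι) (s : K) = fx b (ng P j) (-(s : K)) * fn b K j := FI.fn_x j (s : K)
  have h3 : fn b K i * fx b (ng P j) (-(s : K)) * (fn b K i)⁻¹ = yt b i j (s : K) := by
    rw [b3_ytn, b3_yt_swap h, neg_neg]
  have h4 : fn b K i * (fn b K j * fx b (ng P i) (-x) * (fn b K j)⁻¹) * (fn b K i)⁻¹ = fx b (ng P j) (-x) := by
    have h5 : fn b K j * fx b (ng P i) (-x) * (fn b K j)⁻¹ = yt b i j (-x) := rfl
    rw [h5, ← r_g h (-x)]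
    group
  rw [b3_grp h1 h2 h3 h4]
  have hs : (s : K) ≠ 0 := s.ne_zero
  have h6 : yt b i j (s : K) * fx b (ng P j) (-x) = (fx b (i : ι) (x / s))⁻¹ * yt b i j (s : K) * fx b (i : ι) (x / s) := by
    rw [r_h h (x / s) (s : K), div_mul_cancel₀ x hs]
  have h7 := FI.fn_fx (b := b) j (s⁻¹)
  rw [inv_inv] at h7
  have h8 : fx b (ng P j) (s : K) = fh b j (-s⁻¹) * fx b (j : ι) (s : K) * (fn b K j * fx b (j : ι) ((s : K)⁻¹)) := by
    have h9 : fn b K j * fx b (j : ι) ((s : K)⁻¹) = fx b (j : ι) (-(s : K)) * fh b j (-s) * fx b (ng P j) (s : K) := by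
      rw [← h7, Units.val_inv_eq_inv_val]
    have h10 : fh b j (-s⁻¹) * fh b j (-s) = (1 : GK b K) := by
      rw [← FI.fh_mul]
      have h11 : (-s⁻¹ * -s : Kˣ) = 1 := by rw [neg_mul_neg, inv_mul_cancel]
      rw [h11]
      have h12 := FI.fh_mul (b := b) (K := K) j 1 1
      rw [mul_one] at h12
      exact (mul_eq_left.1 h12.symm)
    rw [h9, FI.fx_neg]
    have h13 : fh b j (-s⁻¹) * fx b (j : ι) (s : K) * ((fx b (j : ι) (s : K))⁻¹ * fh b j (-s) * fx b (ng P j) (s : K)) =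
        (fh b j (-s⁻¹) * fh b j (-s)) * fx b (ng P j) (s : K) := by group
    rw [h13, h10, one_mul]
  rw [h6, ← FI.fx_neg, ← r_g h (s : K), h8]
  simp only [mul_assoc]

theorem b3_h2 (i : b.support) : fh b i (-1) * fh b i (-1) = (1 : GK b K) := by
  rw [← FI.fh_mul, neg_mul_neg, mul_one]
  have h12 := FI.fh_mul (b := b) (K := K) i 1 1
  rw [mul_one] at h12
  exact mul_eq_left.1 h12.symm

theorem b3_ninv (i : b.support) : (fn b K i)⁻¹ = fh b i (-1) * fn b K i := by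
  rw [inv_eq_iff_mul_eq_one, ← mul_assoc]
  have h1 : fn b K i * fh b i (-1) = fh b i (-1) * fn b K i := by
    have h2 := FI.fn_h (b := b) (K := K) i (-1)
    rw [inv_neg, inv_one] at h2
    exact h2
  rw [h1, mul_assoc (fh b i (-1)) (fn b K i) (fn b K i), FI.fn_sq, b3_h2]

theorem b3_TK (i : b.support) (s : Kˣ) : fh b i s ∈ TK b K := (FI.g1_TK b _).2 (FI.fh_Tor i s)

theorem b3_tv (i k : b.support) (s : Kˣ) : tv b K (fh b i s) k = (s : K) ^ P.pairingIn ℤ (k : ι) (i : ι) := FI.fh_diag i s (Sum.inr (k : ι))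

theorem b3_fn (i : b.support) (g : GK b K) : fn b K i * g = nx i 0 g := by
  unfold nx
  rw [FI.fx_zero, mul_one]

/-- `n_i⁻¹` is a letter times a torus element: `Ph w i j` and `Chi j` do not change under `(fn i)⁻¹` on the left. PROOF. `(fn i)⁻¹ = fh i (-1) * fn i` up to the order (`FI.fn_sq`; `fh_mul`, `(-1) * (-1) = 1`), `Ph_nx_i` with `r = 0` (`fx_zero`), `FI.Ah_T` with `|±1| = 1` (`fh_diag`); `FI.Chi_ne`, `FI.Chi_T`. -/
theorem Ph_ninv (w : HeightOneSpectrum (𝓞 K)) {i j : b.support} (h : Adj b i j) (g : GK b K) : Ph w i j ((fn b K i)⁻¹ * g) = Ph w i j g := by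
  rw [b3_ninv, mul_assoc, b3_fn]
  have h1 : ∀ k, Ah b w (fh b i (-1) * nx i 0 g) k = Ah b w (nx i 0 g) k := by
    intro k
    rw [FI.Ah_T b w (b3_TK i (-1)), b3_tv, map_zpow₀, Units.val_neg, Units.val_one, AbsoluteValue.map_neg, map_one, _root_.one_zpow, one_mul]
  have h2 : Ph w i j (fh b i (-1) * nx i 0 g) = Ph w i j (nx i 0 g) := by
    unfold Ph
    rw [h1, h1]
  rw [h2, Ph_nx_i w h]

theorem Chi_ninv {𝔫 : Ideal (𝓞 K)} {i j : b.support} (h : Adj b i j) (g : GK b K) : Chi b 𝔫 j ((fn b K i)⁻¹ * g) ↔ Chi b 𝔫 j g := by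
  rw [b3_ninv, mul_assoc, FI.Chi_T b (b3_TK i (-1)), b3_fn]
  exact FI.Chi_ne b h.ne.symm 0 g

theorem b3_HU (i : b.support) (t : K) : fx b (i : ι) t ∈ HU b K := (FI.g1_HU b _).2 (FI.fx_Uu (FI.f_ht i) t)

theorem b3_PhU (w : HeightOneSpectrum (𝓞 K)) (i j k : b.support) (t : K) (g : GK b K) : Ph w i j (fx b (k : ι) t * g) = Ph w i j g := by
  unfold Ph
  rw [FI.Ah_U b w (b3_HU k t), FI.Ah_U b w (b3_HU k t)]

theorem b3_PhT (w : HeightOneSpectrum (𝓞 K)) {i j : b.support} (h : Adj b i j) (t : Kˣ) (g : GK b K) :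
    Ph w i j (fh b j t * g) = av w (t : K) ^ 3 * Ph w i j g := by
  have ht : 0 < av w (t : K) := (av w).pos t.ne_zero
  unfold Ph
  rw [FI.Ah_T b w (b3_TK j t), FI.Ah_T b w (b3_TK j t), b3_tv, b3_tv, map_zpow₀, map_zpow₀, h.1, RootPairing.pairingIn_same, _root_.zpow_neg, zpow_one]
  have h5 : av w (t : K) ^ (2 : ℤ) = av w (t : K) ^ 2 := by norm_cast
  rw [h5]
  field_simp

/-- (E) **The level estimate.** PROOF. `s = 0`: clear. Let `g₁' = nx i x z`, `g₂' = nx j s g₁'`, `g' = nx i y g₂'`, `h₁ = nx i (x/s) g`. `z = n_i⁻¹ n_j⁻¹ n_i⁻¹ g`, so by (E1) `g₂' = n_i⁻¹ x_i(-x/s) n_i⁻¹ h_j(-1/s) x_j(s) (nx j (1/s) h₁)`. `Ph w i j` is invariant under `HU` (`FI.Ah_U`), `n_i⁻¹` and `nx i` (`Ph_nx_i`), and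
`Ph (h_j(t) g) = |α_i(h_j(t))| |α_j(h_j(t))|² Ph g = |t| ^ (-1 + 4) Ph g` (`FI.Ah_T`; `fh_diag`, `pj`: `h_j(t)` acts on the root `k` by `t ^ ⟨α_k, α_j^∨⟩`), so `Ph g' = Ph g₂' = |s|⁻³ Ph (nx j (1/s) h₁) = |s|⁻³ Ph h₁ m⁻³ = |s|⁻³ Ph g m⁻³`, `m = mz w j h₁ (1/s)` (`Ph_nx_j`, `Ph_nx_i`). `Chi j` at `h₁` is `Chi j` at `g`
(`FI.Chi_ne`), and `Chi j` at `nx j (1/s) h₁` is `Chi j` at `g₂'`, at `g'` (`Chi_ne`, `Chi_ninv`, `Chi_U`, `Chi_T`); so `A_j(h₁) ≤ ν m` (`mz_lev`), and `A_j(h₁) = A_j(g) mz_i(x/s; g) ≥ A_j(g) A_i(g)`. So `|s|³ Ph g' = Ph g / m³ ≤ ν³ Ph g / (A_i A_j (g))³`, and `Ph g (A_i² A_j)(g) = (A_i A_j)(g)³`. -/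
theorem level_s {𝔫 : Ideal (𝓞 K)} (w : HeightOneSpectrum (𝓞 K)) {i j : b.support} (h : Adj b i j) (z : GK b K) (x s y : K) (hg : Chi b 𝔫 j (fn b K i * fn b K j * fn b K i * z)) (hg' : Chi b 𝔫 j (hz i j z x s y)) :
    av w s ^ 3 * Ph w i j (hz i j z x s y) * Ph w j i (fn b K i * fn b K j * fn b K i * z) ≤ aI w 𝔫 ^ 3 := by
  by_cases hs : s = 0
  · rw [hs, map_zero]
    have h1 := FI.g1_aI_pos w 𝔫
    have h2 : (0 : ℝ) ^ 3 * Ph w i j (hz i j z x 0 y) * Ph w j i (fn b K i * fn b K j * fn b K i * z) = 0 := by ring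
    rw [h2]
    positivity
  · obtain ⟨g, hgd⟩ : ∃ g, g = fn b K i * fn b K j * fn b K i * z := ⟨_, rfl⟩
    rw [← hgd] at hg ⊢
    have hz1 : z = (fn b K i)⁻¹ * (fn b K j)⁻¹ * (fn b K i)⁻¹ * g := by
      rw [hgd]
      group
    obtain ⟨u, hu⟩ : ∃ u : Kˣ, (u : K) = s := ⟨Units.mk0 s hs, rfl⟩
    obtain ⟨h₁, hh⟩ : ∃ h₁, h₁ = nx i (x / s) g := ⟨_, rfl⟩
    have hg2 : nx j s (nx i x z) = (fn b K i)⁻¹ * (fx b (i : ι) (-(x / s)) * ((fn b K i)⁻¹ * (fh b j (-u⁻¹) * (fx b (j : ι) s * nx j s⁻¹ h₁)))) := by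
      have h2 := e1 h u x
      rw [hu] at h2
      have h3 : nx j s (nx i x z) = fn b K j * fx b (j : ι) s * (fn b K i * fx b (i : ι) x) * (fn b K i)⁻¹ * (fn b K j)⁻¹ * (fn b K i)⁻¹ * g := by
        unfold nx
        rw [hz1]
        simp only [mul_assoc]
      rw [h3, h2, hh]
      unfold nx
      simp only [mul_assoc]
    have hP : Ph w i j (hz i j z x s y) = av w ((-u⁻¹ : Kˣ) : K) ^ 3 * (Ph w i j g * (mz w j h₁ s⁻¹ ^ 3)⁻¹) := by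
      unfold hz
      rw [Ph_nx_i w h, hg2, Ph_ninv w h, b3_PhU, Ph_ninv w h, b3_PhT w h, b3_PhU, Ph_nx_j w h, hh, Ph_nx_i w h]
    have hC1 : Chi b 𝔫 j h₁ := by
      rw [hh]
      exact (FI.Chi_ne b h.ne.symm (x / s) g).2 hg
    have hC2 : Chi b 𝔫 j (nx j s⁻¹ h₁) := by
      have h3 : Chi b 𝔫 j (nx j s (nx i x z)) := (FI.Chi_ne b h.ne.symm y _).1 hg'
      rw [hg2, Chi_ninv h, FI.Chi_U b (b3_HU i _), Chi_ninv h, FI.Chi_T b (b3_TK j _), FI.Chi_U b (b3_HU j _)] at h3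
      exact h3
    have hL := mz_lev w hC1 hC2
    have hm := mz_pos w j h₁ s⁻¹
    have hi := FI.Ah_pos b w g i
    have hj := FI.Ah_pos b w g j
    have hA : Ah b w g i * Ah b w g j ≤ aI w 𝔫 * mz w j h₁ s⁻¹ := by
      refine le_trans ?_ hL
      have h4 : Ah b w h₁ j = Ah b w g j * mz w i g (x / s) := by
        rw [hh, Ah_nx, b2_cm_ji h, neg_neg, zpow_one]
      rw [h4, mul_comm]
      exact mul_le_mul_of_nonneg_left (Ah_le_mz w i g (x / s)) hj.le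
    have hav : av w s ^ 3 * av w ((-u⁻¹ : Kˣ) : K) ^ 3 = 1 := by
      rw [← mul_pow, Units.val_neg, AbsoluteValue.map_neg, Units.val_inv_eq_inv_val, map_inv₀, hu,
        mul_inv_cancel₀ ((av w).pos hs).ne', one_pow]
    have hfin : av w s ^ 3 * Ph w i j (hz i j z x s y) * Ph w j i g = (Ah b w g i * Ah b w g j / mz w j h₁ s⁻¹) ^ 3 := by
      rw [hP]
      have h5 : av w s ^ 3 * (av w ((-u⁻¹ : Kˣ) : K) ^ 3 * (Ph w i j g * (mz w j h₁ s⁻¹ ^ 3)⁻¹)) * Ph w j i g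
          = (av w s ^ 3 * av w ((-u⁻¹ : Kˣ) : K) ^ 3) * (Ph w i j g * Ph w j i g * (mz w j h₁ s⁻¹ ^ 3)⁻¹) := by ring
      rw [h5, hav, one_mul]
      unfold Ph
      rw [div_pow, div_eq_mul_inv]
      congr 1
      ring
    rw [hfin]
    have h6 : Ah b w g i * Ah b w g j / mz w j h₁ s⁻¹ ≤ aI w 𝔫 := by
      rw [div_le_iff₀ hm]
      exact hA
    exact pow_le_pow_left₀ (by positivity) h6 3

end

end Pool.Agent.Lib.L8.HS
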