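import Pool.Agent.Lib.L8.HS.B4
import Pool.Agent.Lib.L8.HS.B3

/-!
# HS, J5 (helper29): the estimates for a Heisenberg letter if `z` has the level `𝔫`, too
-/

namespace Pool.Agent.Lib.L8.HS

open Matrix NumberField IsDedekindDomain Pool.Agent.Lib.H89N Pool.Agent.Lib.L1S
open Pool.Agent.Lib.L8.FI (fx fn fh fc)
open Pool.Agent.Lib.L8.FL (av aI Gv Kv Ah TK tv PJ G1 Chi nW wW Uw RedW)

noncomputable section

set_option linter.unusedSectionVars false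

variable {ι M N : Type} [Fintype ι] [DecidableEq ι] [AddCommGroup M] [Module ℚ M] [AddCommGroup N] [Module ℚ N]
  {P : RootPairing ι ℚ M N} [P.IsCrystallographic] [P.IsReduced] [P.IsIrreducible] [P.IsRootSystem] {b : P.Base} {K : Type} [Field K] [NumberField K]

theorem j5_nx {𝔫 : Ideal (𝓞 K)} {i j : b.support} (h : Adj b i j) (r : K) (g : GK b K) : Chi b 𝔫 j (nx i r g) ↔ Chi b 𝔫 j g := FI.Chi_ne b h.ne.symm r g

/-- `mz_i(x; z) ≤ ν A_i(z) d_j`. -/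
theorem j5_key {𝔫 : Ideal (𝓞 K)} (w : HeightOneSpectrum (𝓞 K)) {i j : b.support} (h : Adj b i j) (z : GK b K) (x s y : K) (h1 : Chi b 𝔫 j z) (h2 : Chi b 𝔫 j (hz i j z x s y)) :
    mz w i z x ≤ aI w 𝔫 * (Ah b w z i * dd w i j z (hz i j z x s y)) := by
  have hi := FI.Ah_pos b w z i
  have hj := FI.Ah_pos b w z j
  have h3 : Chi b 𝔫 j (nx j s (nx i x z)) := (j5_nx h y _).1 h2
  have h4 : Chi b 𝔫 j (nx i x z) := (j5_nx h x z).2 h1
  have h5 := mz_lev w h4 h3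
  rw [Ah_nx, b2_cm_ji h, neg_neg, zpow_one] at h5
  rw [dd_j w h]
  have h6 : aI w 𝔫 * (Ah b w z i * (mz w j (nx i x z) s / (Ah b w z i * Ah b w z j))) = aI w 𝔫 * mz w j (nx i x z) s / Ah b w z j := by
    field_simp
  rw [h6, le_div_iff₀ hj]
  linarith

/-- `1 ≤ ν d_j`. -/
theorem j5_lev {𝔫 : Ideal (𝓞 K)} (w : HeightOneSpectrum (𝓞 K)) {i j : b.support} (h : Adj b i j) (z : GK b K) (x s y : K) (h1 : Chi b 𝔫 j z) (h2 : Chi b 𝔫 j (hz i j z x s y)) :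
    1 ≤ aI w 𝔫 * dd w i j z (hz i j z x s y) := by
  have hi := FI.Ah_pos b w z i
  have h3 := (Ah_le_mz w i z x).trans (j5_key w h z x s y h1 h2)
  have h4 : Ah b w z i * 1 ≤ Ah b w z i * (aI w 𝔫 * dd w i j z (hz i j z x s y)) := by
    rw [mul_one]
    refine h3.trans (le_of_eq ?_)
    ring
  exact le_of_mul_le_mul_left h4 hi

/-- `|x - x'| ≤ ν A_i(z) max (d_j, d_j')`. -/
theorem j5_C1 {𝔫 : Ideal (𝓞 K)} (w : HeightOneSpectrum (𝓞 K)) {i j : b.support} (h : Adj b i j) (z : GK b K) (x s y x' s' y' : K) (h1 : Chi b 𝔫 j z) (h2 : Chi b 𝔫 j (hz i j z x s y)) (h3 : Chi b 𝔫 j (hz i j z x' s' y')) :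
    av w (x - x') ≤ aI w 𝔫 * (Ah b w z i * max (dd w i j z (hz i j z x s y)) (dd w i j z (hz i j z x' s' y'))) := by
  have hi := FI.Ah_pos b w z i
  have hn : 0 ≤ aI w 𝔫 := (FI.g1_aI_pos w 𝔫).le
  rw [mul_max_of_nonneg _ _ hi.le, mul_max_of_nonneg _ _ hn]
  exact (mz_sub w i z x x').trans (max_le_max (j5_key w h z x s y h1 h2) (j5_key w h z x' s' y' h1 h3))

/-- `1 ≤ ν d_i`. -/
theorem j5_lev' {𝔫 : Ideal (𝓞 K)} (w : HeightOneSpectrum (𝓞 K)) {i j : b.support} (h : Adj b i j) (z : GK b K) (x s y : K) (h1 : Chi b 𝔫 i z) (h2 : Chi b 𝔫 i (hz i j z x s y)) :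
    1 ≤ aI w 𝔫 * dd w j i z (hz i j z x s y) := by
  rw [hz_swap h] at h2 ⊢
  exact j5_lev w h.symm z _ _ _ h1 h2

/-- `|y - y'| ≤ ν A_j(z) max (d_i, d_i')`. -/
theorem j5_C1' {𝔫 : Ideal (𝓞 K)} (w : HeightOneSpectrum (𝓞 K)) {i j : b.support} (h : Adj b i j) (z : GK b K) (x s y x' s' y' : K) (h1 : Chi b 𝔫 i z) (h2 : Chi b 𝔫 i (hz i j z x s y)) (h3 : Chi b 𝔫 i (hz i j z x' s' y')) :
    av w (y - y') ≤ aI w 𝔫 * (Ah b w z j * max (dd w j i z (hz i j z x s y)) (dd w j i z (hz i j z x' s' y'))) := by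
  rw [hz_swap h] at h2 h3 ⊢
  rw [hz_swap h z x' s' y']
  exact j5_C1 w h.symm z _ _ _ _ _ _ h1 h2 h3

end

end Pool.Agent.Lib.L8.HS
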