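import Mathlib

/-!
# HS, chunk A5 (S/M): two local sums
-/

namespace Pool.Agent.Lib.L8.HS

noncomputable section

theorem a5_geo {r : ℝ} (h0 : 0 < r) (h1 : r < 1) (F : Finset (ℕ × ℕ)) :
    ∑ k ∈ F, r ^ k.1 * r ^ k.2 ≤ ((1 - r)⁻¹) ^ 2 := by
  classical
  obtain ⟨N, hN⟩ : ∃ N : ℕ, N = F.sup (fun k => k.1 + k.2) + 1 := ⟨_, rfl⟩
  have hsub : F ⊆ Finset.range N ×ˢ Finset.range N := by
    intro k hk
    have h2 : k.1 + k.2 ≤ F.sup (fun k => k.1 + k.2) := Finset.le_sup (f := fun k : ℕ × ℕ => k.1 + k.2) hk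
    rw [Finset.mem_product, Finset.mem_range, Finset.mem_range]
    omega
  have h2 : ∑ i ∈ Finset.range N, r ^ i ≤ (1 - r)⁻¹ := by
    rw [← tsum_geometric_of_lt_one h0.le h1]
    exact (summable_geometric_of_lt_one h0.le h1).sum_le_tsum _ (fun _ _ => by positivity)
  have h3 : 0 ≤ ∑ i ∈ Finset.range N, r ^ i := Finset.sum_nonneg fun _ _ => by positivity
  calc ∑ k ∈ F, r ^ k.1 * r ^ k.2 ≤ ∑ k ∈ Finset.range N ×ˢ Finset.range N, r ^ k.1 * r ^ k.2 :=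
        Finset.sum_le_sum_of_subset_of_nonneg hsub fun _ _ _ => by positivity
    _ = (∑ i ∈ Finset.range N, r ^ i) * (∑ i ∈ Finset.range N, r ^ i) := by
        rw [Finset.sum_product, Finset.sum_mul_sum]
    _ ≤ ((1 - r)⁻¹) ^ 2 := by
        rw [pow_two]
        exact mul_le_mul h2 h2 h3 (h3.trans h2)

theorem a5_r {x₀ ε : ℝ} (hx₀ : 1 < x₀) (hε : 0 < ε) : 0 < x₀ ^ (-ε) ∧ x₀ ^ (-ε) < 1 :=
  ⟨Real.rpow_pos_of_pos (by linarith) _, Real.rpow_lt_one_of_one_lt_of_neg hx₀ (by linarith)⟩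

theorem a5_pow {x₀ ε : ℝ} (hx₀ : 1 < x₀) (a b : ℕ) :
    (x₀ ^ (-ε)) ^ a * (x₀ ^ (-ε)) ^ b = x₀ ^ (-ε * ((a : ℝ) + b)) := by
  have h0 : 0 < x₀ := by linarith
  rw [← Real.rpow_natCast, ← Real.rpow_natCast, ← Real.rpow_mul h0.le, ← Real.rpow_mul h0.le,
    ← Real.rpow_add h0]
  congr 1
  ring

/-- PROOF. With `y = x⁻¹ ∈ (0, x₀⁻¹]`, `t = 2 μ - 1 ≥ 1 + 2 ε`: the terms are nonnegative, the term of `(0, 0)` is `1`. Compare with the full sum over `ℕ × ℕ` (`Summable`, `sum_le_tsum`) or directly: the sum over the pairs with `min = m` and difference `j`: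
`∑_(m, j) (1 or 2) y ^ (t m + μ j)`: `min k₁ k₂ - μ (k₁ + k₂) = - t m - μ j`, `m = min`, `j = |k₁ - k₂|`. So the sum over `F \ {(0,0)}` is `≤ 2 ∑_((m, j) ≠ 0) y ^ (t m + μ j)`, and `y ^ (t m + μ j) ≤ y ^ ((1 + ε) (m + j))` (as `t, μ ≥ 1 + ε`, `y ≤ 1`), `= y ^ (1 + ε) y ^ ((1 + ε)(m + j - 1)) ≤ y ^ (1 + ε) x₀ ^ (-(1 + ε)(m + j - 1))`,
whose sum is a constant `C / 2` which depends only on `x₀` and `ε`. -/
theorem loc_sum {x₀ ε : ℝ} (hx₀ : 1 < x₀) (hε : 0 < ε) : ∃ C : ℝ, 0 ≤ C ∧ ∀ x μ : ℝ, x₀ ≤ x → 1 + ε ≤ μ → ∀ F : Finset (ℕ × ℕ), ∑ k ∈ F, x ^ (((min k.1 k.2 : ℕ) : ℝ) - μ * ((k.1 : ℝ) + k.2)) ≤ 1 + C * x ^ (-(1 + ε)) := by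
  obtain ⟨hr0, hr1⟩ := a5_r hx₀ hε
  have h0 : 0 < x₀ := by linarith
  refine ⟨x₀ ^ ε * ((1 - x₀ ^ (-ε))⁻¹) ^ 2, by positivity, fun x μ hx hμ F => ?_⟩
  have hx0 : 0 < x := by linarith
  have hx1 : 1 ≤ x := by linarith
  have hC : 0 ≤ x ^ (-(1 + ε)) * x₀ ^ ε := mul_nonneg (Real.rpow_nonneg hx0.le _) (Real.rpow_nonneg h0.le _)
  have hterm : ∀ k ∈ F, x ^ (((min k.1 k.2 : ℕ) : ℝ) - μ * ((k.1 : ℝ) + k.2)) ≤
      (if k = (0, 0) then 1 else 0) + x ^ (-(1 + ε)) * x₀ ^ ε * ((x₀ ^ (-ε)) ^ k.1 * (x₀ ^ (-ε)) ^ k.2) := by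
    intro k _
    have hnn : 0 ≤ x ^ (-(1 + ε)) * x₀ ^ ε * ((x₀ ^ (-ε)) ^ k.1 * (x₀ ^ (-ε)) ^ k.2) := by
      have := hr0.le
      positivity
    by_cases hk : k = (0, 0)
    · rw [if_pos hk, hk]
      simp only [min_self, Nat.cast_zero, add_zero, mul_zero, sub_zero, Real.rpow_zero]
      rw [hk] at hnn
      simp only at hnn
      linarith
    · rw [if_neg hk, zero_add, a5_pow hx₀]
      have hs : 1 ≤ k.1 + k.2 := by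
        by_contra h
        apply hk
        have h1 : k.1 = 0 := by omega
        have h2 : k.2 = 0 := by omega
        exact Prod.ext h1 h2
      have hmin : min k.1 k.2 + 1 ≤ k.1 + k.2 := by
        rcases le_total k.1 k.2 with h | h
        · rw [min_eq_left h]
          omega
        · rw [min_eq_right h]
          omega
      have hminr : ((min k.1 k.2 : ℕ) : ℝ) + 1 ≤ (k.1 : ℝ) + k.2 := by exact_mod_cast hmin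
      have hsr : (1 : ℝ) ≤ (k.1 : ℝ) + k.2 := by exact_mod_cast hs
      have he : ((min k.1 k.2 : ℕ) : ℝ) - μ * ((k.1 : ℝ) + k.2) ≤
          -(1 + ε) + -(ε * ((k.1 : ℝ) + k.2 - 1)) := by
        have h1 : (1 + ε) * ((k.1 : ℝ) + k.2) ≤ μ * ((k.1 : ℝ) + k.2) :=
          mul_le_mul_of_nonneg_right hμ (by linarith)
        have h2 : (1 + ε) * ((k.1 : ℝ) + k.2) = ((k.1 : ℝ) + k.2) + ε * ((k.1 : ℝ) + k.2) := by ring
        have h3 : ε * ((k.1 : ℝ) + k.2 - 1) = ε * ((k.1 : ℝ) + k.2) - ε := by ring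
        linarith
      calc x ^ (((min k.1 k.2 : ℕ) : ℝ) - μ * ((k.1 : ℝ) + k.2))
          ≤ x ^ (-(1 + ε) + -(ε * ((k.1 : ℝ) + k.2 - 1))) := Real.rpow_le_rpow_of_exponent_le hx1 he
        _ = x ^ (-(1 + ε)) * x ^ (-(ε * ((k.1 : ℝ) + k.2 - 1))) := Real.rpow_add hx0 _ _
        _ ≤ x ^ (-(1 + ε)) * x₀ ^ (-(ε * ((k.1 : ℝ) + k.2 - 1))) := by
            refine mul_le_mul_of_nonneg_left ?_ (Real.rpow_nonneg hx0.le _)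
            refine Real.rpow_le_rpow_of_nonpos h0 hx ?_
            have : 0 ≤ ε * ((k.1 : ℝ) + k.2 - 1) := mul_nonneg hε.le (by linarith)
            linarith
        _ = x ^ (-(1 + ε)) * x₀ ^ ε * x₀ ^ (-ε * ((k.1 : ℝ) + k.2)) := by
            rw [mul_assoc, ← Real.rpow_add h0]
            congr 2
            ring
  have hsum1 : ∑ k ∈ F, (if k = ((0, 0) : ℕ × ℕ) then (1 : ℝ) else 0) ≤ 1 := by
    rw [Finset.sum_ite_eq' F ((0, 0) : ℕ × ℕ) (fun _ => (1 : ℝ))]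
    split_ifs
    · exact le_refl _
    · exact zero_le_one
  calc ∑ k ∈ F, x ^ (((min k.1 k.2 : ℕ) : ℝ) - μ * ((k.1 : ℝ) + k.2))
      ≤ ∑ k ∈ F, ((if k = (0, 0) then 1 else 0) +
        x ^ (-(1 + ε)) * x₀ ^ ε * ((x₀ ^ (-ε)) ^ k.1 * (x₀ ^ (-ε)) ^ k.2)) := Finset.sum_le_sum hterm
    _ = ∑ k ∈ F, (if k = ((0, 0) : ℕ × ℕ) then (1 : ℝ) else 0) +
        x ^ (-(1 + ε)) * x₀ ^ ε * ∑ k ∈ F, (x₀ ^ (-ε)) ^ k.1 * (x₀ ^ (-ε)) ^ k.2 := by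
        rw [Finset.sum_add_distrib, Finset.mul_sum]
    _ ≤ 1 + x ^ (-(1 + ε)) * x₀ ^ ε * ((1 - x₀ ^ (-ε))⁻¹) ^ 2 :=
        add_le_add hsum1 (mul_le_mul_of_nonneg_left (a5_geo hr0 hr1 F) hC)
    _ = 1 + x₀ ^ ε * ((1 - x₀ ^ (-ε))⁻¹) ^ 2 * x ^ (-(1 + ε)) := by ring

/-- PROOF. `x ^ ((1 - μ) (k₁ + k₂)) ≤ x₀ ^ (-ε (k₁ + k₂))`, product of two geometric series. -/
theorem loc_sum' {x₀ ε : ℝ} (hx₀ : 1 < x₀) (hε : 0 < ε) : ∃ C : ℝ, 1 ≤ C ∧ ∀ x μ : ℝ, x₀ ≤ x → 1 + ε ≤ μ → ∀ F : Finset (ℕ × ℕ), ∑ k ∈ F, x ^ ((1 - μ) * ((k.1 : ℝ) + k.2)) ≤ C := by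
  obtain ⟨hr0, hr1⟩ := a5_r hx₀ hε
  have h0 : 0 < x₀ := by linarith
  have hone : 1 ≤ (1 - x₀ ^ (-ε))⁻¹ := (one_le_inv₀ (by linarith)).2 (by linarith)
  refine ⟨((1 - x₀ ^ (-ε))⁻¹) ^ 2, one_le_pow₀ hone, fun x μ hx hμ F => ?_⟩
  have hx0 : 0 < x := by linarith
  have hx1 : 1 ≤ x := by linarith
  refine le_trans (Finset.sum_le_sum fun k _ => ?_) (a5_geo hr0 hr1 F)
  rw [a5_pow hx₀]
  have hs : (0 : ℝ) ≤ (k.1 : ℝ) + k.2 := by positivity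
  calc x ^ ((1 - μ) * ((k.1 : ℝ) + k.2)) ≤ x ^ (-ε * ((k.1 : ℝ) + k.2)) :=
        Real.rpow_le_rpow_of_exponent_le hx1 (mul_le_mul_of_nonneg_right (by linarith) hs)
    _ ≤ x₀ ^ (-ε * ((k.1 : ℝ) + k.2)) := by
        refine Real.rpow_le_rpow_of_nonpos h0 hx ?_
        have : 0 ≤ ε * ((k.1 : ℝ) + k.2) := mul_nonneg hε.le hs
        linarith

end

end Pool.Agent.Lib.L8.HS
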