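import Pool.Agent.Lib.L8.HS.A0

/-!
# HS, chunk A6 (S/M): sums over products, the zeta product
-/

namespace Pool.Agent.Lib.L8.HS

open NumberField IsDedekindDomain Pool.Agent.Lib.L1S Pool.Agent.Lib.L8.QF Pool.Agent.Lib.H29F

noncomputable section

set_option linter.unusedSectionVars false

/-- PROOF. `∏_(v ∈ S) ∑_(k ∈ F_v) g v k`, `F_v = T.image (k · v)`, is the sum over `S.pi F` (`Finset.prod_sum`), and `x ↦ (v ↦ k x v)` is injective from `T` to `S.pi F`; all terms are nonnegative. Then `hc`. -/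
theorem sum_le_prod {A V κ : Type} (T : Finset A) (S : Finset V) (k : A → V → κ) (g : V → κ → ℝ) (hg : ∀ v x, 0 ≤ g v x) (hinj : ∀ x ∈ T, ∀ y ∈ T, (∀ v ∈ S, k x v = k y v) → x = y) (c : V → ℝ)
    (hc : ∀ v ∈ S, ∀ F : Finset κ, ∑ x ∈ F, g v x ≤ c v) : ∑ x ∈ T, ∏ v ∈ S, g v (k x v) ≤ ∏ v ∈ S, c v := by
  classical
  set F : V → Finset κ := fun v => T.image fun x => k x v with hF
  have h1 : ∏ v ∈ S, ∑ y ∈ F v, g v y = ∑ p ∈ S.pi F, ∏ v ∈ S.attach, g v.1 (p v.1 v.2) := Finset.prod_sum S F fun v y => g v y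
  have h2 : ∑ x ∈ T, ∏ v ∈ S, g v (k x v) = ∑ x ∈ T, ∏ v ∈ S.attach, g v.1 (k x v.1) := Finset.sum_congr rfl fun x _ => (Finset.prod_attach S fun v => g v (k x v)).symm
  have h3 : ∑ x ∈ T, ∏ v ∈ S.attach, g v.1 (k x v.1) = ∑ p ∈ T.image (fun x => fun (v : V) (_ : v ∈ S) => k x v), ∏ v ∈ S.attach, g v.1 (p v.1 v.2) := by
    rw [Finset.sum_image]
    intro x hx y hy e
    exact hinj x hx y hy fun v hv => congrFun (congrFun e v) hv
  have h4 : T.image (fun x => fun (v : V) (_ : v ∈ S) => k x v) ⊆ S.pi F := by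
    intro p hp
    obtain ⟨x, hx, rfl⟩ := Finset.mem_image.1 hp
    exact Finset.mem_pi.2 fun v _ => Finset.mem_image_of_mem (fun x => k x v) hx
  calc ∑ x ∈ T, ∏ v ∈ S, g v (k x v) = ∑ p ∈ T.image (fun x => fun (v : V) (_ : v ∈ S) => k x v), ∏ v ∈ S.attach, g v.1 (p v.1 v.2) := by rw [h2, h3]
    _ ≤ ∑ p ∈ S.pi F, ∏ v ∈ S.attach, g v.1 (p v.1 v.2) := Finset.sum_le_sum_of_subset_of_nonneg h4 fun p _ _ => Finset.prod_nonneg fun v _ => hg _ _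
    _ = ∏ v ∈ S, ∑ y ∈ F v, g v y := h1.symm
    _ ≤ ∏ v ∈ S, c v := Finset.prod_le_prod (fun v _ => Finset.sum_nonneg fun y _ => hg _ _) fun v hv => hc v hv _

/-- PROOF. `1 + y ≤ exp y`, and `∑_(v ∈ S) N(v) ^ (-(1 + ε)) ≤ ∑_I N(I) ^ (-(1 + ε))`, the sum over all ideals (`L8.FR.ideal_summable (1 + ε)`, used at the end of `QF/RQ0.rank_one_abs`; `v ↦ v.asIdeal` is injective; `Summable.sum_le_tsum`). `Z = exp (C * tsum)`. -/
theorem zeta_prod (K : Type) [Field K] [NumberField K] {C ε : ℝ} (hC : 0 ≤ C) (hε : 0 < ε) : ∃ Z : ℝ, 1 ≤ Z ∧ ∀ S : Finset (HeightOneSpectrum (𝓞 K)), ∏ v ∈ S, (1 + C * (Ideal.absNorm v.asIdeal : ℝ) ^ (-(1 + ε))) ≤ Z := by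
  classical
  have hs := L8.FR.ideal_summable (K := K) (1 + ε) (by linarith)
  set t := ∑' I : Ideal (𝓞 K), (Ideal.absNorm I : ℝ) ^ (-(1 + ε)) with ht
  have ht0 : 0 ≤ t := tsum_nonneg fun I => Real.rpow_nonneg (Nat.cast_nonneg _) _
  refine ⟨Real.exp (C * t), Real.one_le_exp (mul_nonneg hC ht0), fun S => ?_⟩
  have h1 : ∀ v ∈ S, 1 + C * (Ideal.absNorm v.asIdeal : ℝ) ^ (-(1 + ε)) ≤ Real.exp (C * (Ideal.absNorm v.asIdeal : ℝ) ^ (-(1 + ε))) := fun v _ => by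
    rw [add_comm]
    exact Real.add_one_le_exp _
  refine (Finset.prod_le_prod (fun v _ => ?_) h1).trans ?_
  · have := Real.rpow_nonneg (Nat.cast_nonneg (Ideal.absNorm v.asIdeal)) (-(1 + ε)) (x := ((Ideal.absNorm v.asIdeal : ℕ) : ℝ))
    positivity
  rw [← Real.exp_sum, Real.exp_le_exp, ← Finset.mul_sum]
  refine mul_le_mul_of_nonneg_left ?_ hC
  have hinj : Set.InjOn (fun v : HeightOneSpectrum (𝓞 K) => v.asIdeal) S := by
    intro v _ w _ e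
    exact HeightOneSpectrum.ext e
  have h2 : ∑ v ∈ S, (Ideal.absNorm v.asIdeal : ℝ) ^ (-(1 + ε)) = ∑ I ∈ S.image (fun v : HeightOneSpectrum (𝓞 K) => v.asIdeal), (Ideal.absNorm I : ℝ) ^ (-(1 + ε)) := by
    rw [Finset.sum_image hinj]
  rw [h2]
  exact hs.sum_le_tsum _ fun I _ => Real.rpow_nonneg (Nat.cast_nonneg _) _

end

end Pool.Agent.Lib.L8.HS
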