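import Pool.Agent.Lib.L8.HS.A3
import Pool.Agent.Lib.L8.HS.A5
import Pool.Agent.Lib.L8.HS.A6

/-!
# HS, chunk A7 (M/L): the sum over the contents
-/

namespace Pool.Agent.Lib.L8.HS

open NumberField IsDedekindDomain Pool.Agent.Lib.L1S Pool.Agent.Lib.L8.QF Pool.Agent.Lib.H29F

noncomputable section

set_option linter.unusedSectionVars false

section aux

open Pool.Agent.Lib.H89N Pool.Agent.Lib.L8.FR

/-! ## 1. Places -/

theorem a7_lt_one {L : Type} [Field L] [NumberField L] (w : HeightOneSpectrum (𝓞 L)) (x : 𝓞 L) : av w (x : L) < 1 ↔ x ∈ w.asIdeal :=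
  w.adicAbv_coe_lt_one_iff (NumberField.HeightOneSpectrum.one_lt_absNorm_nnreal w) x

theorem a7_place {K L : Type} [Field K] [NumberField K] [Field L] [NumberField L] [Algebra K L] {s : L ≃ₐ[K] L} {w w' : HeightOneSpectrum (𝓞 L)} (h : ∀ x : L, av w' (s x) = av w x) :
    w' = spl s w := by
  apply HeightOneSpectrum.ext
  ext x
  rw [← a7_lt_one, ← a7_lt_one]
  have h1 := h (s⁻¹ (x : L))
  have h2 := av_spl s w (s⁻¹ (x : L))
  have e : s (s⁻¹ (x : L)) = (x : L) := s.apply_symm_apply (x : L)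
  rw [e] at h1 h2
  rw [h1, h2]

theorem a7_nu {K L : Type} [Field K] [NumberField K] [Field L] [NumberField L] [Algebra K L] [IsGalois K L] (𝔫 : Ideal (𝓞 K)) {w w' : HeightOneSpectrum (𝓞 L)}
    (h : CFT.below K w = CFT.below K w') : nu L 𝔫 w = nu L 𝔫 w' := by
  obtain ⟨s, hs⟩ := exists_trn (E := K) h
  obtain rfl := a7_place (s := s) (w := w) (w' := w') hs
  have h1 := aI_spl s w 𝔫
  show nv (up L 𝔫) w = nv (up L 𝔫) (spl s w)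
  rw [nv_eq, nv_eq]
  exact h1.symm

theorem a7_nat {L : Type} [Field L] [NumberField L] {w : HeightOneSpectrum (𝓞 L)} {d : ℝ} (h : ∃ y : L, y ≠ 0 ∧ d = av w y) (h1 : 1 ≤ d) : ∃ k : ℕ, d = (Ideal.absNorm w.asIdeal : ℝ) ^ k := by
  obtain ⟨y, hy, rfl⟩ := h
  obtain ⟨m, hm⟩ := aw_zpow w y hy
  have hm' : av w y = (Ideal.absNorm w.asIdeal : ℝ) ^ m := hm
  have hq := nu2_one_lt w
  have h0 : 0 ≤ m := by
    by_contra h0
    rw [not_le] at h0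
    have h2 : (Ideal.absNorm w.asIdeal : ℝ) ^ m < 1 := zpow_lt_one_of_neg₀ hq h0
    rw [hm'] at h1
    linarith
  obtain ⟨k, rfl⟩ := Int.eq_ofNat_of_zero_le h0
  exact ⟨k, by rw [hm', zpow_natCast]⟩

theorem a7_root {K L : Type} [Field K] [NumberField K] [Field L] [NumberField L] [Algebra K L] [IsGalois K L] {F : HeightOneSpectrum (𝓞 L) → ℝ} (h0 : ∀ w, 0 < F w) (hF : {w | F w ≠ 1}.Finite)
    (hc : ∀ w w', CFT.below K w = CFT.below K w' → F w = F w') (S : Finset (HeightOneSpectrum (𝓞 K))) (hS : ∀ v, v ∉ S → F (wv L v) = 1) :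
    (∏ᶠ w, F w) ^ ((Module.finrank K L : ℝ)⁻¹) = ∏ v ∈ S, F (wv L v) ^ ((nl K (wv L v) : ℝ)⁻¹) := by
  have h1 := root_prod h0 hF hc (-1)
  rw [neg_div, neg_neg, one_div] at h1
  rw [h1, finprod_eq_prod_of_mulSupport_subset (s := S)]
  · refine Finset.prod_congr rfl fun v _ => ?_
    rw [neg_neg, Real.rpow_one]
  · intro v hv
    by_contra h
    refine hv ?_
    show (F (wv L v) ^ ((nl K (wv L v) : ℝ)⁻¹)) ^ (-(-1 : ℝ)) = 1
    rw [hS v h, Real.one_rpow, Real.one_rpow]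

/-- The root of the norm of the chosen place above `v`. -/
def a7_x {K : Type} (L : Type) [Field K] [NumberField K] [Field L] [NumberField L] [Algebra K L] (v : HeightOneSpectrum (𝓞 K)) : ℝ := (Ideal.absNorm (wv L v).asIdeal : ℝ) ^ ((nl K (wv L v) : ℝ)⁻¹)

theorem a7_x_ge {K L : Type} [Field K] [NumberField K] [Field L] [NumberField L] [Algebra K L] [IsGalois K L] (v : HeightOneSpectrum (𝓞 K)) : (2 : ℝ) ^ ((Module.finrank K L : ℝ)⁻¹) ≤ a7_x L v := by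
  have h2 : (2 : ℝ) ≤ (Ideal.absNorm (wv L v).asIdeal : ℝ) := by
    have h3 : 1 < Ideal.absNorm (wv L v).asIdeal := by exact_mod_cast nu2_one_lt (wv L v)
    exact_mod_cast h3
  have hn : 0 < nl K (wv L v) := nl_pos _
  have hnf : nl K (wv L v) ≤ Module.finrank K L := by
    rw [← gv_wv (L := L) v]
    exact Nat.le_mul_of_pos_left _ (gv_pos v)
  have hn' : (0 : ℝ) < (nl K (wv L v) : ℝ) := by exact_mod_cast hn
  have hnf' : (nl K (wv L v) : ℝ) ≤ (Module.finrank K L : ℝ) := by exact_mod_cast hnf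
  calc (2 : ℝ) ^ ((Module.finrank K L : ℝ)⁻¹) ≤ (2 : ℝ) ^ ((nl K (wv L v) : ℝ)⁻¹) :=
        Real.rpow_le_rpow_of_exponent_le one_le_two (inv_anti₀ hn' hnf')
    _ ≤ a7_x L v := Real.rpow_le_rpow zero_le_two h2 (inv_nonneg.2 hn'.le)

theorem a7_x_unr {K L : Type} [Field K] [NumberField K] [Field L] [NumberField L] [Algebra K L] {v : HeightOneSpectrum (𝓞 K)} (hv : CFT.Unr K L v) : a7_x L v = (Ideal.absNorm v.asIdeal : ℝ) := by
  have h1 : (nl K (wv L v) : ℝ) = ((wv L v).asIdeal.inertiaDeg (𝓞 K) : ℕ) := by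
    unfold nl
    rw [hv (wv L v) (wv_below v), one_mul]
  have h2 := absNorm_below (E := K) (wv L v)
  rw [wv_below] at h2
  have h3 : ((wv L v).asIdeal.inertiaDeg (𝓞 K)) ≠ 0 := (CFT.f_pos (K := K) (wv L v)).ne'
  unfold a7_x
  rw [h1, h2]
  exact Real.pow_rpow_inv_natCast (nu2_pos v).le h3

theorem a7_up_ne {K : Type} (L : Type) [Field K] [NumberField K] [Field L] [NumberField L] [Algebra K L] {𝔠 : Ideal (𝓞 K)} (h : 𝔠 ≠ ⊥) : up L 𝔠 ≠ ⊥ := by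
  intro h1
  have hinj : Function.Injective (algebraMap (𝓞 K) (𝓞 L)) := by
    intro x y e
    have e1 : algebraMap K L (x : K) = algebraMap K L (y : K) := congrArg (fun z : 𝓞 L => (z : L)) e
    exact RingOfIntegers.ext ((algebraMap K L).injective e1)
  exact h ((Ideal.map_eq_bot_iff_of_injective hinj).1 h1)

/-! ## 2. The local factor -/

/-- The local factor. -/
def a7_G (ν d₁ d₂ μ : ℝ) : ℝ := ν * min (min d₁ d₂) (ν * (d₁ * d₂)) * (d₁ * d₂) ^ (-μ)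

theorem a7_G_pos {ν d₁ d₂ : ℝ} (hν : 0 < ν) (h₁ : 0 < d₁) (h₂ : 0 < d₂) (μ : ℝ) : 0 < a7_G ν d₁ d₂ μ :=
  mul_pos (mul_pos hν (lt_min (lt_min h₁ h₂) (mul_pos hν (mul_pos h₁ h₂)))) (Real.rpow_pos_of_pos (mul_pos h₁ h₂) _)

theorem a7_G_symm (ν d₁ d₂ μ : ℝ) : a7_G ν d₂ d₁ μ = a7_G ν d₁ d₂ μ := by
  unfold a7_G
  rw [min_comm d₂ d₁, mul_comm d₂ d₁]

theorem a7_G_one (μ : ℝ) : a7_G 1 1 1 μ = 1 := by
  unfold a7_G
  rw [min_self, mul_one, mul_one, min_self, Real.one_rpow, mul_one, mul_one]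

theorem a7_pw {q : ℝ} (hq : 0 < q) (n : ℕ) (E : ℝ) : (q ^ E) ^ ((n : ℝ)⁻¹) = (q ^ ((n : ℝ)⁻¹)) ^ E := by
  rw [← Real.rpow_mul hq.le, ← Real.rpow_mul hq.le, mul_comm]

theorem a7_dd {q : ℝ} (hq : 0 < q) (k₁ k₂ : ℕ) (E : ℝ) : (q ^ k₁ * q ^ k₂) ^ E = q ^ (E * ((k₁ : ℝ) + k₂)) := by
  rw [← pow_add, ← Real.rpow_natCast, ← Real.rpow_mul hq.le]
  congr 1
  push_cast
  ring

theorem a7_loc1 {q ν : ℝ} (hq : 1 < q) (hν : 0 < ν) (hν1 : ν ≤ 1) (n : ℕ) (μ : ℝ) (k₁ k₂ : ℕ) :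
    a7_G ν (q ^ k₁) (q ^ k₂) μ ^ ((n : ℝ)⁻¹) ≤ (q ^ ((n : ℝ)⁻¹)) ^ (((min k₁ k₂ : ℕ) : ℝ) - μ * ((k₁ : ℝ) + k₂)) := by
  have hq0 : 0 < q := one_pos.trans hq
  have hp1 : 0 < q ^ k₁ := pow_pos hq0 _
  have hp2 : 0 < q ^ k₂ := pow_pos hq0 _
  rw [← a7_pw hq0]
  refine Real.rpow_le_rpow (a7_G_pos hν hp1 hp2 μ).le ?_ (inv_nonneg.2 (Nat.cast_nonneg n))
  have hmin : min (q ^ k₁) (q ^ k₂) ≤ q ^ (min k₁ k₂) := by
    rcases le_total k₁ k₂ with h | h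
    · rw [min_eq_left h]
      exact min_le_left _ _
    · rw [min_eq_right h]
      exact min_le_right _ _
  have hm0 : 0 ≤ min (min (q ^ k₁) (q ^ k₂)) (ν * (q ^ k₁ * q ^ k₂)) := (lt_min (lt_min hp1 hp2) (mul_pos hν (mul_pos hp1 hp2))).le
  unfold a7_G
  calc ν * min (min (q ^ k₁) (q ^ k₂)) (ν * (q ^ k₁ * q ^ k₂)) * (q ^ k₁ * q ^ k₂) ^ (-μ)
      ≤ q ^ (min k₁ k₂) * (q ^ k₁ * q ^ k₂) ^ (-μ) := by
        refine mul_le_mul_of_nonneg_right ?_ (Real.rpow_pos_of_pos (mul_pos hp1 hp2) _).le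
        calc ν * min (min (q ^ k₁) (q ^ k₂)) (ν * (q ^ k₁ * q ^ k₂)) ≤ 1 * min (min (q ^ k₁) (q ^ k₂)) (ν * (q ^ k₁ * q ^ k₂)) := mul_le_mul_of_nonneg_right hν1 hm0
          _ = min (min (q ^ k₁) (q ^ k₂)) (ν * (q ^ k₁ * q ^ k₂)) := one_mul _
          _ ≤ q ^ (min k₁ k₂) := (min_le_left _ _).trans hmin
    _ = q ^ (((min k₁ k₂ : ℕ) : ℝ) - μ * ((k₁ : ℝ) + k₂)) := by
        rw [a7_dd hq0, ← Real.rpow_natCast, ← Real.rpow_add hq0]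
        congr 1
        ring

theorem a7_loc2 {q ν m : ℝ} (hq : 1 < q) (hν : 0 < ν) (hm : 0 < m) {n : ℕ} (hn : n ≠ 0) (hνm : ν ≤ m ^ n) (μ : ℝ) (k₁ k₂ : ℕ) :
    a7_G ν (q ^ k₁) (q ^ k₂) μ ^ ((n : ℝ)⁻¹) ≤ m ^ 2 * (q ^ ((n : ℝ)⁻¹)) ^ ((1 - μ) * ((k₁ : ℝ) + k₂)) := by
  have hq0 : 0 < q := one_pos.trans hq
  have hp1 : 0 < q ^ k₁ := pow_pos hq0 _
  have hp2 : 0 < q ^ k₂ := pow_pos hq0 _
  have hpp : 0 < q ^ k₁ * q ^ k₂ := mul_pos hp1 hp2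
  have hmn : 0 < m ^ n := pow_pos hm n
  have h1 : a7_G ν (q ^ k₁) (q ^ k₂) μ ≤ (m ^ 2) ^ n * q ^ ((1 - μ) * ((k₁ : ℝ) + k₂)) := by
    unfold a7_G
    calc ν * min (min (q ^ k₁) (q ^ k₂)) (ν * (q ^ k₁ * q ^ k₂)) * (q ^ k₁ * q ^ k₂) ^ (-μ)
        ≤ ν * (ν * (q ^ k₁ * q ^ k₂)) * (q ^ k₁ * q ^ k₂) ^ (-μ) :=
          mul_le_mul_of_nonneg_right (mul_le_mul_of_nonneg_left (min_le_right _ _) hν.le) (Real.rpow_pos_of_pos hpp _).le
      _ = ν * ν * (q ^ k₁ * q ^ k₂) ^ (1 - μ) := by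
          rw [sub_eq_add_neg, Real.rpow_add hpp, Real.rpow_one]
          ring
      _ ≤ m ^ n * m ^ n * (q ^ k₁ * q ^ k₂) ^ (1 - μ) :=
          mul_le_mul_of_nonneg_right (mul_le_mul hνm hνm hν.le hmn.le) (Real.rpow_pos_of_pos hpp _).le
      _ = (m ^ 2) ^ n * q ^ ((1 - μ) * ((k₁ : ℝ) + k₂)) := by
          rw [a7_dd hq0, pow_two, mul_pow]
  have h2 := Real.rpow_le_rpow (a7_G_pos hν hp1 hp2 μ).le h1 (inv_nonneg.2 (Nat.cast_nonneg n))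
  rw [Real.mul_rpow (pow_nonneg (pow_nonneg hm.le 2) n) (Real.rpow_pos_of_pos hq0 _).le, Real.pow_rpow_inv_natCast (pow_nonneg hm.le 2) hn, a7_pw hq0] at h2
  exact h2

/-! ## 3. The Euler product -/

theorem a7_B {V : Type} (S B : Finset V) [DecidableEq V] {a : ℝ} (ha : 1 ≤ a) : ∏ v ∈ S, (if v ∈ B then a else 1) ≤ a ^ B.card := by
  rw [Finset.prod_ite_mem, Finset.prod_const]
  exact pow_le_pow_right₀ ha (Finset.card_le_card Finset.inter_subset_right)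

theorem a7_ram {K L : Type} [Field K] [NumberField K] [Field L] [NumberField L] [Algebra K L] [IsGalois K L] {C ε Z₁ : ℝ} (hC : 0 ≤ C) (hε : 0 < ε)
    (hZ : ∀ S : Finset (HeightOneSpectrum (𝓞 K)), ∏ v ∈ S, (1 + C * (Ideal.absNorm v.asIdeal : ℝ) ^ (-(1 + ε))) ≤ Z₁) (S : Finset (HeightOneSpectrum (𝓞 K))) :
    ∏ v ∈ S, (1 + C * a7_x L v ^ (-(1 + ε))) ≤ (1 + C) ^ (CFT.unr_fin (K := K) (L := L)).toFinset.card * Z₁ := by
  classical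
  have hx1 : ∀ v : HeightOneSpectrum (𝓞 K), 1 ≤ a7_x L v := fun v => (Real.one_le_rpow one_le_two (inv_nonneg.2 (Nat.cast_nonneg _))).trans (a7_x_ge v)
  have hN : ∀ v : HeightOneSpectrum (𝓞 K), 0 ≤ C * (Ideal.absNorm v.asIdeal : ℝ) ^ (-(1 + ε)) := fun v => mul_nonneg hC (Real.rpow_nonneg (nu2_pos v).le _)
  have hX : ∀ v : HeightOneSpectrum (𝓞 K), 0 ≤ C * a7_x L v ^ (-(1 + ε)) := fun v => mul_nonneg hC (Real.rpow_nonneg (zero_le_one.trans (hx1 v)) _)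
  calc ∏ v ∈ S, (1 + C * a7_x L v ^ (-(1 + ε)))
      ≤ ∏ v ∈ S, ((if v ∈ (CFT.unr_fin (K := K) (L := L)).toFinset then 1 + C else 1) * (1 + C * (Ideal.absNorm v.asIdeal : ℝ) ^ (-(1 + ε)))) := by
        refine Finset.prod_le_prod (fun v _ => by have := hX v; linarith) fun v _ => ?_
        by_cases hv : v ∈ (CFT.unr_fin (K := K) (L := L)).toFinset
        · rw [if_pos hv]
          have h1 : a7_x L v ^ (-(1 + ε)) ≤ 1 := Real.rpow_le_one_of_one_le_of_nonpos (hx1 v) (by linarith)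
          have h2 : C * a7_x L v ^ (-(1 + ε)) ≤ C * 1 := mul_le_mul_of_nonneg_left h1 hC
          have h3 : (1 + C) * 1 ≤ (1 + C) * (1 + C * (Ideal.absNorm v.asIdeal : ℝ) ^ (-(1 + ε))) := mul_le_mul_of_nonneg_left (by have := hN v; linarith) (by linarith)
          linarith
        · rw [if_neg hv, one_mul]
          have hu : CFT.Unr K L v := by
            by_contra h
            exact hv ((CFT.unr_fin (K := K) (L := L)).mem_toFinset.2 h)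
          rw [a7_x_unr hu]
    _ = (∏ v ∈ S, (if v ∈ (CFT.unr_fin (K := K) (L := L)).toFinset then 1 + C else 1)) * ∏ v ∈ S, (1 + C * (Ideal.absNorm v.asIdeal : ℝ) ^ (-(1 + ε))) := Finset.prod_mul_distrib
    _ ≤ (1 + C) ^ (CFT.unr_fin (K := K) (L := L)).toFinset.card * Z₁ := by
        refine mul_le_mul (a7_B _ _ (by linarith)) (hZ S) (Finset.prod_nonneg fun v _ => by have := hN v; linarith) (pow_nonneg (by linarith) _)

theorem a7_sq {K : Type} [Field K] [NumberField K] {𝔫 : Ideal (𝓞 K)} (h𝔫 : 𝔫 ≠ ⊥) (S : Finset (HeightOneSpectrum (𝓞 K))) (hS : ∀ v, v ∉ S → od 𝔫 v = 0) :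
    ∏ v ∈ S, nv 𝔫 v ^ 2 = (Ideal.absNorm 𝔫 : ℝ) ^ (-2 : ℝ) := by
  have h1 := norm_od h𝔫 S hS
  have e : (Ideal.absNorm 𝔫 : ℝ) ^ (-2 : ℝ) = ((Ideal.absNorm 𝔫 : ℝ)⁻¹) ^ 2 := by
    rw [Real.rpow_neg (Nat.cast_nonneg _), inv_pow]
    congr 1
    exact Real.rpow_two _
  rw [e, h1, ← Finset.prod_inv_distrib, ← Finset.prod_pow]
  refine Finset.prod_congr rfl fun v _ => ?_
  rw [nv_eq, nw_od, zpow_neg, zpow_natCast]

end aux

variable (K L : Type) [Field K] [NumberField K] [Field L] [NumberField L] [Algebra K L]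

/-- PROOF. Write `f = [L : K]`, `w_v = wv L v`, `n_v = nl K w_v`, `q_w = N(w)`, `d₁ w x = q_w ^ k₁`, `d₂ w x = q_w ^ k₂` with natural numbers (`aw_zpow`, `d ≥ 1`), and `G w x` for the local factor. `G w x` depends only on the place of `K` below `w` (`eqv`: `G` is symmetric in `d₁, d₂`, and `nv (up L 𝔫) w` depends only on the place below: e.g.
`QF/EQ0.aI_spl` and `exists_trn`, `eq3_place`; or show it from `nw_od`), so by `root_prod` (`s = -1`) `(∏ᶠ w, G w x) ^ (1/f) = ∏ᶠ v, G w_v x ^ (1/n_v)`. Let `x_v = q_(w_v) ^ (1/n_v)`: `x_v ≥ 2 ^ (1/f) =: x₀` (`q ≥ 2`, `n_v ≤ f` by `gv_mul`), and `x_v = N(v)` if `v` is unramified (`absNorm_below`, as in `root_val`; `CFT.unr_fin`).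
If `nv 𝔫 v = 1`: `G w_v x ≤ min(d₁, d₂) (d₁ d₂) ^ (-μ)` (`ν ≤ 1`), so `G ^ (1/n_v) ≤ x_v ^ (min(k₁, k₂) - μ (k₁ + k₂))`. If `nv 𝔫 v ≠ 1`: `G w_v x ≤ ν_w ^ 2 (d₁ d₂) ^ (1 - μ)` and `ν_w ≤ (nv 𝔫 v) ^ n_v` (`nw_up_le`), so `G ^ (1/n_v) ≤ (nv 𝔫 v) ^ 2 x_v ^ ((1 - μ)(k₁ + k₂))`.
Let `S` be a finite set of places of `K` outside of which `nv 𝔫 v = 1` and all `k₁, k₂` are `0` at `w_v` for the `x ∈ T` (the sets `{w | d w x ≠ 1}` are finite). `x ↦ (k₁, k₂)_(v ∈ S)` is injective on `T`: the `d` at `w_v` agree for all `v`, then for all `w` by `eqv`, so `Eqc`. Now `sum_le_prod` with `g v (k₁, k₂)` the two bounds,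
`c v = 1 + C₁ x_v ^ (-(1 + ε))` (`loc_sum`) resp. `c v = (nv 𝔫 v) ^ 2 * C₂` (`loc_sum'`). Finally `∏_(v ∈ S) c v ≤ (∏_(v ∈ S) (1 + C₁ x_v ^ (-(1+ε)))) (∏_(v ∈ S) (if nv 𝔫 v = 1 then 1 else C₂)) ∏_(v ∈ S) (nv 𝔫 v) ^ 2`: the first product is `≤ zeta_prod` times `(1 + C₁) ^ (number of ramified places)`,
the second is `≤ Z N(𝔫) ^ δ` (`omega_pl`), the third is `N(𝔫) ^ (-2)` (`nw_od`, `norm_od` of `FR`). -/
theorem euler [IsGalois K L] {ε δ : ℝ} (hε : 0 < ε) (hδ : 0 < δ) : ∃ Z : ℝ, 1 ≤ Z ∧ ∀ μ : ℝ, 1 + ε ≤ μ → ∀ 𝔫 : Ideal (𝓞 K), 𝔫 ≠ ⊥ → ∀ (A : Type) (T : Finset A) (d₁ d₂ : HeightOneSpectrum (𝓞 L) → A → ℝ),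
    (∀ w x, ∃ y : L, y ≠ 0 ∧ d₁ w x = av w y) → (∀ w x, ∃ y : L, y ≠ 0 ∧ d₂ w x = av w y) → (∀ w x, 1 ≤ d₁ w x) → (∀ w x, 1 ≤ d₂ w x) → (∀ x, {w | d₁ w x ≠ 1}.Finite) → (∀ x, {w | d₂ w x ≠ 1}.Finite) →
    (∀ w w' : HeightOneSpectrum (𝓞 L), CFT.below K w = CFT.below K w' → (∀ x, d₁ w' x = d₁ w x ∧ d₂ w' x = d₂ w x) ∨ (∀ x, d₁ w' x = d₂ w x ∧ d₂ w' x = d₁ w x)) →
    (∀ x ∈ T, ∀ y ∈ T, Eqc d₁ d₂ x y → x = y) →
    ∑ x ∈ T, (∏ᶠ w, nu L 𝔫 w * min (min (d₁ w x) (d₂ w x)) (nu L 𝔫 w * (d₁ w x * d₂ w x)) * (d₁ w x * d₂ w x) ^ (-μ)) ^ ((Module.finrank K L : ℝ)⁻¹) ≤ Z * (Ideal.absNorm 𝔫 : ℝ) ^ (δ - 2) := by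
  classical
  have h2f : (1 : ℝ) < (2 : ℝ) ^ ((Module.finrank K L : ℝ)⁻¹) := by
    refine Real.one_lt_rpow one_lt_two (inv_pos.2 ?_)
    exact_mod_cast (Module.finrank_pos : 0 < Module.finrank K L)
  obtain ⟨C₁, hC₁, hs1⟩ := loc_sum h2f hε
  obtain ⟨C₂, hC₂, hs2⟩ := loc_sum' h2f hε
  obtain ⟨Z₁, hZ₁, hz1⟩ := zeta_prod K hC₁ hε
  obtain ⟨Z₂, hZ₂, hz2⟩ := omega_pl K hC₂ hδ
  set b : ℕ := (CFT.unr_fin (K := K) (L := L)).toFinset.card with hb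
  have hCb : (1 : ℝ) ≤ (1 + C₁) ^ b := one_le_pow₀ (by linarith)
  refine ⟨(1 + C₁) ^ b * Z₁ * Z₂, one_le_mul_of_one_le_of_one_le (one_le_mul_of_one_le_of_one_le hCb hZ₁) hZ₂, ?_⟩
  intro μ hμ 𝔫 h𝔫 A T d₁ d₂ hv₁ hv₂ ho₁ ho₂ hf₁ hf₂ heq hinj
  have hup : up L 𝔫 ≠ ⊥ := a7_up_ne L h𝔫
  -- the level
  have hnu0 : ∀ w, 0 < nu L 𝔫 w := fun w => by
    show 0 < nv (up L 𝔫) w
    rw [Pool.Agent.Lib.H29F.nv_eq]
    exact H89N.nw_pos _ _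
  have hnu1 : ∀ w, nu L 𝔫 w ≤ 1 := fun w => by
    show nv (up L 𝔫) w ≤ 1
    rw [Pool.Agent.Lib.H29F.nv_eq]
    exact H89N.nw_le_one _ _
  have hnuo : ∀ w, FR.od (up L 𝔫) w = 0 → nu L 𝔫 w = 1 := fun w h => by
    show nv (up L 𝔫) w = 1
    rw [Pool.Agent.Lib.H29F.nv_eq, FR.nw_od, h, Nat.cast_zero, neg_zero, zpow_zero]
  have hnv0 : ∀ v, 0 < nv 𝔫 v := fun v => by
    rw [Pool.Agent.Lib.H29F.nv_eq]
    exact H89N.nw_pos _ _
  -- the exponents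
  choose k₁ hk₁ using fun (x : A) (v : HeightOneSpectrum (𝓞 K)) => a7_nat (hv₁ (wv L v) x) (ho₁ (wv L v) x)
  choose k₂ hk₂ using fun (x : A) (v : HeightOneSpectrum (𝓞 K)) => a7_nat (hv₂ (wv L v) x) (ho₂ (wv L v) x)
  -- the finite set of the places
  have hU : ({v | FR.od 𝔫 v ≠ 0} ∪ CFT.below K '' {w : HeightOneSpectrum (𝓞 L) | FR.od (up L 𝔫) w ≠ 0} ∪
      ⋃ x ∈ T, (CFT.below K '' {w | d₁ w x ≠ 1} ∪ CFT.below K '' {w | d₂ w x ≠ 1})).Finite := by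
    refine ((FR.od_finite h𝔫).union ((FR.od_finite hup).image _)).union ?_
    exact T.finite_toSet.biUnion fun x _ => ((hf₁ x).image _).union ((hf₂ x).image _)
  set S := hU.toFinset with hSdef
  have hS0 : ∀ v, v ∉ S → FR.od 𝔫 v = 0 := by
    intro v hv
    by_contra h
    exact hv (hU.mem_toFinset.2 (Or.inl (Or.inl h)))
  have hS1 : ∀ v, v ∉ S → nu L 𝔫 (wv L v) = 1 := by
    intro v hv
    refine hnuo _ ?_
    by_contra h
    exact hv (hU.mem_toFinset.2 (Or.inl (Or.inr ⟨wv L v, h, wv_below v⟩)))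
  have hS2 : ∀ x ∈ T, ∀ v, v ∉ S → d₁ (wv L v) x = 1 := by
    intro x hx v hv
    by_contra h
    exact hv (hU.mem_toFinset.2 (Or.inr (Set.mem_iUnion₂.2 ⟨x, hx, Or.inl ⟨wv L v, h, wv_below v⟩⟩)))
  have hS3 : ∀ x ∈ T, ∀ v, v ∉ S → d₂ (wv L v) x = 1 := by
    intro x hx v hv
    by_contra h
    exact hv (hU.mem_toFinset.2 (Or.inr (Set.mem_iUnion₂.2 ⟨x, hx, Or.inr ⟨wv L v, h, wv_below v⟩⟩)))
  -- the bound of one term
  set g : HeightOneSpectrum (𝓞 K) → ℕ × ℕ → ℝ := fun v k =>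
    if nv 𝔫 v = 1 then a7_x L v ^ (((min k.1 k.2 : ℕ) : ℝ) - μ * ((k.1 : ℝ) + k.2)) else nv 𝔫 v ^ 2 * a7_x L v ^ ((1 - μ) * ((k.1 : ℝ) + k.2)) with hg
  have hx0 : ∀ v : HeightOneSpectrum (𝓞 K), (2 : ℝ) ^ ((Module.finrank K L : ℝ)⁻¹) ≤ a7_x L v := fun v => a7_x_ge v
  have hx1 : ∀ v : HeightOneSpectrum (𝓞 K), 0 < a7_x L v := fun v => by have := hx0 v; linarith
  have hg0 : ∀ v k, 0 ≤ g v k := by
    intro v k
    rw [hg]
    dsimp only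
    split_ifs
    · exact (Real.rpow_pos_of_pos (hx1 v) _).le
    · exact mul_nonneg (pow_nonneg (hnv0 v).le 2) (Real.rpow_pos_of_pos (hx1 v) _).le
  have hterm : ∀ x ∈ T, (∏ᶠ w, nu L 𝔫 w * min (min (d₁ w x) (d₂ w x)) (nu L 𝔫 w * (d₁ w x * d₂ w x)) * (d₁ w x * d₂ w x) ^ (-μ)) ^ ((Module.finrank K L : ℝ)⁻¹) ≤
      ∏ v ∈ S, g v (k₁ x v, k₂ x v) := by
    intro x hx
    have hd1 : ∀ w, 0 < d₁ w x := fun w => one_pos.trans_le (ho₁ w x)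
    have hd2 : ∀ w, 0 < d₂ w x := fun w => one_pos.trans_le (ho₂ w x)
    have e := a7_root (K := K) (L := L) (F := fun w => a7_G (nu L 𝔫 w) (d₁ w x) (d₂ w x) μ) (fun w => a7_G_pos (hnu0 w) (hd1 w) (hd2 w) μ)
      (((FR.od_finite hup).union ((hf₁ x).union (hf₂ x))).subset fun w hw => by
        by_contra h
        rw [Set.mem_union, Set.mem_union, not_or, not_or] at h
        obtain ⟨h1, h2, h3⟩ := h
        refine hw ?_
        show a7_G (nu L 𝔫 w) (d₁ w x) (d₂ w x) μ = 1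
        rw [hnuo w (not_not.1 h1), not_not.1 h2, not_not.1 h3, a7_G_one])
      (fun w w' h => by
        show a7_G (nu L 𝔫 w) (d₁ w x) (d₂ w x) μ = a7_G (nu L 𝔫 w') (d₁ w' x) (d₂ w' x) μ
        rw [a7_nu 𝔫 h]
        rcases heq w w' h with h1 | h1
        · rw [(h1 x).1, (h1 x).2]
        · rw [(h1 x).1, (h1 x).2, a7_G_symm]) S
      (fun v hv => by
        show a7_G (nu L 𝔫 (wv L v)) (d₁ (wv L v) x) (d₂ (wv L v) x) μ = 1
        rw [hS1 v hv, hS2 x hx v hv, hS3 x hx v hv, a7_G_one])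
    refine e.le.trans ?_
    refine Finset.prod_le_prod (fun v _ => (Real.rpow_pos_of_pos (a7_G_pos (hnu0 _) (hd1 _) (hd2 _) μ) _).le) fun v _ => ?_
    rw [hg]
    dsimp only
    rw [hk₁ x v, hk₂ x v]
    split_ifs with hv1
    · exact a7_loc1 (H89N.nu2_one_lt _) (hnu0 _) (hnu1 _) _ μ _ _
    · refine a7_loc2 (H89N.nu2_one_lt _) (hnu0 _) (hnv0 v) (nl_pos _).ne' ?_ μ _ _
      have h4 := nw_up_le (L := L) h𝔫 (wv L v)
      rw [wv_below] at h4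
      show nv (up L 𝔫) (wv L v) ≤ _
      rw [Pool.Agent.Lib.H29F.nv_eq, Pool.Agent.Lib.H29F.nv_eq]
      exact h4
  -- the constants
  set c : HeightOneSpectrum (𝓞 K) → ℝ := fun v => if nv 𝔫 v = 1 then 1 + C₁ * a7_x L v ^ (-(1 + ε)) else nv 𝔫 v ^ 2 * C₂ with hc
  have hsum : ∑ x ∈ T, ∏ v ∈ S, g v (k₁ x v, k₂ x v) ≤ ∏ v ∈ S, c v := by
    refine sum_le_prod T S (fun x v => (k₁ x v, k₂ x v)) g hg0 ?_ c ?_
    · intro x hx y hy h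
      refine hinj x hx y hy ?_
      have key : ∀ v : HeightOneSpectrum (𝓞 K), d₁ (wv L v) x = d₁ (wv L v) y ∧ d₂ (wv L v) x = d₂ (wv L v) y := by
        intro v
        by_cases hv : v ∈ S
        · have h1 := h v hv
          have h2 : k₁ x v = k₁ y v := congrArg Prod.fst h1
          have h3 : k₂ x v = k₂ y v := congrArg Prod.snd h1
          exact ⟨by rw [hk₁ x v, hk₁ y v, h2], by rw [hk₂ x v, hk₂ y v, h3]⟩
        · exact ⟨(hS2 x hx v hv).trans (hS2 y hy v hv).symm, (hS3 x hx v hv).trans (hS3 y hy v hv).symm⟩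
      intro w
      obtain ⟨h1, h2⟩ := key (CFT.below K w)
      rcases heq (wv L (CFT.below K w)) w (wv_below _) with h3 | h3
      · exact ⟨by rw [(h3 x).1, (h3 y).1, h1], by rw [(h3 x).2, (h3 y).2, h2]⟩
      · exact ⟨by rw [(h3 x).1, (h3 y).1, h2], by rw [(h3 x).2, (h3 y).2, h1]⟩
    · intro v _ F
      rw [hc, hg]
      dsimp only
      split_ifs with hv1
      · exact hs1 _ μ (hx0 v) hμ F
      · rw [← Finset.mul_sum]
        exact mul_le_mul_of_nonneg_left (hs2 _ μ (hx0 v) hμ F) (pow_nonneg (hnv0 v).le 2)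
  have hfin : ∏ v ∈ S, c v ≤ (1 + C₁) ^ b * Z₁ * Z₂ * (Ideal.absNorm 𝔫 : ℝ) ^ (δ - 2) := by
    have hN0 : (0 : ℝ) < (Ideal.absNorm 𝔫 : ℝ) := by
      have : Ideal.absNorm 𝔫 ≠ 0 := fun h => h𝔫 (Ideal.absNorm_eq_zero_iff.1 h)
      exact_mod_cast Nat.pos_of_ne_zero this
    have hX : ∀ v : HeightOneSpectrum (𝓞 K), 0 ≤ C₁ * a7_x L v ^ (-(1 + ε)) := fun v => mul_nonneg hC₁ (Real.rpow_pos_of_pos (hx1 v) _).le
    calc ∏ v ∈ S, c v ≤ ∏ v ∈ S, ((1 + C₁ * a7_x L v ^ (-(1 + ε))) * (if nv 𝔫 v = 1 then 1 else C₂) * nv 𝔫 v ^ 2) := by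
          refine Finset.prod_le_prod (fun v _ => ?_) fun v _ => ?_
          · rw [hc]
            dsimp only
            split_ifs
            · have := hX v
              linarith
            · exact mul_nonneg (pow_nonneg (hnv0 v).le 2) (by linarith)
          · rw [hc]
            dsimp only
            split_ifs with hv1
            · rw [hv1, one_pow, mul_one, mul_one]
            · have h1 : 1 * (C₂ * nv 𝔫 v ^ 2) ≤ (1 + C₁ * a7_x L v ^ (-(1 + ε))) * (C₂ * nv 𝔫 v ^ 2) :=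
                mul_le_mul_of_nonneg_right (by have := hX v; linarith) (mul_nonneg (by linarith) (pow_nonneg (hnv0 v).le 2))
              calc nv 𝔫 v ^ 2 * C₂ = 1 * (C₂ * nv 𝔫 v ^ 2) := by ring
                _ ≤ (1 + C₁ * a7_x L v ^ (-(1 + ε))) * (C₂ * nv 𝔫 v ^ 2) := h1
                _ = (1 + C₁ * a7_x L v ^ (-(1 + ε))) * C₂ * nv 𝔫 v ^ 2 := by ring
      _ = (∏ v ∈ S, (1 + C₁ * a7_x L v ^ (-(1 + ε)))) * (∏ v ∈ S, (if nv 𝔫 v = 1 then 1 else C₂)) * ∏ v ∈ S, nv 𝔫 v ^ 2 := by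
          rw [Finset.prod_mul_distrib, Finset.prod_mul_distrib]
      _ ≤ ((1 + C₁) ^ b * Z₁) * (Z₂ * (Ideal.absNorm 𝔫 : ℝ) ^ δ) * (Ideal.absNorm 𝔫 : ℝ) ^ (-2 : ℝ) := by
          rw [a7_sq h𝔫 S hS0]
          refine mul_le_mul_of_nonneg_right ?_ (Real.rpow_pos_of_pos hN0 _).le
          refine mul_le_mul (a7_ram hC₁ hε hz1 S) (hz2 𝔫 h𝔫 S) (Finset.prod_nonneg fun v _ => ?_) ?_
          · split_ifs
            · exact zero_le_one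
            · linarith
          · exact mul_nonneg (by linarith) (by linarith)
      _ = (1 + C₁) ^ b * Z₁ * Z₂ * (Ideal.absNorm 𝔫 : ℝ) ^ (δ - 2) := by
          rw [sub_eq_add_neg, Real.rpow_add hN0]
          ring
  exact (Finset.sum_le_sum hterm).trans (hsum.trans hfin)

end

end Pool.Agent.Lib.L8.HS
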