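import Pool.Agent.Lib.L8.HS.J8
import Pool.Agent.Lib.L8.HS.A7

/-!
# HS, J9 (helper29): the sum over a Heisenberg letter, both levels
-/

namespace Pool.Agent.Lib.L8.HS

open NumberField IsDedekindDomain Pool.Agent.Lib.L1S Pool.Agent.Lib.L8.QF Pool.Agent.Lib.H29F

noncomputable section

set_option linter.unusedSectionVars false

variable {K E L : Type} [Field K] [NumberField K] [Field E] [NumberField E] [Field L] [NumberField L] [Algebra K L] [Algebra E L]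

/-- Representatives of the contents in `T`. -/
theorem j9_reps {N : Type} (R : N → N → Prop) (hR : Equivalence R) (T : Finset N) : ∃ rep : N → N, (∀ u ∈ T, rep u ∈ T ∧ R u (rep u)) ∧ ∀ u u', R u u' → rep u = rep u' := by
  classical
  let S : Setoid N := ⟨R, hR⟩
  have h : ∀ q : Quotient S, ∃ v : N, (∃ u ∈ T, Quotient.mk S u = q) → v ∈ T ∧ Quotient.mk S v = q := by
    intro q
    by_cases hq : ∃ u ∈ T, Quotient.mk S u = q
    · obtain ⟨u, hu, e⟩ := hq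
      exact ⟨u, fun _ => ⟨hu, e⟩⟩
    · exact ⟨Quotient.out q, fun h => absurd h hq⟩
  choose ρ hρ using h
  refine ⟨fun u => ρ (Quotient.mk S u), fun u hu => ?_, fun u u' huu => ?_⟩
  · have h1 := hρ (Quotient.mk S u) ⟨u, hu, rfl⟩
    exact ⟨h1.1, Quotient.exact h1.2.symm⟩
  · show ρ (Quotient.mk S u) = ρ (Quotient.mk S u')
    rw [Quotient.sound (s := S) huu]

/-- The local inequality. -/
theorem j9_loc {ν A D m μ t : ℝ} (hν : 0 < ν) (hν1 : ν ≤ 1) (hA : 0 < A) (hD : 0 < D) (hm : 0 < m) (hμ : 1 ≤ μ) (ht : 0 ≤ t) :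
    (ν ^ 2 * A * D) ^ t * (A * m) ^ t * D ^ (-((1 + μ) * t)) ≤ A ^ (2 * t) * ν ^ (3 * t) * ((ν * m) * (ν ^ 2 * D) ^ (-μ)) ^ t := by
  have e1 : (ν ^ 2 * A * D) ^ t * (A * m) ^ t * D ^ (-((1 + μ) * t)) = (A ^ 2 * m * D ^ (-μ) * ν ^ 2) ^ t := by
    have h1 : D ^ (-((1 + μ) * t)) = (D ^ (-(1 + μ))) ^ t := by
      rw [← Real.rpow_mul hD.le]
      congr 1
      ring
    rw [h1, ← Real.mul_rpow (by positivity) (by positivity), ← Real.mul_rpow (by positivity) (by positivity)]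
    congr 1
    have h2 : D ^ (-(1 + μ)) = D⁻¹ * D ^ (-μ) := by
      rw [neg_add, Real.rpow_add hD, Real.rpow_neg_one]
    rw [h2]
    field_simp
  have e2 : A ^ (2 * t) * ν ^ (3 * t) * ((ν * m) * (ν ^ 2 * D) ^ (-μ)) ^ t = (A ^ 2 * m * D ^ (-μ) * ν ^ (4 - 2 * μ)) ^ t := by
    have h1 : A ^ (2 * t) = (A ^ 2) ^ t := by
      rw [Real.rpow_mul hA.le, Real.rpow_two]
    have h3 : ν ^ (3 * t) = (ν ^ (3 : ℝ)) ^ t := by
      rw [Real.rpow_mul hν.le]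
    rw [h1, h3, ← Real.mul_rpow (by positivity) (by positivity), ← Real.mul_rpow (by positivity) (by positivity)]
    congr 1
    have h4 : (ν ^ 2 * D) ^ (-μ) = ν ^ (-(2 * μ)) * D ^ (-μ) := by
      rw [Real.mul_rpow (by positivity) hD.le, ← Real.rpow_natCast, ← Real.rpow_mul hν.le]
      congr 2
      push_cast
      ring
    have h5 : ν ^ (4 - 2 * μ) = ν ^ (3 : ℝ) * ν * ν ^ (-(2 * μ)) := by
      have h6 : (4 - 2 * μ : ℝ) = 3 + 1 + -(2 * μ) := by ring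
      rw [h6, Real.rpow_add hν, Real.rpow_add hν, Real.rpow_one]
    rw [h4, h5]
    ring
  rw [e1, e2]
  refine Real.rpow_le_rpow (by positivity) (mul_le_mul_of_nonneg_left ?_ (by positivity)) ht
  rw [← Real.rpow_two]
  exact Real.rpow_le_rpow_of_exponent_ge hν hν1 (by linarith)

/-- **The sum over a Heisenberg letter**, both levels. -/
theorem heis_sum3 [IsGalois K L] [IsGalois E L] (hKE : Module.finrank K L = 2 * Module.finrank E L) {θ : L} (hθ : θ ≠ 0) {ε : ℝ} (hε : 0 < ε) : ∃ Z : ℝ, 1 ≤ Z ∧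
    ∀ (N : Type) [Group N] (𝔫 : Ideal (𝓞 K)) (σ₀ : L ≃ₐ[K] L) (r : N → E) (s : N → K) (B : Subgroup N) (rB : AddSubgroup E) (sB : AddSubgroup K) (T : Finset N) (X : Set N) (a₁ a₂ : HeightOneSpectrum (𝓞 L) → ℝ) (d₁ d₂ : HeightOneSpectrum (𝓞 L) → N → ℝ),
    HJ K 𝔫 σ₀ θ r s B rB sB T X a₁ a₂ d₁ d₂ → ∀ μ : ℝ, 1 + ε ≤ μ →
    ∑ u ∈ T, (∏ᶠ w, d₁ w u * d₂ w u) ^ (-((1 + μ) / Module.finrank K L)) ≤
      Z * (Ideal.absNorm 𝔫 : ℝ) ^ (-3 : ℝ) * (∏ᶠ w, a₁ w * a₂ w) ^ ((2 : ℝ) / Module.finrank K L) * agi (OK E) rB * agi (OK K) sB := by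
  classical
  obtain ⟨C, hC, hcb⟩ := class_bound3 (K := K) (E := E) (L := L) hKE hθ
  obtain ⟨Z, hZ, heu⟩ := euler K L hε (show (0 : ℝ) < 1 by norm_num)
  refine ⟨C * Z, one_le_mul_of_one_le_of_one_le hC hZ, ?_⟩
  intro N _ 𝔫 σ₀ r s B rB sB T X a₁ a₂ d₁ d₂ h μ hμ
  have hfin : (0 : ℝ) < Module.finrank K L := by exact_mod_cast Module.finrank_pos
  set t : ℝ := (Module.finrank K L : ℝ)⁻¹ with ht
  have ht0 : 0 < t := inv_pos.2 hfin
  have pa₁ : ∀ w, 0 < a₁ w := fun w => val_pos (h.a₁_val w)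
  have pa₂ : ∀ w, 0 < a₂ w := fun w => val_pos (h.a₂_val w)
  have pd₁ : ∀ w u, 0 < d₁ w u := fun w u => val_pos (h.d₁_val w u)
  have pd₂ : ∀ w u, 0 < d₂ w u := fun w u => val_pos (h.d₂_val w u)
  have pn : ∀ w, 0 < nu L 𝔫 w := fun w => nu_pos 𝔫 w
  have fn := nu_fin (L := L) h.n0
  have hEq : Equivalence (Eqc d₁ d₂ : N → N → Prop) := ⟨fun u w => ⟨rfl, rfl⟩, fun h w => ⟨(h w).1.symm, (h w).2.symm⟩, fun h h' w => ⟨(h w).1.trans (h' w).1, (h w).2.trans (h' w).2⟩⟩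
  obtain ⟨rep, hrep, hrep'⟩ := j9_reps (Eqc d₁ d₂) hEq T
  set R : Finset N := T.image rep with hRdef
  have hRT : ∀ q ∈ R, q ∈ T := by
    intro q hq
    obtain ⟨u, hu, rfl⟩ := Finset.mem_image.1 hq
    exact (hrep u hu).1
  set F : N → ℝ := fun u => (∏ᶠ w, d₁ w u * d₂ w u) ^ (-((1 + μ) / Module.finrank K L)) with hF
  have hFe : ∀ u u', Eqc d₁ d₂ u u' → F u = F u' := by
    intro u u' huu
    show (∏ᶠ w, d₁ w u * d₂ w u) ^ _ = (∏ᶠ w, d₁ w u' * d₂ w u') ^ _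
    rw [finprod_congr fun w => by rw [(huu w).1, (huu w).2]]
  have hF0 : ∀ u, 0 ≤ F u := fun u => Real.rpow_nonneg (finprod_nonneg fun w => (mul_pos (pd₁ w u) (pd₂ w u)).le) _
  set G1 : N → ℝ := fun u => (∏ᶠ w, nu L 𝔫 w ^ 2 * (a₁ w * a₂ w) * (d₁ w u * d₂ w u)) ^ t with hG1
  set G2 : N → ℝ := fun u => (∏ᶠ w, a₁ w * a₂ w * min (d₁ w u) (d₂ w u)) ^ t with hG2
  have a1 : 0 ≤ agi (OK E) rB := div_nonneg (Nat.cast_nonneg _) (Nat.cast_nonneg _)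
  have a2 : 0 ≤ agi (OK K) sB := div_nonneg (Nat.cast_nonneg _) (Nat.cast_nonneg _)
  have s1 : ∑ u ∈ T, F u = ∑ q ∈ R, ((T.filter fun u => rep u = q).card : ℝ) * F q := by
    rw [← Finset.sum_fiberwise_of_maps_to (fun u hu => Finset.mem_image_of_mem rep hu)]
    refine Finset.sum_congr rfl fun q _ => ?_
    rw [Finset.sum_congr rfl (g := fun _ => F q) fun u hu => ?_, Finset.sum_const, nsmul_eq_mul]
    rw [Finset.mem_filter] at hu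
    rw [← hu.2]
    exact hFe _ _ (hrep u hu.1).2
  have s2 : ∀ q ∈ R, ((T.filter fun u => rep u = q).card : ℝ) ≤ C * agi (OK E) rB * agi (OK K) sB * G1 q * G2 q := by
    intro q hq
    have h' : HJ K 𝔫 σ₀ θ r s B rB sB (T.filter fun u => rep u = q) X a₁ a₂ d₁ d₂ :=
      { h with
        inc := fun u hu u' hu' => h.inc u (Finset.mem_filter.1 hu).1 u' (Finset.mem_filter.1 hu').1
        TX := fun u hu => h.TX u (Finset.mem_filter.1 hu).1 }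
    refine hcb N 𝔫 σ₀ r s B rB sB _ X a₁ a₂ d₁ d₂ h' q (h.TX q (hRT q hq)) fun u hu => ?_
    rw [Finset.mem_filter] at hu
    rw [← hu.2]
    exact (hrep u hu.1).2
  -- the new contents
  set e₁ : HeightOneSpectrum (𝓞 L) → N → ℝ := fun w u => if u ∈ X then nu L 𝔫 w * d₁ w u else 1 with he₁
  set e₂ : HeightOneSpectrum (𝓞 L) → N → ℝ := fun w u => if u ∈ X then nu L 𝔫 w * d₂ w u else 1 with he₂
  have ve : ∀ (d : HeightOneSpectrum (𝓞 L) → N → ℝ), (∀ w u, ∃ y : L, y ≠ 0 ∧ d w u = av w y) → ∀ w u, ∃ y : L, y ≠ 0 ∧ (if u ∈ X then nu L 𝔫 w * d w u else 1) = av w y := by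
    intro d hd w u
    by_cases hu : u ∈ X
    · obtain ⟨y, hy, e⟩ := hd w u
      obtain ⟨y', hy', e'⟩ := nv_val (up L 𝔫) w
      refine ⟨y' * y, mul_ne_zero hy' hy, ?_⟩
      rw [if_pos hu, map_mul, e, ← e']
    · exact ⟨1, one_ne_zero, by rw [if_neg hu, map_one]⟩
  have fe : ∀ (d : HeightOneSpectrum (𝓞 L) → N → ℝ), (∀ u, {w | d w u ≠ 1}.Finite) → ∀ u, {w | (if u ∈ X then nu L 𝔫 w * d w u else 1) ≠ 1}.Finite := by
    intro d hd u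
    by_cases hu : u ∈ X
    · simp only [if_pos hu]
      exact mul_fin fn (hd u)
    · simp only [if_neg hu, ne_eq, not_true_eq_false]
      exact Set.finite_empty
  have hsum := heu μ hμ (⊤ : Ideal (𝓞 K)) top_ne_bot N R e₁ e₂ (ve d₁ h.d₁_val) (ve d₂ h.d₂_val)
    (fun w u => by
      show 1 ≤ if u ∈ X then nu L 𝔫 w * d₁ w u else 1
      split_ifs with hu
      · exact h.lev₁ u hu w
      · exact le_rfl)
    (fun w u => by
      show 1 ≤ if u ∈ X then nu L 𝔫 w * d₂ w u else 1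
      split_ifs with hu
      · exact h.lev₂ u hu w
      · exact le_rfl)
    (fe d₁ h.d₁_fin) (fe d₂ h.d₂_fin)
    (fun w w' hw => by
      have hn := nu_below (L := L) 𝔫 hw
      rcases h.eqv w w' hw with h1 | h1
      · left
        intro u
        show (if u ∈ X then nu L 𝔫 w' * d₁ w' u else 1) = (if u ∈ X then nu L 𝔫 w * d₁ w u else 1) ∧ (if u ∈ X then nu L 𝔫 w' * d₂ w' u else 1) = (if u ∈ X then nu L 𝔫 w * d₂ w u else 1)
        rw [(h1 u).1, (h1 u).2, hn]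
        exact ⟨rfl, rfl⟩
      · right
        intro u
        show (if u ∈ X then nu L 𝔫 w' * d₁ w' u else 1) = (if u ∈ X then nu L 𝔫 w * d₂ w u else 1) ∧ (if u ∈ X then nu L 𝔫 w' * d₂ w' u else 1) = (if u ∈ X then nu L 𝔫 w * d₁ w u else 1)
        rw [(h1 u).1, (h1 u).2, hn]
        exact ⟨rfl, rfl⟩)
    (fun x hx y hy hxy => by
      obtain ⟨u, hu, rfl⟩ := Finset.mem_image.1 hx
      obtain ⟨u', hu', rfl⟩ := Finset.mem_image.1 hy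
      have hxX := h.TX _ (hrep u hu).1
      have hyX := h.TX _ (hrep u' hu').1
      have h1 : Eqc d₁ d₂ (rep u) (rep u') := by
        intro w
        have h2 : (if rep u ∈ X then nu L 𝔫 w * d₁ w (rep u) else 1) = (if rep u' ∈ X then nu L 𝔫 w * d₁ w (rep u') else 1) := (hxy w).1
        have h3 : (if rep u ∈ X then nu L 𝔫 w * d₂ w (rep u) else 1) = (if rep u' ∈ X then nu L 𝔫 w * d₂ w (rep u') else 1) := (hxy w).2
        rw [if_pos hxX, if_pos hyX] at h2 h3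
        exact ⟨mul_left_cancel₀ (pn w).ne' h2, mul_left_cancel₀ (pn w).ne' h3⟩
      exact hrep' u u' (hEq.trans (hrep u hu).2 (hEq.trans h1 (hEq.symm (hrep u' hu').2))))
  -- the estimate for one class of contents
  have s3 : ∀ q ∈ R, G1 q * G2 q * F q ≤ (Ideal.absNorm 𝔫 : ℝ) ^ (-3 : ℝ) * (∏ᶠ w, a₁ w * a₂ w) ^ ((2 : ℝ) / Module.finrank K L) *
      (∏ᶠ w, nu L (⊤ : Ideal (𝓞 K)) w * min (min (e₁ w q) (e₂ w q)) (nu L (⊤ : Ideal (𝓞 K)) w * (e₁ w q * e₂ w q)) * (e₁ w q * e₂ w q) ^ (-μ)) ^ ((Module.finrank K L : ℝ)⁻¹) := by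
    intro q hq
    have hqX : q ∈ X := h.TX q (hRT q hq)
    have g1 : ∀ w, nu L (⊤ : Ideal (𝓞 K)) w * min (min (e₁ w q) (e₂ w q)) (nu L (⊤ : Ideal (𝓞 K)) w * (e₁ w q * e₂ w q)) * (e₁ w q * e₂ w q) ^ (-μ) =
        (nu L 𝔫 w * min (d₁ w q) (d₂ w q)) * (nu L 𝔫 w ^ 2 * (d₁ w q * d₂ w q)) ^ (-μ) := by
      intro w
      have e1 : e₁ w q = nu L 𝔫 w * d₁ w q := if_pos hqX
      have e2 : e₂ w q = nu L 𝔫 w * d₂ w q := if_pos hqX
      have l1 := h.lev₁ q hqX w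
      have l2 := h.lev₂ q hqX w
      rw [nu_top, one_mul, one_mul, e1, e2]
      have e3 : min (min (nu L 𝔫 w * d₁ w q) (nu L 𝔫 w * d₂ w q)) (nu L 𝔫 w * d₁ w q * (nu L 𝔫 w * d₂ w q)) = nu L 𝔫 w * min (d₁ w q) (d₂ w q) := by
        rw [← mul_min_of_nonneg _ _ (pn w).le, min_eq_left]
        have h5 : nu L 𝔫 w * min (d₁ w q) (d₂ w q) ≤ nu L 𝔫 w * d₁ w q := mul_le_mul_of_nonneg_left (min_le_left _ _) (pn w).le
        exact h5.trans (le_mul_of_one_le_right (mul_pos (pn w) (pd₁ w q)).le l2)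
      rw [e3]
      congr 2
      ring
    rw [finprod_congr g1]
    set S : Set (HeightOneSpectrum (𝓞 L)) := {w | nu L 𝔫 w ≠ 1} ∪ ({w | a₁ w ≠ 1} ∪ {w | a₂ w ≠ 1}) ∪ ({w | d₁ w q ≠ 1} ∪ {w | d₂ w q ≠ 1}) with hS
    have hSf : S.Finite := (fn.union (h.a₁_fin.union h.a₂_fin)).union ((h.d₁_fin q).union (h.d₂_fin q))
    have hS1 : ∀ w, w ∉ S → nu L 𝔫 w = 1 ∧ a₁ w = 1 ∧ a₂ w = 1 ∧ d₁ w q = 1 ∧ d₂ w q = 1 := by
      intro w hw
      simp only [hS, Set.mem_union, Set.mem_ofPred_eq, not_or, not_not] at hw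
      exact ⟨hw.1.1, hw.1.2.1, hw.1.2.2, hw.2.1, hw.2.2⟩
    have hp : ∀ f : HeightOneSpectrum (𝓞 L) → ℝ, (∀ w, w ∉ S → f w = 1) → ∏ᶠ w, f w = ∏ w ∈ hSf.toFinset, f w := fun f hf =>
      finprod_eq_prod_of_mulSupport_subset f fun w hw => by
        rw [Finset.mem_coe, hSf.mem_toFinset]
        by_contra h1
        exact hw (hf w h1)
    have p1 : G1 q = (∏ w ∈ hSf.toFinset, nu L 𝔫 w ^ 2 * (a₁ w * a₂ w) * (d₁ w q * d₂ w q)) ^ t := by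
      show (∏ᶠ w, nu L 𝔫 w ^ 2 * (a₁ w * a₂ w) * (d₁ w q * d₂ w q)) ^ t = _
      rw [hp _ fun w hw => by
        obtain ⟨h1, h2, h3, h4, h5⟩ := hS1 w hw
        rw [h1, h2, h3, h4, h5]
        norm_num]
    have p2 : G2 q = (∏ w ∈ hSf.toFinset, a₁ w * a₂ w * min (d₁ w q) (d₂ w q)) ^ t := by
      show (∏ᶠ w, a₁ w * a₂ w * min (d₁ w q) (d₂ w q)) ^ t = _
      rw [hp _ fun w hw => by
        obtain ⟨h1, h2, h3, h4, h5⟩ := hS1 w hw
        rw [h2, h3, h4, h5]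
        norm_num]
    have p3 : F q = (∏ w ∈ hSf.toFinset, d₁ w q * d₂ w q) ^ (-((1 + μ) * t)) := by
      show (∏ᶠ w, d₁ w q * d₂ w q) ^ (-((1 + μ) / Module.finrank K L)) = _
      rw [hp _ fun w hw => by
        obtain ⟨h1, h2, h3, h4, h5⟩ := hS1 w hw
        rw [h4, h5]
        norm_num, div_eq_mul_inv]
    have p4 : (∏ᶠ w, a₁ w * a₂ w) ^ ((2 : ℝ) / Module.finrank K L) = (∏ w ∈ hSf.toFinset, a₁ w * a₂ w) ^ (2 * t) := by
      rw [hp _ fun w hw => by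
        obtain ⟨h1, h2, h3, h4, h5⟩ := hS1 w hw
        rw [h2, h3]
        norm_num, div_eq_mul_inv]
    have p5 : (Ideal.absNorm 𝔫 : ℝ) ^ (-3 : ℝ) = (∏ w ∈ hSf.toFinset, nu L 𝔫 w) ^ (3 * t) := by
      rw [← hp _ fun w hw => (hS1 w hw).1, nu_prod h.n0]
      have hN0 : (0 : ℝ) ≤ (Ideal.absNorm 𝔫 : ℝ) := Nat.cast_nonneg _
      rw [Real.inv_rpow (by positivity), ← Real.rpow_natCast, ← Real.rpow_mul hN0, ← Real.rpow_neg hN0]
      congr 1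
      rw [ht]
      field_simp
    have p6 : (∏ᶠ w, (nu L 𝔫 w * min (d₁ w q) (d₂ w q)) * (nu L 𝔫 w ^ 2 * (d₁ w q * d₂ w q)) ^ (-μ)) ^ ((Module.finrank K L : ℝ)⁻¹) =
        (∏ w ∈ hSf.toFinset, (nu L 𝔫 w * min (d₁ w q) (d₂ w q)) * (nu L 𝔫 w ^ 2 * (d₁ w q * d₂ w q)) ^ (-μ)) ^ t := by
      rw [hp _ fun w hw => by
        obtain ⟨h1, h2, h3, h4, h5⟩ := hS1 w hw
        rw [h1, h4, h5]
        norm_num]
    have q1 : ∀ w, 0 ≤ nu L 𝔫 w ^ 2 * (a₁ w * a₂ w) * (d₁ w q * d₂ w q) := fun w => by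
      have := pn w; have := pa₁ w; have := pa₂ w; have := pd₁ w q; have := pd₂ w q
      positivity
    have q2 : ∀ w, 0 ≤ a₁ w * a₂ w * min (d₁ w q) (d₂ w q) := fun w => (mul_pos (mul_pos (pa₁ w) (pa₂ w)) (lt_min (pd₁ w q) (pd₂ w q))).le
    have q3 : ∀ w, 0 ≤ d₁ w q * d₂ w q := fun w => (mul_pos (pd₁ w q) (pd₂ w q)).le
    have q4 : ∀ w, 0 ≤ a₁ w * a₂ w := fun w => (mul_pos (pa₁ w) (pa₂ w)).le
    have q6 : ∀ w, 0 ≤ (nu L 𝔫 w * min (d₁ w q) (d₂ w q)) * (nu L 𝔫 w ^ 2 * (d₁ w q * d₂ w q)) ^ (-μ) := fun w =>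
      mul_nonneg (mul_pos (pn w) (lt_min (pd₁ w q) (pd₂ w q))).le (Real.rpow_nonneg (mul_nonneg (pow_pos (pn w) 2).le (q3 w)) _)
    rw [p1, p2, p3, p4, p5, p6, ← Real.finsetProd_rpow _ _ fun w _ => q1 w, ← Real.finsetProd_rpow _ _ fun w _ => q2 w, ← Real.finsetProd_rpow _ _ fun w _ => q3 w, ← Real.finsetProd_rpow _ _ fun w _ => q4 w,
      ← Real.finsetProd_rpow _ _ fun w _ => (pn w).le, ← Real.finsetProd_rpow _ _ fun w _ => q6 w, ← Finset.prod_mul_distrib, ← Finset.prod_mul_distrib, ← Finset.prod_mul_distrib, ← Finset.prod_mul_distrib]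
    refine Finset.prod_le_prod (fun w _ => mul_nonneg (mul_nonneg (Real.rpow_nonneg (q1 w) _) (Real.rpow_nonneg (q2 w) _)) (Real.rpow_nonneg (q3 w) _)) fun w _ => ?_
    have := j9_loc (pn w) (nu_le 𝔫 w) (mul_pos (pa₁ w) (pa₂ w)) (mul_pos (pd₁ w q) (pd₂ w q)) (lt_min (pd₁ w q) (pd₂ w q)) (show 1 ≤ μ by linarith) ht0.le
    rw [mul_comm (nu L 𝔫 w ^ (3 * t))]
    exact this
  have hAa : 0 ≤ C * agi (OK E) rB * agi (OK K) sB := mul_nonneg (mul_nonneg (by linarith) a1) a2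
  rw [s1]
  have s4 : ∀ q ∈ R, ((T.filter fun u => rep u = q).card : ℝ) * F q ≤ (C * agi (OK E) rB * agi (OK K) sB) * ((Ideal.absNorm 𝔫 : ℝ) ^ (-3 : ℝ) * (∏ᶠ w, a₁ w * a₂ w) ^ ((2 : ℝ) / Module.finrank K L) *
      (∏ᶠ w, nu L (⊤ : Ideal (𝓞 K)) w * min (min (e₁ w q) (e₂ w q)) (nu L (⊤ : Ideal (𝓞 K)) w * (e₁ w q * e₂ w q)) * (e₁ w q * e₂ w q) ^ (-μ)) ^ ((Module.finrank K L : ℝ)⁻¹)) := by
    intro q hq
    refine (mul_le_mul_of_nonneg_right (s2 q hq) (hF0 q)).trans ?_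
    have e : C * agi (OK E) rB * agi (OK K) sB * G1 q * G2 q * F q = (C * agi (OK E) rB * agi (OK K) sB) * (G1 q * G2 q * F q) := by ring
    rw [e]
    exact mul_le_mul_of_nonneg_left (s3 q hq) hAa
  refine (Finset.sum_le_sum s4).trans ?_
  rw [← Finset.mul_sum, ← Finset.mul_sum]
  have htop : (Ideal.absNorm (⊤ : Ideal (𝓞 K)) : ℝ) ^ ((1 : ℝ) - 2) = 1 := by
    rw [Ideal.absNorm_top, Nat.cast_one, Real.one_rpow]
  rw [htop, mul_one] at hsum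
  have hN0 : (0 : ℝ) ≤ (Ideal.absNorm 𝔫 : ℝ) := Nat.cast_nonneg _
  have hP0 : 0 ≤ (Ideal.absNorm 𝔫 : ℝ) ^ (-3 : ℝ) * (∏ᶠ w, a₁ w * a₂ w) ^ ((2 : ℝ) / Module.finrank K L) :=
    mul_nonneg (Real.rpow_nonneg hN0 _) (Real.rpow_nonneg (finprod_nonneg fun w => (mul_pos (pa₁ w) (pa₂ w)).le) _)
  refine (mul_le_mul_of_nonneg_left (mul_le_mul_of_nonneg_left hsum hP0) hAa).trans (le_of_eq ?_)
  ring

end

end Pool.Agent.Lib.L8.HS
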