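import Pool.Agent.Lib.L8.HS.B9
import Pool.Agent.Lib.L8.HS.J5
import Pool.Agent.Lib.L8.HS.J9
import Pool.Agent.Lib.H29Q.GH
import Pool.Agent.Lib.L8.QF.RO3

/-!
# HS, J10 (helper29): the rank one estimate with both levels for a Heisenberg letter
-/

namespace Pool.Agent.Lib.L8.HS

open Matrix NumberField IsDedekindDomain Pool.Agent.Lib.H89N Pool.Agent.Lib.L1S Pool.Agent.Lib.L8.QF Pool.Agent.Lib.H29Q
open Pool.Agent.Lib.L8.FI (fx fn fh fc)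
open Pool.Agent.Lib.L8.FL (av aI Gv Kv Ah TK tv PJ G1 Chi nW wW Uw RedW fe eW mu PosW)
open Pool.Agent.Lib.H29F (OK gi agi)

noncomputable section

set_option linter.unusedSectionVars false

variable {ι M N : Type} [Fintype ι] [DecidableEq ι] [AddCommGroup M] [Module ℚ M] [AddCommGroup N] [Module ℚ N]
  {P : RootPairing ι ℚ M N} [P.IsCrystallographic] [P.IsReduced] [P.IsIrreducible] [P.IsRootSystem] {b : P.Base}
  {K L : Type} [Field K] [NumberField K] [Field L] [NumberField L] [Algebra K L] {Q : QS b K L} {i j : b.support}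

/-- The letter group is a Heisenberg letter, both levels. -/
theorem hj_q [IsGalois K L] (h : AdQ Q i j) {θ : L} (hθ : IsTh Q i θ) {σ₀ : L ≃ₐ[K] L} (hσ : σ₀ ∉ StQ Q i) {𝔫 : Ideal (𝓞 K)} (h𝔫 : 𝔫 ≠ ⊥) {z : GK b L} (hzF : z ∈ HF Q) {B : Subgroup ↥(Xq Q i)} (h1 : (AqI Q i).relIndex B ≠ 0) (h2 : B.relIndex (AqI Q i) ≠ 0)
    (hB : ∀ β ∈ B, ∀ u : ↥(Xq Q i), ∃ v ∈ HU b L, ∃ γ ∈ G1 b (up L 𝔫), nq Q i * ((u : GK b L) * (β : GK b L)) * z = v * (nq Q i * (u : GK b L) * z) * γ)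
    {T : Finset ↥(Xq Q i)} (hT : ∀ u ∈ T, ∀ u' ∈ T, u⁻¹ * u' ∈ B → u = u') (hTX : ∀ u ∈ T, u ∈ XL Q i 𝔫 z) (hzc : ∀ k ∈ orb Q i, Chi b (up L 𝔫) k z) :
    HJ K 𝔫 σ₀ θ (rq Q i) (tq Q i j θ) B (rI (cor_q h hθ) B) (sI (cor_q h hθ) B) T (XL Q i 𝔫 z) (fun w => Ah b w z i) (fun w => Ah b w z j) (c₁ Q i j z) (c₂ Q i j z) := by
  have hi : i ∈ orb Q i := by rw [h.orb]; simp
  have hj : j ∈ orb Q i := by rw [h.orb]; simp
  have hco : ∀ u : ↥(Xq Q i), nq Q i * (u : GK b L) * z = hz i j z (rq Q i u : L) (so b i j (u : GK b L)) (σ₀ (rq Q i u : L)) := by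
    intro u
    conv_lhs => rw [xq_coord h hσ u]
    exact nq_uO h z _ _ _
  have hnu : ∀ w : HeightOneSpectrum (𝓞 L), aI w (up L 𝔫) = nu L 𝔫 w := fun w => H29F.aI_eq w _
  refine { hh_q h hθ hσ h𝔫 hzF h1 h2 hB hT hTX with lev₁ := ?_, lev₂ := ?_, est₁' := ?_, est₂' := ?_ }
  · intro u hu w
    have hu' : Chi b (up L 𝔫) i (nq Q i * (u : GK b L) * z) := hu i hi
    rw [hco] at hu'
    have := j5_lev' w h.adj z _ _ _ (hzc i hi) hu'
    rw [hnu] at this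
    unfold c₁
    rw [hco]
    exact this
  · intro u hu w
    have hu' : Chi b (up L 𝔫) j (nq Q i * (u : GK b L) * z) := hu j hj
    rw [hco] at hu'
    have := j5_lev w h.adj z _ _ _ (hzc j hj) hu'
    rw [hnu] at this
    unfold c₂
    rw [hco]
    exact this
  · intro u hu u' hu' he w
    have c1 : Chi b (up L 𝔫) j (nq Q i * (u : GK b L) * z) := hu j hj
    have c2 : Chi b (up L 𝔫) j (nq Q i * (u' : GK b L) * z) := hu' j hj
    have e2 : c₂ Q i j z w u = c₂ Q i j z w u' := (he w).2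
    rw [hco] at c1 c2
    have key := j5_C1 w h.adj z _ _ _ _ _ _ (hzc j hj) c2 c1
    rw [← hco, ← hco] at key
    change _ ≤ aI w (up L 𝔫) * (Ah b w z i * max (c₂ Q i j z w u') (c₂ Q i j z w u)) at key
    rw [e2, max_self, ← e2, hnu] at key
    show av w (algebraMap (FO Q i) L (rq Q i u' - rq Q i u)) ≤ _
    rw [map_sub]
    exact key
  · intro u hu u' hu' he w
    have c1 : Chi b (up L 𝔫) i (nq Q i * (u : GK b L) * z) := hu i hi
    have c2 : Chi b (up L 𝔫) i (nq Q i * (u' : GK b L) * z) := hu' i hi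
    have e2 : c₁ Q i j z w u = c₁ Q i j z w u' := (he w).1
    rw [hco] at c1 c2
    have key := j5_C1' w h.adj z _ _ _ _ _ _ (hzc i hi) c2 c1
    rw [← hco, ← hco] at key
    change _ ≤ aI w (up L 𝔫) * (Ah b w z j * max (c₁ Q i j z w u') (c₁ Q i j z w u)) at key
    rw [e2, max_self, ← e2, hnu] at key
    show av w (σ₀ (algebraMap (FO Q i) L (rq Q i u' - rq Q i u))) ≤ _
    rw [map_sub, map_sub]
    exact key

theorem j10_fpos {X : Type} {F : X → ℝ} (h0 : ∀ w, 0 < F w) : 0 < ∏ᶠ w, F w :=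
  finprod_induction (fun x : ℝ => 0 < x) one_pos (fun _ _ => mul_pos) h0

/-- The values of `f_e ^ (1/f)` on the letter. -/
theorem j10_fe [IsGalois K L] (h : AdQ Q i j) {e : b.support → ℝ} (hm : mu b e j = mu b e i) (z : GK b L) (u : ↥(Xq Q i)) :
    fe b e (nq Q i * (u : GK b L) * z) ^ df K L = fe b (eW b e (ow Q i)) z ^ df K L * ((∏ᶠ w : HeightOneSpectrum (𝓞 L), Ah b w z i * Ah b w z j) ^ ((2 : ℝ) / Module.finrank K L))⁻¹ *
      (∏ᶠ w : HeightOneSpectrum (𝓞 L), c₁ Q i j z w u * c₂ Q i j z w u) ^ (-((1 + mu b e i) / Module.finrank K L)) := by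
  obtain ⟨σ₀, hσ⟩ := h.exs
  have hco : nq Q i * (u : GK b L) * z = hz i j z (rq Q i u : L) (so b i j (u : GK b L)) (σ₀ (rq Q i u : L)) := by
    conv_lhs => rw [xq_coord h hσ u]
    exact nq_uO h z _ _ _
  have h1 := fe_hz h.adj hm z (rq Q i u : L) (so b i j (u : GK b L)) (σ₀ (rq Q i u : L))
  rw [← hco] at h1
  have hA : 0 < ∏ᶠ w : HeightOneSpectrum (𝓞 L), Ah b w z i * Ah b w z j := j10_fpos fun w => mul_pos (FI.Ah_pos b w z i) (FI.Ah_pos b w z j)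
  have hD : 0 < ∏ᶠ w : HeightOneSpectrum (𝓞 L), dd w j i z (nq Q i * (u : GK b L) * z) * dd w i j z (nq Q i * (u : GK b L) * z) := by
    refine j10_fpos fun w => mul_pos ?_ ?_
    · rw [hco]
      exact one_pos.trans_le (dd_i_one w h.adj z _ _ _)
    · rw [hco]
      exact one_pos.trans_le (dd_j_one w h.adj z _ _ _)
  have hf : 0 < fe b (eW b e [i, j, i]) z := FI.fe_pos b _ z
  rw [h1, h.ow]
  have e1 : (∏ᶠ w : HeightOneSpectrum (𝓞 L), c₁ Q i j z w u * c₂ Q i j z w u) = ∏ᶠ w : HeightOneSpectrum (𝓞 L), dd w j i z (nq Q i * (u : GK b L) * z) * dd w i j z (nq Q i * (u : GK b L) * z) := rfl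
  rw [e1, Real.mul_rpow (mul_pos hf (Real.rpow_pos_of_pos hA _)).le (Real.rpow_pos_of_pos hD _).le, Real.mul_rpow hf.le (Real.rpow_pos_of_pos hA _).le, ← Real.rpow_mul hA.le, ← Real.rpow_mul hD.le, ← Real.rpow_neg hA.le]
  unfold df
  congr 2
  · congr 1
    ring
  · ring

/-- **The rank one estimate with both levels for the letter of an adjacent pair.** -/
theorem rankQB_adj (Q : QS b K L) [IsGalois K L] {i : b.support} (hO : ¬H29Q.Orth Q i) {κ : ℝ} (hκ : 1 < κ) {e : b.support → ℝ} (he : InvE Q e) (hP : PosW b κ e (ow Q i)) {δ : ℝ} (hδ : 0 ≤ δ) :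
    ∃ Z : ℝ, 1 ≤ Z ∧ RankQB Q i e δ 3 Z := by
  classical
  obtain ⟨j, h⟩ := adQ_ex (Q := Q) (i := i) (not_not.1 hO)
  obtain ⟨θ, hθ⟩ := th_ex h
  obtain ⟨σ₀, hσ⟩ := h.exs
  have hfin : FiniteDimensional K L := Module.Finite.of_restrictScalars_finite ℚ K L
  have hKE : Module.finrank K L = 2 * Module.finrank (FO Q i) L := by
    have h1 := fo_card Q i
    rw [h.orb, Finset.card_pair h.adj.ne] at h1
    rw [← h1, mul_comm]
  have hji : (Q.da σ₀).sp i = j := h.sp_i hσ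
  have hm : mu b e j = mu b e i := by
    rw [← hji]
    exact L8.QF.mu_inv he σ₀ i
  have hμ : κ ≤ mu b e i := by
    rw [h.ow] at hP
    exact posW_mu hP
  obtain ⟨Z, hZ, key⟩ := heis_sum3 (K := K) (E := FO Q i) (L := L) hKE hθ.ne (ε := κ - 1) (by linarith)
  refine ⟨max 1 (Z * (rI (cor_q h hθ) (AqI Q i)).relIndex (OK (FO Q i))), le_max_left _ _, ?_⟩
  intro 𝔫 h𝔫 z hzF hzc 𝔞 hX h1 h2 hper R hR hinc hchi
  have hXm : (𝔞.subgroupOf (Xq Q i)).map (Xq Q i).subtype = 𝔞 := by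
    rw [Subgroup.subgroupOf_map_subtype, inf_of_le_left hX]
  have hAm : (AqI Q i).map (Xq Q i).subtype = Xq Q i ⊓ G1 b ⊤ := by
    unfold AqI
    rw [Subgroup.subgroupOf_map_subtype, inf_of_le_left inf_le_left]
  set B : Subgroup ↥(Xq Q i) := 𝔞.subgroupOf (Xq Q i) with hBd
  have i1 : (AqI Q i).relIndex B ≠ 0 := by
    rw [← Subgroup.relIndex_map_map_of_injective (f := (Xq Q i).subtype) _ _ (Xq Q i).subtype_injective, hAm, hXm]
    exact h2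
  have i2 : B.relIndex (AqI Q i) ≠ 0 := by
    rw [← Subgroup.relIndex_map_map_of_injective (f := (Xq Q i).subtype) _ _ (Xq Q i).subtype_injective, hAm, hXm]
    exact h1
  have i3 : gi (AqI Q i) B = gi (Xq Q i ⊓ G1 b ⊤) 𝔞 := by
    rw [← H29F.gi_map (Xq Q i).subtype (Xq Q i).subtype_injective, hAm, hXm]
  set T : Finset ↥(Xq Q i) := R.subtype (· ∈ Xq Q i) with hTd
  have hTm : ∀ u : ↥(Xq Q i), u ∈ T ↔ (u : GK b L) ∈ R := fun u => Finset.mem_subtype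
  have hHJ := hj_q h hθ hσ h𝔫 hzF (B := B) i1 i2 (fun β hβ u => hper β.1 hβ u.1 u.2) (T := T)
    (fun u hu u' hu' hb => by
      by_contra hne
      exact hinc u.1 ((hTm u).1 hu) u'.1 ((hTm u').1 hu') (fun e => hne (Subtype.ext e)) hb)
    (fun u hu k hk => hchi u.1 ((hTm u).1 hu) k hk) hzc
  have hs := key ↥(Xq Q i) 𝔫 σ₀ _ _ _ _ _ _ _ _ _ _ _ hHJ (mu b e i) (by linarith)
  obtain ⟨-, -, -, -, hidx⟩ := agi_cmp (cor_q h hθ) (A := AqI Q i) (B := B) (rI_le h hθ) (rI_fin h hθ) (sI_ge h hθ) (sI_fin h hθ) i1 i2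
  have hN1 : (1 : ℝ) ≤ (Ideal.absNorm 𝔫 : ℝ) := by
    rw [Nat.one_le_cast]
    exact Nat.pos_of_ne_zero fun h0 => h𝔫 (Ideal.absNorm_eq_zero_iff.1 h0)
  have hNδ : (Ideal.absNorm 𝔫 : ℝ) ^ (-3 : ℝ) ≤ (Ideal.absNorm 𝔫 : ℝ) ^ (δ - 3) := Real.rpow_le_rpow_of_exponent_le hN1 (by linarith)
  have hsum : ∑ r ∈ R, fe b e (nq Q i * r * z) ^ df K L = ∑ u ∈ T, fe b e (nq Q i * (u : GK b L) * z) ^ df K L :=
    (Finset.sum_subtype_of_mem (fun r => fe b e (nq Q i * r * z) ^ df K L) hR).symm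
  have hA : 0 < ∏ᶠ w : HeightOneSpectrum (𝓞 L), Ah b w z i * Ah b w z j := j10_fpos fun w => mul_pos (FI.Ah_pos b w z i) (FI.Ah_pos b w z j)
  set PA : ℝ := (∏ᶠ w : HeightOneSpectrum (𝓞 L), Ah b w z i * Ah b w z j) ^ ((2 : ℝ) / Module.finrank K L) with hPA
  have hPA0 : 0 < PA := Real.rpow_pos_of_pos hA _
  have hf0 : 0 < fe b (eW b e (ow Q i)) z ^ df K L := Real.rpow_pos_of_pos (FI.fe_pos b _ z) _
  have hN0 : 0 < (Ideal.absNorm 𝔫 : ℝ) ^ (-3 : ℝ) := Real.rpow_pos_of_pos (by linarith) _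
  have hg0 : 0 ≤ gi (Xq Q i ⊓ G1 b ⊤) 𝔞 := (H29F.gi_pos h2 h1).le
  have hZ0 : 0 < Z := by linarith
  rw [hsum, Finset.sum_congr rfl fun u _ => j10_fe h hm z u, ← Finset.mul_sum]
  rw [i3] at hidx
  calc fe b (eW b e (ow Q i)) z ^ df K L * PA⁻¹ * ∑ u ∈ T, (∏ᶠ w : HeightOneSpectrum (𝓞 L), c₁ Q i j z w u * c₂ Q i j z w u) ^ (-((1 + mu b e i) / Module.finrank K L))
      ≤ fe b (eW b e (ow Q i)) z ^ df K L * PA⁻¹ * (Z * (Ideal.absNorm 𝔫 : ℝ) ^ (-3 : ℝ) * PA * agi (OK (FO Q i)) (rI (cor_q h hθ) B) * agi (OK K) (sI (cor_q h hθ) B)) :=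
        mul_le_mul_of_nonneg_left hs (mul_pos hf0 (inv_pos.2 hPA0)).le
    _ = fe b (eW b e (ow Q i)) z ^ df K L * Z * (Ideal.absNorm 𝔫 : ℝ) ^ (-3 : ℝ) * (agi (OK (FO Q i)) (rI (cor_q h hθ) B) * agi (OK K) (sI (cor_q h hθ) B)) := by
        field_simp
    _ ≤ fe b (eW b e (ow Q i)) z ^ df K L * Z * (Ideal.absNorm 𝔫 : ℝ) ^ (-3 : ℝ) * ((rI (cor_q h hθ) (AqI Q i)).relIndex (OK (FO Q i)) * gi (Xq Q i ⊓ G1 b ⊤) 𝔞) :=
        mul_le_mul_of_nonneg_left hidx (mul_pos (mul_pos hf0 hZ0) hN0).le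
    _ = (Z * (rI (cor_q h hθ) (AqI Q i)).relIndex (OK (FO Q i))) * (Ideal.absNorm 𝔫 : ℝ) ^ (-3 : ℝ) * fe b (eW b e (ow Q i)) z ^ df K L * gi (Xq Q i ⊓ G1 b ⊤) 𝔞 := by ring
    _ ≤ max 1 (Z * (rI (cor_q h hθ) (AqI Q i)).relIndex (OK (FO Q i))) * (Ideal.absNorm 𝔫 : ℝ) ^ (δ - 3) * fe b (eW b e (ow Q i)) z ^ df K L * gi (Xq Q i ⊓ G1 b ⊤) 𝔞 := by
        refine mul_le_mul_of_nonneg_right (mul_le_mul_of_nonneg_right (mul_le_mul (le_max_right _ _) hNδ hN0.le (zero_le_one.trans (le_max_left _ _))) hf0.le) hg0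

/-- The finite sum over a letter of an adjacent pair, gain 3. -/
theorem finG_adj (Q : QS b K L) [IsGalois K L] {i : b.support} (hO : ¬H29Q.Orth Q i) {κ : ℝ} (hκ : 1 < κ) {e : b.support → ℝ} (he : InvE Q e) (hP : PosW b κ e (ow Q i)) : FinG Q [i] e 3 :=
  finG_one Q fun _ hδ => (rankQB_adj Q hO hκ he hP hδ.le).imp fun _ hZ => ⟨one_pos.trans_le hZ.1, hZ.2⟩

end

end Pool.Agent.Lib.L8.HS
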