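import Pool.Agent.Lib.L8.HS.B2
import Pool.Agent.Lib.H29F.FH1

/-!
# HS, chunk B4 (M): the coordinates of the letter group
-/

namespace Pool.Agent.Lib.L8.HS

open Matrix NumberField IsDedekindDomain Pool.Agent.Lib.H89N Pool.Agent.Lib.L1S
open Pool.Agent.Lib.L8.FI (fx fn fh fc)
open Pool.Agent.Lib.L8.FL (av aI Gv Kv Ah TK tv PJ G1 Chi nW wW Uw RedW)

noncomputable section

set_option linter.unusedSectionVars false

variable {ι M N : Type} [Fintype ι] [DecidableEq ι] [AddCommGroup M] [Module ℚ M] [AddCommGroup N] [Module ℚ N]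
  {P : RootPairing ι ℚ M N} [P.IsCrystallographic] [P.IsReduced] [P.IsIrreducible] [P.IsRootSystem] {b : P.Base} {K : Type} [Field K] [NumberField K]

/-- The elements of the letter group: `x_j(y) x_θ(-s) x_i(x)`. -/
def uO (b : P.Base) (i j : b.support) (x s y : K) : GK b K := fx b (j : ι) y * xt b i j (-s) * fx b (i : ι) x

/-- `s_i α_j = α_j + α_i`. -/
theorem b4_refl {i j : b.support} (h : Adj b i j) : P.root (P.reflectionPerm (i : ι) (j : ι)) = P.root (i : ι) + P.root (j : ι) := by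
  have h1 : P.coroot' (i : ι) (P.root (j : ι)) = -1 := by
    have h2 : P.coroot' (i : ι) (P.root (j : ι)) = P.pairing j i := by simp
    rw [h2, ← P.algebraMap_pairingIn ℤ (j : ι) (i : ι), h.2]
    simp
  rw [P.root_reflectionPerm, RootPairing.reflection_apply, h1]
  module

/-- `s_i s_j α_i = α_j`. -/
theorem b4_refl2 {i j : b.support} (h : Adj b i j) : P.reflectionPerm (i : ι) (P.reflectionPerm (j : ι) (i : ι)) = (j : ι) := by
  apply P.root.injective
  rw [P.root_reflectionPerm, b4_refl h.symm, map_add, RootPairing.reflection_apply_self, ← P.root_reflectionPerm, b4_refl h]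
  abel

/-- PROOF. `wW b [j, i] i = s_i s_j (α_i) = α_j`, `wW b [i] j = α_i + α_j`, positive. (`wW` is a permutation of the roots; `IsPos` of a root `β`: e.g. `P.root β` is a sum of simple roots with nonnegative coefficients; positive height.) -/
theorem red3 {i j : b.support} (h : Adj b i j) : RedW b [i, j, i] := by
  have e1 : wW b [j, i] (i : ι) = (j : ι) := by
    show P.reflectionPerm (i : ι) (P.reflectionPerm (j : ι) (i : ι)) = (j : ι)
    exact b4_refl2 h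
  refine ⟨?_, ?_, ?_, trivial⟩
  · rw [e1]
    exact b.isPos_of_mem_support j.2
  · show 0 < b.height (P.reflectionPerm (i : ι) (j : ι))
    rw [b.height_add (b4_refl h), b.height_one_of_mem_support i.2, b.height_one_of_mem_support j.2]
    norm_num
  · exact b.isPos_of_mem_support i.2

/-- PROOF. `nW b K [i, j, i] = n_i n_j n_i` (`nW` unfolds; `b1m b K i 1 = fn b K i`) and, with `r_e` and `r_b`, `n_j n_i x_j(y) = x_i(y) n_j n_i`, `n_i x_θ(-s) = x_j(s)..`: `n_i⁻¹ x_j(s) n_i = xt (-s)` (`r_b`), so `n_i xt(-s) = x_j(s) n_i`: `n_i n_j n_i x_j(y) xt(-s) x_i(x) z = n_i x_i(y) n_j n_i xt(-s) x_i(x) z = n_i x_i(y) n_j x_j(s) n_i x_i(x) z`. -/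
theorem nW_uO {i j : b.support} (h : Adj b i j) (z : GK b K) (x s y : K) : nW b K [i, j, i] * uO b i j x s y * z = hz i j z x s y := by
  show (1 * fn b K i * fn b K j * fn b K i) * (fx b (j : ι) y * xt b i j (-s) * fx b (i : ι) x) * z =
    fn b K i * fx b (i : ι) y * (fn b K j * fx b (j : ι) s * (fn b K i * fx b (i : ι) x * z))
  rw [← r_e h y, ← r_b h s]
  group

/-- PROOF. `x = fc i u`; `u x_i(-x)` has `fc i = 0` (`FI.fc_mul`, `fc_x`), so `u₁ = n_i u x_i(-x) n_i⁻¹ ∈ Uw [j, i]` (`H29F.Gk.Uw_down` with `Uw_eq`; the elements `fx i x` are in `Uw (i :: L)`: `x_Uw`); in the same way `s = fc j u₁`, `u₂ = n_j u₁ x_j(-s) n_j⁻¹ ∈ Uw [i]`, `y = fc i u₂`, and `n_i u₂ x_i(-y) n_i⁻¹ ∈ Uw [] = ⊥`. So `u₂ = x_i(y)`,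
`u₁ = n_j⁻¹ x_i(y) n_j x_j(s) = xt(y) x_j(s)` (`r_a`), `u = n_i⁻¹ xt(y) n_i n_i⁻¹ x_j(s) n_i x_i(x) = x_j(y) xt(-s) x_i(x)` (definition of `xt`, `r_b`). -/
theorem uO_ex {i j : b.support} (h : Adj b i j) {u : GK b K} (hu : u ∈ Uw b K [i, j, i]) : ∃ x s y, u = uO b i j x s y := by
  have key : ∀ (k : b.support) (L : List b.support), b.IsPos (H29F.Gk.wW b L (k : ι)) → ∀ g ∈ H29F.Gk.Uw b K (k :: L),
      ∃ r : K, ∃ g' ∈ H29F.Gk.Uw b K L, g = (fn b K k)⁻¹ * g' * fn b K k * fx b (k : ι) r := by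
    intro k L hL g hg
    have hx : ∀ r : K, fx b (k : ι) r ∈ H29F.Gk.Uw b K (k :: L) := fun r => H29F.Gk.x_Uw b K hL r
    have hg1 : g * fx b (k : ι) (-(g.1.1 (Sum.inl k) (Sum.inr (ng P k)))) ∈ H29F.Gk.Uw b K (k :: L) := mul_mem hg (hx _)
    refine ⟨g.1.1 (Sum.inl k) (Sum.inr (ng P k)), _, H29F.Gk.Uw_down b K hg1 ?_, ?_⟩
    · rw [H29F.Gk.cc_mul b K k hg.1 (hx _).1]
      have h1 : (fx b (k : ι) (-(g.1.1 (Sum.inl k) (Sum.inr (ng P k))))).1.1 (Sum.inl k) (Sum.inr (ng P k)) = -(g.1.1 (Sum.inl k) (Sum.inr (ng P k))) := H29F.Gk.cc_x b K k _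
      rw [h1, add_neg_cancel]
    · show g = (fn b K k)⁻¹ * (fn b K k * (g * fx b (k : ι) (-(g.1.1 (Sum.inl k) (Sum.inr (ng P k))))) * (fn b K k)⁻¹) * fn b K k * fx b (k : ι) (g.1.1 (Sum.inl k) (Sum.inr (ng P k)))
      rw [FI.fx_neg]
      group
  rw [← H29F.Uw_eq] at hu
  have hred := red3 (b := b) h
  rw [← H29F.RedW_iff] at hred
  obtain ⟨hr1, hr2, hr3, -⟩ := hred
  obtain ⟨x, u₁, hu₁, rfl⟩ := key i [j, i] hr1 u hu
  obtain ⟨s, u₂, hu₂, rfl⟩ := key j [i] hr2 u₁ hu₁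
  obtain ⟨y, u₃, hu₃, rfl⟩ := key i [] hr3 u₂ hu₂
  have h3 : u₃ = 1 := by
    have h4 : u₃ ∈ HU b K ⊓ H29F.Gk.HV b K := by
      refine ⟨hu₃.1, ?_⟩
      have h5 : (1 : GK b K) * u₃ * (1 : GK b K)⁻¹ ∈ H29F.Gk.HV b K := hu₃.2
      rwa [one_mul, inv_one, mul_one] at h5
    rw [H29F.Gk.HU_HV b K] at h4
    exact Subgroup.mem_bot.1 h4
  refine ⟨x, s, y, ?_⟩
  unfold uO
  rw [h3, ← r_e h y, ← r_b h s]
  group

/-- PROOF. The reverse: `H29F.Gk.x_Uw`, `Uw_up` three times (`red3`). -/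
theorem uO_mem {i j : b.support} (h : Adj b i j) (x s y : K) : uO b i j x s y ∈ Uw b K [i, j, i] := by
  have hred := red3 (b := b) h
  rw [← H29F.RedW_iff] at hred
  obtain ⟨hr1, hr2, hr3, -⟩ := hred
  rw [← H29F.Uw_eq]
  have h1 : fx b (i : ι) y ∈ H29F.Gk.Uw b K [i] := H29F.Gk.x_Uw b K hr3 y
  have h2 : (fn b K j)⁻¹ * fx b (i : ι) y * fn b K j * fx b (j : ι) s ∈ H29F.Gk.Uw b K [j, i] :=
    mul_mem (H29F.Gk.Uw_up b K hr2 h1).1 (H29F.Gk.x_Uw b K hr2 s)
  have h3 : (fn b K i)⁻¹ * ((fn b K j)⁻¹ * fx b (i : ι) y * fn b K j * fx b (j : ι) s) * fn b K i * fx b (i : ι) x ∈ H29F.Gk.Uw b K [i, j, i] :=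
    mul_mem (H29F.Gk.Uw_up b K hr1 h2).1 (H29F.Gk.x_Uw b K hr1 x)
  have e : uO b i j x s y = (fn b K i)⁻¹ * ((fn b K j)⁻¹ * fx b (i : ι) y * fn b K j * fx b (j : ι) s) * fn b K i * fx b (i : ι) x := by
    unfold uO
    rw [← r_e h y, ← r_b h s]
    group
  rw [e]
  exact h3

theorem b4_xU (i : b.support) (x : K) : FI.Uu (fx b (i : ι) x) := FI.fx_Uu (FI.f_ht i) x

theorem b4_xt {i j : b.support} (h : Adj b i j) (t : K) : xt b i j t = (fx b (i : ι) t)⁻¹ * (fx b (j : ι) 1)⁻¹ * fx b (i : ι) t * fx b (j : ι) 1 := by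
  have h1 := r_c h t 1
  rw [mul_one] at h1
  have h2 : (fx b (i : ι) t)⁻¹ * (fx b (j : ι) 1)⁻¹ * fx b (i : ι) t * fx b (j : ι) 1 = (fx b (i : ι) t)⁻¹ * (fx b (j : ι) 1)⁻¹ * (fx b (i : ι) t * fx b (j : ι) 1) := by group
  rw [h2, h1]
  group

theorem b4_xtU {i j : b.support} (h : Adj b i j) (t : K) : FI.Uu (xt b i j t) := by
  rw [b4_xt h]
  exact (((b4_xU i t).inv.mul (b4_xU j 1).inv).mul (b4_xU i t)).mul (b4_xU j 1)

theorem b4_fc_inv (k : b.support) {u : GK b K} (hu : FI.Uu u) : fc k u⁻¹ = -fc k u := by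
  have h1 := FI.fc_mul k hu hu.inv
  rw [mul_inv_cancel] at h1
  have h2 : fc k (1 : GK b K) = 0 := Matrix.one_apply_ne (by simp)
  rw [h2] at h1
  exact eq_neg_of_add_eq_zero_right h1.symm

theorem b4_fc_xt {i j : b.support} (h : Adj b i j) (k : b.support) (t : K) : fc k (xt b i j t) = 0 := by
  rw [b4_xt h, FI.fc_mul k (((b4_xU i t).inv.mul (b4_xU j 1).inv).mul (b4_xU i t)) (b4_xU j 1), FI.fc_mul k ((b4_xU i t).inv.mul (b4_xU j 1).inv) (b4_xU i t),
    FI.fc_mul k (b4_xU i t).inv (b4_xU j 1).inv, b4_fc_inv k (b4_xU i t), b4_fc_inv k (b4_xU j 1)]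
  ring

theorem b4_fc_ne {i j : b.support} (h : j ≠ i) (t : K) : fc i (fx b (j : ι) t) = 0 := by
  have h1 := c_xx b (j : ι) (FI.f_ht j) t i
  rw [if_neg fun e => h (Subtype.ext e)] at h1
  exact h1

/-- PROOF. `fc i` is additive on `HU` (`FI.fc_mul`), `fc_x`, `fc i (x_j) = 0` (`i ≠ j`: `E_simple_entry` or the entry of `xx` by weights), `fc i (xt) = 0` (`r_c` with `p = t`, `q = 1`: `xt` is a commutator of elements of `HU`). -/
theorem fc_uO_i {i j : b.support} (h : Adj b i j) (x s y : K) : fc i (uO b i j x s y) = x := by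
  unfold uO
  rw [FI.fc_mul i ((b4_xU j y).mul (b4_xtU h _)) (b4_xU i x), FI.fc_mul i (b4_xU j y) (b4_xtU h _), b4_fc_xt h, b4_fc_ne h.ne.symm, FI.fc_x, zero_add, zero_add]

theorem fc_uO_j {i j : b.support} (h : Adj b i j) (x s y : K) : fc j (uO b i j x s y) = y := by
  unfold uO
  rw [FI.fc_mul j ((b4_xU j y).mul (b4_xtU h _)) (b4_xU i x), FI.fc_mul j (b4_xU j y) (b4_xtU h _), b4_fc_xt h, b4_fc_ne h.ne, FI.fc_x, add_zero, add_zero]

/-- PROOF. `xt` is injective (conjugate of `fx`, `fc_x`). -/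
theorem uO_inj {i j : b.support} (h : Adj b i j) {x s y x' s' y' : K} (e : uO b i j x s y = uO b i j x' s' y') : x = x' ∧ s = s' ∧ y = y' := by
  have hx : x = x' := by
    have h1 := congrArg (fc i) e
    rwa [fc_uO_i h, fc_uO_i h] at h1
  have hy : y = y' := by
    have h1 := congrArg (fc j) e
    rwa [fc_uO_j h, fc_uO_j h] at h1
  subst hx
  subst hy
  refine ⟨rfl, ?_, rfl⟩
  unfold uO at e
  have e1 := mul_left_cancel (mul_right_cancel e)
  unfold xt at e1
  have e2 := mul_left_cancel (mul_right_cancel e1)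
  have h1 := congrArg (fc j) e2
  rw [FI.fc_x, FI.fc_x] at h1
  exact neg_injective h1

/-- PROOF. `r_c`, `r_di`, `r_dj`. -/
theorem uO_mul {i j : b.support} (h : Adj b i j) (x s y x' s' y' : K) : uO b i j x s y * uO b i j x' s' y' = uO b i j (x + x') (s + s' - x * y') (y + y') := by
  unfold uO
  have e : -(s + s' - x * y') = -s + (-s' + x * y') := by ring
  rw [e, xt_add, xt_add, FI.fx_add, FI.fx_add]
  calc fx b (j : ι) y * xt b i j (-s) * fx b (i : ι) x * (fx b (j : ι) y' * xt b i j (-s') * fx b (i : ι) x')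
      = fx b (j : ι) y * xt b i j (-s) * (fx b (i : ι) x * fx b (j : ι) y') * xt b i j (-s') * fx b (i : ι) x' := by group
    _ = fx b (j : ι) y * xt b i j (-s) * (fx b (j : ι) y' * fx b (i : ι) x * xt b i j (x * y')) * xt b i j (-s') * fx b (i : ι) x' := by rw [r_c h]
    _ = fx b (j : ι) y * (xt b i j (-s) * fx b (j : ι) y') * (fx b (i : ι) x * xt b i j (x * y')) * xt b i j (-s') * fx b (i : ι) x' := by group
    _ = fx b (j : ι) y * (fx b (j : ι) y' * xt b i j (-s)) * (xt b i j (x * y') * fx b (i : ι) x) * xt b i j (-s') * fx b (i : ι) x' := by rw [r_dj h, r_di h]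
    _ = fx b (j : ι) y * fx b (j : ι) y' * xt b i j (-s) * xt b i j (x * y') * (fx b (i : ι) x * xt b i j (-s')) * fx b (i : ι) x' := by group
    _ = fx b (j : ι) y * fx b (j : ι) y' * xt b i j (-s) * xt b i j (x * y') * (xt b i j (-s') * fx b (i : ι) x) * fx b (i : ι) x' := by rw [r_di h]
    _ = fx b (j : ι) y * fx b (j : ι) y' * xt b i j (-s) * (xt b i j (x * y') * xt b i j (-s')) * fx b (i : ι) x * fx b (i : ι) x' := by group
    _ = fx b (j : ι) y * fx b (j : ι) y' * xt b i j (-s) * (xt b i j (-s') * xt b i j (x * y')) * fx b (i : ι) x * fx b (i : ι) x' := by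
        rw [← xt_add, ← xt_add, add_comm (x * y')]
    _ = _ := by group

theorem uO_one (i j : b.support) : uO b i j (0 : K) 0 0 = 1 := by
  unfold uO
  rw [FI.fx_zero, FI.fx_zero, neg_zero, xt_zero, one_mul, one_mul]

theorem uO_inv {i j : b.support} (h : Adj b i j) (x s y : K) : (uO b i j x s y)⁻¹ = uO b i j (-x) (-s - x * y) (-y) := by
  rw [inv_eq_iff_mul_eq_one, uO_mul h]
  have e1 : x + -x = 0 := by ring
  have e2 : s + (-s - x * y) - x * -y = 0 := by ring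
  have e3 : y + -y = 0 := by ring
  rw [e1, e2, e3, uO_one]

/-- The mirrored coordinates. PROOF. `r_c`, `xt_swap`, `r_di`, `r_dj`. -/
theorem uO_swap {i j : b.support} (h : Adj b i j) (x s y : K) : uO b i j x s y = uO b j i y (-s - x * y) x := by
  unfold uO
  have e : -(-s - x * y) = s + x * y := by ring
  rw [e, xt_swap h, neg_add, xt_add]
  calc fx b (j : ι) y * xt b i j (-s) * fx b (i : ι) x = fx b (j : ι) y * (xt b i j (-s) * fx b (i : ι) x) := by group
    _ = fx b (j : ι) y * (fx b (i : ι) x * xt b i j (-s)) := by rw [r_di h]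
    _ = (fx b (j : ι) y * fx b (i : ι) x * xt b i j (x * y)) * (xt b i j (x * y))⁻¹ * xt b i j (-s) := by group
    _ = (fx b (i : ι) x * fx b (j : ι) y) * xt b i j (-(x * y)) * xt b i j (-s) := by rw [← r_c h, xt_neg i j (x * y)]
    _ = fx b (i : ι) x * fx b (j : ι) y * (xt b i j (-(x * y)) * xt b i j (-s)) := by group
    _ = fx b (i : ι) x * (fx b (j : ι) y * xt b i j (-s + -(x * y))) := by
        rw [← xt_add, add_comm (-(x * y))]
        group
    _ = fx b (i : ι) x * (xt b i j (-s + -(x * y)) * fx b (j : ι) y) := by rw [r_dj h]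
    _ = _ := by
        rw [xt_add]
        group

/-- PROOF. The braid relation `r_f`. -/
theorem nW_braid {i j : b.support} (h : Adj b i j) : nW b K [i, j, i] = nW b K [j, i, j] := by
  show 1 * fn b K i * fn b K j * fn b K i = 1 * fn b K j * fn b K i * fn b K j
  rw [one_mul, one_mul, r_f h]

/-- PROOF. `nW_uO` and `uO_swap`, `nW_braid`. -/
theorem hz_swap {i j : b.support} (h : Adj b i j) (z : GK b K) (x s y : K) : hz i j z x s y = hz j i z y (-s - x * y) x := by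
  rw [← nW_uO h, ← nW_uO h.symm, nW_braid h, uO_swap h]

end

end Pool.Agent.Lib.L8.HS
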