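import Pool.Agent.Lib.L8.HS.B3
import Pool.Agent.Lib.L8.HS.B4

/-!
# HS, chunk B5 (M): the estimates for two elements of the same contents
-/

namespace Pool.Agent.Lib.L8.HS

open Matrix NumberField IsDedekindDomain Pool.Agent.Lib.H89N Pool.Agent.Lib.L1S
open Pool.Agent.Lib.L8.FI (fx fn fh fc)
open Pool.Agent.Lib.L8.FL (av aI Gv Kv Ah TK tv PJ G1 Chi nW wW Uw RedW)

noncomputable section

set_option linter.unusedSectionVars false

variable {ι M N : Type} [Fintype ι] [DecidableEq ι] [AddCommGroup M] [Module ℚ M] [AddCommGroup N] [Module ℚ N]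
  {P : RootPairing ι ℚ M N} [P.IsCrystallographic] [P.IsReduced] [P.IsIrreducible] [P.IsRootSystem] {b : P.Base} {K : Type} [Field K] [NumberField K]

theorem b5_nW {i j : b.support} (h : Adj b i j) (z : GK b K) : fn b K i * fn b K j * fn b K i * z = nW b K [i, j, i] * z := by
  have h1 := nW_uO h z 0 0 0
  rw [uO_one, mul_one] at h1
  rw [h1]
  unfold hz nx
  simp only [FI.fx_zero, mul_one, mul_assoc]

theorem b5_sub (w : HeightOneSpectrum (𝓞 K)) (x y : K) : av w (x - y) ≤ max (av w x) (av w y) := by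
  rw [sub_eq_add_neg]
  refine (FI.g1_nonarch w x (-y)).trans ?_
  rw [AbsoluteValue.map_neg]

theorem b5_root {t ν P B : ℝ} (_ht : 0 ≤ t) (hν : 0 ≤ ν) (hB : 0 ≤ B) (hP : P * B ^ 3 = 1) {P1 P2 : ℝ} (hPP : P = P1 * P2) (h : t ^ 3 * P1 * P2 ≤ ν ^ 3) : t ≤ ν * B := by
  have h1 : t ^ 3 ≤ (ν * B) ^ 3 := by
    have h2 : t ^ 3 = (t ^ 3 * P1 * P2) * B ^ 3 := by
      have h3 : (t ^ 3 * P1 * P2) * B ^ 3 = t ^ 3 * ((P1 * P2) * B ^ 3) := by ring
      rw [h3, ← hPP, hP, mul_one]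
    rw [h2, mul_pow]
    exact mul_le_mul_of_nonneg_right h (by positivity)
  exact le_of_pow_le_pow_left₀ (by norm_num) (by positivity) h1

theorem b5_g' {i j : b.support} (h : Adj b i j) (z : GK b K) (x s y x' s' y' : K) :
    hz i j z x' s' y' = hz i j (uO b i j x s y * z) (x' - x) (s' - s + (x' - x) * y) (y' - y) := by
  rw [← nW_uO h, ← nW_uO h]
  have h1 : uO b i j x' s' y' = uO b i j (x' - x) (s' - s + (x' - x) * y) (y' - y) * uO b i j x s y := by
    rw [uO_mul h]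
    have h2 : x' - x + x = x' := by ring
    have h3 : s' - s + (x' - x) * y + s - (x' - x) * y = s' := by ring
    have h4 : y' - y + y = y' := by ring
    rw [h2, h3, h4]
  rw [h1]
  simp only [mul_assoc]

theorem b5_g {i j : b.support} (h : Adj b i j) (z : GK b K) (x s y : K) :
    fn b K i * fn b K j * fn b K i * (uO b i j x s y * z) = hz i j z x s y := by
  rw [b5_nW h, ← mul_assoc, nW_uO h]

theorem b5_lev {𝔫 : Ideal (𝓞 K)} (w : HeightOneSpectrum (𝓞 K)) {i j : b.support} (h : Adj b i j) (z : GK b K) (x s y x' s' y' : K) {g g' : GK b K} (hg : g = hz i j z x s y) (hg' : g' = hz i j z x' s' y')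
    (h₂ : Chi b 𝔫 j g) (h₄ : Chi b 𝔫 j g') : av w (s' - s + (x' - x) * y) ^ 3 * Ph w i j g' * Ph w j i g ≤ aI w 𝔫 ^ 3 := by
  have h1 := b5_g h z x s y
  rw [← hg] at h1
  have h2 := b5_g' h z x s y x' s' y'
  rw [← hg'] at h2
  have h3 := level_s (𝔫 := 𝔫) w h (uO b i j x s y * z) (x' - x) (s' - s + (x' - x) * y) (y' - y) (by rw [h1]; exact h₂) (by rw [← h2]; exact h₄)
  rw [h1, ← h2] at h3
  exact h3

theorem b5_lev' {𝔫 : Ideal (𝓞 K)} (w : HeightOneSpectrum (𝓞 K)) {i j : b.support} (h : Adj b i j) (z : GK b K) (x s y x' s' y' : K) {g g' : GK b K} (hg : g = hz i j z x s y) (hg' : g' = hz i j z x' s' y')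
    (h₂ : Chi b 𝔫 i g) (h₄ : Chi b 𝔫 i g') : av w (-(s' - s + (x' - x) * y) - (x' - x) * (y' - y)) ^ 3 * Ph w j i g' * Ph w i j g ≤ aI w 𝔫 ^ 3 := by
  have h1 := b5_g h z x s y
  rw [← hg, b5_nW h, nW_braid h, ← b5_nW h.symm] at h1
  have h2 := b5_g' h z x s y x' s' y'
  rw [← hg', hz_swap h] at h2
  have h3 := level_s (𝔫 := 𝔫) w h.symm (uO b i j x s y * z) (y' - y) (-(s' - s + (x' - x) * y) - (x' - x) * (y' - y)) (x' - x) (by rw [h1]; exact h₂) (by rw [← h2]; exact h₄)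
  rw [h1, ← h2] at h3
  exact h3

/-- PROOF. `A_i A_j (g) = A_i A_j (z) / (P_i P_j)`, `P_i = a d_i`, `P_j = a d_j`, `a = A_i A_j (z)` (`Ah_hz` for `k = i` and `k = j`, `cartan = 2, -1`), and `Ph i j g * Ph j i g = (A_i A_j (g)) ^ 3`. -/
theorem AA_hz (w : HeightOneSpectrum (𝓞 K)) {i j : b.support} (h : Adj b i j) (z : GK b K) (x s y : K) :
    (Ph w i j (hz i j z x s y) * Ph w j i (hz i j z x s y)) * (Ah b w z i * Ah b w z j * (dd w i j z (hz i j z x s y) * dd w j i z (hz i j z x s y))) ^ 3 = 1 := by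
  have hi := FI.Ah_pos b w z i
  have hj := FI.Ah_pos b w z j
  have h1 : Ph w i j (hz i j z x s y) * Ph w j i (hz i j z x s y) = (Ah b w (hz i j z x s y) i * Ah b w (hz i j z x s y) j) ^ 3 := by
    unfold Ph
    ring
  have h2 := dd_j_one w h z x s y
  have h3 := dd_i_one w h z x s y
  have h4 : b.cartanMatrix i i = 2 := b.cartanMatrix_apply_same i
  have h5 : b.cartanMatrix j j = 2 := b.cartanMatrix_apply_same j
  rw [h1, Ah_hz w h z x s y i, Ah_hz w h z x s y j, h4, h5, b2_cm_ij h, b2_cm_ji h]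
  have hd1 : 0 < dd w i j z (hz i j z x s y) := by linarith
  have hd2 : 0 < dd w j i z (hz i j z x s y) := by linarith
  generalize dd w i j z (hz i j z x s y) = d1 at *
  generalize dd w j i z (hz i j z x s y) = d2 at *
  have h6 : ∀ t : ℝ, t ^ (-(2 : ℤ)) = (t ^ 2)⁻¹ := by
    intro t
    rw [_root_.zpow_neg]
    norm_cast
  rw [h6, h6, neg_neg, zpow_one, zpow_one, ← mul_pow]
  have h7 : (Ah b w z i * ((Ah b w z i * Ah b w z j * d2) ^ 2)⁻¹ * (Ah b w z i * Ah b w z j * d1) * (Ah b w z j * (Ah b w z i * Ah b w z j * d2) * ((Ah b w z i * Ah b w z j * d1) ^ 2)⁻¹)) *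
      (Ah b w z i * Ah b w z j * (d1 * d2)) = 1 := by
    field_simp
  rw [h7, one_pow]

/-- PROOF. Let `u = uO x s y`, `u' = uO x' s' y'`, `z₀ = u z`, `g = hz i j z x s y = n_i n_j n_i z₀`, `g' = nW u' z = nW (u' u⁻¹) z₀ = hz i j z₀ x'' s'' y''` with `x'' = x' - x`, `y'' = y' - y`, `s'' = s' - s + (x' - x) y` (`uO_inv`, `uO_mul`, `nW_uO`). `level_s` for `z₀`: `|s''|³ Ph i j g' Ph j i g ≤ ν³`.
The mirror (`hz_swap`, `nW_braid`, `level_s` for `(j, i)`): `|s*|³ Ph j i g' Ph i j g ≤ ν³`, `s* = -s'' - x'' y''`. The heights of `g` and `g'` agree, so `|s''|³, |s*|³ ≤ ν³ (a d_i d_j)³` (`AA_hz`), so `|s''|, |s*| ≤ ν a d_i d_j`, and `x'' y'' = -s'' - s*`. -/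
theorem pair_xy {𝔫 : Ideal (𝓞 K)} (w : HeightOneSpectrum (𝓞 K)) {i j : b.support} (h : Adj b i j) (z : GK b K) (x s y x' s' y' : K) (h₁ : Chi b 𝔫 i (hz i j z x s y)) (h₂ : Chi b 𝔫 j (hz i j z x s y))
    (h₃ : Chi b 𝔫 i (hz i j z x' s' y')) (h₄ : Chi b 𝔫 j (hz i j z x' s' y')) (e₁ : Ah b w (hz i j z x' s' y') i = Ah b w (hz i j z x s y) i) (e₂ : Ah b w (hz i j z x' s' y') j = Ah b w (hz i j z x s y) j) :
    av w (x' - x) * av w (y' - y) ≤ aI w 𝔫 * (Ah b w z i * Ah b w z j) * (dd w j i z (hz i j z x s y) * dd w i j z (hz i j z x s y)) := by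
  obtain ⟨g, hgd⟩ : ∃ g, g = hz i j z x s y := ⟨_, rfl⟩
  obtain ⟨g', hgd'⟩ : ∃ g', g' = hz i j z x' s' y' := ⟨_, rfl⟩
  have hA := AA_hz w h z x s y
  have hd1 := dd_j_one w h z x s y
  have hd2 := dd_i_one w h z x s y
  rw [← hgd] at h₁ h₂ e₁ e₂ hA hd1 hd2 ⊢
  rw [← hgd'] at h₃ h₄ e₁ e₂
  have hs := b5_lev w h z x s y x' s' y' hgd hgd' h₂ h₄
  have ht := b5_lev' w h z x s y x' s' y' hgd hgd' h₁ h₃
  have hi := FI.Ah_pos b w z i
  have hj := FI.Ah_pos b w z j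
  have hP1 : Ph w i j g' = Ph w i j g := by
    unfold Ph
    rw [e₁, e₂]
  have hP2 : Ph w j i g' = Ph w j i g := by
    unfold Ph
    rw [e₁, e₂]
  rw [hP1] at hs
  rw [hP2] at ht
  have hn := FI.g1_aI_pos w 𝔫
  have hB : 0 < Ah b w z i * Ah b w z j * (dd w i j z g * dd w j i z g) := by positivity
  have k1 := b5_root ((av w).nonneg _) hn.le hB.le hA rfl hs
  have k2 := b5_root ((av w).nonneg _) hn.le hB.le hA (mul_comm _ _) ht
  have k3 : av w (x' - x) * av w (y' - y) = av w (-(s' - s + (x' - x) * y) - (-(s' - s + (x' - x) * y) - (x' - x) * (y' - y))) := by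
    rw [← map_mul]
    congr 1
    ring
  rw [k3]
  refine (b5_sub w _ _).trans ?_
  rw [AbsoluteValue.map_neg]
  refine max_le ?_ ?_
  · linarith
  · linarith

/-- PROOF. As `pair_xy` with `x'' = y'' = 0`, so `s'' = s' - s` (the level); `dd_C3` for `(i, j)` (`≤ a d_j`), and for `(j, i)` with `hz_swap` (the central coordinates `-s - x y`, `-s' - x y` have the difference `s - s'`; `≤ a d_i`). -/
theorem pair_s {𝔫 : Ideal (𝓞 K)} (w : HeightOneSpectrum (𝓞 K)) {i j : b.support} (h : Adj b i j) (z : GK b K) (x s y s' : K) (h₂ : Chi b 𝔫 j (hz i j z x s y)) (h₄ : Chi b 𝔫 j (hz i j z x s' y))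
    (e₁ : Ah b w (hz i j z x s' y) i = Ah b w (hz i j z x s y) i) (e₂ : Ah b w (hz i j z x s' y) j = Ah b w (hz i j z x s y) j) :
    av w (s' - s) ≤ Ah b w z i * Ah b w z j * min (min (dd w j i z (hz i j z x s y)) (dd w i j z (hz i j z x s y))) (aI w 𝔫 * (dd w j i z (hz i j z x s y) * dd w i j z (hz i j z x s y))) := by
  obtain ⟨g, hgd⟩ : ∃ g, g = hz i j z x s y := ⟨_, rfl⟩
  obtain ⟨g', hgd'⟩ : ∃ g', g' = hz i j z x s' y := ⟨_, rfl⟩
  have hA := AA_hz w h z x s y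
  have hd1 := dd_j_one w h z x s y
  have hd2 := dd_i_one w h z x s y
  have c1 := dd_C3 w h z x s' y s y
  have c2 := dd_C3 w h.symm z y (-s' - x * y) x (-s - x * y) x
  rw [← hz_swap h, ← hz_swap h] at c2
  rw [← hgd] at h₂ e₁ e₂ hA hd1 hd2 c1 c2 ⊢
  rw [← hgd'] at h₄ e₁ e₂ c1 c2
  have hs := b5_lev w h z x s y x s' y hgd hgd' h₂ h₄
  have hi := FI.Ah_pos b w z i
  have hj := FI.Ah_pos b w z j
  have hP1 : Ph w i j g' = Ph w i j g := by
    unfold Ph
    rw [e₁, e₂]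
  have hP2 : Ph w j i g' = Ph w j i g := by
    unfold Ph
    rw [e₁, e₂]
  rw [hP1] at hs
  have hD1 : dd w i j z g' = dd w i j z g := by
    unfold dd
    rw [hP1]
  have hD2 : dd w j i z g' = dd w j i z g := by
    unfold dd
    rw [hP2]
  have hn := FI.g1_aI_pos w 𝔫
  have hB : 0 < Ah b w z i * Ah b w z j * (dd w i j z g * dd w j i z g) := by positivity
  have k1 := b5_root ((av w).nonneg _) hn.le hB.le hA rfl hs
  have k4 : s' - s + (x - x) * y = s' - s := by ring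
  rw [k4] at k1
  rw [hD1, max_self] at c1
  rw [hD2, max_self] at c2
  have k5 : -s' - x * y - (-s - x * y) = -(s' - s) := by ring
  rw [k5, AbsoluteValue.map_neg] at c2
  rw [mul_min_of_nonneg _ _ (by positivity), mul_min_of_nonneg _ _ (by positivity)]
  refine le_min (le_min ?_ ?_) ?_
  · linarith
  · linarith
  · linarith

end

end Pool.Agent.Lib.L8.HS
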