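import Pool.Agent.Lib.H29F.FA1
import Pool.Agent.Lib.H29F.FA2
import Pool.Agent.Lib.H29F.FA4

/-!
# HS, chunk B7 (M): the generalised index in coordinates of an extension (abstract)
-/

namespace Pool.Agent.Lib.L8.HS

open Pool.Agent.Lib.H29F

noncomputable section

set_option linter.unusedSectionVars false

variable {N E K : Type} [Group N] [AddCommGroup E] [AddCommGroup K] {r : N → E} {s : N → K}

/-- `r` is a homomorphism, `s` an injective homomorphism on the kernel of `r`. -/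
structure Cor (r : N → E) (s : N → K) : Prop where
  r_mul : ∀ u u', r (u * u') = r u + r u'
  s_mul : ∀ u u', r u = 0 → r u' = 0 → s (u * u') = s u + s u'
  s_inj : ∀ u, r u = 0 → s u = 0 → u = 1

theorem Cor.r_one (h : Cor r s) : r 1 = 0 := by
  have h1 := h.r_mul 1 1
  rw [mul_one] at h1
  exact left_eq_add.1 h1

theorem Cor.r_inv (h : Cor r s) (u : N) : r u⁻¹ = -r u := by
  have h1 := h.r_mul u⁻¹ u
  rw [inv_mul_cancel, h.r_one] at h1
  exact eq_neg_of_add_eq_zero_left h1.symm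

theorem Cor.s_one (h : Cor r s) : s 1 = 0 := by
  have h1 := h.s_mul 1 1 h.r_one h.r_one
  rw [mul_one] at h1
  exact left_eq_add.1 h1

theorem Cor.s_inv (h : Cor r s) (u : N) (hu : r u = 0) : s u⁻¹ = -s u := by
  have hu' : r u⁻¹ = 0 := by rw [h.r_inv, hu, neg_zero]
  have h1 := h.s_mul u⁻¹ u hu' hu
  rw [inv_mul_cancel, h.s_one] at h1
  exact eq_neg_of_add_eq_zero_left h1.symm

/-- The image of `A` under `r`. -/
def rI (h : Cor r s) (A : Subgroup N) : AddSubgroup E where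
  carrier := {x | ∃ u ∈ A, r u = x}
  zero_mem' := ⟨1, A.one_mem, h.r_one⟩
  add_mem' := by
    rintro _ _ ⟨u, hu, rfl⟩ ⟨u', hu', rfl⟩
    exact ⟨u * u', A.mul_mem hu hu', h.r_mul u u'⟩
  neg_mem' := by
    rintro _ ⟨u, hu, rfl⟩
    exact ⟨u⁻¹, A.inv_mem hu, h.r_inv u⟩

/-- The image of `A ∩ ker r` under `s`. -/
def sI (h : Cor r s) (A : Subgroup N) : AddSubgroup K where
  carrier := {x | ∃ u ∈ A, r u = 0 ∧ s u = x}
  zero_mem' := ⟨1, A.one_mem, h.r_one, h.s_one⟩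
  add_mem' := by
    rintro _ _ ⟨u, hu, hr, rfl⟩ ⟨u', hu', hr', rfl⟩
    exact ⟨u * u', A.mul_mem hu hu', by rw [h.r_mul, hr, hr', add_zero], h.s_mul u u' hr hr'⟩
  neg_mem' := by
    rintro _ ⟨u, hu, hr, rfl⟩
    exact ⟨u⁻¹, A.inv_mem hu, by rw [h.r_inv, hr, neg_zero], h.s_inv u hr⟩

theorem mem_rI (h : Cor r s) (A : Subgroup N) (x : E) : x ∈ rI h A ↔ ∃ u ∈ A, r u = x := Iff.rfl

theorem mem_sI (h : Cor r s) (A : Subgroup N) (x : K) : x ∈ sI h A ↔ ∃ u ∈ A, r u = 0 ∧ s u = x := Iff.rfl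

/-- The homomorphism `r`. -/
def b7_phi (h : Cor r s) : N →* Multiplicative E where
  toFun u := Multiplicative.ofAdd (r u)
  map_one' := by rw [h.r_one]; rfl
  map_mul' u u' := by rw [h.r_mul]; rfl

theorem b7_ker (h : Cor r s) (u : N) : u ∈ (b7_phi h).ker ↔ r u = 0 := Iff.rfl

/-- The homomorphism `s` on the kernel. -/
def b7_psi (h : Cor r s) : (b7_phi h).ker →* Multiplicative K where
  toFun u := Multiplicative.ofAdd (s u.1)
  map_one' := by
    show Multiplicative.ofAdd (s 1) = 1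
    rw [h.s_one]; rfl
  map_mul' u u' := by
    show Multiplicative.ofAdd (s (u.1 * u'.1)) = _
    rw [h.s_mul u.1 u'.1 ((b7_ker h _).1 u.2) ((b7_ker h _).1 u'.2)]; rfl

theorem b7_psi_inj (h : Cor r s) : Function.Injective (b7_psi h) := by
  rw [injective_iff_map_eq_one]
  intro u hu
  exact Subtype.ext (h.s_inj u.1 ((b7_ker h _).1 u.2) hu)

theorem b7_rI (h : Cor r s) (A : Subgroup N) : rI h A = (A.map (b7_phi h)).toAddSubgroup' := by
  ext x
  rfl

theorem b7_sI (h : Cor r s) (A : Subgroup N) :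
    sI h A = ((A.subgroupOf (b7_phi h).ker).map (b7_psi h)).toAddSubgroup' := by
  ext x
  rw [mem_sI, Subgroup.mem_toAddSubgroup', Subgroup.mem_map]
  constructor
  · rintro ⟨u, hu, h1, h2⟩
    exact ⟨⟨u, (b7_ker h u).2 h1⟩, hu, congrArg Multiplicative.ofAdd h2⟩
  · rintro ⟨u, hu, h1⟩
    exact ⟨u.1, hu, (b7_ker h _).1 u.2, Multiplicative.ofAdd.injective h1⟩

theorem b7_rI_index (h : Cor r s) (A B : Subgroup N) :
    (rI h A).relIndex (rI h B) = (A.map (b7_phi h)).relIndex (B.map (b7_phi h)) := by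
  rw [b7_rI, b7_rI]
  rfl

theorem b7_sI_index (h : Cor r s) (A B : Subgroup N) :
    (sI h A).relIndex (sI h B) = (A ⊓ (b7_phi h).ker).relIndex (B ⊓ (b7_phi h).ker) := by
  have h1 : (sI h A).relIndex (sI h B) = ((A.subgroupOf (b7_phi h).ker).map (b7_psi h)).relIndex
      ((B.subgroupOf (b7_phi h).ker).map (b7_psi h)) := by
    rw [b7_sI, b7_sI]
    rfl
  rw [h1, Subgroup.relIndex_map_map_of_injective _ _ (b7_psi_inj h), ← Subgroup.inf_subgroupOf_right A,
    ← Subgroup.inf_subgroupOf_right B, Subgroup.relIndex_subgroupOf inf_le_right]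

theorem b7_fib (h : Cor r s) {A B : Subgroup N} (h1 : A.relIndex B ≠ 0) :
    (A.map (b7_phi h)).relIndex (B.map (b7_phi h)) ≠ 0 ∧
      (A ⊓ (b7_phi h).ker).relIndex (B ⊓ (b7_phi h).ker) ≠ 0 := by
  have h2 : (A ⊓ B).relIndex B ≠ 0 := by rw [Subgroup.inf_relIndex_right]; exact h1
  rw [fib_le (b7_phi h) (inf_le_right : A ⊓ B ≤ B)] at h2
  constructor
  · intro h3
    apply left_ne_zero_of_mul h2
    exact Subgroup.relIndex_eq_zero_of_le_left (Subgroup.map_mono inf_le_left) h3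
  · intro h3
    apply right_ne_zero_of_mul h2
    exact Subgroup.relIndex_eq_zero_of_le_left (inf_le_inf_right _ inf_le_left) h3

/-- PROOF. `φ : N →* Multiplicative E` (from `r_mul`); `fib_le φ` for `A ⊓ B ≤ B`: `(A ⊓ B).relIndex B = A.relIndex B` is the product of the index of the images and of the index of the intersections with the kernel. Both factors are nonzero. The image of `A ⊓ B` is `≤` the image of `A` and the indices are those of `rI`
(`Multiplicative` and `AddSubgroup` indices agree, as in `gi_fib`). The kernel part: `s` is an injective homomorphism on `φ.ker` (a group homomorphism `φ.ker →* Multiplicative K`), `Subgroup.relIndex_map_map_of_injective`, `Subgroup.relIndex_subgroupOf`. -/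
theorem rI_ne (h : Cor r s) {A B : Subgroup N} (h1 : A.relIndex B ≠ 0) : (rI h A).relIndex (rI h B) ≠ 0 := by
  rw [b7_rI_index]
  exact (b7_fib h h1).1

theorem sI_ne (h : Cor r s) {A B : Subgroup N} (h1 : A.relIndex B ≠ 0) : (sI h A).relIndex (sI h B) ≠ 0 := by
  rw [b7_sI_index]
  exact (b7_fib h h1).2

/-- **The generalised index.** PROOF. `gi_fib φ`, and `gi (A ⊓ φ.ker) (B ⊓ φ.ker) = agi (sI h A) (sI h B)` as in `sI_ne` (`gi_map`). -/
theorem gi_cor (h : Cor r s) {A B : Subgroup N} (h1 : A.relIndex B ≠ 0) (h2 : B.relIndex A ≠ 0) : gi A B = agi (rI h A) (rI h B) * agi (sI h A) (sI h B) := by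
  rw [gi_fib (b7_phi h) h1 h2, ← b7_rI, ← b7_rI]
  congr 1
  unfold gi agi
  rw [b7_sI_index, b7_sI_index]

/-- **Comparison with two lattices.** PROOF. `agi_trans`: `agi O₁ (rI h B) = agi O₁ (rI h A) * agi (rI h A) (rI h B)`, `agi O₁ (rI h A) = (rI h A).relIndex O₁` (`agi_le`), `agi O₂ (sI h A) ≤ 1` (`(sI h A).relIndex O₂ = 1` because `O₂ ≤ sI h A`, and the denominator is a positive natural number), `gi_cor`. -/
theorem agi_cmp (h : Cor r s) {O₁ : AddSubgroup E} {O₂ : AddSubgroup K} {A B : Subgroup N} (hA₁ : rI h A ≤ O₁) (hA₂ : (rI h A).relIndex O₁ ≠ 0) (hA₃ : O₂ ≤ sI h A) (hA₄ : O₂.relIndex (sI h A) ≠ 0) (h1 : A.relIndex B ≠ 0) (h2 : B.relIndex A ≠ 0) :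
    (rI h B).relIndex O₁ ≠ 0 ∧ O₁.relIndex (rI h B) ≠ 0 ∧ (sI h B).relIndex O₂ ≠ 0 ∧ O₂.relIndex (sI h B) ≠ 0 ∧ agi O₁ (rI h B) * agi O₂ (sI h B) ≤ (rI h A).relIndex O₁ * gi A B := by
  have r1 := rI_ne h h1
  have r2 := rI_ne h h2
  have s1 := sI_ne h h1
  have s2 := sI_ne h h2
  have o1 : O₁.relIndex (rI h A) ≠ 0 := by
    rw [AddSubgroup.relIndex_eq_one.2 hA₁]
    exact one_ne_zero
  have o2 : (sI h A).relIndex O₂ ≠ 0 := by
    rw [AddSubgroup.relIndex_eq_one.2 hA₃]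
    exact one_ne_zero
  refine ⟨AddSubgroup.relIndex_ne_zero_trans r2 hA₂, AddSubgroup.relIndex_ne_zero_trans o1 r1,
    AddSubgroup.relIndex_ne_zero_trans s2 o2, AddSubgroup.relIndex_ne_zero_trans hA₄ s1, ?_⟩
  rw [← agi_trans o1 hA₂ r1 r2, ← agi_trans hA₄ o2 s1 s2, agi_le hA₁, gi_cor h h1 h2]
  have p1 := agi_pos r1 r2
  have p2 := agi_pos s1 s2
  have p3 : agi O₂ (sI h A) ≤ 1 := by
    unfold agi
    rw [AddSubgroup.relIndex_eq_one.2 hA₃, Nat.cast_one]
    have h3 : (1 : ℝ) ≤ (O₂.relIndex (sI h A) : ℝ) := by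
      exact_mod_cast Nat.pos_of_ne_zero hA₄
    rw [div_le_one (by linarith)]
    exact h3
  have p4 : (0 : ℝ) ≤ ((rI h A).relIndex O₁ : ℝ) := Nat.cast_nonneg _
  calc ((rI h A).relIndex O₁ : ℝ) * agi (rI h A) (rI h B) * (agi O₂ (sI h A) * agi (sI h A) (sI h B))
      = ((rI h A).relIndex O₁ : ℝ) * (agi (rI h A) (rI h B) * agi (sI h A) (sI h B)) * agi O₂ (sI h A) := by ring
    _ ≤ ((rI h A).relIndex O₁ : ℝ) * (agi (rI h A) (rI h B) * agi (sI h A) (sI h B)) * 1 :=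
        mul_le_mul_of_nonneg_left p3 (mul_nonneg p4 (mul_pos p1 p2).le)
    _ = _ := mul_one _

end

end Pool.Agent.Lib.L8.HS
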