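import Pool.Agent.Lib.L8.HS.B6C
import Pool.Agent.Lib.L8.HS.B7

/-!
# HS, chunk B7C (M): the integral elements of the letter group
-/

namespace Pool.Agent.Lib.L8.HS

open Matrix NumberField IsDedekindDomain Pool.Agent.Lib.H89N Pool.Agent.Lib.L1S Pool.Agent.Lib.L8.QF Pool.Agent.Lib.H29Q
open Pool.Agent.Lib.L8.FI (fx fn fh fc)
open Pool.Agent.Lib.L8.FL (av aI Gv Kv Ah TK tv PJ G1 Chi nW wW Uw RedW)
open Pool.Agent.Lib.H29F (OK gi agi)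

noncomputable section

set_option linter.unusedSectionVars false

variable {ι M N : Type} [Fintype ι] [DecidableEq ι] [AddCommGroup M] [Module ℚ M] [AddCommGroup N] [Module ℚ N]
  {P : RootPairing ι ℚ M N} [P.IsCrystallographic] [P.IsReduced] [P.IsIrreducible] [P.IsRootSystem] {b : P.Base}
  {K L : Type} [Field K] [NumberField K] [Field L] [NumberField L] [Algebra K L] {Q : QS b K L} {i j : b.support}

/-- PROOF. `rq_mul`, `tq_mul`, `tq_inj`. -/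
theorem cor_q [IsGalois K L] (h : AdQ Q i j) {θ : L} (hθ : IsTh Q i θ) : Cor (rq Q i) (tq Q i j θ) := by
  exact ⟨rq_mul h, tq_mul h hθ, tq_inj h hθ⟩

/-- The integral elements of the letter group. -/
def AqI (Q : QS b K L) (i : b.support) : Subgroup ↥(Xq Q i) := (Xq Q i ⊓ G1 b ⊤).subgroupOf (Xq Q i)

theorem b7c_cm {F : Type} [Field F] (a c : 𝓞 F) : ((a * c : 𝓞 F) : F) = (a : F) * (c : F) := map_mul (algebraMap (𝓞 F) F) a c

theorem b7c_cn {F : Type} [Field F] (a : 𝓞 F) : ((-a : 𝓞 F) : F) = -(a : F) := map_neg (algebraMap (𝓞 F) F) a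

theorem b7c_c2 {F : Type} [Field F] : ((2 : 𝓞 F) : F) = 2 := map_ofNat (algebraMap (𝓞 F) F) 2

theorem b7c_ci {F : Type} [Field F] (m : ℤ) : ((m : 𝓞 F) : F) = m := map_intCast (algebraMap (𝓞 F) F) m

theorem b7c_mem (u : ↥(Xq Q i)) : u ∈ AqI Q i ↔ (u : GK b L) ∈ G1 b (⊤ : Ideal (𝓞 L)) := by
  unfold AqI
  rw [Subgroup.mem_subgroupOf, Subgroup.mem_inf]
  exact ⟨fun h1 => h1.2, fun h1 => ⟨u.2, h1⟩⟩

theorem b7c_x (β : ι) (r : 𝓞 L) : fx b β (r : L) ∈ G1 b (⊤ : Ideal (𝓞 L)) := H29F.Gk.x_G1 b L β r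

theorem b7c_n (i : b.support) : fn b L i ∈ G1 b (⊤ : Ideal (𝓞 L)) := H29F.Gk.m_G1 b L i

/-- The coordinates of an integral element are integral. -/
theorem b7c_fc (k : b.support) {g : GK b L} (hg : g ∈ G1 b (⊤ : Ideal (𝓞 L))) : ∃ y : 𝓞 L, fc k g = (y : L) := by
  obtain ⟨y, _, hy⟩ := H29F.Gk.G1_top_int b L hg (Sum.inl k) (Sum.inr (ng P k))
  exact ⟨y, hy.symm⟩

/-- PROOF. `G1 b ⊤`: all entries of `g - 1` and `g⁻¹ - 1` are integral. `fx b β t` for integral `t` and `fn b L i` are in `G1 b ⊤` (their entries are integral polynomials; `H29F` or `L8/FI`: e.g. `H29F.Gk` instance fields `n_O`, `x_O`), `xt b i j t = n_i x_j(t) n_i⁻¹`. -/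
theorem uO_G1 (i j : b.support) (x s y : 𝓞 L) : uO b i j (x : L) (s : L) (y : L) ∈ G1 b (⊤ : Ideal (𝓞 L)) := by
  have e : -(s : L) = ((-s : 𝓞 L) : L) := by simp
  unfold uO xt
  rw [e]
  exact mul_mem (mul_mem (b7c_x _ _) (mul_mem (mul_mem (b7c_n i) (b7c_x _ _)) (inv_mem (b7c_n i)))) (b7c_x _ _)

/-- An element of a subfield which is integral in `L` is integral. -/
theorem b7c_int {E : IntermediateField K L} (x : E) (y : 𝓞 L) (hxy : (x : L) = (y : L)) : x ∈ OK ↥E := by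
  have h1 : IsIntegral ℤ (algebraMap E L x) := by
    have e : algebraMap E L x = (y : L) := hxy
    rw [e]
    exact y.2
  have h2 : IsIntegral ℤ x := (isIntegral_algebraMap_iff (algebraMap E L).injective).1 h1
  exact ⟨⟨x, h2⟩, rfl⟩

theorem b7c_intK (x : K) (y : 𝓞 L) (hxy : algebraMap K L x = (y : L)) : x ∈ OK K := by
  have h1 : IsIntegral ℤ (algebraMap K L x) := by
    rw [hxy]
    exact y.2
  have h2 : IsIntegral ℤ x := (isIntegral_algebraMap_iff (algebraMap K L).injective).1 h1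
  exact ⟨⟨x, h2⟩, rfl⟩

/-- The image of an integral element. -/
theorem b7c_up {F : Type} [Field F] [Algebra F L] (x : 𝓞 F) : ∃ y : 𝓞 L, (y : L) = algebraMap F L (x : F) :=
  ⟨⟨algebraMap F L (x : F), x.2.map (IsScalarTower.toAlgHom ℤ F L)⟩, rfl⟩

theorem b7c_si (σ : L ≃ₐ[K] L) (x : 𝓞 L) : ∃ y : 𝓞 L, (y : L) = σ (x : L) :=
  ⟨⟨σ (x : L), x.2.map (σ.toAlgHom.restrictScalars ℤ)⟩, rfl⟩

theorem b7c_OO (F : Type) [Field F] [NumberField F] : L8.FR.OO F = OK F := by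
  ext x
  exact Iff.rfl

theorem b7c_idx {F : Type} [Field F] [NumberField F] (m : 𝓞 F) (hm : m ≠ 0) : (L8.FR.IO (Ideal.span {m})).relIndex (OK F) ≠ 0 := by
  rw [← b7c_OO, L8.FR.IO_index]
  intro h
  rw [Ideal.absNorm_eq_zero_iff, Ideal.span_singleton_eq_bot] at h
  exact hm h

/-- The elements of `FO Q i` are fixed by the stabiliser. -/
theorem b7c_fix (x : FO Q i) {σ : L ≃ₐ[K] L} (hσ : σ ∈ StQ Q i) : σ (x : L) = x := x.2 ⟨σ, hσ⟩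

theorem b7c_inv {σ : L ≃ₐ[K] L} (hσ : σ ∉ StQ Q i) : σ⁻¹ ∉ StQ Q i := fun h => hσ (by simpa using inv_mem h)

theorem b7c_s0 (h : AdQ Q i j) {σ₀ : L ≃ₐ[K] L} (hσ₀ : σ₀ ∉ StQ Q i) (x : FO Q i) {σ : L ≃ₐ[K] L} (hσ : σ ∈ StQ Q i) : σ (σ₀ (x : L)) = σ₀ (x : L) := by
  have h1 : σ * σ₀ ∉ StQ Q i := fun h2 => hσ₀ ((Subgroup.mul_mem_cancel_left _ hσ).1 h2)
  have h2 : σ₀⁻¹ * (σ * σ₀) ∈ StQ Q i := h.mul_mem (b7c_inv hσ₀) h1
  have h3 := b7c_fix x h2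
  have h4 : σ₀ ((σ₀⁻¹ * (σ * σ₀)) (x : L)) = σ (σ₀ (x : L)) := by
    show (σ₀ * (σ₀⁻¹ * (σ * σ₀))) (x : L) = (σ * σ₀) (x : L)
    rw [mul_inv_cancel_left]
  rw [← h4, h3]

/-- PROOF. `rq_val`, and the coordinate `fc i` of an integral element is integral (`H29F.Gk` field `c_O`, or the definition of `fc` as an entry up to a unit), `𝓞 (FO Q i)`: an element of `FO Q i` which is integral in `L` is integral. -/
theorem rI_le [IsGalois K L] (h : AdQ Q i j) {θ : L} (hθ : IsTh Q i θ) : rI (cor_q h hθ) (AqI Q i) ≤ OK (FO Q i) := by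
  rintro x ⟨u, hu, rfl⟩
  obtain ⟨y, hy⟩ := b7c_fc i ((b7c_mem u).1 hu)
  exact b7c_int _ y ((rq_val h u).trans hy)

/-- PROOF. `rI ⊇ 2 𝓞`: for `x' ∈ 𝓞 (FO Q i)` let `x = 2 x'`, `s = -2 x' σ₀ x'`; `σ₀ s = s = -s - x σ₀ x` (`σ₀ σ₀ x' = x'`: `AdQ.mul_mem`), `xq_mk`, `uO_G1`, `fc_uO_i`. The index of `2 𝓞` in `𝓞` is finite (e.g. `FR.mlt`, `FR.IO_index` with `I = span {2}`: absNorm is not zero; `OO K` and `OK K` are the same groups). -/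
theorem rI_fin [IsGalois K L] (h : AdQ Q i j) {θ : L} (hθ : IsTh Q i θ) : (rI (cor_q h hθ) (AqI Q i)).relIndex (OK (FO Q i)) ≠ 0 := by
  have key : L8.FR.IO (Ideal.span {(2 : 𝓞 ↥(FO Q i))}) ≤ rI (cor_q h hθ) (AqI Q i) := by
    rintro x ⟨z, hz, rfl⟩
    obtain ⟨x', rfl⟩ := Ideal.mem_span_singleton'.1 hz
    obtain ⟨σ₀, hσ₀⟩ := h.exs
    obtain ⟨a, ha⟩ := b7c_up (L := L) x'
    obtain ⟨c, hc⟩ := b7c_si σ₀ a
    have ha' : (a : L) = ((x' : ↥(FO Q i)) : L) := ha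
    have h00 : σ₀ (c : L) = (a : L) := by
      have h1 : σ₀ * σ₀ ∈ StQ Q i := h.mul_mem hσ₀ hσ₀
      have h2 := b7c_fix (x' : ↥(FO Q i)) h1
      rw [hc, ha']
      exact h2
    have hX : ((((x' * 2 : 𝓞 ↥(FO Q i)) : ↥(FO Q i))) : L) = ((a * 2 : 𝓞 L) : L) := by
      rw [b7c_cm, b7c_cm, b7c_c2, b7c_c2, ha']
      rfl
    have hX2 : σ₀ ((((x' * 2 : 𝓞 ↥(FO Q i)) : ↥(FO Q i))) : L) = ((c * 2 : 𝓞 L) : L) := by
      rw [hX, b7c_cm, b7c_cm, b7c_c2, map_mul, map_ofNat, hc]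
    have hmem : uO b i j ((((x' * 2 : 𝓞 ↥(FO Q i)) : ↥(FO Q i))) : L) ((-(2 * (a * c)) : 𝓞 L) : L) (σ₀ ((((x' * 2 : 𝓞 ↥(FO Q i)) : ↥(FO Q i))) : L)) ∈ Xq Q i := by
      refine xq_mk h hσ₀ _ _ (fun σ hσ => ?_) ?_
      · have h1 : σ (a : L) = a := by
          rw [ha']
          exact b7c_fix _ hσ
        have h2 : σ (c : L) = c := by
          rw [hc, ha']
          exact b7c_s0 h hσ₀ _ hσ
        simp only [map_neg, map_mul, map_ofNat, h1, h2]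
      · rw [hX2, hX]
        simp only [map_neg, map_mul, map_ofNat, h00, ← hc]
        ring
    refine ⟨⟨_, hmem⟩, (b7c_mem _).2 ?_, ?_⟩
    · show uO b i j _ _ _ ∈ _
      rw [hX2, hX]
      exact uO_G1 i j _ _ _
    · refine Subtype.ext ?_
      rw [rq_val h]
      show fc i (uO b i j _ _ _) = _
      rw [fc_uO_i h.adj]
      rfl
  exact ne_zero_of_dvd_ne_zero (b7c_idx (2 : 𝓞 ↥(FO Q i)) two_ne_zero) (AddSubgroup.relIndex_dvd_of_le_left _ key)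

/-- PROOF. `uO 0 (θ t) 0 ∈ G1 b ⊤` for `t ∈ 𝓞 K` (`θ` is integral), `xq_mk` with `x = 0`. -/
theorem sI_ge [IsGalois K L] (h : AdQ Q i j) {θ : L} (hθ : IsTh Q i θ) : OK K ≤ sI (cor_q h hθ) (AqI Q i) := by
  rintro _ ⟨t, rfl⟩
  obtain ⟨o, ho⟩ := hθ.int
  obtain ⟨σ₀, hσ₀⟩ := h.exs
  obtain ⟨a, ha⟩ := b7c_up (L := L) t
  have hz : ((0 : ↥(FO Q i)) : L) = 0 := rfl
  have hmem : uO b i j ((0 : ↥(FO Q i)) : L) (θ * algebraMap K L (t : K)) (σ₀ ((0 : ↥(FO Q i)) : L)) ∈ Xq Q i := by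
    refine xq_mk h hσ₀ _ _ (fun σ hσ => ?_) ?_
    · rw [map_mul, hθ.st σ hσ, AlgEquiv.commutes]
    · rw [map_mul, hθ.nst σ₀ hσ₀, AlgEquiv.commutes, hz]
      ring
  have hr : rq Q i ⟨_, hmem⟩ = 0 := by
    refine Subtype.ext ?_
    rw [rq_val h]
    exact fc_uO_i h.adj _ _ _
  refine ⟨⟨_, hmem⟩, (b7c_mem _).2 ?_, hr, ?_⟩
  · show uO b i j _ _ _ ∈ _
    have e0 : ((0 : ↥(FO Q i)) : L) = ((0 : 𝓞 L) : L) := by simp
    have e1 : θ * algebraMap K L (t : K) = ((o * a : 𝓞 L) : L) := by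
      rw [b7c_cm, ho, ha]
    have e2 : σ₀ ((0 : 𝓞 L) : L) = ((0 : 𝓞 L) : L) := by simp
    rw [e0, e1, e2]
    exact uO_G1 i j _ _ _
  · have h1 := xq_zero h hθ ⟨_, hmem⟩ hr
    have h2 : so b i j (uO b i j ((0 : ↥(FO Q i)) : L) (θ * algebraMap K L (t : K)) (σ₀ ((0 : ↥(FO Q i)) : L))) = θ * algebraMap K L (t : K) := so_uO h.adj _ _ _
    have h3 : θ * algebraMap K L (t : K) = θ * algebraMap K L (tq Q i j θ ⟨_, hmem⟩) := h2.symm.trans h1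
    exact (algebraMap K L).injective (mul_left_cancel₀ hθ.ne h3).symm

theorem b7c_den {θ : L} (hθ : θ ≠ 0) : ∃ (m : ℤ) (y : 𝓞 L), m ≠ 0 ∧ (m : L) = (y : L) * θ := by
  obtain ⟨m, hm, hi⟩ := ((IsFractionRing.isAlgebraic_iff ℤ ℚ L).2 (Algebra.IsAlgebraic.isAlgebraic (R := ℚ) θ⁻¹)).exists_integral_multiple
  refine ⟨m, ⟨m • θ⁻¹, hi⟩, hm, ?_⟩
  show (m : L) = (m • θ⁻¹) * θ
  rw [zsmul_eq_mul, mul_assoc, inv_mul_cancel₀ hθ, mul_one]

/-- PROOF. If `u ∈ AqI Q i`, `rq u = 0` then `u = xt b i j (-s)` with `s = θ t`, `n_i⁻¹ u n_i = x_j(-s) ∈ G1 b ⊤`, so `s` is integral (`fc j`, `fc_x`). Let `m` be a positive integer with `m / θ` integral (`θ` divides its norm; or `m θ⁻¹` integral by `exists_integral_multiple`): `m t = (m / θ) s` is integral, so `sI ≤ m⁻¹ 𝓞 K`, and `[m⁻¹ 𝓞 : 𝓞] = [𝓞 : m 𝓞]` is finite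
(`FR.mlt_index`, `FR.IO_index`). -/
theorem sI_fin [IsGalois K L] (h : AdQ Q i j) {θ : L} (hθ : IsTh Q i θ) : (OK K).relIndex (sI (cor_q h hθ) (AqI Q i)) ≠ 0 := by
  obtain ⟨m, y, hm, hy⟩ := b7c_den hθ.ne
  have hmK : (m : K) ≠ 0 := by exact_mod_cast hm
  have hmO : (m : 𝓞 K) ≠ 0 := by exact_mod_cast hm
  have hint : ∀ t ∈ sI (cor_q h hθ) (AqI Q i), (m : K) * t ∈ OK K := by
    rintro t ⟨u, hu, hr, rfl⟩
    have hG := (b7c_mem u).1 hu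
    obtain ⟨σ₀, hσ₀⟩ := h.exs
    have h1 := xq_coord h hσ₀ u
    have h2 := xq_zero h hθ u hr
    rw [hr] at h1
    have h3 : (u : GK b L) = xt b i j (-(θ * algebraMap K L (tq Q i j θ u))) := by
      rw [h1, h2]
      unfold uO
      have e1 : ((0 : ↥(FO Q i)) : L) = 0 := rfl
      rw [e1, map_zero, FI.fx_zero, FI.fx_zero, one_mul, mul_one]
    have h4 : fx b (j : ι) (-(θ * algebraMap K L (tq Q i j θ u))) ∈ G1 b (⊤ : Ideal (𝓞 L)) := by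
      have e1 : fx b (j : ι) (-(θ * algebraMap K L (tq Q i j θ u))) = (fn b L i)⁻¹ * (u : GK b L) * fn b L i := by
        rw [h3]
        unfold xt
        group
      rw [e1]
      exact mul_mem (mul_mem (inv_mem (b7c_n i)) hG) (b7c_n i)
    obtain ⟨z, hz⟩ := b7c_fc j h4
    rw [FI.fc_x] at hz
    refine b7c_intK _ (-(y * z)) ?_
    rw [map_mul, map_intCast, hy, b7c_cn, b7c_cm, ← hz]
    ring
  have hle : sI (cor_q h hθ) (AqI Q i) ≤ (OK K).map (L8.FR.mlt (m : K)⁻¹) := by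
    intro t ht
    refine ⟨(m : K) * t, hint t ht, ?_⟩
    show (m : K)⁻¹ * ((m : K) * t) = t
    rw [inv_mul_cancel_left₀ hmK]
  have hidx : (OK K).relIndex ((OK K).map (L8.FR.mlt (m : K)⁻¹)) ≠ 0 := by
    have e1 : (OK K) = (L8.FR.IO (Ideal.span {(m : 𝓞 K)})).map (L8.FR.mlt (m : K)⁻¹) := by
      ext x
      constructor
      · rintro ⟨z, rfl⟩
        refine ⟨((m * z : 𝓞 K) : K), ⟨m * z, Ideal.mul_mem_right _ _ (Ideal.mem_span_singleton_self _), rfl⟩, ?_⟩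
        show (m : K)⁻¹ * ((m * z : 𝓞 K) : K) = (z : K)
        rw [b7c_cm, b7c_ci, inv_mul_cancel_left₀ hmK]
      · rintro ⟨_, ⟨w, hw, rfl⟩, rfl⟩
        obtain ⟨z, rfl⟩ := Ideal.mem_span_singleton'.1 hw
        refine ⟨z, ?_⟩
        show (z : K) = (m : K)⁻¹ * ((z * (m : 𝓞 K) : 𝓞 K) : K)
        rw [b7c_cm, b7c_ci, mul_comm (z : K), inv_mul_cancel_left₀ hmK]
    have e2 := L8.FR.mlt_index (inv_ne_zero hmK) (L8.FR.IO (Ideal.span {(m : 𝓞 K)})) (OK K)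
    rw [← e1] at e2
    rw [e2]
    exact b7c_idx _ hmO
  exact fun h0 => hidx (AddSubgroup.relIndex_eq_zero_of_le_right hle h0)

end

end Pool.Agent.Lib.L8.HS
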