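import Pool.Agent.Lib.L8.HS.B2
import Pool.Agent.Lib.L8.FI.G2

/-!
# HS, chunk B8 (M): the functions `f_e` for the letter
-/

namespace Pool.Agent.Lib.L8.HS

open Matrix NumberField IsDedekindDomain Pool.Agent.Lib.H89N Pool.Agent.Lib.L1S
open Pool.Agent.Lib.L8.FI (fx fn fh)
open Pool.Agent.Lib.L8.FL (av aI Gv Kv Ah TK tv PJ G1 Chi nW wW Uw fe se mu xe eW PosW)

noncomputable section

set_option linter.unusedSectionVars false

variable {ι M N : Type} [Fintype ι] [DecidableEq ι] [AddCommGroup M] [Module ℚ M] [AddCommGroup N] [Module ℚ N]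
  {P : RootPairing ι ℚ M N} [P.IsCrystallographic] [P.IsReduced] [P.IsIrreducible] [P.IsRootSystem] {b : P.Base} {K : Type} [Field K] [NumberField K]

theorem b8_xe (i k : b.support) (e : b.support → ℝ) : xe b (se b i e) k = xe b e k - mu b e i * (b.cartanMatrix i k : ℝ) := by
  have h : ∀ l, se b i e l * (b.cartanMatrix l k : ℝ) = e l * (b.cartanMatrix l k : ℝ) - (if l = i then mu b e i * (b.cartanMatrix l k : ℝ) else 0) := by
    intro l
    unfold se
    split_ifs with h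
    · ring
    · ring
  unfold xe
  rw [Finset.sum_congr rfl fun l _ => h l, Finset.sum_sub_distrib, Finset.sum_ite_eq', if_pos (Finset.mem_univ i)]

theorem b8_mu (i k : b.support) (e : b.support → ℝ) : mu b (se b i e) k = mu b e k - mu b e i * (b.cartanMatrix i k : ℝ) := by
  have h := b8_xe i k e
  have h1 : mu b (se b i e) k = xe b (se b i e) k - 1 := rfl
  have h2 : mu b e k = xe b e k - 1 := rfl
  rw [h1, h2, h]
  ring

theorem b8_afin (i j : b.support) (z : GK b K) : {w : HeightOneSpectrum (𝓞 K) | Ah b w z i * Ah b w z j ≠ 1}.Finite := by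
  refine ((FI.Ah_fin b z i).union (FI.Ah_fin b z j)).subset ?_
  intro w hw
  by_contra h
  simp only [Set.mem_union, Set.mem_ofPred_eq, not_or, not_not] at h
  apply hw
  rw [h.1, h.2, one_mul]

/-- PROOF. `xe b (se b i e) k = xe b e k - mu b e i * cartan i k` (only `e i` changes), `cartanMatrix i j = pairingIn i j = -1`, `cartanMatrix i i = 2`: `mu (se i e) j = mu e j + mu e i`, `mu (se i e) i = - mu e i`, `mu (se j (se i e)) i = mu (se i e) i + mu (se i e) j`. -/
theorem mu_two {i j : b.support} (h : Adj b i j) {e : b.support → ℝ} (hm : mu b e j = mu b e i) : mu b (se b i e) j = 2 * mu b e i ∧ mu b (se b j (se b i e)) i = mu b e i := by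
  have h1 : mu b (se b i e) j = 2 * mu b e i := by
    have h2 := b8_mu i j e
    rw [b2_cm_ij h, hm] at h2
    rw [h2]
    push_cast
    ring
  refine ⟨h1, ?_⟩
  rw [b8_mu j i (se b i e), h1, b8_mu i i e, RootPairing.Base.cartanMatrix_apply_same, b2_cm_ji h]
  push_cast
  ring

/-- PROOF. `eW b e [i, j, i] = se i (se j (se i e))`, `FI.fe_se` three times, `mu_two`; `∏ᶠ (A_i A_j) = ∏ᶠ A_i * ∏ᶠ A_j` (`finprod_mul_distrib` with `FI.Ah_fin`), `Real.mul_rpow`, `Real.rpow_add`. -/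
theorem fe_eW {i j : b.support} (h : Adj b i j) {e : b.support → ℝ} (hm : mu b e j = mu b e i) (z : GK b K) :
    fe b (eW b e [i, j, i]) z = fe b e z * (∏ᶠ w : HeightOneSpectrum (𝓞 K), Ah b w z i * Ah b w z j) ^ (-(2 * mu b e i)) := by
  have h1 : eW b e [i, j, i] = se b i (se b j (se b i e)) := rfl
  have hpi : 0 < ∏ᶠ w : HeightOneSpectrum (𝓞 K), Ah b w z i := FI.g2_pos fun w => FI.Ah_pos b w z i
  have hpj : 0 < ∏ᶠ w : HeightOneSpectrum (𝓞 K), Ah b w z j := FI.g2_pos fun w => FI.Ah_pos b w z j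
  rw [h1, FI.fe_se, FI.fe_se, FI.fe_se, (mu_two h hm).2, (mu_two h hm).1, finprod_mul_distrib (FI.Ah_fin b z i) (FI.Ah_fin b z j),
    Real.mul_rpow hpi.le hpj.le]
  have h2 : (∏ᶠ w : HeightOneSpectrum (𝓞 K), Ah b w z i) ^ (-(2 * mu b e i)) = (∏ᶠ w : HeightOneSpectrum (𝓞 K), Ah b w z i) ^ (-mu b e i) * (∏ᶠ w : HeightOneSpectrum (𝓞 K), Ah b w z i) ^ (-mu b e i) := by
    rw [← Real.rpow_add hpi]
    congr 1
    ring
  rw [h2]
  ring

/-- One place. -/
theorem b8_place (w : HeightOneSpectrum (𝓞 K)) {i j : b.support} (h : Adj b i j) {e : b.support → ℝ} (hm : mu b e j = mu b e i) (z : GK b K) (x s y : K) :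
    ∏ k, Ah b w (hz i j z x s y) k ^ (e k) = (∏ k, Ah b w z k ^ (e k)) * (Ah b w z i * Ah b w z j) ^ (2 * -(1 + mu b e i)) *
      (dd w j i z (hz i j z x s y) * dd w i j z (hz i j z x s y)) ^ (-(1 + mu b e i)) := by
  have ha : 0 < Ah b w z i * Ah b w z j := mul_pos (FI.Ah_pos b w z i) (FI.Ah_pos b w z j)
  have hd1 : 0 < dd w j i z (hz i j z x s y) := lt_of_lt_of_le one_pos (dd_i_one w h z x s y)
  have hd2 : 0 < dd w i j z (hz i j z x s y) := lt_of_lt_of_le one_pos (dd_j_one w h z x s y)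
  obtain ⟨d1, e1⟩ : ∃ d1, d1 = dd w j i z (hz i j z x s y) := ⟨_, rfl⟩
  obtain ⟨d2, e2⟩ : ∃ d2, d2 = dd w i j z (hz i j z x s y) := ⟨_, rfl⟩
  obtain ⟨a, ea⟩ : ∃ a, a = Ah b w z i * Ah b w z j := ⟨_, rfl⟩
  have key : ∀ k, Ah b w (hz i j z x s y) k ^ (e k) = Ah b w z k ^ (e k) * (a * d1) ^ (-((b.cartanMatrix k i : ℤ) : ℝ) * e k) * (a * d2) ^ (-((b.cartanMatrix k j : ℤ) : ℝ) * e k) := by
    intro k
    have hX : 0 < a * d1 := by rw [ea, e1]; exact mul_pos ha hd1
    have hY : 0 < a * d2 := by rw [ea, e2]; exact mul_pos ha hd2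
    rw [Ah_hz w h, ← e1, ← e2, ← ea, Real.mul_rpow (mul_pos (FI.Ah_pos b w z k) (zpow_pos hX _)).le (zpow_pos hY _).le,
      Real.mul_rpow (FI.Ah_pos b w z k).le (zpow_pos hX _).le, ← Real.rpow_intCast, ← Real.rpow_intCast, ← Real.rpow_mul hX.le, ← Real.rpow_mul hY.le]
    push_cast
    rfl
  have hX : 0 < a * d1 := by rw [ea, e1]; exact mul_pos ha hd1
  have hY : 0 < a * d2 := by rw [ea, e2]; exact mul_pos ha hd2
  have ha' : 0 < a := ea ▸ ha
  have hsum : ∀ l : b.support, ∑ k, -((b.cartanMatrix k l : ℤ) : ℝ) * e k = -(1 + mu b e l) := by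
    intro l
    have h1 : mu b e l = xe b e l - 1 := rfl
    rw [h1]
    unfold xe
    rw [Finset.sum_congr rfl fun k _ => (by ring : -((b.cartanMatrix k l : ℤ) : ℝ) * e k = -(e k * ((b.cartanMatrix k l : ℤ) : ℝ))), Finset.sum_neg_distrib]
    ring
  rw [Finset.prod_congr rfl fun k _ => key k, Finset.prod_mul_distrib, Finset.prod_mul_distrib, ← Real.rpow_sum_of_pos hX, ← Real.rpow_sum_of_pos hY,
    hsum, hsum, hm, ← ea, ← e1, ← e2, mul_assoc, ← Real.mul_rpow hX.le hY.le]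
  have h3 : a * d1 * (a * d2) = (a * a) * (d1 * d2) := by ring
  have h4 : a ^ (2 * -(1 + mu b e i)) = (a * a) ^ (-(1 + mu b e i)) := by
    rw [Real.mul_rpow ha'.le ha'.le, ← Real.rpow_add ha']
    congr 1
    ring
  rw [h3, h4, Real.mul_rpow (mul_pos ha' ha').le (mul_pos (e1 ▸ hd1) (e2 ▸ hd2)).le]
  ring

/-- **The function `f_e` of the letter.** PROOF. `Ah_hz`: for every place `∏_k Ah g k ^ e_k = (∏_k Ah z k ^ e_k) (a d₁) ^ (-xe e i) (a d₂) ^ (-xe e j)` (`a = A_i A_j`, `xe e i = ∑_k e_k cartan k i`, `Real.rpow` of a `zpow`: `Real.rpow_intCast`), `xe = 1 + mu`, `mu e j = mu e i`; the product over all places (`dd_fin`, `Ah_fin`); and `fe_eW`. -/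
theorem fe_hz {i j : b.support} (h : Adj b i j) {e : b.support → ℝ} (hm : mu b e j = mu b e i) (z : GK b K) (x s y : K) :
    fe b e (hz i j z x s y) = fe b (eW b e [i, j, i]) z * (∏ᶠ w : HeightOneSpectrum (𝓞 K), Ah b w z i * Ah b w z j) ^ (-(2 : ℝ)) *
      (∏ᶠ w : HeightOneSpectrum (𝓞 K), dd w j i z (hz i j z x s y) * dd w i j z (hz i j z x s y)) ^ (-(1 + mu b e i)) := by
  have hA : ∀ w : HeightOneSpectrum (𝓞 K), 0 < Ah b w z i * Ah b w z j := fun w => mul_pos (FI.Ah_pos b w z i) (FI.Ah_pos b w z j)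
  have hD : ∀ w : HeightOneSpectrum (𝓞 K), 0 < dd w j i z (hz i j z x s y) * dd w i j z (hz i j z x s y) := fun w =>
    mul_pos (lt_of_lt_of_le one_pos (dd_i_one w h z x s y)) (lt_of_lt_of_le one_pos (dd_j_one w h z x s y))
  have hDf : {w : HeightOneSpectrum (𝓞 K) | dd w j i z (hz i j z x s y) * dd w i j z (hz i j z x s y) ≠ 1}.Finite := by
    refine ((dd_fin j i z (hz i j z x s y)).union (dd_fin i j z (hz i j z x s y))).subset ?_
    intro w hw
    by_contra hc
    simp only [Set.mem_union, Set.mem_ofPred_eq, not_or, not_not] at hc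
    apply hw
    rw [hc.1, hc.2, one_mul]
  have hPf : (Function.mulSupport fun w : HeightOneSpectrum (𝓞 K) => ∏ k, Ah b w z k ^ (e k)).Finite := by
    refine (Set.finite_iUnion fun k => FI.Ah_fin b z k).subset ?_
    intro w hw
    by_contra hc
    simp only [Set.mem_iUnion, Set.mem_ofPred_eq, not_exists, not_not] at hc
    apply hw
    exact Finset.prod_eq_one fun k _ => by rw [hc k, Real.one_rpow]
  have hrf : ∀ (A : HeightOneSpectrum (𝓞 K) → ℝ) (p : ℝ), {w | A w ≠ 1}.Finite → (Function.mulSupport fun w => A w ^ p).Finite := by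
    intro A p hf
    refine hf.subset fun w hw hc => hw ?_
    show A w ^ p = 1
    rw [hc, Real.one_rpow]
  have hAf := b8_afin i j z
  have hAp : 0 < ∏ᶠ w : HeightOneSpectrum (𝓞 K), Ah b w z i * Ah b w z j := FI.g2_pos hA
  have hmul : (Function.mulSupport fun w : HeightOneSpectrum (𝓞 K) => (∏ k, Ah b w z k ^ (e k)) * (Ah b w z i * Ah b w z j) ^ (2 * -(1 + mu b e i))).Finite := by
    refine (hPf.union (hrf _ (2 * -(1 + mu b e i)) hAf)).subset ?_
    exact Function.mulSupport_mul _ _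
  have hL : fe b e (hz i j z x s y) = fe b e z * (∏ᶠ w : HeightOneSpectrum (𝓞 K), Ah b w z i * Ah b w z j) ^ (2 * -(1 + mu b e i)) *
      (∏ᶠ w : HeightOneSpectrum (𝓞 K), dd w j i z (hz i j z x s y) * dd w i j z (hz i j z x s y)) ^ (-(1 + mu b e i)) := by
    have h1 : fe b e (hz i j z x s y) = ∏ᶠ w : HeightOneSpectrum (𝓞 K), ((∏ k, Ah b w z k ^ (e k)) * (Ah b w z i * Ah b w z j) ^ (2 * -(1 + mu b e i)) *
      (dd w j i z (hz i j z x s y) * dd w i j z (hz i j z x s y)) ^ (-(1 + mu b e i))) := finprod_congr fun w => b8_place w h hm z x s y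
    rw [h1, finprod_mul_distrib hmul (hrf _ _ hDf), finprod_mul_distrib hPf (hrf _ _ hAf), FI.g2_rpow hA hAf, FI.g2_rpow hD hDf]
    rfl
  rw [hL, fe_eW h hm]
  have h5 : (∏ᶠ w : HeightOneSpectrum (𝓞 K), Ah b w z i * Ah b w z j) ^ (2 * -(1 + mu b e i)) =
      (∏ᶠ w : HeightOneSpectrum (𝓞 K), Ah b w z i * Ah b w z j) ^ (-(2 * mu b e i)) * (∏ᶠ w : HeightOneSpectrum (𝓞 K), Ah b w z i * Ah b w z j) ^ (-(2 : ℝ)) := by
    rw [← Real.rpow_add hAp]
    congr 1
    ring
  rw [h5]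
  ring

/-- PROOF. Definition of `PosW`. -/
theorem posW_mu {κ : ℝ} {e : b.support → ℝ} {i j : b.support} (h : PosW b κ e [i, j, i]) : κ ≤ mu b e i := h.2.2.1

/-- Equal contents mean equal heights. PROOF. `Ah_hz` (the heights are determined by the contents). -/
theorem Ah_eqc (w : HeightOneSpectrum (𝓞 K)) {i j : b.support} (h : Adj b i j) (z : GK b K) (x s y x' s' y' : K) (e₁ : dd w j i z (hz i j z x' s' y') = dd w j i z (hz i j z x s y)) (e₂ : dd w i j z (hz i j z x' s' y') = dd w i j z (hz i j z x s y)) (k : b.support) :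
    Ah b w (hz i j z x' s' y') k = Ah b w (hz i j z x s y) k := by
  rw [Ah_hz w h, Ah_hz w h, e₁, e₂]

/-- The contents depend only on the heights. -/
theorem dd_congr (w : HeightOneSpectrum (𝓞 K)) {i j : b.support} {z g g' : GK b K} (e : ∀ k, Ah b w g' k = Ah b w g k) : dd w i j z g' = dd w i j z g := by
  unfold dd Ph
  rw [e, e]

end

end Pool.Agent.Lib.L8.HS
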