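import Pool.Agent.Lib.L8.HS.A0
import Pool.Agent.Lib.L8.HS.B5
import Pool.Agent.Lib.L8.HS.B7C
import Pool.Agent.Lib.L8.HS.B8

/-!
# HS, chunk B9 (M/L): the letter group is a Heisenberg letter
-/

namespace Pool.Agent.Lib.L8.HS

open Matrix NumberField IsDedekindDomain Pool.Agent.Lib.H89N Pool.Agent.Lib.L1S Pool.Agent.Lib.L8.QF Pool.Agent.Lib.H29Q
open Pool.Agent.Lib.L8.FI (fx fn fh fc)
open Pool.Agent.Lib.L8.FL (av aI Gv Kv Ah TK tv PJ G1 Chi nW wW Uw RedW)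
open Pool.Agent.Lib.H29F (OK gi agi)

noncomputable section

set_option linter.unusedSectionVars false

variable {ι M N : Type} [Fintype ι] [DecidableEq ι] [AddCommGroup M] [Module ℚ M] [AddCommGroup N] [Module ℚ N]
  {P : RootPairing ι ℚ M N} [P.IsCrystallographic] [P.IsReduced] [P.IsIrreducible] [P.IsRootSystem] {b : P.Base}
  {K L : Type} [Field K] [NumberField K] [Field L] [NumberField L] [Algebra K L] {Q : QS b K L} {i j : b.support}

/-- The content for the letter `i`. -/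
def c₁ (Q : QS b K L) (i j : b.support) (z : GK b L) (w : HeightOneSpectrum (𝓞 L)) (u : ↥(Xq Q i)) : ℝ := dd w j i z (nq Q i * (u : GK b L) * z)

/-- The content for the letter `j`. -/
def c₂ (Q : QS b K L) (i j : b.support) (z : GK b L) (w : HeightOneSpectrum (𝓞 L)) (u : ↥(Xq Q i)) : ℝ := dd w i j z (nq Q i * (u : GK b L) * z)

/-- The elements of the letter group with the level conditions. -/
def XL (Q : QS b K L) (i : b.support) (𝔫 : Ideal (𝓞 K)) (z : GK b L) : Set ↥(Xq Q i) := {u | ∀ k ∈ orb Q i, Chi b (up L 𝔫) k (nq Q i * (u : GK b L) * z)}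

/-- **The Galois group and the contents.** PROOF. `exists_trn` for `L / K` and `eq3_place` (`aw` and `av` are the same) give `σ` with `w' = spl σ w`. `g = nq Q i * u * z ∈ HF Q` (`nq_HF`, `hz`), so `Ah b (spl σ w) g (σ k) = Ah b w g k` and the same for `z` (`Ah_Fx`). `σ ∈ StQ Q i`: `σ i = i`, `σ j = j`
(`AdQ.sp_st`): first case. Else `σ i = j`, `σ j = i`: second case. (`dd`, `Ph` only depend on `Ah z i`, `Ah z j`, `Ah g i`, `Ah g j`.) -/
theorem c_eqv [IsGalois K L] (h : AdQ Q i j) {z : GK b L} (hz : z ∈ HF Q) (w w' : HeightOneSpectrum (𝓞 L)) (hw : CFT.below K w = CFT.below K w') :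
    (∀ u, c₁ Q i j z w' u = c₁ Q i j z w u ∧ c₂ Q i j z w' u = c₂ Q i j z w u) ∨ (∀ u, c₁ Q i j z w' u = c₂ Q i j z w u ∧ c₂ Q i j z w' u = c₁ Q i j z w u) := by
  obtain ⟨σ, hσ⟩ := exists_trn (E := K) hw
  have hσ' : ∀ x : L, av w' (σ x) = av w x := hσ
  obtain rfl := eq3_place hσ'
  have hg : ∀ u : ↥(Xq Q i), nq Q i * (u : GK b L) * z ∈ HF Q := fun u =>
    (HF Q).mul_mem ((HF Q).mul_mem (nq_HF h) u.2.2) hz
  by_cases hs : σ ∈ StQ Q i
  · left
    have e : ∀ g ∈ HF Q, Ah b (spl σ w) g i = Ah b w g i ∧ Ah b (spl σ w) g j = Ah b w g j := by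
      intro g hg
      have h1 := Ah_Fx hg.1 σ w i
      have h2 := Ah_Fx hg.1 σ w j
      rw [mem_StQ.1 hs] at h1
      rw [h.sp_st hs] at h2
      exact ⟨h1, h2⟩
    intro u
    obtain ⟨e1, e2⟩ := e _ (hg u)
    obtain ⟨e3, e4⟩ := e _ hz
    unfold c₁ c₂ dd Ph
    rw [e1, e2, e3, e4]
    exact ⟨rfl, rfl⟩
  · right
    have e : ∀ g ∈ HF Q, Ah b (spl σ w) g i = Ah b w g j ∧ Ah b (spl σ w) g j = Ah b w g i := by
      intro g hg
      have h1 := Ah_Fx hg.1 σ w i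
      have h2 := Ah_Fx hg.1 σ w j
      rw [h.sp_i hs] at h1
      rw [h.sp_j hs] at h2
      exact ⟨h2, h1⟩
    intro u
    obtain ⟨e1, e2⟩ := e _ (hg u)
    obtain ⟨e3, e4⟩ := e _ hz
    unfold c₁ c₂ dd Ph
    rw [e1, e2, e3, e4, mul_comm (Ah b w z j) (Ah b w z i)]
    exact ⟨rfl, rfl⟩

theorem b9_hz (h : AdQ Q i j) {σ₀ : L ≃ₐ[K] L} (hσ : σ₀ ∉ StQ Q i) (z : GK b L) (u : ↥(Xq Q i)) :
    nq Q i * (u : GK b L) * z = hz i j z (rq Q i u : L) (so b i j (u : GK b L)) (σ₀ (rq Q i u : L)) := by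
  rw [← nq_uO h, ← xq_coord h hσ u]

theorem b9_up {𝔫 : Ideal (𝓞 K)} (h : 𝔫 ≠ ⊥) : up L 𝔫 ≠ ⊥ := by
  have hinj : Function.Injective (algebraMap (𝓞 K) (𝓞 L)) := FaithfulSMul.algebraMap_injective _ _
  unfold up
  rw [Ne, Ideal.map_eq_bot_iff_of_injective hinj]
  exact h

/-- **The letter group is a Heisenberg letter.** PROOF. By fields. `r_mul .. mem_sB`: `cor_q`, definitions of `rI`, `sI`. `rB₁ .. sB₂`: `agi_cmp` with `A = AqI Q i`, `rI_le`, `rI_fin`, `sI_ge`, `sI_fin`. `XB`: the hypothesis `hB`, `FI.Chi_U`, `FI.Chi_right` (`up L 𝔫 ≠ ⊥`). `a₁_val ..`: `FI.Ah_val`, `FI.Ah_fin`. `d₁_val ..`: for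
`u = uO x s y` (`xq_coord`) and `nq_uO`: `dd_i_val`, `dd_j_val`, `dd_i_one`, `dd_j_one`, `dd_fin`. `dB`: `hB`, `FI.Ah_U`, `FI.Ah_G1` (`up L 𝔫 ≠ ⊥`), `dd_congr`. `eqv`: `c_eqv`. `est₁`: `dd_C1` and `|x - x'| = |x' - x|`; `est₂`: `dd_C1` for `(j, i)` with `hz_swap` (the first coordinate there is `y = σ₀ x`, `xq_coord`);
`est₃`: `pair_xy` (the heights agree by `Ah_eqc`; `aI w (up L 𝔫) = nu L 𝔫 w`: `H29F.aI_eq`), `estz`: `pair_s`, `tq_sub`, `|s' - s|`. -/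
theorem hh_q [IsGalois K L] (h : AdQ Q i j) {θ : L} (hθ : IsTh Q i θ) {σ₀ : L ≃ₐ[K] L} (hσ : σ₀ ∉ StQ Q i) {𝔫 : Ideal (𝓞 K)} (h𝔫 : 𝔫 ≠ ⊥) {z : GK b L} (hz : z ∈ HF Q) {B : Subgroup ↥(Xq Q i)} (h1 : (AqI Q i).relIndex B ≠ 0) (h2 : B.relIndex (AqI Q i) ≠ 0)
    (hB : ∀ β ∈ B, ∀ u : ↥(Xq Q i), ∃ v ∈ HU b L, ∃ γ ∈ G1 b (up L 𝔫), nq Q i * ((u : GK b L) * (β : GK b L)) * z = v * (nq Q i * (u : GK b L) * z) * γ)
    {T : Finset ↥(Xq Q i)} (hT : ∀ u ∈ T, ∀ u' ∈ T, u⁻¹ * u' ∈ B → u = u') (hTX : ∀ u ∈ T, u ∈ XL Q i 𝔫 z) :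
    HH K 𝔫 σ₀ θ (rq Q i) (tq Q i j θ) B (rI (cor_q h hθ) B) (sI (cor_q h hθ) B) T (XL Q i 𝔫 z) (fun w => Ah b w z i) (fun w => Ah b w z j) (c₁ Q i j z) (c₂ Q i j z) := by
  obtain ⟨k1, k2, k3, k4, -⟩ := agi_cmp (cor_q h hθ) (rI_le h hθ) (rI_fin h hθ) (sI_ge h hθ) (sI_fin h hθ) h1 h2
  have hup : up L 𝔫 ≠ ⊥ := b9_up h𝔫
  have hi : i ∈ QF.orb Q i := by
    rw [h.orb]
    exact Finset.mem_insert_self i _
  have hj : j ∈ QF.orb Q i := by
    rw [h.orb]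
    exact Finset.mem_insert_of_mem (Finset.mem_singleton_self j)
  have hE : ∀ u u' : ↥(Xq Q i), Eqc (c₁ Q i j z) (c₂ Q i j z) u u' → ∀ w k, Ah b w (nq Q i * (u' : GK b L) * z) k = Ah b w (nq Q i * (u : GK b L) * z) k := by
    intro u u' he w k
    obtain ⟨e1, e2⟩ := he w
    unfold c₁ at e1
    unfold c₂ at e2
    rw [b9_hz h hσ, b9_hz h hσ] at e1 e2 ⊢
    exact Ah_eqc w h.adj z _ _ _ _ _ _ e1.symm e2.symm k
  exact {
    n0 := h𝔫
    r_mul := (cor_q h hθ).r_mul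
    s_mul := (cor_q h hθ).s_mul
    s_inj := (cor_q h hθ).s_inj
    mem_rB := fun x => Iff.rfl
    mem_sB := fun x => Iff.rfl
    rB₁ := k1
    rB₂ := k2
    sB₁ := k3
    sB₂ := k4
    inc := hT
    TX := hTX
    XB := by
      intro u hu β hβ k hk
      obtain ⟨v, hv, γ, hγ, e⟩ := hB β hβ u
      show Chi b (up L 𝔫) k (nq Q i * ((u : GK b L) * (β : GK b L)) * z)
      rw [e, FI.Chi_right b hup hγ, FI.Chi_U b hv]
      exact hu k hk
    a₁_val := fun w => FI.Ah_val b w z i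
    a₂_val := fun w => FI.Ah_val b w z j
    a₁_fin := FI.Ah_fin b z i
    a₂_fin := FI.Ah_fin b z j
    d₁_val := by
      intro w u
      unfold c₁
      rw [b9_hz h hσ]
      exact dd_i_val w h.adj z _ _ _
    d₂_val := by
      intro w u
      unfold c₂
      rw [b9_hz h hσ]
      exact dd_j_val w h.adj z _ _ _
    d₁_one := by
      intro w u
      unfold c₁
      rw [b9_hz h hσ]
      exact dd_i_one w h.adj z _ _ _
    d₂_one := by
      intro w u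
      unfold c₂
      rw [b9_hz h hσ]
      exact dd_j_one w h.adj z _ _ _
    d₁_fin := fun u => dd_fin j i z _
    d₂_fin := fun u => dd_fin i j z _
    dB := by
      intro u β hβ w
      obtain ⟨v, hv, γ, hγ, e⟩ := hB β hβ u
      have e1 : ∀ k, Ah b w (nq Q i * ((u * β : ↥(Xq Q i)) : GK b L) * z) k = Ah b w (nq Q i * (u : GK b L) * z) k := by
        intro k
        show Ah b w (nq Q i * ((u : GK b L) * (β : GK b L)) * z) k = _
        rw [e, FI.Ah_G1 b w hup hγ, FI.Ah_U b w hv]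
      exact ⟨dd_congr w e1, dd_congr w e1⟩
    eqv := fun w w' hw => c_eqv h hz w w' hw
    est₁ := by
      intro u hu u' hu' he w
      obtain ⟨e1, e2⟩ := he w
      have h3 := dd_C1 w h.adj z (rq Q i u' : L) (so b i j (u' : GK b L)) (σ₀ (rq Q i u' : L)) (rq Q i u : L) (so b i j (u : GK b L)) (σ₀ (rq Q i u : L))
      rw [← b9_hz h hσ, ← b9_hz h hσ] at h3
      have h4 : dd w i j z (nq Q i * (u' : GK b L) * z) = dd w i j z (nq Q i * (u : GK b L) * z) := e2.symm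
      rw [h4, max_self] at h3
      exact h3
    est₂ := by
      intro u hu u' hu' he w
      obtain ⟨e1, e2⟩ := he w
      have h3 := dd_C1 w h.adj.symm z (σ₀ (rq Q i u' : L)) (-so b i j (u' : GK b L) - (rq Q i u' : L) * σ₀ (rq Q i u' : L)) (rq Q i u' : L)
        (σ₀ (rq Q i u : L)) (-so b i j (u : GK b L) - (rq Q i u : L) * σ₀ (rq Q i u : L)) (rq Q i u : L)
      rw [← hz_swap h.adj, ← hz_swap h.adj, ← b9_hz h hσ, ← b9_hz h hσ] at h3
      have h4 : dd w j i z (nq Q i * (u' : GK b L) * z) = dd w j i z (nq Q i * (u : GK b L) * z) := e1.symm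
      rw [h4, max_self, ← map_sub] at h3
      exact h3
    est₃ := by
      intro u hu u' hu' he w
      have a1 := hu i hi
      have a2 := hu j hj
      have a3 := hu' i hi
      have a4 := hu' j hj
      have a5 := hE u u' he w i
      have a6 := hE u u' he w j
      rw [b9_hz h hσ z u] at a1 a2 a5 a6
      rw [b9_hz h hσ z u'] at a3 a4 a5 a6
      have h3 := pair_xy w h.adj z _ _ _ _ _ _ a1 a2 a3 a4 a5 a6
      rw [← b9_hz h hσ z u, H29F.aI_eq, ← map_sub] at h3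
      exact h3
    estz := by
      intro u hu u' hu' he hr w
      have a2 := hu j hj
      have a4 := hu' j hj
      have a5 := hE u u' he w i
      have a6 := hE u u' he w j
      rw [b9_hz h hσ z u] at a2 a5 a6
      rw [b9_hz h hσ z u', ← hr] at a4 a5 a6
      have h3 := pair_s w h.adj z _ _ _ _ a2 a4 a5 a6
      rw [← b9_hz h hσ z u, H29F.aI_eq, ← tq_sub h hθ u u' hr] at h3
      exact h3 }

end

end Pool.Agent.Lib.L8.HS
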