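import Pool.Agent.Lib.L8.HS.A9
import Pool.Agent.Lib.L8.HS.B9
import Pool.Agent.Lib.H29Q.Defs

/-!
# HS, chunk B10: the rank one estimate for an adjacent pair
-/

namespace Pool.Agent.Lib.L8.HS

open Matrix NumberField IsDedekindDomain Pool.Agent.Lib.H89N Pool.Agent.Lib.L1S Pool.Agent.Lib.L8.QF Pool.Agent.Lib.H29Q
open Pool.Agent.Lib.L8.FI (fx fn fh fc)
open Pool.Agent.Lib.L8.FL (av aI Gv Kv Ah TK tv PJ G1 Chi nW wW Uw RedW mu xe eW PosW fe)
open Pool.Agent.Lib.H29F (OK gi agi)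

noncomputable section

set_option linter.unusedSectionVars false

variable {ι M N : Type} [Fintype ι] [DecidableEq ι] [AddCommGroup M] [Module ℚ M] [AddCommGroup N] [Module ℚ N]
  {P : RootPairing ι ℚ M N} [P.IsCrystallographic] [P.IsReduced] [P.IsIrreducible] [P.IsRootSystem] {b : P.Base}
  {K L : Type} [Field K] [NumberField K] [Field L] [NumberField L] [Algebra K L] {Q : QS b K L} {i j : b.support}

theorem mu_adQ (h : AdQ Q i j) {e : b.support → ℝ} (he : InvE Q e) : mu b e j = mu b e i := by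
  obtain ⟨σ, hσ⟩ := h.exs
  unfold FL.mu
  congr 1
  unfold FL.xe
  rw [← Equiv.sum_comp (Q.da σ).sp]
  refine Finset.sum_congr rfl fun k _ => ?_
  have h1 : b.cartanMatrix ((Q.da σ).sp k) j = b.cartanMatrix k i := by
    rw [← h.sp_i hσ]
    exact qx_pair_sp Q σ k i
  rw [he σ k, h1]

theorem up_top : up L (⊤ : Ideal (𝓞 K)) = ⊤ := by
  unfold up
  exact Ideal.map_top _

theorem aI_top (w : HeightOneSpectrum (𝓞 L)) : aI w (⊤ : Ideal (𝓞 L)) = 1 := by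
  unfold FL.aI
  have h : (Associates.mk (⊤ : Ideal (𝓞 L))) = 1 := by
    rw [← Ideal.one_eq_top]
    rfl
  rw [h, Associates.factors_one]
  have h2 : (Associates.mk w.asIdeal).count 0 = 0 := by
    unfold Associates.count
    rw [dif_pos w.associates_irreducible]
    rfl
  rw [h2]
  simp

theorem Chi_top (k : b.support) (g : GK b L) : Chi b (⊤ : Ideal (𝓞 L)) k g := fun w => FI.Chi_away b w (aI_top w) k g

/-- One term. -/
theorem term_q [IsGalois K L] (h : AdQ Q i j) {e : b.support → ℝ} (he : InvE Q e) (z : GK b L) (u : ↥(Xq Q i)) :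
    fe b e (nq Q i * (u : GK b L) * z) ^ df K L = fe b (eW b e (ow Q i)) z ^ df K L * (∏ᶠ w : HeightOneSpectrum (𝓞 L), Ah b w z i * Ah b w z j) ^ (-((2 : ℝ) / Module.finrank K L)) *
      (∏ᶠ w : HeightOneSpectrum (𝓞 L), c₁ Q i j z w u * c₂ Q i j z w u) ^ (-((1 + mu b e i) / Module.finrank K L)) := by
  obtain ⟨σ, hσ⟩ := h.exs
  have h1 : nq Q i * (u : GK b L) * z = hz i j z (rq Q i u : L) (so b i j (u : GK b L)) (σ (rq Q i u : L)) := by
    conv_lhs => rw [xq_coord h hσ u]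
    exact nq_uO h z _ _ _
  have h2 : ∀ w : HeightOneSpectrum (𝓞 L), 0 < Ah b w z i * Ah b w z j := fun w => mul_pos (FI.Ah_pos b w z i) (FI.Ah_pos b w z j)
  have h3 : 0 ≤ ∏ᶠ w : HeightOneSpectrum (𝓞 L), Ah b w z i * Ah b w z j := finprod_nonneg fun w => (h2 w).le
  have h4 : 0 ≤ ∏ᶠ w : HeightOneSpectrum (𝓞 L), c₁ Q i j z w u * c₂ Q i j z w u := by
    refine finprod_nonneg fun w => ?_
    unfold c₁ c₂
    rw [h1]
    exact mul_nonneg (zero_le_one.trans (dd_i_one w h.adj z _ _ _)) (zero_le_one.trans (dd_j_one w h.adj z _ _ _))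
  have h5 : 0 ≤ fe b (eW b e (ow Q i)) z := (FI.fe_pos b _ z).le
  have h6 : fe b e (nq Q i * (u : GK b L) * z) = fe b (eW b e (ow Q i)) z * (∏ᶠ w : HeightOneSpectrum (𝓞 L), Ah b w z i * Ah b w z j) ^ (-(2 : ℝ)) *
      (∏ᶠ w : HeightOneSpectrum (𝓞 L), c₁ Q i j z w u * c₂ Q i j z w u) ^ (-(1 + mu b e i)) := by
    rw [h.ow, h1, fe_hz h.adj (mu_adQ h he)]
    congr 2
    refine finprod_congr fun w => ?_
    unfold c₁ c₂
    rw [h1]
  rw [h6, Real.mul_rpow (mul_nonneg h5 (Real.rpow_nonneg h3 _)) (Real.rpow_nonneg h4 _), Real.mul_rpow h5 (Real.rpow_nonneg h3 _), ← Real.rpow_mul h3, ← Real.rpow_mul h4]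
  congr 2
  · congr 1
    unfold df
    ring
  · unfold df
    ring

/-- **The rank one estimate for an adjacent pair.** -/
theorem rankQ_adj (Q : QS b K L) [IsGalois K L] {i : b.support} (hi : ∃ j ∈ orb Q i, j ≠ i ∧ b.cartanMatrix i j ≠ 0) {κ : ℝ} (hκ : 1 < κ) {e : b.support → ℝ} (he : InvE Q e) (hP : PosW b κ e (ow Q i)) {δ : ℝ} (hδ : 0 < δ) :
    ∃ Z : ℝ, 1 ≤ Z ∧ RankQ Q i e δ Z := by
  classical
  obtain ⟨j, h⟩ := adQ_ex hi
  obtain ⟨θ, hθ⟩ := th_ex h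
  obtain ⟨σ, hσ⟩ := h.exs
  have hcard : (orb Q i).card = 2 := by
    rw [h.orb]
    exact Finset.card_pair h.adj.ne
  have hKE : Module.finrank K L = 2 * Module.finrank (FO Q i) L := by
    have h1 := fo_card Q i
    rw [hcard] at h1
    rw [← h1, mul_comm]
  have hμ : κ ≤ mu b e i := posW_mu (h.ow ▸ hP)
  obtain ⟨Z, hZ, H⟩ := heis_sum K (FO Q i) L hKE hθ.ne (ε := κ - 1) (δ := δ) (by linarith) hδ
  set A := AqI Q i with hA
  have hcm := rI_fin h hθ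
  set c : ℝ := ((rI (cor_q h hθ) A).relIndex (OK (FO Q i)) : ℝ) with hc
  have hc1 : 1 ≤ c := by
    rw [hc]
    exact_mod_cast Nat.one_le_iff_ne_zero.2 hcm
  refine ⟨Z * c, one_le_mul_of_one_le_of_one_le hZ hc1, ?_⟩
  intro 𝔫 h𝔫 z hz 𝔞 h𝔞 i1 i2 hB R hR hinc lev hlev
  set 𝔪 : Ideal (𝓞 K) := if lev then 𝔫 else ⊤ with h𝔪
  have h𝔪0 : 𝔪 ≠ ⊥ := by
    rw [h𝔪]
    split
    · exact h𝔫
    · exact top_ne_bot
  have hle : G1 b (up L 𝔫) ≤ G1 b (up L 𝔪) := by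
    rw [h𝔪]
    split
    · exact le_rfl
    · intro g hg r c
      have h1 := hg r c
      have h2 : ∀ x : L, InI (up L 𝔫) x → InI (up L (⊤ : Ideal (𝓞 K))) x := by
        rintro x ⟨y, _, rfl⟩
        exact ⟨y, by rw [up_top]; trivial, rfl⟩
      exact ⟨h2 _ h1.1, h2 _ h1.2⟩
  set B : Subgroup ↥(Xq Q i) := 𝔞.subgroupOf (Xq Q i) with hBd
  set T : Finset ↥(Xq Q i) := R.subtype (· ∈ Xq Q i) with hT
  have j1 : A.relIndex B ≠ 0 := by
    rw [hA, hBd]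
    unfold AqI
    rw [Subgroup.relIndex_subgroupOf h𝔞]
    exact i2
  have j2 : B.relIndex A ≠ 0 := by
    rw [hA, hBd]
    unfold AqI
    rw [Subgroup.relIndex_subgroupOf inf_le_left]
    exact i1
  have hgi : gi A B = gi (Xq Q i ⊓ G1 b ⊤) 𝔞 := by
    unfold H29F.gi
    rw [hA, hBd]
    unfold AqI
    rw [Subgroup.relIndex_subgroupOf h𝔞, Subgroup.relIndex_subgroupOf inf_le_left]
  obtain ⟨q1, q2, q3, q4, q5⟩ := agi_cmp (cor_q h hθ) (rI_le h hθ) hcm (sI_ge h hθ) (sI_fin h hθ) j1 j2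
  have hHH : HH K 𝔪 σ θ (rq Q i) (tq Q i j θ) B (rI (cor_q h hθ) B) (sI (cor_q h hθ) B) T (XL Q i 𝔪 z) (fun w => Ah b w z i) (fun w => Ah b w z j) (c₁ Q i j z) (c₂ Q i j z) := by
    refine hh_q h hθ hσ h𝔪0 hz j1 j2 ?_ ?_ ?_
    · intro β hβ u
      obtain ⟨v, hv, γ, hγ, e1⟩ := hB β hβ u u.2
      exact ⟨v, hv, γ, hle hγ, e1⟩
    · intro u hu u' hu' hm
      by_contra hne
      rw [hT, Finset.mem_subtype] at hu hu'
      exact hinc u hu u' hu' (fun e1 => hne (Subtype.ext e1)) hm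
    · intro u hu k hk
      rw [hT, Finset.mem_subtype] at hu
      cases lev with
      | true => exact hlev rfl u hu k hk
      | false =>
        have e1 : 𝔪 = ⊤ := rfl
        rw [e1, up_top]
        exact Chi_top k _
  have hsum := H ↥(Xq Q i) 𝔪 σ _ _ B _ _ T _ _ _ _ _ hHH (mu b e i) (by linarith)
  set a : ℝ := ∏ᶠ w : HeightOneSpectrum (𝓞 L), Ah b w z i * Ah b w z j with ha
  have ha0 : 0 < a := finprod_induction (fun x : ℝ => 0 < x) one_pos (fun _ _ hx hy => mul_pos hx hy) fun w => mul_pos (FI.Ah_pos b w z i) (FI.Ah_pos b w z j)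
  set F : ℝ := fe b (eW b e (ow Q i)) z ^ df K L with hF
  have hF0 : 0 ≤ F := Real.rpow_nonneg (FI.fe_pos b _ z).le _
  have e1 : ∑ r ∈ R, fe b e (nq Q i * r * z) ^ df K L = ∑ u ∈ T, fe b e (nq Q i * (u : GK b L) * z) ^ df K L := by
    rw [hT]
    exact (Finset.sum_subtype_of_mem (fun r => fe b e (nq Q i * r * z) ^ df K L) hR).symm
  have e2 : ∑ u ∈ T, fe b e (nq Q i * (u : GK b L) * z) ^ df K L = F * a ^ (-((2 : ℝ) / Module.finrank K L)) * ∑ u ∈ T, (∏ᶠ w : HeightOneSpectrum (𝓞 L), c₁ Q i j z w u * c₂ Q i j z w u) ^ (-((1 + mu b e i) / Module.finrank K L)) := by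
    rw [Finset.mul_sum]
    exact Finset.sum_congr rfl fun u _ => term_q h he z u
  rw [e1, e2]
  have hN : (1 : ℝ) ≤ (Ideal.absNorm 𝔫 : ℝ) := by
    exact_mod_cast Nat.one_le_iff_ne_zero.2 (Ideal.absNorm_ne_zero_iff_mem_nonZeroDivisors.2 (mem_nonZeroDivisors_of_ne_zero h𝔫))
  have hk : a ^ (-((2 : ℝ) / Module.finrank K L)) * a ^ ((2 : ℝ) / Module.finrank K L) = 1 := by
    rw [← Real.rpow_add ha0, neg_add_cancel, Real.rpow_zero]
  have hg0 : 0 ≤ gi (Xq Q i ⊓ G1 b ⊤) 𝔞 := by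
    unfold H29F.gi
    positivity
  have hnn : ((Ideal.absNorm 𝔪 : ℝ)) ^ (δ - 2) ≤ (Ideal.absNorm 𝔫 : ℝ) ^ δ / (if lev then (Ideal.absNorm 𝔫 : ℝ) ^ (orb Q i).card else 1) := by
    cases lev with
    | true =>
      rw [h𝔪, if_pos rfl, if_pos rfl, hcard, Real.rpow_sub (by linarith)]
      norm_num
    | false =>
      rw [h𝔪, if_neg (by simp), if_neg (by simp), Ideal.absNorm_top, Nat.cast_one, Real.one_rpow, div_one]
      exact Real.one_le_rpow hN hδ.le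
  have hZ0 : 0 ≤ Z := by linarith
  calc F * a ^ (-((2 : ℝ) / Module.finrank K L)) * ∑ u ∈ T, (∏ᶠ w : HeightOneSpectrum (𝓞 L), c₁ Q i j z w u * c₂ Q i j z w u) ^ (-((1 + mu b e i) / Module.finrank K L))
      ≤ F * a ^ (-((2 : ℝ) / Module.finrank K L)) * (Z * (Ideal.absNorm 𝔪 : ℝ) ^ (δ - 2) * a ^ ((2 : ℝ) / Module.finrank K L) * agi (OK (FO Q i)) (rI (cor_q h hθ) B) * agi (OK K) (sI (cor_q h hθ) B)) := by
        refine mul_le_mul_of_nonneg_left hsum (mul_nonneg hF0 (Real.rpow_nonneg ha0.le _))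
    _ = (a ^ (-((2 : ℝ) / Module.finrank K L)) * a ^ ((2 : ℝ) / Module.finrank K L)) * (F * Z * (Ideal.absNorm 𝔪 : ℝ) ^ (δ - 2) * (agi (OK (FO Q i)) (rI (cor_q h hθ) B) * agi (OK K) (sI (cor_q h hθ) B))) := by ring
    _ = F * Z * (Ideal.absNorm 𝔪 : ℝ) ^ (δ - 2) * (agi (OK (FO Q i)) (rI (cor_q h hθ) B) * agi (OK K) (sI (cor_q h hθ) B)) := by rw [hk, one_mul]
    _ ≤ F * Z * ((Ideal.absNorm 𝔫 : ℝ) ^ δ / (if lev then (Ideal.absNorm 𝔫 : ℝ) ^ (orb Q i).card else 1)) * (c * gi (Xq Q i ⊓ G1 b ⊤) 𝔞) := by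
        rw [← hgi]
        refine mul_le_mul (mul_le_mul_of_nonneg_left hnn (mul_nonneg hF0 hZ0)) q5 ?_ ?_
        · unfold H29F.agi
          positivity
        · refine mul_nonneg (mul_nonneg hF0 hZ0) (div_nonneg (by positivity) ?_)
          split <;> positivity
    _ = Z * c * (Ideal.absNorm 𝔫 : ℝ) ^ δ * F * gi (Xq Q i ⊓ G1 b ⊤) 𝔞 / (if lev then (Ideal.absNorm 𝔫 : ℝ) ^ (orb Q i).card else 1) := by ring

end

end Pool.Agent.Lib.L8.HS
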