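import Pool.Agent.Lib.L8.QF.RQ
import Pool.Agent.Lib.L8.QF.EQ0

/-!
# HS, A0 (helper89): the sum over a Heisenberg letter, arithmetic part: definitions

`K ⊆ E ⊆ L`, `[L : K] = 2 [L : E]`, `L / K` and `L / E` Galois, `σ₀ ∈ Gal(L / K)`. `N` is the letter group (Heisenberg group), `r : N → E` its abelian coordinate, `s` the coordinate of the centre `{r = 0}` (values in `K`), `B` a subgroup,
`T` a finite set of elements which are incongruent modulo `B`, `X` a set which contains `T` and is invariant under `B`. For the place `w` of `L`: `a₁, a₂` the heights of `z`, `d₁, d₂ ≥ 1` the normalised contents.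
See `PROOF_HS.md`.
-/

namespace Pool.Agent.Lib.L8.HS

open NumberField IsDedekindDomain Pool.Agent.Lib.L1S Pool.Agent.Lib.L8.QF Pool.Agent.Lib.H29F

noncomputable section

set_option linter.unusedSectionVars false

variable (K : Type) {E L : Type} [Field K] [NumberField K] [Field E] [NumberField E] [Field L] [NumberField L] [Algebra K L] [Algebra E L]

/-- `ν_w = |𝔫|_w`. -/
abbrev nu (L : Type) {K : Type} [Field K] [NumberField K] [Field L] [NumberField L] [Algebra K L] (𝔫 : Ideal (𝓞 K)) (w : HeightOneSpectrum (𝓞 L)) : ℝ := nv (up L 𝔫) w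

/-- The contents of two elements agree. -/
def Eqc {N L : Type} [Field L] (d₁ d₂ : HeightOneSpectrum (𝓞 L) → N → ℝ) (u u' : N) : Prop := ∀ w, d₁ w u = d₁ w u' ∧ d₂ w u = d₂ w u'

/-- The data of a Heisenberg letter. -/
structure HH {N : Type} [Group N] (𝔫 : Ideal (𝓞 K)) (σ₀ : L ≃ₐ[K] L) (θ : L) (r : N → E) (s : N → K) (B : Subgroup N) (rB : AddSubgroup E) (sB : AddSubgroup K) (T : Finset N) (X : Set N)
    (a₁ a₂ : HeightOneSpectrum (𝓞 L) → ℝ) (d₁ d₂ : HeightOneSpectrum (𝓞 L) → N → ℝ) : Prop where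
  n0 : 𝔫 ≠ ⊥
  r_mul : ∀ u u', r (u * u') = r u + r u'
  s_mul : ∀ u u', r u = 0 → r u' = 0 → s (u * u') = s u + s u'
  s_inj : ∀ u, r u = 0 → s u = 0 → u = 1
  mem_rB : ∀ x, x ∈ rB ↔ ∃ u ∈ B, r u = x
  mem_sB : ∀ x, x ∈ sB ↔ ∃ u ∈ B, r u = 0 ∧ s u = x
  rB₁ : rB.relIndex (OK E) ≠ 0
  rB₂ : (OK E).relIndex rB ≠ 0
  sB₁ : sB.relIndex (OK K) ≠ 0
  sB₂ : (OK K).relIndex sB ≠ 0
  inc : ∀ u ∈ T, ∀ u' ∈ T, u⁻¹ * u' ∈ B → u = u'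
  TX : ∀ u ∈ T, u ∈ X
  XB : ∀ u ∈ X, ∀ β ∈ B, u * β ∈ X
  a₁_val : ∀ w, ∃ y : L, y ≠ 0 ∧ a₁ w = av w y
  a₂_val : ∀ w, ∃ y : L, y ≠ 0 ∧ a₂ w = av w y
  a₁_fin : {w | a₁ w ≠ 1}.Finite
  a₂_fin : {w | a₂ w ≠ 1}.Finite
  d₁_val : ∀ w u, ∃ y : L, y ≠ 0 ∧ d₁ w u = av w y
  d₂_val : ∀ w u, ∃ y : L, y ≠ 0 ∧ d₂ w u = av w y
  d₁_one : ∀ w u, 1 ≤ d₁ w u
  d₂_one : ∀ w u, 1 ≤ d₂ w u
  d₁_fin : ∀ u, {w | d₁ w u ≠ 1}.Finite
  d₂_fin : ∀ u, {w | d₂ w u ≠ 1}.Finite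
  dB : ∀ u, ∀ β ∈ B, Eqc d₁ d₂ (u * β) u
  eqv : ∀ w w' : HeightOneSpectrum (𝓞 L), CFT.below K w = CFT.below K w' → (∀ u, d₁ w' u = d₁ w u ∧ d₂ w' u = d₂ w u) ∨ (∀ u, d₁ w' u = d₂ w u ∧ d₂ w' u = d₁ w u)
  est₁ : ∀ u ∈ X, ∀ u' ∈ X, Eqc d₁ d₂ u u' → ∀ w, av w (algebraMap E L (r u' - r u)) ≤ a₁ w * d₂ w u
  est₂ : ∀ u ∈ X, ∀ u' ∈ X, Eqc d₁ d₂ u u' → ∀ w, av w (σ₀ (algebraMap E L (r u' - r u))) ≤ a₂ w * d₁ w u
  est₃ : ∀ u ∈ X, ∀ u' ∈ X, Eqc d₁ d₂ u u' → ∀ w, av w (algebraMap E L (r u' - r u)) * av w (σ₀ (algebraMap E L (r u' - r u))) ≤ nu L 𝔫 w * (a₁ w * a₂ w) * (d₁ w u * d₂ w u)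
  estz : ∀ u ∈ X, ∀ u' ∈ X, Eqc d₁ d₂ u u' → r u = r u' → ∀ w, av w (θ * algebraMap K L (s (u⁻¹ * u'))) ≤ a₁ w * a₂ w * min (min (d₁ w u) (d₂ w u)) (nu L 𝔫 w * (d₁ w u * d₂ w u))

variable {K}

/-- The fractional ideal `{x ∈ E : |x|_w ≤ ρ w}`. -/
def Lat (ρ : HeightOneSpectrum (𝓞 L) → ℝ) (h : ∀ w, 0 ≤ ρ w) : AddSubgroup E where
  carrier := {x | ∀ w, av w (algebraMap E L x) ≤ ρ w}
  zero_mem' := fun w => by
    show av w (algebraMap E L 0) ≤ ρ w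
    rw [map_zero, map_zero]
    exact h w
  add_mem' := fun {x y} hx hy w => by
    show av w (algebraMap E L (x + y)) ≤ ρ w
    rw [map_add]
    exact (NumberField.HeightOneSpectrum.isNonarchimedean_adicAbv L w _ _).trans (max_le (hx w) (hy w))
  neg_mem' := fun {x} hx w => by
    show av w (algebraMap E L (-x)) ≤ ρ w
    rw [map_neg, AbsoluteValue.map_neg]
    exact hx w

end

end Pool.Agent.Lib.L8.HS
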