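import Pool.Agent.Lib.L8.HS.A0

/-!
# HS, chunk A1 (M): the index of a fractional ideal of `E` given by the places of `L`
-/

namespace Pool.Agent.Lib.L8.HS

open NumberField IsDedekindDomain Pool.Agent.Lib.L1S Pool.Agent.Lib.L8.QF Pool.Agent.Lib.H29F

noncomputable section

set_option linter.unusedSectionVars false

variable {E L : Type} [Field E] [NumberField E] [Field L] [NumberField L] [Algebra E L]

section aux

open Pool.Agent.Lib.H89N Pool.Agent.Lib.L8.FR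

theorem a1_flr {q ρ : ℝ} (hq : 1 < q) (hρ : 0 < ρ) {n : ℕ} (hn : 0 < n) (m : ℤ) : (q ^ m) ^ n ≤ ρ ↔ m ≤ ⌊Real.logb q ρ / (n : ℝ)⌋ := by
  have hq0 : 0 < q := one_pos.trans hq
  have hn' : (0 : ℝ) < n := by exact_mod_cast hn
  rw [Int.le_floor, le_div_iff₀ hn', ← Real.rpow_intCast, ← Real.rpow_natCast, ← Real.rpow_mul hq0.le, Real.le_logb_iff_rpow_le hq hρ]

theorem a1_exp {ρ : HeightOneSpectrum (𝓞 L) → ℝ} (h0 : ∀ w, 0 < ρ w) (v : HeightOneSpectrum (𝓞 E)) : ∃ b : ℤ, ∀ m : ℤ, m ≤ b ↔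
    ∀ w : HeightOneSpectrum (𝓞 L), CFT.below E w = v → ((Ideal.absNorm v.asIdeal : ℝ) ^ m) ^ nl E w ≤ ρ w := by
  have hne : (fib_fin (L := L) v).toFinset.Nonempty := ⟨wv L v, (fib_fin v).mem_toFinset.2 (wv_below v)⟩
  refine ⟨(fib_fin (L := L) v).toFinset.inf' hne fun w => ⌊Real.logb (Ideal.absNorm v.asIdeal : ℝ) (ρ w) / (nl E w : ℝ)⌋, fun m => ?_⟩
  rw [Finset.le_inf'_iff]
  constructor
  · intro h w hw
    exact (a1_flr (nu2_one_lt v) (h0 w) (nl_pos w) m).2 (h w ((fib_fin v).mem_toFinset.2 hw))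
  · intro h w hw
    exact (a1_flr (nu2_one_lt v) (h0 w) (nl_pos w) m).1 (h w ((fib_fin v).mem_toFinset.1 hw))

theorem a1_box {ρ : HeightOneSpectrum (𝓞 L) → ℝ} (h0 : ∀ w, 0 < ρ w) (hf : {w | ρ w ≠ 1}.Finite) :
    ∃ (T : Finset (HeightOneSpectrum (𝓞 E))) (b : HeightOneSpectrum (𝓞 E) → ℤ), (∀ w, CFT.below E w ∉ T → ρ w = 1) ∧
      (∀ w : HeightOneSpectrum (𝓞 L), ((Ideal.absNorm (CFT.below E w).asIdeal : ℝ) ^ b (CFT.below E w)) ^ nl E w ≤ ρ w) ∧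
      (∀ x : E, (∀ w, av w (algebraMap E L x) ≤ ρ w) ↔ x ∈ Bx (PI T fun v => (b v).toNat) (PI T fun v => (-b v).toNat)) := by
  classical
  choose b hb using fun v : HeightOneSpectrum (𝓞 E) => a1_exp (L := L) h0 v
  have hTf : ((CFT.below E) '' {w | ρ w ≠ 1}).Finite := hf.image _
  have hT1 : ∀ w, CFT.below E w ∉ hTf.toFinset → ρ w = 1 := by
    intro w hw
    by_contra h
    exact hw (hTf.mem_toFinset.2 ⟨w, h, rfl⟩)
  have hq0 : ∀ v : HeightOneSpectrum (𝓞 E), 0 < (Ideal.absNorm v.asIdeal : ℝ) := nu2_pos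
  have hq1 : ∀ v : HeightOneSpectrum (𝓞 E), 1 < (Ideal.absNorm v.asIdeal : ℝ) := nu2_one_lt
  have hbT : ∀ v, v ∉ hTf.toFinset → b v = 0 := by
    intro v hv
    refine le_antisymm ?_ ?_
    · have h1 := (hb v (b v)).1 le_rfl (wv L v) (wv_below v)
      rw [hT1 (wv L v) (by rw [wv_below]; exact hv)] at h1
      by_contra h2
      rw [not_le] at h2
      have h3 : 1 < (Ideal.absNorm v.asIdeal : ℝ) ^ b v := one_lt_zpow₀ (hq1 v) h2
      exact absurd h1 (not_le.2 (one_lt_pow₀ h3 (nl_pos (E := E) (wv L v)).ne'))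
    · refine (hb v 0).2 fun w hw => ?_
      rw [hT1 w (by rw [hw]; exact hv), zpow_zero, one_pow]
  refine ⟨hTf.toFinset, b, hT1, fun w => (hb _ _).1 le_rfl w rfl, fun x => ?_⟩
  have hPv : ∀ v, nw v (PI hTf.toFinset fun v => (b v).toNat) = (Ideal.absNorm v.asIdeal : ℝ) ^ (-((b v).toNat : ℤ)) := fun v => nw_PI v _ _ fun v hv => by rw [hbT v hv]; rfl
  have hQv : ∀ v, nw v (PI hTf.toFinset fun v => (-b v).toNat) = (Ideal.absNorm v.asIdeal : ℝ) ^ (-((-b v).toNat : ℤ)) := fun v => nw_PI v _ _ fun v hv => by rw [hbT v hv]; rfl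
  have hBx : x ∈ Bx (PI hTf.toFinset fun v => (b v).toNat) (PI hTf.toFinset fun v => (-b v).toNat) ↔ ∀ v, aw v x ≤ (Ideal.absNorm v.asIdeal : ℝ) ^ b v := by
    rw [mem_Bx]
    refine forall_congr' fun v => ?_
    rw [hPv, hQv, zpow_neg, ← div_eq_mul_inv, div_le_iff₀ (zpow_pos (hq0 v) _), ← zpow_add₀ (hq0 v).ne']
    have : -((-b v).toNat : ℤ) + ((b v).toNat : ℤ) = b v := by omega
    rw [this]
  rw [hBx]
  by_cases hx : x = 0
  · subst hx
    constructor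
    · intro _ v
      rw [map_zero]
      exact (zpow_pos (hq0 v) _).le
    · intro _ w
      rw [map_zero, map_zero]
      exact (h0 w).le
  · have key : ∀ v, aw v x ≤ (Ideal.absNorm v.asIdeal : ℝ) ^ b v ↔ ∀ w : HeightOneSpectrum (𝓞 L), CFT.below E w = v → av w (algebraMap E L x) ≤ ρ w := by
      intro v
      obtain ⟨m, hm⟩ := aw_zpow v x hx
      rw [hm, zpow_le_zpow_iff_right₀ (hq1 v), hb v m]
      refine forall_congr' fun w => ?_
      constructor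
      · intro h hw
        have h1 := h hw
        rw [av_eq, aw_alg, hw, hm]
        exact h1
      · intro h hw
        have h1 := h hw
        rw [av_eq, aw_alg, hw, hm] at h1
        exact h1
    constructor
    · intro h v
      exact (key v).2 fun w _ => h w
    · intro h w
      exact (key _).1 (h _) w rfl

theorem a1_comm {P Q : Ideal (𝓞 E)} (hP : P ≠ ⊥) (hQ : Q ≠ ⊥) : (Bx P Q).relIndex (OO E) ≠ 0 ∧ (OO E).relIndex (Bx P Q) ≠ 0 := by
  have hle1 : ∀ (v : HeightOneSpectrum (𝓞 E)) {I : Ideal (𝓞 E)}, nw v I ≤ 1 := by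
    intro v I
    rw [nw_od]
    exact zpow_le_one_of_nonpos₀ (nu2_one_lt v).le (by omega)
  constructor
  · have h1 : FR.IO Q ≤ Bx P Q := by
      rintro x ⟨z, hz, rfl⟩ v
      have h2 : aw v (z : E) ≤ nw v Q := (nu2_A hQ (z : E)).1 ⟨z, hz, rfl⟩ v
      calc aw v (z : E) * nw v P ≤ nw v Q * 1 := mul_le_mul h2 (hle1 v) (nw_pos v P).le (nw_pos v Q).le
        _ = nw v Q := mul_one _
    intro h2
    have h3 := AddSubgroup.relIndex_dvd_of_le_left (OO E) h1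
    rw [h2, zero_dvd_iff, IO_index, Ideal.absNorm_eq_zero_iff] at h3
    exact hQ h3
  · obtain ⟨M, hMP, hM⟩ := Submodule.exists_mem_ne_zero_of_ne_bot hP
    have hM' : (M : E) ≠ 0 := by exact_mod_cast hM
    have hs : (Ideal.span {M} : Ideal (𝓞 E)) ≠ ⊥ := by simpa using hM
    have hMO : (OO E).map (mlt (M : E)) = FR.IO (Ideal.span {M}) := by
      ext x
      constructor
      · rintro ⟨_, ⟨z, rfl⟩, rfl⟩
        exact ⟨M * z, Ideal.mul_mem_right _ _ (Ideal.mem_span_singleton_self M), by simp [mlt]⟩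
      · rintro ⟨z, hz, rfl⟩
        obtain ⟨y, rfl⟩ := Ideal.mem_span_singleton'.1 hz
        exact ⟨(y : E), ⟨y, rfl⟩, by simp [mlt, mul_comm]⟩
    have hMB : (Bx P Q).map (mlt (M : E)) ≤ OO E := by
      rintro x ⟨y, hy, rfl⟩
      have h2 : ∀ v, aw v ((M : E) * y) ≤ nw v (⊤ : Ideal (𝓞 E)) := by
        intro v
        rw [nu2_nw_top v, map_mul]
        have h3 : aw v (M : E) ≤ nw v P := (nu2_A hP (M : E)).1 ⟨M, hMP, rfl⟩ v
        have h4 : aw v y * nw v P ≤ nw v Q := hy v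
        calc aw v (M : E) * aw v y ≤ nw v P * aw v y := mul_le_mul_of_nonneg_right h3 ((aw v).nonneg y)
          _ = aw v y * nw v P := mul_comm _ _
          _ ≤ nw v Q := h4
          _ ≤ 1 := hle1 v
      obtain ⟨z, _, hz⟩ := (nu2_A (K := E) (I := ⊤) (by simp) _).2 h2
      exact ⟨z, hz.symm⟩
    intro h2
    rw [← mlt_index hM', hMO] at h2
    have h3 := AddSubgroup.relIndex_eq_zero_of_le_right hMB h2
    rw [IO_index, Ideal.absNorm_eq_zero_iff] at h3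
    exact hs h3

theorem a1_sum [IsGalois E L] (v : HeightOneSpectrum (𝓞 E)) : ∑ w ∈ (fib_fin (L := L) v).toFinset, nl E w = Module.finrank E L := by
  have h1 : ∀ w ∈ (fib_fin (L := L) v).toFinset, nl E w = nl E (wv L v) := by
    intro w hw
    have hw' : CFT.below E w = v := (fib_fin v).mem_toFinset.1 hw
    have h2 := gv_mul (E := E) w
    rw [hw', ← gv_wv (L := L) v] at h2
    exact Nat.eq_of_mul_eq_mul_left (gv_pos (L := L) v) h2
  rw [Finset.sum_congr rfl h1, Finset.sum_const, fib_card, smul_eq_mul, gv_wv]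

theorem a1_prod [IsGalois E L] {ρ : HeightOneSpectrum (𝓞 L) → ℝ} (h0 : ∀ w, 0 < ρ w) (T : Finset (HeightOneSpectrum (𝓞 E))) (b : HeightOneSpectrum (𝓞 E) → ℤ)
    (hT : ∀ w, CFT.below E w ∉ T → ρ w = 1) (hb : ∀ w : HeightOneSpectrum (𝓞 L), ((Ideal.absNorm (CFT.below E w).asIdeal : ℝ) ^ b (CFT.below E w)) ^ nl E w ≤ ρ w) :
    ∏ v ∈ T, (Ideal.absNorm v.asIdeal : ℝ) ^ b v ≤ (∏ᶠ w, ρ w) ^ ((Module.finrank E L : ℝ)⁻¹) := by
  classical
  have hq0 : ∀ v : HeightOneSpectrum (𝓞 E), 0 < (Ideal.absNorm v.asIdeal : ℝ) := nu2_pos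
  refine root_le Module.finrank_pos (Finset.prod_nonneg fun v _ => (zpow_pos (hq0 v) _).le) ?_
  have e2 : ∏ᶠ w, ρ w = ∏ w ∈ T.biUnion fun v => (fib_fin (L := L) v).toFinset, ρ w := by
    refine finprod_eq_prod_of_mulSupport_subset _ fun w hw => ?_
    rw [Finset.mem_coe, Finset.mem_biUnion]
    refine ⟨CFT.below E w, ?_, (fib_fin _).mem_toFinset.2 rfl⟩
    by_contra h
    exact hw (hT w h)
  rw [e2, Finset.prod_biUnion]
  · rw [← Finset.prod_pow]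
    refine Finset.prod_le_prod (fun v _ => pow_nonneg (zpow_pos (hq0 v) _).le _) fun v _ => ?_
    rw [← a1_sum (L := L) v, ← Finset.prod_pow_eq_pow_sum]
    refine Finset.prod_le_prod (fun w _ => pow_nonneg (zpow_pos (hq0 v) _).le _) fun w hw => ?_
    have hw' : CFT.below E w = v := (fib_fin v).mem_toFinset.1 hw
    have h1 := hb w
    rw [hw'] at h1
    exact h1
  · intro v _ v' _ hne
    rw [Function.onFun, Finset.disjoint_left]
    intro w hw hw'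
    exact hne (((fib_fin v).mem_toFinset.1 hw).symm.trans ((fib_fin v').mem_toFinset.1 hw'))

theorem a1_comm' {ρ : HeightOneSpectrum (𝓞 L) → ℝ} (h0 : ∀ w, 0 < ρ w) (hf : {w | ρ w ≠ 1}.Finite) :
    (Lat (E := E) ρ fun w => (h0 w).le).relIndex (OK E) ≠ 0 ∧ (OK E).relIndex (Lat (E := E) ρ fun w => (h0 w).le) ≠ 0 := by
  obtain ⟨T, b, _, _, h3⟩ := a1_box (E := E) h0 hf
  have e : (Lat (E := E) ρ fun w => (h0 w).le) = Bx (PI T fun v => (b v).toNat) (PI T fun v => (-b v).toNat) := by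
    ext x
    exact h3 x
  rw [e]
  exact a1_comm (PI_ne _ _) (PI_ne _ _)

theorem a1_card [IsGalois E L] {ρ : HeightOneSpectrum (𝓞 L) → ℝ} (h0 : ∀ w, 0 < ρ w) (hf : {w | ρ w ≠ 1}.Finite) {Λ : AddSubgroup E} (h1 : Λ.relIndex (OK E) ≠ 0) (h2 : (OK E).relIndex Λ ≠ 0)
    (hΛ : ∀ x ∈ Λ, ∀ w, av w (algebraMap E L x) ≤ ρ w) (F : Finset E) (hF : ∀ x ∈ F, ∀ y ∈ F, ∀ w, av w (algebraMap E L (x - y)) ≤ ρ w) (hinc : ∀ x ∈ F, ∀ y ∈ F, x - y ∈ Λ → x = y) :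
    (F.card : ℝ) ≤ agi (OK E) Λ * (∏ᶠ w, ρ w) ^ ((Module.finrank E L : ℝ)⁻¹) := by
  classical
  obtain ⟨T, b, hT, hb, h3⟩ := a1_box (E := E) h0 hf
  have hq0 : ∀ v : HeightOneSpectrum (𝓞 E), 0 < (Ideal.absNorm v.asIdeal : ℝ) := nu2_pos
  have hcard := Bx_card (PI_ne T fun v => (b v).toNat) (PI_ne T fun v => (-b v).toNat) h1 h2 (fun x hx => (h3 x).1 (hΛ x hx)) F (fun r hr r' hr' => (h3 _).1 (hF r hr r' hr')) hinc
  have hPQ : (Ideal.absNorm (PI T fun v => (b v).toNat) : ℝ) / (Ideal.absNorm (PI T fun v => (-b v).toNat) : ℝ) = ∏ v ∈ T, (Ideal.absNorm v.asIdeal : ℝ) ^ b v := by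
    rw [PI_norm, PI_norm, ← Finset.prod_div_distrib]
    refine Finset.prod_congr rfl fun v _ => ?_
    rw [← zpow_natCast, ← zpow_natCast, ← zpow_sub₀ (hq0 v).ne']
    congr 1
    omega
  rw [mul_div_assoc, hPQ] at hcard
  have hgi : 0 ≤ gi Λ := div_nonneg (Nat.cast_nonneg _) (Nat.cast_nonneg _)
  exact hcard.trans (mul_le_mul_of_nonneg_left (a1_prod h0 T b hT hb) hgi)

end aux

/-- `Lat ρ` is commensurable with `𝓞 E`. PROOF. There are positive integers `m`, `m'` of `𝓞 E` (or natural numbers) with `|m|_w ≤ ρ w` and `|m'|_w⁻¹ ≥ ρ w` for the finitely many `w` with `ρ w ≠ 1` (powers of `p ∈ w`), so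
`m 𝓞 E ≤ Lat ρ ≤ m'⁻¹ 𝓞 E` (an element of `E` which is integral at all places of `L` is integral) and these have finite index in each other (`𝓞 E ⧸ (m)` is finite). Or use `Bx` and `FR` (`QF/RQ0`, `FR/R3`) as in A2. -/
theorem lat_comm {ρ : HeightOneSpectrum (𝓞 L) → ℝ} (h0 : ∀ w, 0 < ρ w) (hf : {w | ρ w ≠ 1}.Finite) :
    (Lat (E := E) ρ fun w => (h0 w).le).relIndex (OK E) ≠ 0 ∧ (OK E).relIndex (Lat (E := E) ρ fun w => (h0 w).le) ≠ 0 := by
  exact a1_comm' h0 hf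

/-- **The index.** PROOF. As one fibre in `QF/RQ0.rank_one_abs` with the tools of `QF/RQ2`, `QF/RQ`: for a place `v` of `E` let `n_v = nl E (wv L v)` (the same for all `w` above `v`, `L / E` Galois), `m_v = min_(w | v) ρ w` (finitely many `w`:
`fib_fin`), `b_v = ⌊log_q (m_v ^ (1 / n_v))⌋`, `q = N(v)`. By `aw_alg` `|x|_w = |x|_v ^ n_v`, so `x ∈ Lat ρ` if and only if `|x|_v ≤ m_v ^ (1 / n_v)` for all `v`, if and only if `|x|_v ≤ q ^ b_v`: `Lat ρ = Bx P Q` for suitable ideals `P`, `Q` (`PI`, `nw_PI`, as there), and `Bx_card`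
gives `F.card ≤ agi (OK E) Λ * ∏ q ^ b_v` (`gi Λ` of `FR` is `agi (OK E) Λ`, see the last lines of `QF/RQ.exists_rankOneQ`). Finally `∏_v q ^ b_v ≤ ∏_v m_v ^ (1 / n_v)` and `m_v ^ [L : E] ≤ ∏_(w | v) ρ w ^ n_v` (`gv_mul`: `g_v n_v = [L : E]`), so
`∏_v m_v ^ (1 / n_v) ≤ (∏_w ρ w) ^ (1 / [L : E])`. -/
theorem lat_card [IsGalois E L] {ρ : HeightOneSpectrum (𝓞 L) → ℝ} (h0 : ∀ w, 0 < ρ w) (hf : {w | ρ w ≠ 1}.Finite) {Λ : AddSubgroup E} (h1 : Λ.relIndex (OK E) ≠ 0) (h2 : (OK E).relIndex Λ ≠ 0)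
    (hΛ : ∀ x ∈ Λ, ∀ w, av w (algebraMap E L x) ≤ ρ w) (F : Finset E) (hF : ∀ x ∈ F, ∀ y ∈ F, ∀ w, av w (algebraMap E L (x - y)) ≤ ρ w) (hinc : ∀ x ∈ F, ∀ y ∈ F, x - y ∈ Λ → x = y) :
    (F.card : ℝ) ≤ agi (OK E) Λ * (∏ᶠ w, ρ w) ^ ((Module.finrank E L : ℝ)⁻¹) := by
  exact a1_card h0 hf h1 h2 hΛ F hF hinc

end

end Pool.Agent.Lib.L8.HS
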