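import Pool.Agent.Lib.L8.HS.A1

/-!
# HS, chunk A2 (S/M): two embeddings
-/

namespace Pool.Agent.Lib.L8.HS

open NumberField IsDedekindDomain Pool.Agent.Lib.L1S Pool.Agent.Lib.L8.QF Pool.Agent.Lib.H29F

noncomputable section

set_option linter.unusedSectionVars false

variable {K E L : Type} [Field K] [NumberField K] [Field E] [NumberField E] [Field L] [NumberField L] [Algebra K L] [Algebra E L]

/-- PROOF. `|σ₀ x|_w ≤ ρ₂ w` for all `w` gives `|x|_w = |σ₀ x|_(σ₀ w) ≤ ρ₂ (σ₀ w)` (`av_spl`; `spl σ₀ w`), so with `ρ w = √(ρ₁ w * ρ₂ (spl σ₀ w))`: `|x|_w ≤ min ≤ ρ w`. `lat_card` for `ρ` (positive, `ρ w = 1` for almost all `w`: the set `{w | ρ₂ (spl σ₀ w) ≠ 1}` is finite,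
`splE σ₀` is a permutation), and `∏ᶠ w, ρ w = (∏ᶠ w, ρ₁ w * ρ₂ w) ^ (1/2)` (reindex `ρ₂` by `splE σ₀`: `finprod_comp_equiv` or `finprod_eq_of_bijective`; `finprod_mul_distrib`; all products over one finite set), exponent: `1 / 2 * 1 / [L : E] = 1 / [L : K]`. -/
theorem lat2_card [IsGalois E L] (hKE : Module.finrank K L = 2 * Module.finrank E L) (σ₀ : L ≃ₐ[K] L) {ρ₁ ρ₂ : HeightOneSpectrum (𝓞 L) → ℝ} (p₁ : ∀ w, 0 < ρ₁ w) (p₂ : ∀ w, 0 < ρ₂ w)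
    (f₁ : {w | ρ₁ w ≠ 1}.Finite) (f₂ : {w | ρ₂ w ≠ 1}.Finite) {Λ : AddSubgroup E} (h1 : Λ.relIndex (OK E) ≠ 0) (h2 : (OK E).relIndex Λ ≠ 0)
    (hΛ : ∀ x ∈ Λ, ∀ w, av w (algebraMap E L x) ≤ ρ₁ w ∧ av w (σ₀ (algebraMap E L x)) ≤ ρ₂ w) (F : Finset E)
    (hF : ∀ x ∈ F, ∀ y ∈ F, ∀ w, av w (algebraMap E L (x - y)) ≤ ρ₁ w ∧ av w (σ₀ (algebraMap E L (x - y))) ≤ ρ₂ w) (hinc : ∀ x ∈ F, ∀ y ∈ F, x - y ∈ Λ → x = y) :
    (F.card : ℝ) ≤ agi (OK E) Λ * (∏ᶠ w, ρ₁ w * ρ₂ w) ^ ((Module.finrank K L : ℝ)⁻¹) := by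
  obtain ⟨ρ, hρ⟩ : ∃ ρ : HeightOneSpectrum (𝓞 L) → ℝ, ∀ w, ρ w = Real.sqrt (ρ₁ w * ρ₂ (spl σ₀ w)) :=
    ⟨fun w => Real.sqrt (ρ₁ w * ρ₂ (spl σ₀ w)), fun _ => rfl⟩
  have h0 : ∀ w, 0 < ρ w := fun w => by
    rw [hρ]
    exact Real.sqrt_pos.2 (mul_pos (p₁ w) (p₂ _))
  have f₂' : {w | ρ₂ (splE σ₀ w) ≠ 1}.Finite := f₂.preimage (splE σ₀).injective.injOn
  have hf : {w | ρ w ≠ 1}.Finite := by
    refine (f₁.union f₂').subset fun w hw => ?_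
    by_contra hc
    rw [Set.mem_union, not_or] at hc
    have e1 : ρ₁ w = 1 := not_not.1 hc.1
    have e2 : ρ₂ (spl σ₀ w) = 1 := not_not.1 hc.2
    apply hw
    show ρ w = 1
    rw [hρ, e1, e2, mul_one, Real.sqrt_one]
  have key : ∀ x : E, (∀ w, av w (algebraMap E L x) ≤ ρ₁ w ∧ av w (σ₀ (algebraMap E L x)) ≤ ρ₂ w) →
      ∀ w, av w (algebraMap E L x) ≤ ρ w := by
    intro x hx w
    have e1 := (hx w).1
    have e2 : av w (algebraMap E L x) ≤ ρ₂ (spl σ₀ w) := by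
      rw [← av_spl σ₀ w (algebraMap E L x)]
      exact (hx (spl σ₀ w)).2
    rw [hρ]
    refine (le_abs_self _).trans (Real.abs_le_sqrt ?_)
    rw [sq]
    exact mul_le_mul e1 e2 (AbsoluteValue.nonneg _ _) (p₁ w).le
  have main := lat_card h0 hf h1 h2 (fun x hx => key x (hΛ x hx)) F (fun x hx y hy => key (x - y) (hF x hx y hy)) hinc
  refine main.trans (le_of_eq ?_)
  congr 1
  have hP : 0 ≤ ∏ᶠ w, ρ w := finprod_nonneg fun w => (h0 w).le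
  have hs1 : (Function.mulSupport ρ).Finite := hf
  have hs2 : (Function.mulSupport ρ₁).Finite := f₁
  have hs3 : (Function.mulSupport ρ₂).Finite := f₂
  have hs4 : (Function.mulSupport fun w => ρ₂ (splE σ₀ w)).Finite := f₂'
  have e1 : (∏ᶠ w, ρ w) ^ 2 = ∏ᶠ w, ρ₁ w * ρ₂ w := by
    rw [finprod_pow hs1, finprod_mul_distrib hs2 hs3, ← finprod_comp_equiv (splE σ₀) (f := ρ₂),
      ← finprod_mul_distrib hs2 hs4]
    refine finprod_congr fun w => ?_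
    rw [hρ, Real.sq_sqrt (mul_pos (p₁ w) (p₂ _)).le]
    rfl
  rw [← e1, ← Real.rpow_natCast, ← Real.rpow_mul hP, hKE]
  congr 1
  push_cast
  rw [mul_inv, ← mul_assoc, mul_inv_cancel₀ (by norm_num : (2 : ℝ) ≠ 0), one_mul]

end

end Pool.Agent.Lib.L8.HS
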