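import Pool.Agent.Lib.L8.HS.A0
import Pool.Agent.Lib.L8.F2.N6

/-!
# HS, chunk A3 (M): the number of the shapes
-/

namespace Pool.Agent.Lib.L8.HS

open NumberField IsDedekindDomain Pool.Agent.Lib.L1S Pool.Agent.Lib.L8.QF Pool.Agent.Lib.H29F

noncomputable section

set_option linter.unusedSectionVars false

variable (L : Type) [Field L] [NumberField L]

theorem a3_nv (𝔪 : Ideal (𝓞 L)) (w : HeightOneSpectrum (𝓞 L)) : nv 𝔪 w = (Ideal.absNorm w.asIdeal : ℝ) ^ (-(FR.od 𝔪 w : ℤ)) := by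
  show ((Ideal.absNorm w.asIdeal : ℝ)⁻¹) ^ (FR.od 𝔪 w) = _
  rw [zpow_neg, zpow_natCast, inv_pow]

theorem a3_nv_one {𝔪 : Ideal (𝓞 L)} {w : HeightOneSpectrum (𝓞 L)} : nv 𝔪 w = 1 ↔ FR.od 𝔪 w = 0 := by
  rw [a3_nv]
  constructor
  · intro h
    by_contra h0
    rw [zpow_neg, zpow_natCast, inv_eq_one] at h
    exact (one_lt_pow₀ (Pool.Agent.Lib.H89N.nu2_one_lt w) h0).ne' h
  · intro h
    rw [h]
    simp

theorem a3_norm_le {𝔪 : Ideal (𝓞 L)} (h𝔪 : 𝔪 ≠ ⊥) {δ : ℝ} (hδ : 0 < δ) (S : Finset (HeightOneSpectrum (𝓞 L))) :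
    ∏ w ∈ S, ((Ideal.absNorm w.asIdeal : ℝ) ^ FR.od 𝔪 w) ^ δ ≤ (Ideal.absNorm 𝔪 : ℝ) ^ δ := by
  classical
  have h1 : ∀ w : HeightOneSpectrum (𝓞 L), (1 : ℝ) ≤ (Ideal.absNorm w.asIdeal : ℝ) ^ FR.od 𝔪 w := fun w =>
    one_le_pow₀ (Pool.Agent.Lib.H89N.nu2_one_lt w).le
  rw [FR.norm_od h𝔪 (S ∪ (FR.od_finite h𝔪).toFinset) (fun v hv => by
    by_contra h0
    exact hv (Finset.mem_union_right _ ((FR.od_finite h𝔪).mem_toFinset.2 h0))),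
    ← Real.finsetProd_rpow _ _ fun w _ => (zero_le_one.trans (h1 w))]
  rw [← Finset.prod_sdiff (Finset.subset_union_left (s₁ := S) (s₂ := (FR.od_finite h𝔪).toFinset))]
  refine le_mul_of_one_le_left (Finset.prod_nonneg fun w _ => Real.rpow_nonneg (zero_le_one.trans (h1 w)) _) ?_
  have h2 := Finset.prod_le_prod (s := (S ∪ (FR.od_finite h𝔪).toFinset) \ S) (f := fun _ => (1 : ℝ))
    (g := fun w => ((Ideal.absNorm w.asIdeal : ℝ) ^ FR.od 𝔪 w) ^ δ) (fun _ _ => zero_le_one) (fun w _ => Real.one_le_rpow (h1 w) hδ.le)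
  rwa [Finset.prod_const_one] at h2

theorem a3_omega {C δ : ℝ} (hC : 1 ≤ C) (hδ : 0 < δ) : ∃ Z : ℝ, 1 ≤ Z ∧ ∀ 𝔪 : Ideal (𝓞 L), 𝔪 ≠ ⊥ → ∀ S : Finset (HeightOneSpectrum (𝓞 L)), ∏ w ∈ S, (if nv 𝔪 w = 1 then 1 else C) ≤ Z * (Ideal.absNorm 𝔪 : ℝ) ^ δ := by
  classical
  have hC0 : 0 < C := one_pos.trans_le hC
  have hfin : {w : HeightOneSpectrum (𝓞 L) | (Ideal.absNorm w.asIdeal : ℝ) ^ δ < C}.Finite := by
    have h0 : {P : Ideal (𝓞 L) | (Ideal.absNorm P : ℝ) ^ δ < C}.Finite := by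
      refine (Ideal.finite_setOfPred_absNorm_le (S := 𝓞 L) ⌊C ^ (1 / δ)⌋₊).subset fun P hP => ?_
      have hP' : (Ideal.absNorm P : ℝ) ^ δ < C := hP
      show Ideal.absNorm P ≤ ⌊C ^ (1 / δ)⌋₊
      refine Nat.le_floor ?_
      have h1 := Real.rpow_le_rpow (Real.rpow_nonneg (Nat.cast_nonneg _) _) hP'.le (one_div_pos.2 hδ).le
      rw [← Real.rpow_mul (Nat.cast_nonneg _), mul_one_div_cancel hδ.ne', Real.rpow_one] at h1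
      exact h1
    exact h0.preimage (f := fun w : HeightOneSpectrum (𝓞 L) => w.asIdeal) fun v _ w _ h => HeightOneSpectrum.ext h
  refine ⟨C ^ hfin.toFinset.card, one_le_pow₀ hC, fun 𝔪 h𝔪 S => ?_⟩
  have h1 : ∀ w : HeightOneSpectrum (𝓞 L), (1 : ℝ) ≤ (Ideal.absNorm w.asIdeal : ℝ) ^ FR.od 𝔪 w := fun w =>
    one_le_pow₀ (Pool.Agent.Lib.H89N.nu2_one_lt w).le
  have h2 : ∏ w ∈ S, (if nv 𝔪 w = 1 then 1 else C) ≤
      ∏ w ∈ S, ((if w ∈ hfin.toFinset then C else 1) * ((Ideal.absNorm w.asIdeal : ℝ) ^ FR.od 𝔪 w) ^ δ) := by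
    refine Finset.prod_le_prod (fun w _ => ?_) fun w _ => ?_
    · split_ifs
      · exact zero_le_one
      · exact hC0.le
    · have h3 : (1 : ℝ) ≤ ((Ideal.absNorm w.asIdeal : ℝ) ^ FR.od 𝔪 w) ^ δ := Real.one_le_rpow (h1 w) hδ.le
      by_cases hw : nv 𝔪 w = 1
      · rw [if_pos hw]
        refine one_le_mul_of_one_le_of_one_le ?_ h3
        split_ifs
        · exact hC
        · exact le_rfl
      · rw [if_neg hw]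
        by_cases hwZ : w ∈ hfin.toFinset
        · rw [if_pos hwZ]
          exact le_mul_of_one_le_right hC0.le h3
        · rw [if_neg hwZ, one_mul]
          rw [Set.Finite.mem_toFinset] at hwZ
          have h4 : C ≤ (Ideal.absNorm w.asIdeal : ℝ) ^ δ := not_lt.1 hwZ
          refine h4.trans (Real.rpow_le_rpow (Nat.cast_nonneg _) ?_ hδ.le)
          exact le_self_pow₀ (Pool.Agent.Lib.H89N.nu2_one_lt w).le fun h0 => hw ((a3_nv_one L).2 h0)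
  refine h2.trans ?_
  rw [Finset.prod_mul_distrib]
  refine mul_le_mul ?_ (a3_norm_le L h𝔪 hδ S) (Finset.prod_nonneg fun w _ => Real.rpow_nonneg (zero_le_one.trans (h1 w)) _)
    (pow_nonneg hC0.le _)
  rw [← Finset.prod_filter, Finset.prod_const]
  exact pow_le_pow_right₀ hC (Finset.card_le_card fun w hw => (Finset.mem_filter.1 hw).2)

theorem a3_val {𝔪 : Ideal (𝓞 L)} {w : HeightOneSpectrum (𝓞 L)} {g x : ℝ} (hg : ∃ y : L, y ≠ 0 ∧ g = av w y)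
    (h1 : nv 𝔪 w * g ≤ x) (h2 : x ≤ g) (hx : ∃ y : L, y ≠ 0 ∧ x = av w y) :
    ∃ k : ℕ, k ≤ FR.od 𝔪 w ∧ x = g * (Ideal.absNorm w.asIdeal : ℝ) ^ (-(k : ℤ)) := by
  obtain ⟨y, hy, rfl⟩ := hg
  obtain ⟨z, hz, rfl⟩ := hx
  obtain ⟨b, hb⟩ := Pool.Agent.Lib.H89N.aw_zpow w y hy
  obtain ⟨a, ha⟩ := Pool.Agent.Lib.H89N.aw_zpow w z hz
  have hb' : av w y = (Ideal.absNorm w.asIdeal : ℝ) ^ b := hb
  have ha' : av w z = (Ideal.absNorm w.asIdeal : ℝ) ^ a := ha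
  have hq := Pool.Agent.Lib.H89N.nu2_one_lt w
  have hq0 := Pool.Agent.Lib.H89N.nu2_pos w
  rw [hb', ha'] at h2
  rw [hb', ha', a3_nv, ← zpow_add₀ hq0.ne'] at h1
  have h3 : a ≤ b := (zpow_le_zpow_iff_right₀ hq).1 h2
  have h4 : -(FR.od 𝔪 w : ℤ) + b ≤ a := (zpow_le_zpow_iff_right₀ hq).1 h1
  refine ⟨(b - a).toNat, by omega, ?_⟩
  rw [hb', ha', ← zpow_add₀ hq0.ne']
  congr 1
  omega

theorem a3_card {𝔪 : Ideal (𝓞 L)} (h𝔪 : 𝔪 ≠ ⊥) (g : HeightOneSpectrum (𝓞 L) → ℝ) (hg : ∀ w, ∃ y : L, y ≠ 0 ∧ g w = av w y)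
    (Ξ : Finset (HeightOneSpectrum (𝓞 L) → ℝ)) (hΞ : ∀ ξ ∈ Ξ, ∀ w, nv 𝔪 w * g w ≤ ξ w ∧ ξ w ≤ g w ∧ ∃ y : L, y ≠ 0 ∧ ξ w = av w y) :
    Ξ.card ≤ ∏ w ∈ (FR.od_finite h𝔪).toFinset, (FR.od 𝔪 w + 1) := by
  classical
  have h1 : ∀ (ξ : {ξ // ξ ∈ Ξ}) (w : HeightOneSpectrum (𝓞 L)), ∃ k : ℕ, k ≤ FR.od 𝔪 w ∧ ξ.1 w = g w * (Ideal.absNorm w.asIdeal : ℝ) ^ (-(k : ℤ)) := fun ξ w =>
    a3_val L (hg w) (hΞ ξ.1 ξ.2 w).1 (hΞ ξ.1 ξ.2 w).2.1 (hΞ ξ.1 ξ.2 w).2.2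
  choose k hk hξ using h1
  have h2 : Fintype.card {ξ // ξ ∈ Ξ} ≤ Fintype.card (∀ w : {w // w ∈ (FR.od_finite h𝔪).toFinset}, Fin (FR.od 𝔪 w.1 + 1)) := by
    refine Fintype.card_le_of_injective (fun ξ w => ⟨k ξ w.1, Nat.lt_succ_of_le (hk ξ w.1)⟩) fun ξ ξ' h => ?_
    apply Subtype.ext
    funext w
    have h3 : k ξ w = k ξ' w := by
      by_cases hw : w ∈ (FR.od_finite h𝔪).toFinset
      · exact congrArg Fin.val (congrFun h ⟨w, hw⟩)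
      · have h0 : FR.od 𝔪 w = 0 := by
          by_contra h0
          exact hw ((FR.od_finite h𝔪).mem_toFinset.2 h0)
        have e1 := hk ξ w
        have e2 := hk ξ' w
        omega
    rw [hξ ξ w, hξ ξ' w, h3]
  rw [Fintype.card_coe, Fintype.card_pi] at h2
  refine h2.trans (le_of_eq ?_)
  rw [← Finset.prod_coe_sort (FR.od_finite h𝔪).toFinset fun w => FR.od 𝔪 w + 1]
  exact Finset.prod_congr rfl fun w _ => Fintype.card_fin _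

theorem a3_nat {δ : ℝ} (hδ : 0 < δ) (m : ℕ) {q : ℝ} (hq : 2 ≤ q) : ((m : ℝ) + 1) ≤ (1 / (δ * Real.log 2) + 1) * (q ^ m) ^ δ := by
  have hl : 0 < Real.log 2 := Real.log_pos one_lt_two
  have h1 : (2 : ℝ) ^ m ≤ q ^ m := pow_le_pow_left₀ zero_le_two hq m
  have h2 : ((2 : ℝ) ^ m) ^ δ ≤ (q ^ m) ^ δ := Real.rpow_le_rpow (pow_nonneg zero_le_two m) h1 hδ.le
  have h3 : ((2 : ℝ) ^ m) ^ δ = Real.exp (δ * Real.log 2 * m) := by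
    rw [← Real.rpow_natCast, ← Real.rpow_mul zero_le_two, Real.rpow_def_of_pos two_pos]
    congr 1
    ring
  have h4 : 0 ≤ δ * Real.log 2 * m := by positivity
  have h5 : (1 : ℝ) ≤ Real.exp (δ * Real.log 2 * m) := Real.one_le_exp h4
  have h6 : δ * Real.log 2 * m ≤ Real.exp (δ * Real.log 2 * m) := by
    have := Real.add_one_le_exp (δ * Real.log 2 * m)
    linarith
  have h7 : (m : ℝ) ≤ 1 / (δ * Real.log 2) * Real.exp (δ * Real.log 2 * m) := by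
    rw [one_div, ← div_eq_inv_mul, le_div_iff₀ (mul_pos hδ hl)]
    linarith
  rw [h3] at h2
  have h8 : (1 / (δ * Real.log 2) + 1) * Real.exp (δ * Real.log 2 * m) ≤ (1 / (δ * Real.log 2) + 1) * (q ^ m) ^ δ :=
    mul_le_mul_of_nonneg_left h2 (by positivity)
  refine le_trans ?_ h8
  rw [add_mul, one_mul]
  exact add_le_add h7 h5

/-- The number of the functions `ξ` between `|𝔪|_w g w` and `g w`. PROOF. `g w = |y|_w` and `ξ w = |y'|_w` are integral powers of `q = N(w)` (`aw_zpow`), `|𝔪|_w = q ^ (-od 𝔪 w)` (`nv` and `nw_od` of `FR`), so `ξ w = g w q ^ (-k_w)` with `0 ≤ k_w ≤ od 𝔪 w`: at the `w` with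
`od 𝔪 w = 0` `ξ w = g w`. So `ξ ↦ (k_w)_(w ∈ S)`, `S = {w | od 𝔪 w ≠ 0}` (finite: `od_finite`), is injective into a product of sets of `od 𝔪 w + 1` elements: `Ξ.card ≤ ∏_(w ∈ S) (od 𝔪 w + 1)` (`Fintype.card_pi` / `Finset.card_le_card_of_injOn` into `Finset.pi` or `Fintype.piFinset`).
With `m = od 𝔪 w ≥ 1`: `m + 1 ≤ C₁ 2 ^ (δ m / 2)`, `C₁ = C₁(δ) ≥ 1` (`m + 1 ≤ (2/δ' ) exp(δ' m)`; e.g. `δ' m ≤ exp (δ' m)`), so the product is `≤ C₁ ^ (card S) ∏ q ^ (δ m / 2) = C₁ ^ (card S) N(𝔪) ^ (δ / 2)` (`norm_od`), and `C₁ ^ (card S) ≤ C N(𝔪) ^ (δ / 2)` is `L8.F2.omega_bound L C₁ (δ / 2)`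
(`S` is in bijection with the set of the prime factors of `𝔪`; or repeat its proof: at the places with `q ≥ C₁ ^ (2 / δ)` one has `C₁ ≤ q ^ (δ / 2)`, and there are only finitely many other places). -/
theorem shapes {δ : ℝ} (hδ : 0 < δ) : ∃ C : ℝ, 1 ≤ C ∧ ∀ 𝔪 : Ideal (𝓞 L), 𝔪 ≠ ⊥ → ∀ g : HeightOneSpectrum (𝓞 L) → ℝ, (∀ w, ∃ y : L, y ≠ 0 ∧ g w = av w y) → ∀ Ξ : Finset (HeightOneSpectrum (𝓞 L) → ℝ),
    (∀ ξ ∈ Ξ, ∀ w, nv 𝔪 w * g w ≤ ξ w ∧ ξ w ≤ g w ∧ ∃ y : L, y ≠ 0 ∧ ξ w = av w y) → (Ξ.card : ℝ) ≤ C * (Ideal.absNorm 𝔪 : ℝ) ^ δ := by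
  have hl : 0 < Real.log 2 := Real.log_pos one_lt_two
  have hδ2 : 0 < δ / 2 := half_pos hδ
  have hC1 : 1 ≤ 1 / (δ / 2 * Real.log 2) + 1 := by
    have : 0 < 1 / (δ / 2 * Real.log 2) := by positivity
    linarith
  obtain ⟨Z, hZ, h⟩ := a3_omega L hC1 hδ2
  refine ⟨Z, hZ, fun 𝔪 h𝔪 g hg Ξ hΞ => ?_⟩
  have h1 := a3_card L h𝔪 g hg Ξ hΞ
  have h2 : (Ξ.card : ℝ) ≤ ∏ w ∈ (FR.od_finite h𝔪).toFinset, ((FR.od 𝔪 w : ℝ) + 1) := by exact_mod_cast h1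
  have h0 : ∀ w : HeightOneSpectrum (𝓞 L), (1 : ℝ) ≤ (Ideal.absNorm w.asIdeal : ℝ) ^ FR.od 𝔪 w := fun w =>
    one_le_pow₀ (Pool.Agent.Lib.H89N.nu2_one_lt w).le
  have h3 : ∏ w ∈ (FR.od_finite h𝔪).toFinset, ((FR.od 𝔪 w : ℝ) + 1) ≤
      ∏ w ∈ (FR.od_finite h𝔪).toFinset, ((if nv 𝔪 w = 1 then 1 else (1 / (δ / 2 * Real.log 2) + 1)) *
        ((Ideal.absNorm w.asIdeal : ℝ) ^ FR.od 𝔪 w) ^ (δ / 2)) := by
    refine Finset.prod_le_prod (fun w _ => by positivity) fun w hw => ?_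
    rw [if_neg fun h4 => ((FR.od_finite h𝔪).mem_toFinset.1 hw) ((a3_nv_one L).1 h4)]
    refine a3_nat hδ2 _ ?_
    have h5 : 1 < Ideal.absNorm w.asIdeal := by exact_mod_cast Pool.Agent.Lib.H89N.nu2_one_lt w
    exact_mod_cast h5
  refine h2.trans (h3.trans ?_)
  rw [Finset.prod_mul_distrib]
  have h6 := h 𝔪 h𝔪 (FR.od_finite h𝔪).toFinset
  have h7 := a3_norm_le L h𝔪 hδ2 (FR.od_finite h𝔪).toFinset
  have hN : (1 : ℝ) ≤ (Ideal.absNorm 𝔪 : ℝ) := by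
    have : Ideal.absNorm 𝔪 ≠ 0 := fun h8 => h𝔪 (Ideal.absNorm_eq_zero_iff.1 h8)
    exact_mod_cast Nat.one_le_iff_ne_zero.2 this
  have h9 := mul_le_mul h6 h7 (Finset.prod_nonneg fun w _ => Real.rpow_nonneg (zero_le_one.trans (h0 w)) _)
    (mul_nonneg (zero_le_one.trans hZ) (Real.rpow_nonneg (zero_le_one.trans hN) _))
  refine h9.trans (le_of_eq ?_)
  rw [mul_assoc, ← Real.rpow_add (one_pos.trans_le hN), add_halves]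

/-- `C ^ ω(𝔪)`. PROOF. As `L8.F2.omega_bound`; the number of the `w ∈ S` with `nv 𝔪 w ≠ 1` is at most the number of the prime factors of `𝔪`. -/
theorem omega_pl {C δ : ℝ} (hC : 1 ≤ C) (hδ : 0 < δ) : ∃ Z : ℝ, 1 ≤ Z ∧ ∀ 𝔪 : Ideal (𝓞 L), 𝔪 ≠ ⊥ → ∀ S : Finset (HeightOneSpectrum (𝓞 L)), ∏ w ∈ S, (if nv 𝔪 w = 1 then 1 else C) ≤ Z * (Ideal.absNorm 𝔪 : ℝ) ^ δ := by
  exact a3_omega L hC hδ

end

end Pool.Agent.Lib.L8.HS
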