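import Mathlib

/-!
# HS, chunk A4 (M): counting in a group extension (abstract)
-/

namespace Pool.Agent.Lib.L8.HS

noncomputable section

set_option linter.unusedSectionVars false

/-- `r : N → A` is a homomorphism, `s` an injective homomorphism of its kernel. PROOF. Let `k = 𝔞.relIndex rB ≥ 1` and `β_1, ..., β_k ∈ B` with `r β_j` representatives of `rB ⧸ 𝔞` (`mem_rB`). `F₀ = {u β_j : u ∈ T, j}` has `T.card * k` elements, more precisely: if `u β_i` and `u' β_j` satisfy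
`(u β_i)⁻¹ (u' β_j) ∈ B` and `r (u β_i) - r (u' β_j) ∈ 𝔞` then `u⁻¹ u' ∈ B`, so `u = u'`, and `r β_i - r β_j ∈ 𝔞`, so `i = j` (*). All elements of `F₀` are in `X` (`TX`, `XB`). Choose for every class modulo `𝔞` which occurs among the `r x`, `x ∈ F₀`, one `x₀ ∈ F₀` (a map `ρ : F₀ → F₀` with
`r x - r (ρ x) ∈ 𝔞` and `ρ x = ρ y` if `r x - r y ∈ 𝔞`): the set `F = r (ρ (F₀))` is incongruent modulo `𝔞`, so `F.card ≤ c₁` (`H1`), and `x₀ ↦ r x₀` is injective on `ρ(F₀)` (if `r x₀ = r x₀'` the classes agree). For a fixed `x₀` and `x ∈ F₀` with `ρ x = x₀`: choose `β ∈ B` with `r β = r x₀ - r x ∈ 𝔞 ≤ rB`;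
`x̃ = x β ∈ X` has `r x̃ = r x₀`. The elements `s (x₀⁻¹ x̃) ∈ C` are incongruent modulo `sB` for different `x`: if `s (x₀⁻¹ x̃) - s (x₀⁻¹ x̃') ∈ sB`, `= s ζ`, `ζ ∈ B`, `r ζ = 0`, then `s ((x₀⁻¹ x̃')⁻¹ (x₀⁻¹ x̃)) = s ζ` and by injectivity `x̃'⁻¹ x̃ = ζ ∈ B` (use `s_mul` for `s (g⁻¹) = - s g`; the kernel of `r` need not be
commutative a priori but `s` is injective and additive on it), so `x'⁻¹ x ∈ B` and `x = x'` by (*). In particular `x ↦ s (x₀⁻¹ x̃)` is injective; so the fibre has at most `c₂` elements (`H2`). Sum over the fibres (`Finset.card_eq_sum_card_fiberwise`). -/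
theorem count {N A C : Type} [Group N] [AddCommGroup A] [AddCommGroup C] {r : N → A} {s : N → C} (r_mul : ∀ u u', r (u * u') = r u + r u') (s_mul : ∀ u u', r u = 0 → r u' = 0 → s (u * u') = s u + s u')
    (s_inj : ∀ u, r u = 0 → s u = 0 → u = 1) {B : Subgroup N} {T : Finset N} {X : Set N} {rB 𝔞 : AddSubgroup A} {sB : AddSubgroup C} (mem_rB : ∀ x, x ∈ rB ↔ ∃ u ∈ B, r u = x)
    (mem_sB : ∀ x, x ∈ sB ↔ ∃ u ∈ B, r u = 0 ∧ s u = x) (inc : ∀ u ∈ T, ∀ u' ∈ T, u⁻¹ * u' ∈ B → u = u') (TX : ∀ u ∈ T, u ∈ X) (XB : ∀ u ∈ X, ∀ β ∈ B, u * β ∈ X) (h𝔞 : 𝔞 ≤ rB) (hi : 𝔞.relIndex rB ≠ 0)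
    {c₁ c₂ : ℝ} (hc₂ : 0 ≤ c₂) (H1 : ∀ F : Finset A, (∀ x ∈ F, ∃ u ∈ X, r u = x) → (∀ x ∈ F, ∀ y ∈ F, x - y ∈ 𝔞 → x = y) → (F.card : ℝ) ≤ c₁)
    (H2 : ∀ u₀ ∈ X, ∀ F : Finset C, (∀ x ∈ F, ∃ u ∈ X, r u = r u₀ ∧ s (u₀⁻¹ * u) = x) → (∀ x ∈ F, ∀ y ∈ F, x - y ∈ sB → x = y) → (F.card : ℝ) ≤ c₂) :
    (T.card : ℝ) * (𝔞.relIndex rB : ℝ) ≤ c₁ * c₂ := by
  classical
  have r_one : r 1 = 0 := by
    have h := r_mul 1 1
    rw [mul_one] at h
    exact (add_eq_left.mp h.symm)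
  have r_inv : ∀ u, r u⁻¹ = - r u := by
    intro u
    have h := r_mul u⁻¹ u
    rw [inv_mul_cancel, r_one] at h
    exact (neg_eq_of_add_eq_zero_left h.symm).symm
  have s_one : s 1 = 0 := by
    have h := s_mul 1 1 r_one r_one
    rw [mul_one] at h
    exact (add_eq_left.mp h.symm)
  have s_inv : ∀ u, r u = 0 → s u⁻¹ = - s u := by
    intro u hu
    have h := s_mul u⁻¹ u (by rw [r_inv, hu, neg_zero]) hu
    rw [inv_mul_cancel, s_one] at h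
    exact (neg_eq_of_add_eq_zero_left h.symm).symm
  have hidx : (𝔞.addSubgroupOf rB).index ≠ 0 := hi
  haveI : (𝔞.addSubgroupOf rB).FiniteIndex := ⟨hidx⟩
  haveI : Finite (rB ⧸ 𝔞.addSubgroupOf rB) := inferInstance
  letI : Fintype (rB ⧸ 𝔞.addSubgroupOf rB) := Fintype.ofFinite _
  have hcard : Fintype.card (rB ⧸ 𝔞.addSubgroupOf rB) = 𝔞.relIndex rB := by
    rw [← Nat.card_eq_fintype_card]; rfl
  have hβ : ∀ j : rB ⧸ 𝔞.addSubgroupOf rB, ∃ u ∈ B, r u = ((Quotient.out j : rB) : A) := fun j =>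
    (mem_rB _).1 (Quotient.out j).2
  choose β hβB hβr using hβ
  set Φ : N × (rB ⧸ 𝔞.addSubgroupOf rB) → N := fun p => p.1 * β p.2 with hΦ
  set P : Finset (N × (rB ⧸ 𝔞.addSubgroupOf rB)) := T ×ˢ Finset.univ with hP
  have hPc : P.card = T.card * 𝔞.relIndex rB := by
    rw [hP, Finset.card_product, Finset.card_univ, hcard]
  have hΦX : ∀ p ∈ P, Φ p ∈ X := by
    intro p hp
    have h1 : p.1 ∈ T := (Finset.mem_product.1 hp).1
    exact XB _ (TX _ h1) _ (hβB _)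
  have star : ∀ p ∈ P, ∀ p' ∈ P, (Φ p)⁻¹ * Φ p' ∈ B → r (Φ p) - r (Φ p') ∈ 𝔞 → p = p' := by
    intro p hp p' hp' h1 h2
    have hT : p.1 ∈ T := (Finset.mem_product.1 hp).1
    have hT' : p'.1 ∈ T := (Finset.mem_product.1 hp').1
    have h3 : p.1⁻¹ * p'.1 ∈ B := by
      have h4 : β p.2 * ((Φ p)⁻¹ * Φ p') * (β p'.2)⁻¹ ∈ B :=
        B.mul_mem (B.mul_mem (hβB _) h1) (B.inv_mem (hβB _))
      have h5 : β p.2 * ((Φ p)⁻¹ * Φ p') * (β p'.2)⁻¹ = p.1⁻¹ * p'.1 := by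
        simp only [hΦ]; group
      rwa [h5] at h4
    have h6 : p.1 = p'.1 := inc _ hT _ hT' h3
    have h7 : r (β p.2) - r (β p'.2) ∈ 𝔞 := by
      have h8 : r (Φ p) - r (Φ p') = r (β p.2) - r (β p'.2) := by
        simp only [hΦ, r_mul, h6]; abel
      rwa [h8] at h2
    have h9 : p.2 = p'.2 := by
      rw [hβr, hβr] at h7
      rw [← Quotient.out_eq p.2, ← Quotient.out_eq p'.2]
      apply (QuotientAddGroup.eq (s := 𝔞.addSubgroupOf rB)).2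
      rw [AddSubgroup.mem_addSubgroupOf]
      have h10 := 𝔞.neg_mem h7
      have h11 : -(((Quotient.out p.2 : rB) : A) - ((Quotient.out p'.2 : rB) : A)) = ((-(Quotient.out p.2 : rB) + (Quotient.out p'.2 : rB) : rB) : A) := by
        push_cast; abel
      rwa [h11] at h10
    exact Prod.ext h6 h9
  set cls : N × (rB ⧸ 𝔞.addSubgroupOf rB) → A ⧸ 𝔞 := fun p => QuotientAddGroup.mk (r (Φ p)) with hcls
  have cls_iff : ∀ p p', cls p = cls p' ↔ r (Φ p') - r (Φ p) ∈ 𝔞 := by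
    intro p p'
    simp only [hcls]
    rw [QuotientAddGroup.eq, neg_add_eq_sub]
  set I : Finset (A ⧸ 𝔞) := P.image cls with hI
  have hx : ∀ c : A ⧸ 𝔞, ∃ p : N × (rB ⧸ 𝔞.addSubgroupOf rB), c ∈ I → (p ∈ P ∧ cls p = c) := by
    intro c
    by_cases hc : c ∈ I
    · obtain ⟨p, hp, hpc⟩ := Finset.mem_image.1 hc
      exact ⟨p, fun _ => ⟨hp, hpc⟩⟩
    · exact ⟨(1, 0), fun h => absurd h hc⟩
  choose x₀ hx₀ using hx
  have hIc : (I.card : ℝ) ≤ c₁ := by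
    have hinj : Set.InjOn (fun c => r (Φ (x₀ c))) (I : Set (A ⧸ 𝔞)) := by
      intro c hc c' hc' h
      have h1 := (hx₀ c hc).2
      have h2 := (hx₀ c' hc').2
      have h3 : r (Φ (x₀ c)) = r (Φ (x₀ c')) := h
      rw [← h1, ← h2, cls_iff, h3, sub_self]
      exact 𝔞.zero_mem
    have h1 := H1 (I.image (fun c => r (Φ (x₀ c)))) ?_ ?_
    · rwa [Finset.card_image_of_injOn hinj] at h1
    · intro x hx
      obtain ⟨c, hc, rfl⟩ := Finset.mem_image.1 hx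
      exact ⟨_, hΦX _ (hx₀ c hc).1, rfl⟩
    · intro x hx y hy hxy
      obtain ⟨c, hc, rfl⟩ := Finset.mem_image.1 hx
      obtain ⟨c', hc', rfl⟩ := Finset.mem_image.1 hy
      have h3 : cls (x₀ c') = cls (x₀ c) := (cls_iff _ _).2 hxy
      rw [(hx₀ c hc).2, (hx₀ c' hc').2] at h3
      rw [h3]
  have hfib : ∀ c ∈ I, (((P.filter (fun p => cls p = c)).card : ℕ) : ℝ) ≤ c₂ := by
    intro c hc
    obtain ⟨hp0, hc0⟩ := hx₀ c hc
    have hb : ∀ p : N × (rB ⧸ 𝔞.addSubgroupOf rB), ∃ b : N, (p ∈ P.filter (fun p => cls p = c) → (b ∈ B ∧ r b = r (Φ (x₀ c)) - r (Φ p))) := by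
      intro p
      by_cases hp : p ∈ P.filter (fun p => cls p = c)
      · have h1 : cls p = cls (x₀ c) := by rw [(Finset.mem_filter.1 hp).2, hc0]
        have h2 : r (Φ (x₀ c)) - r (Φ p) ∈ 𝔞 := (cls_iff _ _).1 h1
        obtain ⟨b, hb1, hb2⟩ := (mem_rB _).1 (h𝔞 h2)
        exact ⟨b, fun _ => ⟨hb1, hb2⟩⟩
      · exact ⟨1, fun h => absurd h hp⟩
    choose b hb using hb
    have hr : ∀ p ∈ P.filter (fun p => cls p = c), r (Φ p * b p) = r (Φ (x₀ c)) := by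
      intro p hp
      rw [r_mul, (hb p hp).2]; abel
    have hr0 : ∀ p ∈ P.filter (fun p => cls p = c), r ((Φ (x₀ c))⁻¹ * (Φ p * b p)) = 0 := by
      intro p hp
      rw [r_mul, r_inv, hr p hp, neg_add_cancel]
    have key : ∀ p ∈ P.filter (fun p => cls p = c), ∀ p' ∈ P.filter (fun p => cls p = c), s ((Φ (x₀ c))⁻¹ * (Φ p * b p)) - s ((Φ (x₀ c))⁻¹ * (Φ p' * b p')) ∈ sB → p = p' := by
      intro p hp p' hp' h
      obtain ⟨ζ, hζB, hζr, hζs⟩ := (mem_sB _).1 h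
      have h1 : s (((Φ (x₀ c))⁻¹ * (Φ p' * b p'))⁻¹ * ((Φ (x₀ c))⁻¹ * (Φ p * b p))) = s ζ := by
        rw [s_mul _ _ (by rw [r_inv, hr0 p' hp', neg_zero]) (hr0 p hp), s_inv _ (hr0 p' hp'), hζs]; abel
      have h2 : ((Φ (x₀ c))⁻¹ * (Φ p' * b p'))⁻¹ * ((Φ (x₀ c))⁻¹ * (Φ p * b p)) = (Φ p' * b p')⁻¹ * (Φ p * b p) := by group
      rw [h2] at h1
      have hr1 : r ((Φ p' * b p')⁻¹ * (Φ p * b p)) = 0 := by
        rw [r_mul, r_inv, hr p hp, hr p' hp', neg_add_cancel]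
      have h3 : ((Φ p' * b p')⁻¹ * (Φ p * b p)) * ζ⁻¹ = 1 := by
        apply s_inj
        · rw [r_mul, hr1, r_inv, hζr, neg_zero, add_zero]
        · rw [s_mul _ _ hr1 (by rw [r_inv, hζr, neg_zero]), h1, s_inv _ hζr, add_neg_cancel]
      have h4 : (Φ p' * b p')⁻¹ * (Φ p * b p) = ζ := by
        rw [mul_inv_eq_one] at h3; exact h3
      have h5 : (Φ p')⁻¹ * Φ p ∈ B := by
        have h6 : b p' * ((Φ p' * b p')⁻¹ * (Φ p * b p)) * (b p)⁻¹ ∈ B := by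
          rw [h4]
          exact B.mul_mem (B.mul_mem (hb p' hp').1 hζB) (B.inv_mem (hb p hp).1)
        have h7 : b p' * ((Φ p' * b p')⁻¹ * (Φ p * b p)) * (b p)⁻¹ = (Φ p')⁻¹ * Φ p := by group
        rwa [h7] at h6
      have hpP := (Finset.mem_filter.1 hp)
      have hpP' := (Finset.mem_filter.1 hp')
      have h8 : r (Φ p') - r (Φ p) ∈ 𝔞 := (cls_iff _ _).1 (by rw [hpP.2, hpP'.2])
      exact (star p' hpP'.1 p hpP.1 h5 h8).symm
    have hinj : Set.InjOn (fun p => s ((Φ (x₀ c))⁻¹ * (Φ p * b p))) (P.filter (fun p => cls p = c) : Set (N × (rB ⧸ 𝔞.addSubgroupOf rB))) := by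
      intro p hp p' hp' h
      apply key p (Finset.mem_coe.1 hp) p' (Finset.mem_coe.1 hp')
      have h' : s ((Φ (x₀ c))⁻¹ * (Φ p * b p)) = s ((Φ (x₀ c))⁻¹ * (Φ p' * b p')) := h
      rw [h', sub_self]
      exact sB.zero_mem
    have h1 := H2 (Φ (x₀ c)) (hΦX _ hp0) ((P.filter (fun p => cls p = c)).image (fun p => s ((Φ (x₀ c))⁻¹ * (Φ p * b p)))) ?_ ?_
    · rwa [Finset.card_image_of_injOn hinj] at h1
    · intro x hx
      obtain ⟨p, hp, rfl⟩ := Finset.mem_image.1 hx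
      exact ⟨Φ p * b p, XB _ (hΦX _ (Finset.mem_filter.1 hp).1) _ (hb p hp).1, hr p hp, rfl⟩
    · intro x hx y hy hxy
      obtain ⟨p, hp, rfl⟩ := Finset.mem_image.1 hx
      obtain ⟨p', hp', rfl⟩ := Finset.mem_image.1 hy
      rw [key p hp p' hp' hxy]
  have hsum : P.card = ∑ c ∈ I, (P.filter (fun p => cls p = c)).card :=
    Finset.card_eq_sum_card_fiberwise (fun p hp => Finset.mem_coe.2 (Finset.mem_image_of_mem _ (Finset.mem_coe.1 hp)))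
  calc (T.card : ℝ) * (𝔞.relIndex rB : ℝ) = (P.card : ℝ) := by rw [hPc]; push_cast; ring
    _ = ∑ c ∈ I, ((P.filter (fun p => cls p = c)).card : ℝ) := by rw [hsum]; push_cast; rfl
    _ ≤ ∑ c ∈ I, c₂ := Finset.sum_le_sum hfib
    _ = (I.card : ℝ) * c₂ := by rw [Finset.sum_const, nsmul_eq_mul]
    _ ≤ c₁ * c₂ := mul_le_mul_of_nonneg_right hIc hc₂

end

end Pool.Agent.Lib.L8.HS
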