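import Pool.Agent.Lib.L8.HS.A2
import Pool.Agent.Lib.L8.HS.A3
import Pool.Agent.Lib.L8.HS.A4
import Pool.Agent.Lib.H29F.FB1

/-!
# HS, chunk A8 (M/L): the number of the elements with given contents
-/

namespace Pool.Agent.Lib.L8.HS

open NumberField IsDedekindDomain Pool.Agent.Lib.L1S Pool.Agent.Lib.L8.QF Pool.Agent.Lib.H29F

noncomputable section

set_option linter.unusedSectionVars false

section

variable {K E L : Type} [Field K] [NumberField K] [Field E] [NumberField E] [Field L] [NumberField L] [Algebra K L] [Algebra E L]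

theorem a8_norm (𝔫 : Ideal (𝓞 K)) : Ideal.absNorm (up L 𝔫) = Ideal.absNorm 𝔫 ^ Module.finrank K L := by
  unfold up
  let _ : Algebra (FractionRing (𝓞 K)) (FractionRing (𝓞 L)) := FractionRing.liftAlgebra _ _
  rw [Ideal.absNorm_algebraMap, ← IsFractionRing.finrank_eq (𝓞 K) K (𝓞 L) L]

theorem a8_ne {𝔫 : Ideal (𝓞 K)} (h : 𝔫 ≠ ⊥) : up L 𝔫 ≠ ⊥ := by
  intro h0
  have h1 := a8_norm (L := L) 𝔫
  rw [h0, Ideal.absNorm_bot] at h1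
  have h2 : Ideal.absNorm 𝔫 ≠ 0 := by
    rw [Ne, Ideal.absNorm_eq_zero_iff]
    exact h
  exact pow_ne_zero _ h2 h1.symm

theorem a8_pos {f : HeightOneSpectrum (𝓞 L) → ℝ} (h : ∀ w, ∃ y : L, y ≠ 0 ∧ f w = av w y) (w : HeightOneSpectrum (𝓞 L)) : 0 < f w := by
  obtain ⟨y, hy, e⟩ := h w
  rw [e]
  exact (av w).pos hy

theorem a8_mul {f g : HeightOneSpectrum (𝓞 L) → ℝ} (hf : ∀ w, ∃ y : L, y ≠ 0 ∧ f w = av w y) (hg : ∀ w, ∃ y : L, y ≠ 0 ∧ g w = av w y) (w : HeightOneSpectrum (𝓞 L)) : ∃ y : L, y ≠ 0 ∧ f w * g w = av w y := by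
  obtain ⟨y, hy, e⟩ := hf w
  obtain ⟨z, hz, e'⟩ := hg w
  exact ⟨y * z, mul_ne_zero hy hz, by rw [e, e', map_mul]⟩

theorem a8_av_fin (x : L) : {v : HeightOneSpectrum (𝓞 L) | ¬av v x ≤ 1}.Finite := by
  obtain ⟨a, d, hd, rfl⟩ := IsFractionRing.div_surjective (A := 𝓞 L) x
  have hd0 : d ≠ 0 := nonZeroDivisors.ne_zero hd
  have hI : (Ideal.span {d} : Ideal (𝓞 L)) ≠ ⊥ := by simpa using hd0
  refine (L8.FR.od_finite hI).subset fun v hv => ?_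
  by_contra hdv
  apply hv
  have hdv' : L8.FR.od (Ideal.span {d}) v = 0 := not_not.1 hdv
  have h1 : av v (algebraMap (𝓞 L) L d) = 1 := by
    have h2 := L8.FR.nw_span hd0 v
    rw [L8.FR.nw_od, hdv', Nat.cast_zero, neg_zero, _root_.zpow_zero] at h2
    exact h2.symm
  show av v (algebraMap (𝓞 L) L a / algebraMap (𝓞 L) L d) ≤ 1
  rw [map_div₀, h1, div_one]
  exact Pool.Agent.Lib.H89N.nu2_le_one v a

theorem a8_fin {θ : L} (hθ : θ ≠ 0) : {w : HeightOneSpectrum (𝓞 L) | av w θ ≠ 1}.Finite := by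
  refine ((a8_av_fin θ).union (a8_av_fin θ⁻¹)).subset fun v hv => ?_
  by_contra h
  rw [Set.mem_union, not_or] at h
  have h1 : av v θ ≤ 1 := not_not.1 h.1
  have h2 : av v θ⁻¹ ≤ 1 := not_not.1 h.2
  rw [map_inv₀] at h2
  have h3 : 0 < av v θ := (av v).pos hθ
  exact hv (le_antisymm h1 ((inv_le_one₀ h3).1 h2))

/-- The first bound: the elements of `E`. -/
theorem a8_H1 [IsGalois E L] (hKE : Module.finrank K L = 2 * Module.finrank E L) (σ₀ : L ≃ₐ[K] L) {𝔫 : Ideal (𝓞 K)} (h𝔫 : 𝔫 ≠ ⊥) {Cs : ℝ}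
    (hCs : ∀ g : HeightOneSpectrum (𝓞 L) → ℝ, (∀ w, ∃ y : L, y ≠ 0 ∧ g w = av w y) → ∀ Ξ : Finset (HeightOneSpectrum (𝓞 L) → ℝ),
      (∀ ξ ∈ Ξ, ∀ w, nv (up L 𝔫) w * g w ≤ ξ w ∧ ξ w ≤ g w ∧ ∃ y : L, y ≠ 0 ∧ ξ w = av w y) → (Ξ.card : ℝ) ≤ Cs)
    {a₁ a₂ D₁ D₂ : HeightOneSpectrum (𝓞 L) → ℝ} (v₁ : ∀ w, ∃ y : L, y ≠ 0 ∧ a₁ w = av w y) (v₂ : ∀ w, ∃ y : L, y ≠ 0 ∧ a₂ w = av w y)
    (v₃ : ∀ w, ∃ y : L, y ≠ 0 ∧ D₁ w = av w y) (v₄ : ∀ w, ∃ y : L, y ≠ 0 ∧ D₂ w = av w y)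
    (f₁ : {w | a₁ w ≠ 1}.Finite) (f₂ : {w | a₂ w ≠ 1}.Finite) (f₃ : {w | D₁ w ≠ 1}.Finite) (f₄ : {w | D₂ w ≠ 1}.Finite)
    (o₁ : ∀ w, 1 ≤ D₁ w) (o₂ : ∀ w, 1 ≤ D₂ w) {Λ : AddSubgroup E} (h1 : Λ.relIndex (OK E) ≠ 0) (h2 : (OK E).relIndex Λ ≠ 0)
    (hΛ : ∀ x ∈ Λ, ∀ w, av w (algebraMap E L x) ≤ nu L 𝔫 w * a₁ w ∧ av w (σ₀ (algebraMap E L x)) ≤ nu L 𝔫 w * a₂ w)
    (F : Finset E) (e₁ : ∀ x ∈ F, ∀ y ∈ F, ∀ w, av w (algebraMap E L (x - y)) ≤ a₁ w * D₂ w)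
    (e₂ : ∀ x ∈ F, ∀ y ∈ F, ∀ w, av w (σ₀ (algebraMap E L (x - y))) ≤ a₂ w * D₁ w)
    (e₃ : ∀ x ∈ F, ∀ y ∈ F, ∀ w, av w (algebraMap E L (x - y)) * av w (σ₀ (algebraMap E L (x - y))) ≤ nu L 𝔫 w * (a₁ w * a₂ w) * (D₁ w * D₂ w))
    (hinc : ∀ x ∈ F, ∀ y ∈ F, x - y ∈ Λ → x = y) :
    (F.card : ℝ) ≤ Cs * (agi (OK E) Λ * (∏ᶠ w, nu L 𝔫 w * (a₁ w * a₂ w) * (D₁ w * D₂ w)) ^ ((Module.finrank K L : ℝ)⁻¹)) := by
  classical
  have pn : ∀ w, 0 < nu L 𝔫 w := fun w => nv_pos _ w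
  have p₁ := a8_pos v₁
  have p₂ := a8_pos v₂
  have p₃ := a8_pos v₃
  have p₄ := a8_pos v₄
  have c0 : 0 ≤ Cs := by
    have h := hCs a₁ v₁ ∅ (fun ξ hξ => absurd hξ (Finset.notMem_empty _))
    rwa [Finset.card_empty, Nat.cast_zero] at h
  have hP : 0 ≤ ∏ᶠ w, nu L 𝔫 w * (a₁ w * a₂ w) * (D₁ w * D₂ w) := finprod_nonneg fun w => by
    have := pn w
    have := p₁ w
    have := p₂ w
    have := p₃ w
    have := p₄ w
    positivity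
  have hB : 0 ≤ agi (OK E) Λ * (∏ᶠ w, nu L 𝔫 w * (a₁ w * a₂ w) * (D₁ w * D₂ w)) ^ ((Module.finrank K L : ℝ)⁻¹) :=
    mul_nonneg (agi_pos h2 h1).le (Real.rpow_nonneg hP _)
  rcases F.eq_empty_or_nonempty with rfl | ⟨x₀, hx₀⟩
  · rw [Finset.card_empty, Nat.cast_zero]
    exact mul_nonneg c0 hB
  set ξ : E → HeightOneSpectrum (𝓞 L) → ℝ := fun x w => max (av w (algebraMap E L (x - x₀))) (nu L 𝔫 w * (a₁ w * D₂ w)) with hξ
  have hν1 : ∀ w, nu L 𝔫 w ≤ 1 := fun w => nv_le_one _ w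
  have hξ1 : ∀ x w, nu L 𝔫 w * (a₁ w * D₂ w) ≤ ξ x w := fun x w => le_max_right _ _
  have hξ2 : ∀ x ∈ F, ∀ w, ξ x w ≤ a₁ w * D₂ w := fun x hx w =>
    max_le (e₁ x hx x₀ hx₀ w) (mul_le_of_le_one_left (mul_pos (p₁ w) (p₄ w)).le (hν1 w))
  have hξ0 : ∀ x w, 0 < ξ x w := fun x w => lt_of_lt_of_le (mul_pos (pn w) (mul_pos (p₁ w) (p₄ w))) (hξ1 x w)
  have hcard : (F.card : ℝ) = ∑ b ∈ F.image ξ, ((F.filter (fun a => ξ a = b)).card : ℝ) := by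
    rw [Finset.card_eq_sum_card_image ξ F, Nat.cast_sum]
  have hfib : ∀ b ∈ F.image ξ, ((F.filter (fun a => ξ a = b)).card : ℝ) ≤ agi (OK E) Λ * (∏ᶠ w, nu L 𝔫 w * (a₁ w * a₂ w) * (D₁ w * D₂ w)) ^ ((Module.finrank K L : ℝ)⁻¹) := by
    intro b hb
    obtain ⟨x₁, hx₁, rfl⟩ := Finset.mem_image.1 hb
    have q₁ : ∀ w, 0 < ξ x₁ w := hξ0 x₁
    have q₂ : ∀ w, 0 < nu L 𝔫 w * (a₁ w * a₂ w) * (D₁ w * D₂ w) / ξ x₁ w := fun w => by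
      have := pn w
      have := p₁ w
      have := p₂ w
      have := p₃ w
      have := p₄ w
      have := q₁ w
      positivity
    have hU : ({w | nu L 𝔫 w ≠ 1} ∪ {w | a₁ w ≠ 1} ∪ {w | a₂ w ≠ 1} ∪ {w | D₁ w ≠ 1} ∪ {w | D₂ w ≠ 1}).Finite :=
      ((((nv_fin (a8_ne (L := L) h𝔫)).union f₁).union f₂).union f₃).union f₄
    have hU1 : ∀ w, w ∉ ({w | nu L 𝔫 w ≠ 1} ∪ {w | a₁ w ≠ 1} ∪ {w | a₂ w ≠ 1} ∪ {w | D₁ w ≠ 1} ∪ {w | D₂ w ≠ 1} : Set (HeightOneSpectrum (𝓞 L))) →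
        nu L 𝔫 w = 1 ∧ a₁ w = 1 ∧ a₂ w = 1 ∧ D₁ w = 1 ∧ D₂ w = 1 := by
      intro w hw
      simp only [Set.mem_union, Set.mem_setOf_eq, not_or, not_not] at hw
      tauto
    have hx1 : ∀ w, w ∉ ({w | nu L 𝔫 w ≠ 1} ∪ {w | a₁ w ≠ 1} ∪ {w | a₂ w ≠ 1} ∪ {w | D₁ w ≠ 1} ∪ {w | D₂ w ≠ 1} : Set (HeightOneSpectrum (𝓞 L))) →
        ξ x₁ w = 1 := by
      intro w hw
      obtain ⟨k1, k2, k3, k4, k5⟩ := hU1 w hw
      have m1 := hξ1 x₁ w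
      have m2 := hξ2 x₁ hx₁ w
      rw [k1, k2, k5] at m1
      rw [k2, k5] at m2
      apply le_antisymm
      · linarith
      · linarith
    have g₁ : {w | ξ x₁ w ≠ 1}.Finite := hU.subset fun w hw => by
      by_contra h
      exact hw (hx1 w h)
    have g₂ : {w | nu L 𝔫 w * (a₁ w * a₂ w) * (D₁ w * D₂ w) / ξ x₁ w ≠ 1}.Finite := hU.subset fun w hw => by
      by_contra h
      apply hw
      obtain ⟨k1, k2, k3, k4, k5⟩ := hU1 w h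
      rw [hx1 w h, k1, k2, k3, k4, k5]
      norm_num
    have key : ∀ x ∈ F, ξ x = ξ x₁ → ∀ w, av w (σ₀ (algebraMap E L (x - x₀))) ≤ nu L 𝔫 w * (a₁ w * a₂ w) * (D₁ w * D₂ w) / ξ x₁ w := by
      intro x hx hxx w
      rw [le_div_iff₀ (q₁ w), ← hxx]
      rcases le_total (av w (algebraMap E L (x - x₀))) (nu L 𝔫 w * (a₁ w * D₂ w)) with hm | hm
      · have e : ξ x w = nu L 𝔫 w * (a₁ w * D₂ w) := max_eq_right hm
        rw [e]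
        have h3 := e₂ x hx x₀ hx₀ w
        have h4 := mul_le_mul_of_nonneg_right h3 (mul_pos (pn w) (mul_pos (p₁ w) (p₄ w))).le
        refine h4.trans (le_of_eq ?_)
        ring
      · have e : ξ x w = av w (algebraMap E L (x - x₀)) := max_eq_left hm
        rw [e, mul_comm]
        exact e₃ x hx x₀ hx₀ w
    have h := lat2_card (K := K) (E := E) (L := L) hKE σ₀ (ρ₁ := ξ x₁) (ρ₂ := fun w => nu L 𝔫 w * (a₁ w * a₂ w) * (D₁ w * D₂ w) / ξ x₁ w) q₁ q₂ g₁ g₂ h1 h2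
      (fun x hx w => by
        obtain ⟨k1, k2⟩ := hΛ x hx w
        constructor
        · refine k1.trans (le_trans ?_ (hξ1 x₁ w))
          exact mul_le_mul_of_nonneg_left (le_mul_of_one_le_right (p₁ w).le (o₂ w)) (pn w).le
        · refine k2.trans ?_
          show _ ≤ nu L 𝔫 w * (a₁ w * a₂ w) * (D₁ w * D₂ w) / ξ x₁ w
          rw [le_div_iff₀ (q₁ w)]
          calc nu L 𝔫 w * a₂ w * ξ x₁ w ≤ nu L 𝔫 w * a₂ w * (a₁ w * D₂ w) :=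
                mul_le_mul_of_nonneg_left (hξ2 x₁ hx₁ w) (mul_pos (pn w) (p₂ w)).le
            _ ≤ nu L 𝔫 w * a₂ w * (a₁ w * D₂ w) * D₁ w :=
                le_mul_of_one_le_right (mul_pos (mul_pos (pn w) (p₂ w)) (mul_pos (p₁ w) (p₄ w))).le (o₁ w)
            _ = _ := by ring)
      (F.filter (fun a => ξ a = ξ x₁))
      (fun x hx y hy w => by
        obtain ⟨hx, hxx⟩ := Finset.mem_filter.1 hx
        obtain ⟨hy, hyy⟩ := Finset.mem_filter.1 hy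
        have e : x - y = (x - x₀) - (y - x₀) := by ring
        constructor
        · rw [e, map_sub, sub_eq_add_neg]
          refine (NumberField.HeightOneSpectrum.isNonarchimedean_adicAbv L w _ _).trans (max_le ?_ ?_)
          · rw [← hxx]
            exact le_max_left _ _
          · rw [AbsoluteValue.map_neg, ← hyy]
            exact le_max_left _ _
        · show _ ≤ nu L 𝔫 w * (a₁ w * a₂ w) * (D₁ w * D₂ w) / ξ x₁ w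
          rw [e, map_sub, map_sub, sub_eq_add_neg]
          refine (NumberField.HeightOneSpectrum.isNonarchimedean_adicAbv L w _ _).trans (max_le ?_ ?_)
          · exact key x hx hxx w
          · rw [AbsoluteValue.map_neg]
            exact key y hy hyy w)
      (fun x hx y hy hxy => hinc x (Finset.mem_filter.1 hx).1 y (Finset.mem_filter.1 hy).1 hxy)
    refine h.trans (le_of_eq ?_)
    have e : ∀ w, ξ x₁ w * (nu L 𝔫 w * (a₁ w * a₂ w) * (D₁ w * D₂ w) / ξ x₁ w) = nu L 𝔫 w * (a₁ w * a₂ w) * (D₁ w * D₂ w) := fun w =>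
      mul_div_cancel₀ _ (q₁ w).ne'
    simp only [e]
  have hΞ : ((F.image ξ).card : ℝ) ≤ Cs := by
    refine hCs (fun w => a₁ w * D₂ w) (a8_mul v₁ v₄) _ fun b hb w => ?_
    obtain ⟨x, hx, rfl⟩ := Finset.mem_image.1 hb
    refine ⟨hξ1 x w, hξ2 x hx w, ?_⟩
    rcases le_total (av w (algebraMap E L (x - x₀))) (nu L 𝔫 w * (a₁ w * D₂ w)) with hm | hm
    · have e : ξ x w = nu L 𝔫 w * (a₁ w * D₂ w) := max_eq_right hm
      rw [e]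
      exact a8_mul (fun w => nv_val (up L 𝔫) w) (a8_mul v₁ v₄) w
    · have e : ξ x w = av w (algebraMap E L (x - x₀)) := max_eq_left hm
      refine ⟨algebraMap E L (x - x₀), fun h0 => ?_, e⟩
      have := hξ0 x w
      rw [e, h0, map_zero] at this
      exact lt_irrefl _ this
  rw [hcard]
  refine (Finset.sum_le_card_nsmul _ _ _ hfib).trans ?_
  rw [nsmul_eq_mul]
  exact mul_le_mul_of_nonneg_right hΞ hB

/-- The second bound: the elements of `K`. -/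
theorem a8_H2 [IsGalois K L] {θ : L} (hθ : θ ≠ 0) {S : HeightOneSpectrum (𝓞 L) → ℝ} (pS : ∀ w, 0 < S w) (fS : {w | S w ≠ 1}.Finite) {Λ : AddSubgroup K} (h1 : Λ.relIndex (OK K) ≠ 0)
    (h2 : (OK K).relIndex Λ ≠ 0) (hΛ : ∀ x ∈ Λ, ∀ w, av w (θ * algebraMap K L x) ≤ S w) (F : Finset K) (hF : ∀ x ∈ F, ∀ y ∈ F, ∀ w, av w (θ * algebraMap K L (x - y)) ≤ S w)
    (hinc : ∀ x ∈ F, ∀ y ∈ F, x - y ∈ Λ → x = y) :
    (F.card : ℝ) ≤ agi (OK K) Λ * ((∏ᶠ w, S w) ^ ((Module.finrank K L : ℝ)⁻¹) / (∏ᶠ w : HeightOneSpectrum (𝓞 L), av w θ) ^ ((Module.finrank K L : ℝ)⁻¹)) := by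
  have pθ : ∀ w : HeightOneSpectrum (𝓞 L), 0 < av w θ := fun w => (av w).pos hθ
  have fθ := a8_fin hθ
  have key : ∀ x : K, ∀ w, av w (θ * algebraMap K L x) ≤ S w → av w (algebraMap K L x) ≤ S w / av w θ := by
    intro x w h
    rw [map_mul, mul_comm] at h
    rwa [le_div_iff₀ (pθ w)]
  have h := lat_card (E := K) (L := L) (ρ := fun w => S w / av w θ) (fun w => div_pos (pS w) (pθ w)) ((fS.union fθ).subset fun w hw => by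
      by_contra hc
      rw [Set.mem_union, not_or, Set.mem_setOf_eq, Set.mem_setOf_eq, not_not, not_not] at hc
      apply hw
      show S w / av w θ = 1
      rw [hc.1, hc.2, div_one]) h1 h2 (fun x hx w => key x w (hΛ x hx w)) F (fun x hx y hy w => key (x - y) w (hF x hx y hy w)) hinc
  refine h.trans (le_of_eq ?_)
  have e : ∏ᶠ w, S w / av w θ = (∏ᶠ w, S w) / ∏ᶠ w, av w θ := finprod_div_distrib fS fθ
  rw [e, Real.div_rpow (finprod_nonneg fun w => (pS w).le) (finprod_nonneg fun w => (pθ w).le)]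

end

variable (K E L : Type) [Field K] [NumberField K] [Field E] [NumberField E] [Field L] [NumberField L] [Algebra K L] [Algebra E L]

/-- PROOF. Write `f = [L : K]`, `ν = nu L 𝔫`, `a₁, a₂, d₁, d₂` at `w` and `u₀`. `X' = {u ∈ X : Eqc u u₀}` is invariant under `B` (`dB`). `ρ w = min (ν w a₁ w) (ν (σ₀ w) a₂ (σ₀ w))` (`σ₀ w = spl σ₀ w`), `𝔞 = rB ⊓ Lat ρ`: commensurable with `𝓞 E` and of finite index in `rB` (`lat_comm`, `relIndex` calculus), and `x ∈ 𝔞` has `|x|_w ≤ ν a₁`,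
`|σ₀ x|_w ≤ ν a₂` for all `w` (`av_spl` at `σ₀⁻¹ w`). Apply `count` with `X'`, `T`, `𝔞`.
`H1`: `F` finite, `F ⊆ r(X')`, incongruent modulo `𝔞`. `F = ∅`: clear (`c₁ ≥ 0`). Fix `r₀ = r u₁ ∈ F`. For `x = r u ∈ F`: `|x - r₀|_w ≤ a₁ d₂`, `|σ₀ (x - r₀)|_w ≤ a₂ d₁`, the product is `≤ ν a₁ a₂ d₁ d₂` (`est₁`, `est₂`, `est₃`). The shape of `x`: `ξ w = max |x - r₀|_w (ν a₁ d₂)`, between `ν g` and `g = a₁ d₂`, with values in `|L^×|`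
(`ν` is a value: `nv` is an integral power of `q`, and so is every `q ^ m` a value `|y|_w`). By `shapes` (`𝔪 = up L 𝔫`, `N(up L 𝔫) = N(𝔫) ^ f`, `δ / f`) there are at most `C N(𝔫) ^ δ` shapes. Two elements `x, y` with the shape `ξ`: `|x - y|_w ≤ ξ w` and `|σ₀ (x - y)|_w ≤ ρ₂ w := ν a₁ a₂ d₁ d₂ / ξ w` (nonarchimedean; for each of `x, y`: if `ξ w = |x - r₀|_w` use
the product, if `ξ w = ν a₁ d₂` then `ρ₂ w = a₂ d₁`). `lat2_card` with `ρ₁ = ξ`, `ρ₂`, `Λ = 𝔞` (`ν a₁ ≤ ξ`, and `ν a₂ ≤ ρ₂` as `ξ ≤ a₁ d₂`): at most `agi (OK E) 𝔞 (∏ᶠ ν a₁ a₂ d₁ d₂) ^ (1/f)` elements of this shape. So `c₁ = C N(𝔫) ^ δ agi (OK E) 𝔞 (∏ᶠ ..) ^ (1/f)`, and `agi (OK E) 𝔞 = agi (OK E) rB * 𝔞.relIndex rB`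
(multiplicativity of `agi` for commensurable groups; `𝔞 ≤ rB`; see `H29F` `agi` lemmas in FA*/FB*, e.g. `gi_mul`).
`H2`: `u₁ ∈ X'`, `F` finite, its elements are `s (u₁⁻¹ u)`, `u ∈ X'`, `r u = r u₁`. For two of them `x - y = s (u'⁻¹ u)` (`s_mul`), so `|θ (x - y)|_w ≤ S w := a₁ a₂ min (min d₁ d₂) (ν d₁ d₂)` (`estz`; contents equal those of `u₀`), and the same for the elements `s β` of `sB` (the pair `u₁`, `u₁ β`). `lat_card` for the field `K` (in the place of `E`) with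
`ρ w = S w / |θ|_w`: `F.card ≤ agi (OK K) sB (∏ᶠ S w) ^ (1/f) (∏ᶠ |θ|_w) ^ (-1/f) =: c₂`, the last factor is a constant which depends only on `θ`. The conclusion of `count` divided by `𝔞.relIndex rB`. -/
theorem class_bound [IsGalois K L] [IsGalois E L] (hKE : Module.finrank K L = 2 * Module.finrank E L) {θ : L} (hθ : θ ≠ 0) {δ : ℝ} (hδ : 0 < δ) : ∃ C : ℝ, 1 ≤ C ∧
    ∀ (N : Type) [Group N] (𝔫 : Ideal (𝓞 K)) (σ₀ : L ≃ₐ[K] L) (r : N → E) (s : N → K) (B : Subgroup N) (rB : AddSubgroup E) (sB : AddSubgroup K) (T : Finset N) (X : Set N) (a₁ a₂ : HeightOneSpectrum (𝓞 L) → ℝ) (d₁ d₂ : HeightOneSpectrum (𝓞 L) → N → ℝ),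
    HH K 𝔫 σ₀ θ r s B rB sB T X a₁ a₂ d₁ d₂ → ∀ u₀ ∈ X, (∀ u ∈ T, Eqc d₁ d₂ u u₀) →
    (T.card : ℝ) ≤ C * (Ideal.absNorm 𝔫 : ℝ) ^ δ * agi (OK E) rB * agi (OK K) sB * (∏ᶠ w, nu L 𝔫 w * (a₁ w * a₂ w) * (d₁ w u₀ * d₂ w u₀)) ^ ((Module.finrank K L : ℝ)⁻¹) *
      (∏ᶠ w, a₁ w * a₂ w * min (min (d₁ w u₀) (d₂ w u₀)) (nu L 𝔫 w * (d₁ w u₀ * d₂ w u₀))) ^ ((Module.finrank K L : ℝ)⁻¹) := by
  have hf : 0 < (Module.finrank K L : ℝ) := Nat.cast_pos.2 Module.finrank_pos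
  obtain ⟨Cs, hCs1, hCs⟩ := shapes L (div_pos hδ hf)
  set Θ : ℝ := (∏ᶠ w : HeightOneSpectrum (𝓞 L), av w θ) ^ ((Module.finrank K L : ℝ)⁻¹) with hΘ
  have hΘ0 : 0 ≤ Θ := Real.rpow_nonneg (finprod_nonneg fun w => (av w).nonneg θ) _
  refine ⟨Cs * max 1 Θ⁻¹, ?_, ?_⟩
  · exact one_le_mul_of_one_le_of_one_le hCs1 (le_max_left _ _)
  intro N _ 𝔫 σ₀ r s B rB sB T X a₁ a₂ d₁ d₂ H u₀ hu₀ hT
  have pn : ∀ w, 0 < nu L 𝔫 w := fun w => nv_pos _ w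
  have p₁ := a8_pos H.a₁_val
  have p₂ := a8_pos H.a₂_val
  have p₃ : ∀ w u, 0 < d₁ w u := fun w u => lt_of_lt_of_le one_pos (H.d₁_one w u)
  have p₄ : ∀ w u, 0 < d₂ w u := fun w u => lt_of_lt_of_le one_pos (H.d₂_one w u)
  have h𝔪 := a8_ne (L := L) H.n0
  -- the sublattice
  have hρ0 : ∀ w, 0 < min (nu L 𝔫 w * a₁ w) (nu L 𝔫 (spl σ₀ w) * a₂ (spl σ₀ w)) := fun w =>
    lt_min (mul_pos (pn w) (p₁ w)) (mul_pos (pn _) (p₂ _))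
  have hρf : {w | min (nu L 𝔫 w * a₁ w) (nu L 𝔫 (spl σ₀ w) * a₂ (spl σ₀ w)) ≠ 1}.Finite := by
    have i1 : Function.Injective (spl σ₀ : HeightOneSpectrum (𝓞 L) → HeightOneSpectrum (𝓞 L)) := (splE σ₀).injective
    have k1 := nv_fin h𝔪
    have k2 : {w | nu L 𝔫 (spl σ₀ w) ≠ 1}.Finite := k1.preimage (i1.injOn)
    have k3 : {w | a₂ (spl σ₀ w) ≠ 1}.Finite := H.a₂_fin.preimage (i1.injOn)
    refine (((k1.union H.a₁_fin).union k2).union k3).subset fun w hw => ?_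
    by_contra hc
    simp only [Set.mem_union, Set.mem_setOf_eq, not_or, not_not] at hc
    apply hw
    obtain ⟨⟨⟨c1, c2⟩, c3⟩, c4⟩ := hc
    have c1' : nu L 𝔫 w = 1 := c1
    rw [c1', c2, c3, c4]
    norm_num
  obtain ⟨l1, l2⟩ := lat_comm (E := E) (L := L) hρ0 hρf
  set Lt : AddSubgroup E := Lat (E := E) (fun w => min (nu L 𝔫 w * a₁ w) (nu L 𝔫 (spl σ₀ w) * a₂ (spl σ₀ w))) (fun w => (hρ0 w).le) with hLt
  have hΛ : ∀ x ∈ rB ⊓ Lt, ∀ w, av w (algebraMap E L x) ≤ nu L 𝔫 w * a₁ w ∧ av w (σ₀ (algebraMap E L x)) ≤ nu L 𝔫 w * a₂ w := by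
    intro x hx w
    have h2 : ∀ w, av w (algebraMap E L x) ≤ min (nu L 𝔫 w * a₁ w) (nu L 𝔫 (spl σ₀ w) * a₂ (spl σ₀ w)) := hx.2
    refine ⟨(h2 w).trans (min_le_left _ _), ?_⟩
    have h3 := (h2 (spl σ₀⁻¹ w)).trans (min_le_right _ _)
    rw [spl_apply_inv] at h3
    have h4 := av_spl σ₀ (spl σ₀⁻¹ w) (algebraMap E L x)
    rw [spl_apply_inv] at h4
    exact (le_of_eq h4).trans h3
  have i1 : Lt.relIndex rB ≠ 0 := AddSubgroup.relIndex_ne_zero_trans l1 H.rB₂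
  have i2 : (rB ⊓ Lt).relIndex rB ≠ 0 := by
    rw [AddSubgroup.inf_relIndex_left]
    exact i1
  have i3 : (rB ⊓ Lt).relIndex (OK E) ≠ 0 := AddSubgroup.relIndex_inf_ne_zero H.rB₁ l1
  have i4 : (OK E).relIndex (rB ⊓ Lt) ≠ 0 := fun h0 => H.rB₂ (AddSubgroup.relIndex_eq_zero_of_le_right inf_le_left h0)
  have i5 : rB.relIndex (rB ⊓ Lt) ≠ 0 := by
    rw [AddSubgroup.relIndex_eq_one.mpr inf_le_left]
    exact one_ne_zero
  have hagi : agi (OK E) (rB ⊓ Lt) = agi (OK E) rB * ((rB ⊓ Lt).relIndex rB : ℝ) := by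
    rw [← agi_le (A := rB) (B := rB ⊓ Lt) inf_le_left, agi_trans H.rB₂ H.rB₁ i5 i2]
  -- the bounds
  set P₁ : ℝ := (∏ᶠ w, nu L 𝔫 w * (a₁ w * a₂ w) * (d₁ w u₀ * d₂ w u₀)) ^ ((Module.finrank K L : ℝ)⁻¹) with hP₁
  set P₂ : ℝ := (∏ᶠ w, a₁ w * a₂ w * min (min (d₁ w u₀) (d₂ w u₀)) (nu L 𝔫 w * (d₁ w u₀ * d₂ w u₀))) ^ ((Module.finrank K L : ℝ)⁻¹) with hP₂
  have hP₁0 : 0 ≤ P₁ := Real.rpow_nonneg (finprod_nonneg fun w => by
    have := pn w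
    have := p₁ w
    have := p₂ w
    have := p₃ w u₀
    have := p₄ w u₀
    positivity) _
  have pS : ∀ w, 0 < a₁ w * a₂ w * min (min (d₁ w u₀) (d₂ w u₀)) (nu L 𝔫 w * (d₁ w u₀ * d₂ w u₀)) := fun w =>
    mul_pos (mul_pos (p₁ w) (p₂ w)) (lt_min (lt_min (p₃ w u₀) (p₄ w u₀)) (mul_pos (pn w) (mul_pos (p₃ w u₀) (p₄ w u₀))))
  have hP₂0 : 0 ≤ P₂ := Real.rpow_nonneg (finprod_nonneg fun w => (pS w).le) _
  have hNd : ((Ideal.absNorm (up L 𝔫) : ℕ) : ℝ) ^ (δ / (Module.finrank K L : ℝ)) = (Ideal.absNorm 𝔫 : ℝ) ^ δ := by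
    rw [a8_norm, Nat.cast_pow, ← Real.rpow_natCast, ← Real.rpow_mul (Nat.cast_nonneg _), mul_div_cancel₀ _ hf.ne']
  have hr1 : r 1 = 0 := by
    have h := H.r_mul 1 1
    rw [mul_one] at h
    exact left_eq_add.1 h
  have hrinv : ∀ u, r u⁻¹ = - r u := by
    intro u
    have h := H.r_mul u⁻¹ u
    rw [inv_mul_cancel, hr1] at h
    exact eq_neg_of_add_eq_zero_left h.symm
  have hmain := count (r := r) (s := s) H.r_mul H.s_mul H.s_inj (B := B) (T := T) (X := {u | u ∈ X ∧ Eqc d₁ d₂ u u₀}) (rB := rB) (𝔞 := rB ⊓ Lt) (sB := sB) H.mem_rB H.mem_sB H.inc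
    (fun u hu => ⟨H.TX u hu, hT u hu⟩) (fun u hu β hβ => ⟨H.XB u hu.1 β hβ, fun w => ⟨(H.dB u β hβ w).1.trans (hu.2 w).1, (H.dB u β hβ w).2.trans (hu.2 w).2⟩⟩) inf_le_left i2
    (c₁ := (Cs * (Ideal.absNorm 𝔫 : ℝ) ^ δ) * (agi (OK E) (rB ⊓ Lt) * P₁)) (c₂ := agi (OK K) sB * (P₂ / Θ))
    (mul_nonneg (agi_pos H.sB₂ H.sB₁).le (div_nonneg hP₂0 hΘ0))
    (fun F hF hinc => by
      have est : ∀ x ∈ F, ∀ y ∈ F, ∀ w, av w (algebraMap E L (x - y)) ≤ a₁ w * d₂ w u₀ ∧ av w (σ₀ (algebraMap E L (x - y))) ≤ a₂ w * d₁ w u₀ ∧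
          av w (algebraMap E L (x - y)) * av w (σ₀ (algebraMap E L (x - y))) ≤ nu L 𝔫 w * (a₁ w * a₂ w) * (d₁ w u₀ * d₂ w u₀) := by
        intro x hx y hy w
        obtain ⟨u', hu', rfl⟩ := hF x hx
        obtain ⟨u, hu, rfl⟩ := hF y hy
        have hE : Eqc d₁ d₂ u u' := fun w => ⟨(hu.2 w).1.trans (hu'.2 w).1.symm, (hu.2 w).2.trans (hu'.2 w).2.symm⟩
        have k1 := H.est₁ u hu.1 u' hu'.1 hE w
        have k2 := H.est₂ u hu.1 u' hu'.1 hE w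
        have k3 := H.est₃ u hu.1 u' hu'.1 hE w
        rw [(hu.2 w).2] at k1
        rw [(hu.2 w).1] at k2
        rw [(hu.2 w).1, (hu.2 w).2] at k3
        exact ⟨k1, k2, k3⟩
      exact a8_H1 (K := K) (E := E) (L := L) hKE σ₀ H.n0 (Cs := Cs * (Ideal.absNorm 𝔫 : ℝ) ^ δ) (fun g hg Ξ hΞ => by
          have h := hCs (up L 𝔫) h𝔪 g hg Ξ hΞ
          rwa [hNd] at h) H.a₁_val H.a₂_val (fun w => H.d₁_val w u₀) (fun w => H.d₂_val w u₀) H.a₁_fin H.a₂_fin (H.d₁_fin u₀) (H.d₂_fin u₀) (fun w => H.d₁_one w u₀) (fun w => H.d₂_one w u₀)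
        i3 i4 hΛ F (fun x hx y hy w => (est x hx y hy w).1) (fun x hx y hy w => (est x hx y hy w).2.1) (fun x hx y hy w => (est x hx y hy w).2.2) hinc)
    (fun u₁ hu₁ F hF hinc => by
      have hS : ∀ u ∈ X, Eqc d₁ d₂ u u₀ → ∀ u' ∈ X, Eqc d₁ d₂ u' u₀ → r u = r u' → ∀ w, av w (θ * algebraMap K L (s (u⁻¹ * u'))) ≤ a₁ w * a₂ w * min (min (d₁ w u₀) (d₂ w u₀)) (nu L 𝔫 w * (d₁ w u₀ * d₂ w u₀)) := by
        intro u hu hu2 u' hu' hu2' hr w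
        have hE : Eqc d₁ d₂ u u' := fun w => ⟨(hu2 w).1.trans (hu2' w).1.symm, (hu2 w).2.trans (hu2' w).2.symm⟩
        have k := H.estz u hu u' hu' hE hr w
        rw [(hu2 w).1, (hu2 w).2] at k
        exact k
      refine a8_H2 (K := K) (L := L) hθ pS ?_ H.sB₁ H.sB₂ ?_ F ?_ hinc
      · refine ((((H.a₁_fin.union H.a₂_fin).union (H.d₁_fin u₀)).union (H.d₂_fin u₀)).union (nv_fin h𝔪)).subset fun w hw => ?_
        by_contra hc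
        simp only [Set.mem_union, Set.mem_setOf_eq, not_or, not_not] at hc
        apply hw
        obtain ⟨⟨⟨⟨c1, c2⟩, c3⟩, c4⟩, c5⟩ := hc
        have c5' : nu L 𝔫 w = 1 := c5
        rw [c1, c2, c3, c4, c5']
        norm_num
      · intro x hx w
        obtain ⟨β, hβ, hβr, rfl⟩ := (H.mem_sB x).1 hx
        have k := hS u₁ hu₁.1 hu₁.2 (u₁ * β) (H.XB u₁ hu₁.1 β hβ) (fun w => ⟨(H.dB u₁ β hβ w).1.trans (hu₁.2 w).1, (H.dB u₁ β hβ w).2.trans (hu₁.2 w).2⟩)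
          (by rw [H.r_mul, hβr, add_zero]) w
        rwa [inv_mul_cancel_left] at k
      · intro x hx y hy w
        obtain ⟨u, hu, hur, rfl⟩ := hF x hx
        obtain ⟨u', hu', hur', rfl⟩ := hF y hy
        have e : s (u₁⁻¹ * u) - s (u₁⁻¹ * u') = s (u'⁻¹ * u) := by
          have e1 : u₁⁻¹ * u = (u₁⁻¹ * u') * (u'⁻¹ * u) := by group
          rw [e1, H.s_mul _ _ (by rw [H.r_mul, hrinv, hur', neg_add_cancel]) (by rw [H.r_mul, hrinv, hur, hur', neg_add_cancel]), add_sub_cancel_left]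
        rw [e]
        exact hS u' hu'.1 hu'.2 u hu.1 hu.2 (hur'.trans hur.symm) w)
  rw [hagi] at hmain
  have hk : 0 < ((rB ⊓ Lt).relIndex rB : ℝ) := Nat.cast_pos.2 (Nat.pos_of_ne_zero i2)
  have hA1 := (agi_pos H.rB₂ H.rB₁).le
  have hA2 := (agi_pos H.sB₂ H.sB₁).le
  have hN0 : 0 ≤ (Ideal.absNorm 𝔫 : ℝ) ^ δ := Real.rpow_nonneg (Nat.cast_nonneg _) _
  have h5 : (T.card : ℝ) ≤ Cs * Θ⁻¹ * (Ideal.absNorm 𝔫 : ℝ) ^ δ * agi (OK E) rB * agi (OK K) sB * P₁ * P₂ := by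
    refine le_of_mul_le_mul_right (hmain.trans (le_of_eq ?_)) hk
    rw [div_eq_mul_inv]
    ring
  refine h5.trans ?_
  have h6 : 0 ≤ (Ideal.absNorm 𝔫 : ℝ) ^ δ * agi (OK E) rB * agi (OK K) sB * P₁ * P₂ := by positivity
  have h7 : Cs * Θ⁻¹ ≤ Cs * max 1 Θ⁻¹ := mul_le_mul_of_nonneg_left (le_max_right _ _) (zero_le_one.trans hCs1)
  have h8 := mul_le_mul_of_nonneg_right h7 h6
  refine (le_of_eq ?_).trans (h8.trans (le_of_eq ?_))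
  · ring
  · ring

end

end Pool.Agent.Lib.L8.HS
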