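import Pool.Agent.Lib.L8.HS.A7
import Pool.Agent.Lib.L8.HS.A8

/-!
# HS, chunk A9 (M): the sum over a Heisenberg letter
-/

namespace Pool.Agent.Lib.L8.HS

open NumberField IsDedekindDomain Pool.Agent.Lib.L1S Pool.Agent.Lib.L8.QF Pool.Agent.Lib.H29F

noncomputable section

set_option linter.unusedSectionVars false

variable (K E L : Type) [Field K] [NumberField K] [Field E] [NumberField E] [Field L] [NumberField L] [Algebra K L] [Algebra E L]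

/-- A subset of `T`. PROOF. Clear: only `inc` and `TX` mention `T`. -/
theorem HH.mono {K E L : Type} [Field K] [NumberField K] [Field E] [NumberField E] [Field L] [NumberField L] [Algebra K L] [Algebra E L] {N : Type} [Group N] {𝔫 : Ideal (𝓞 K)} {σ₀ : L ≃ₐ[K] L} {θ : L} {r : N → E} {s : N → K} {B : Subgroup N} {rB : AddSubgroup E} {sB : AddSubgroup K}
    {T T' : Finset N} {X : Set N} {a₁ a₂ : HeightOneSpectrum (𝓞 L) → ℝ} {d₁ d₂ : HeightOneSpectrum (𝓞 L) → N → ℝ} (h : HH K 𝔫 σ₀ θ r s B rB sB T X a₁ a₂ d₁ d₂) (hT : T' ⊆ T) : HH K 𝔫 σ₀ θ r s B rB sB T' X a₁ a₂ d₁ d₂ :=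
  { h with
    inc := fun u hu u' hu' hb => h.inc u (hT hu) u' (hT hu') hb
    TX := fun u hu => h.TX u (hT hu) }

theorem a9_agi {G : Type} [AddGroup G] {A B : AddSubgroup G} (h1 : A.relIndex B ≠ 0) (h2 : B.relIndex A ≠ 0) : 0 < agi A B :=
  div_pos (Nat.cast_pos.mpr (Nat.pos_of_ne_zero h2)) (Nat.cast_pos.mpr (Nat.pos_of_ne_zero h1))

theorem a9_nv (𝔪 : Ideal (𝓞 L)) (w : HeightOneSpectrum (𝓞 L)) : 0 < nv 𝔪 w := by
  unfold nv
  have h : Ideal.absNorm w.asIdeal ≠ 0 := Ideal.absNorm_eq_zero_iff.not.2 w.ne_bot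
  positivity

theorem a9_up {K L : Type} [Field K] [NumberField K] [Field L] [NumberField L] [Algebra K L] {𝔠 : Ideal (𝓞 K)} (h : 𝔠 ≠ ⊥) : up L 𝔠 ≠ ⊥ := by
  intro h1
  have hinj : Function.Injective (algebraMap (𝓞 K) (𝓞 L)) := by
    intro x y e
    have e1 : algebraMap K L (x : K) = algebraMap K L (y : K) := congrArg (fun z : 𝓞 L => (z : L)) e
    exact RingOfIntegers.ext ((algebraMap K L).injective e1)
  exact h ((Ideal.map_eq_bot_iff_of_injective hinj).1 h1)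

theorem a9_nvf {𝔪 : Ideal (𝓞 L)} (h : 𝔪 ≠ ⊥) : {w | nv 𝔪 w ≠ 1}.Finite := by
  refine (Pool.Agent.Lib.L8.FR.od_finite h).subset fun w hw h' => hw ?_
  show ((Ideal.absNorm w.asIdeal : ℝ)⁻¹) ^ ((Associates.mk w.asIdeal).count (Associates.mk 𝔪).factors) = 1
  rw [show (Associates.mk w.asIdeal).count (Associates.mk 𝔪).factors = 0 from h', pow_zero]

/-- The finite product of a power. -/
theorem a9_rpow {ι : Type} {F : ι → ℝ} (h0 : ∀ w, 0 < F w) (hF : {w | F w ≠ 1}.Finite) (t : ℝ) :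
    ∏ᶠ w, (F w) ^ t = (∏ᶠ w, F w) ^ t := by
  classical
  have e1 : ∏ᶠ w, F w = ∏ w ∈ hF.toFinset, F w := by
    refine finprod_eq_prod_of_mulSupport_subset _ fun w hw => ?_
    exact hF.mem_toFinset.2 hw
  have e2 : ∏ᶠ w, (F w) ^ t = ∏ w ∈ hF.toFinset, (F w) ^ t := by
    refine finprod_eq_prod_of_mulSupport_subset _ fun w hw => ?_
    refine hF.mem_toFinset.2 fun h => hw ?_
    show (F w) ^ t = 1
    rw [h, Real.one_rpow]
  rw [e1, e2, Real.finsetProd_rpow _ _ fun w _ => (h0 w).le]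

theorem a9_pos {ι : Type} {F : ι → ℝ} (h0 : ∀ w, 0 < F w) : 0 < ∏ᶠ w, F w :=
  finprod_induction (fun x : ℝ => 0 < x) one_pos (fun _ _ => mul_pos) h0

/-- The identity of the products. -/
theorem a9_prod {ι : Type} {A D V M : ι → ℝ} (hA : ∀ w, 0 < A w) (hD : ∀ w, 0 < D w) (hV : ∀ w, 0 < V w) (hM : ∀ w, 0 < M w)
    (fA : {w | A w ≠ 1}.Finite) (fD : {w | D w ≠ 1}.Finite) (fV : {w | V w ≠ 1}.Finite) (fM : {w | M w ≠ 1}.Finite) (μ f : ℝ) :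
    (∏ᶠ w, V w * A w * D w) ^ (f⁻¹) * (∏ᶠ w, A w * M w) ^ (f⁻¹) * (∏ᶠ w, D w) ^ (-((1 + μ) / f)) =
      (∏ᶠ w, A w) ^ (2 / f) * (∏ᶠ w, V w * M w * D w ^ (-μ)) ^ (f⁻¹) := by
  have fD' : (Function.mulSupport fun w => D w ^ (-μ)).Finite := by
    refine fD.subset fun w hw h => hw ?_
    show D w ^ (-μ) = 1
    rw [show D w = 1 from h, Real.one_rpow]
  have fVA : (Function.mulSupport fun w => V w * A w).Finite := by
    refine (fV.union fA).subset fun w hw => ?_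
    by_contra h
    simp only [Set.mem_union, Set.mem_ofPred_eq, not_or, not_not] at h
    exact hw (by show V w * A w = 1; rw [h.1, h.2, one_mul])
  have fVM : (Function.mulSupport fun w => V w * M w).Finite := by
    refine (fV.union fM).subset fun w hw => ?_
    by_contra h
    simp only [Set.mem_union, Set.mem_ofPred_eq, not_or, not_not] at h
    exact hw (by show V w * M w = 1; rw [h.1, h.2, one_mul])
  have pA := a9_pos hA
  have pD := a9_pos hD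
  have pV := a9_pos hV
  have pM := a9_pos hM
  rw [finprod_mul_distrib fVA fD, finprod_mul_distrib fV fA, finprod_mul_distrib fA fM, finprod_mul_distrib fVM fD', finprod_mul_distrib fV fM, a9_rpow hD fD]
  set PA := ∏ᶠ w, A w
  set PD := ∏ᶠ w, D w
  set PV := ∏ᶠ w, V w
  set PM := ∏ᶠ w, M w
  have pDm : 0 < PD ^ (-μ) := Real.rpow_pos_of_pos pD _
  rw [Real.mul_rpow (mul_pos pV pA).le pD.le, Real.mul_rpow pV.le pA.le, Real.mul_rpow pA.le pM.le, Real.mul_rpow (mul_pos pV pM).le pDm.le, Real.mul_rpow pV.le pM.le, ← Real.rpow_mul pD.le]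
  have e1 : PA ^ (2 / f) = PA ^ (f⁻¹) * PA ^ (f⁻¹) := by
    rw [← Real.rpow_add pA]
    congr 1
    ring
  have e2 : PD ^ (-μ * f⁻¹) = PD ^ (f⁻¹) * PD ^ (-((1 + μ) / f)) := by
    rw [← Real.rpow_add pD]
    congr 1
    ring
  rw [e1, e2]
  ring

/-- **The sum over a Heisenberg letter.** PROOF. `Eqc` is an equivalence relation; let `R ⊆ T` be a set of representatives of its classes in `T` and `T_u = {u' ∈ T : Eqc u' u}`, `u ∈ R`. The summand depends only on the contents, so the sum is `∑_(u ∈ R) card(T_u) (∏ᶠ d₁ d₂) ^ (-(1+μ)/f)`; `class_bound` with `δ / 2` for `T_u` (`HH.mono`). With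
`(∏ᶠ ν a₁ a₂ d₁ d₂) ^ (1/f) (∏ᶠ a₁ a₂ min ..) ^ (1/f) (∏ᶠ d₁ d₂) ^ (-(1+μ)/f) = (∏ᶠ a₁ a₂) ^ (2/f) (∏ᶠ ν min(..) (d₁ d₂) ^ (-μ)) ^ (1/f)` (all factors are positive and `1` outside a finite set) the sum over `R` is `≤ Z N(𝔫) ^ (δ/2 - 2)` by `euler` with `δ / 2` (injectivity: `R` is a set of representatives). -/
theorem heis_sum [IsGalois K L] [IsGalois E L] (hKE : Module.finrank K L = 2 * Module.finrank E L) {θ : L} (hθ : θ ≠ 0) {ε δ : ℝ} (hε : 0 < ε) (hδ : 0 < δ) : ∃ Z : ℝ, 1 ≤ Z ∧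
    ∀ (N : Type) [Group N] (𝔫 : Ideal (𝓞 K)) (σ₀ : L ≃ₐ[K] L) (r : N → E) (s : N → K) (B : Subgroup N) (rB : AddSubgroup E) (sB : AddSubgroup K) (T : Finset N) (X : Set N) (a₁ a₂ : HeightOneSpectrum (𝓞 L) → ℝ) (d₁ d₂ : HeightOneSpectrum (𝓞 L) → N → ℝ),
    HH K 𝔫 σ₀ θ r s B rB sB T X a₁ a₂ d₁ d₂ → ∀ μ : ℝ, 1 + ε ≤ μ →
    ∑ u ∈ T, (∏ᶠ w, d₁ w u * d₂ w u) ^ (-((1 + μ) / Module.finrank K L)) ≤
      Z * (Ideal.absNorm 𝔫 : ℝ) ^ (δ - 2) * (∏ᶠ w, a₁ w * a₂ w) ^ ((2 : ℝ) / Module.finrank K L) * agi (OK E) rB * agi (OK K) sB := by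
  classical
  obtain ⟨C, hC1, hC⟩ := class_bound K E L hKE hθ (half_pos hδ)
  obtain ⟨Z, hZ1, hZ⟩ := euler K L hε (half_pos hδ)
  refine ⟨C * Z, one_le_mul_of_one_le_of_one_le hC1 hZ1, ?_⟩
  intro N _ 𝔫 σ₀ r s B rB sB T X a₁ a₂ d₁ d₂ H μ hμ
  -- the quotient by the equality of the contents
  let S : Setoid N :=
    { r := Eqc d₁ d₂
      iseqv := ⟨fun _ _ => ⟨rfl, rfl⟩, fun h w => ⟨(h w).1.symm, (h w).2.symm⟩, fun h h' w => ⟨(h w).1.trans (h' w).1, (h w).2.trans (h' w).2⟩⟩ }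
  let D₁ : HeightOneSpectrum (𝓞 L) → Quotient S → ℝ := fun w => Quotient.lift (d₁ w) fun _ _ h => (h w).1
  let D₂ : HeightOneSpectrum (𝓞 L) → Quotient S → ℝ := fun w => Quotient.lift (d₂ w) fun _ _ h => (h w).2
  let π : N → Quotient S := Quotient.mk S
  let f : ℝ := Module.finrank K L
  have hD₁ : ∀ w u, D₁ w (π u) = d₁ w u := fun _ _ => rfl
  have hD₂ : ∀ w u, D₂ w (π u) = d₂ w u := fun _ _ => rfl
  have hqv : ∀ w w' : HeightOneSpectrum (𝓞 L), CFT.below K w = CFT.below K w' → (∀ x, D₁ w' x = D₁ w x ∧ D₂ w' x = D₂ w x) ∨ (∀ x, D₁ w' x = D₂ w x ∧ D₂ w' x = D₁ w x) := by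
    intro w w' hw
    rcases H.eqv w w' hw with h | h
    · left
      intro x
      induction x using Quotient.ind with
      | _ u => exact h u
    · right
      intro x
      induction x using Quotient.ind with
      | _ u => exact h u
  have hEu := hZ μ hμ 𝔫 H.n0 (Quotient S) (T.image π) D₁ D₂
    (by intro w x; induction x using Quotient.ind with | _ u => exact H.d₁_val w u) (by intro w x; induction x using Quotient.ind with | _ u => exact H.d₂_val w u)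
    (by intro w x; induction x using Quotient.ind with | _ u => exact H.d₁_one w u) (by intro w x; induction x using Quotient.ind with | _ u => exact H.d₂_one w u)
    (by intro x; induction x using Quotient.ind with | _ u => exact H.d₁_fin u) (by intro x; induction x using Quotient.ind with | _ u => exact H.d₂_fin u)
    hqv
    (by
      intro x _ y _ hxy
      induction x using Quotient.ind with | _ u => induction y using Quotient.ind with | _ v => exact Quotient.sound hxy)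
  have hsum : ∑ u ∈ T, (∏ᶠ w, d₁ w u * d₂ w u) ^ (-((1 + μ) / f)) =
      ∑ x ∈ T.image π, ((T.filter fun u => π u = x).card : ℝ) * (∏ᶠ w, D₁ w x * D₂ w x) ^ (-((1 + μ) / f)) := by
    have h1 := Finset.sum_comp (s := T) (fun x : Quotient S => (∏ᶠ w, D₁ w x * D₂ w x) ^ (-((1 + μ) / f))) π
    rw [show ∑ u ∈ T, (∏ᶠ w, d₁ w u * d₂ w u) ^ (-((1 + μ) / f)) = ∑ a ∈ T, (∏ᶠ w, D₁ w (π a) * D₂ w (π a)) ^ (-((1 + μ) / f)) from rfl, h1]
    exact Finset.sum_congr rfl fun x _ => nsmul_eq_mul _ _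
  have hrB : 0 < agi (OK E) rB := a9_agi H.rB₂ H.rB₁
  have hsB : 0 < agi (OK K) sB := a9_agi H.sB₂ H.sB₁
  have hn : 0 < (Ideal.absNorm 𝔫 : ℝ) := by
    have := Ideal.absNorm_eq_zero_iff.not.2 H.n0
    positivity
  have pav : ∀ {F : HeightOneSpectrum (𝓞 L) → ℝ}, (∀ w, ∃ y : L, y ≠ 0 ∧ F w = av w y) → ∀ w, 0 < F w := by
    intro F hF w
    obtain ⟨y, hy, e⟩ := hF w
    rw [e]
    exact (NumberField.HeightOneSpectrum.adicAbv L w).pos hy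
  have pa₁ := pav H.a₁_val
  have pa₂ := pav H.a₂_val
  have hPA : 0 < (∏ᶠ w, a₁ w * a₂ w) ^ ((2 : ℝ) / f) := Real.rpow_pos_of_pos (a9_pos fun w => mul_pos (pa₁ w) (pa₂ w)) _
  let G : Quotient S → ℝ := fun x => (∏ᶠ w, nu L 𝔫 w * min (min (D₁ w x) (D₂ w x)) (nu L 𝔫 w * (D₁ w x * D₂ w x)) * (D₁ w x * D₂ w x) ^ (-μ)) ^ (f⁻¹)
  have hterm : ∀ x ∈ T.image π, ((T.filter fun u => π u = x).card : ℝ) * (∏ᶠ w, D₁ w x * D₂ w x) ^ (-((1 + μ) / f)) ≤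
      C * (Ideal.absNorm 𝔫 : ℝ) ^ (δ / 2) * agi (OK E) rB * agi (OK K) sB * (∏ᶠ w, a₁ w * a₂ w) ^ ((2 : ℝ) / f) * G x := by
    intro x hx
    obtain ⟨u₀, hu₀, rfl⟩ := Finset.mem_image.1 hx
    have hb := hC N 𝔫 σ₀ r s B rB sB (T.filter fun u => π u = π u₀) X a₁ a₂ d₁ d₂ (H.mono (Finset.filter_subset _ _)) u₀ (H.TX u₀ hu₀)
      (fun u hu => Quotient.exact (Finset.mem_filter.1 hu).2)
    have pd₁ : ∀ w, 0 < d₁ w u₀ := fun w => one_pos.trans_le (H.d₁_one w u₀)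
    have pd₂ : ∀ w, 0 < d₂ w u₀ := fun w => one_pos.trans_le (H.d₂_one w u₀)
    have pD : ∀ w, 0 < d₁ w u₀ * d₂ w u₀ := fun w => mul_pos (pd₁ w) (pd₂ w)
    have pV : ∀ w, 0 < nu L 𝔫 w := fun w => a9_nv L _ _
    have fV : {w | nu L 𝔫 w ≠ 1}.Finite := a9_nvf L (a9_up H.n0)
    have fA : {w | a₁ w * a₂ w ≠ 1}.Finite := by
      refine (H.a₁_fin.union H.a₂_fin).subset fun w hw => ?_
      by_contra h
      simp only [Set.mem_union, Set.mem_ofPred_eq, not_or, not_not] at h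
      exact hw (by rw [h.1, h.2, one_mul])
    have fD : {w | d₁ w u₀ * d₂ w u₀ ≠ 1}.Finite := by
      refine ((H.d₁_fin u₀).union (H.d₂_fin u₀)).subset fun w hw => ?_
      by_contra h
      simp only [Set.mem_union, Set.mem_ofPred_eq, not_or, not_not] at h
      exact hw (by rw [h.1, h.2, one_mul])
    have fM : {w | min (min (d₁ w u₀) (d₂ w u₀)) (nu L 𝔫 w * (d₁ w u₀ * d₂ w u₀)) ≠ 1}.Finite := by
      refine (((H.d₁_fin u₀).union (H.d₂_fin u₀)).union fV).subset fun w hw => ?_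
      by_contra h
      simp only [Set.mem_union, Set.mem_ofPred_eq, not_or, not_not] at h
      exact hw (by rw [h.1.1, h.1.2, h.2, one_mul, one_mul, min_self, min_self])
    have e := a9_prod (fun w => mul_pos (pa₁ w) (pa₂ w)) pD pV (fun w => lt_min (lt_min (pd₁ w) (pd₂ w)) (mul_pos (pV w) (pD w))) fA fD fV fM μ f
    have hDp : 0 < (∏ᶠ w, d₁ w u₀ * d₂ w u₀) ^ (-((1 + μ) / f)) := Real.rpow_pos_of_pos (a9_pos pD) _
    refine (mul_le_mul_of_nonneg_right hb hDp.le).trans (le_of_eq ?_)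
    calc C * (Ideal.absNorm 𝔫 : ℝ) ^ (δ / 2) * agi (OK E) rB * agi (OK K) sB * (∏ᶠ w, nu L 𝔫 w * (a₁ w * a₂ w) * (d₁ w u₀ * d₂ w u₀)) ^ (f⁻¹) *
          (∏ᶠ w, a₁ w * a₂ w * min (min (d₁ w u₀) (d₂ w u₀)) (nu L 𝔫 w * (d₁ w u₀ * d₂ w u₀))) ^ (f⁻¹) * (∏ᶠ w, d₁ w u₀ * d₂ w u₀) ^ (-((1 + μ) / f)) = C * (Ideal.absNorm 𝔫 : ℝ) ^ (δ / 2) * agi (OK E) rB * agi (OK K) sB *
          ((∏ᶠ w, nu L 𝔫 w * (a₁ w * a₂ w) * (d₁ w u₀ * d₂ w u₀)) ^ (f⁻¹) * (∏ᶠ w, a₁ w * a₂ w * min (min (d₁ w u₀) (d₂ w u₀)) (nu L 𝔫 w * (d₁ w u₀ * d₂ w u₀))) ^ (f⁻¹) * (∏ᶠ w, d₁ w u₀ * d₂ w u₀) ^ (-((1 + μ) / f))) := by ring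
      _ = C * (Ideal.absNorm 𝔫 : ℝ) ^ (δ / 2) * agi (OK E) rB * agi (OK K) sB * ((∏ᶠ w, a₁ w * a₂ w) ^ ((2 : ℝ) / f) * G (π u₀)) := by
          rw [e]
          rfl
      _ = _ := by ring
  have hEu' : ∑ x ∈ T.image π, G x ≤ Z * (Ideal.absNorm 𝔫 : ℝ) ^ (δ / 2 - 2) := hEu
  have hp : (Ideal.absNorm 𝔫 : ℝ) ^ (δ - 2) = (Ideal.absNorm 𝔫 : ℝ) ^ (δ / 2) * (Ideal.absNorm 𝔫 : ℝ) ^ (δ / 2 - 2) := by
    rw [← Real.rpow_add hn]
    congr 1
    ring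
  have hC0 : 0 < C := one_pos.trans_le hC1
  have hcst : 0 ≤ C * (Ideal.absNorm 𝔫 : ℝ) ^ (δ / 2) * agi (OK E) rB * agi (OK K) sB * (∏ᶠ w, a₁ w * a₂ w) ^ ((2 : ℝ) / f) := by
    have := Real.rpow_pos_of_pos hn (δ / 2)
    positivity
  calc ∑ u ∈ T, (∏ᶠ w, d₁ w u * d₂ w u) ^ (-((1 + μ) / Module.finrank K L)) = ∑ x ∈ T.image π, ((T.filter fun u => π u = x).card : ℝ) * (∏ᶠ w, D₁ w x * D₂ w x) ^ (-((1 + μ) / f)) := hsum
    _ ≤ ∑ x ∈ T.image π, C * (Ideal.absNorm 𝔫 : ℝ) ^ (δ / 2) * agi (OK E) rB * agi (OK K) sB * (∏ᶠ w, a₁ w * a₂ w) ^ ((2 : ℝ) / f) * G x := Finset.sum_le_sum hterm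
    _ = C * (Ideal.absNorm 𝔫 : ℝ) ^ (δ / 2) * agi (OK E) rB * agi (OK K) sB * (∏ᶠ w, a₁ w * a₂ w) ^ ((2 : ℝ) / f) * ∑ x ∈ T.image π, G x := (Finset.mul_sum _ _ _).symm
    _ ≤ C * (Ideal.absNorm 𝔫 : ℝ) ^ (δ / 2) * agi (OK E) rB * agi (OK K) sB * (∏ᶠ w, a₁ w * a₂ w) ^ ((2 : ℝ) / f) * (Z * (Ideal.absNorm 𝔫 : ℝ) ^ (δ / 2 - 2)) := mul_le_mul_of_nonneg_left hEu' hcst
    _ = C * Z * ((Ideal.absNorm 𝔫 : ℝ) ^ (δ / 2) * (Ideal.absNorm 𝔫 : ℝ) ^ (δ / 2 - 2)) * (∏ᶠ w, a₁ w * a₂ w) ^ ((2 : ℝ) / f) * agi (OK E) rB * agi (OK K) sB := by ring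
    _ = _ := by rw [← hp]

end

end Pool.Agent.Lib.L8.HS
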