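import Pool.Agent.Lib.L8.FI.G1
import Pool.Agent.Lib.L1S.QX5
import Pool.Agent.Lib.L1S.L116

/-!
# HS, chunk B0 (M): two adjacent simple roots of equal length: relations in the Lie algebra

`eA, fA, hA, ee, ff` are the matrices of `L1S/QX5.lean`: `ee b A i j = [e_i, e_j]`, `ff b A i j = [f_i, f_j]`.
-/

namespace Pool.Agent.Lib.L8.HS

open Matrix Pool.Agent.Lib.H89N Pool.Agent.Lib.L1S

noncomputable section

set_option linter.unusedSectionVars false

variable {ι M N : Type} [Fintype ι] [DecidableEq ι] [AddCommGroup M] [Module ℚ M] [AddCommGroup N] [Module ℚ N]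
  {P : RootPairing ι ℚ M N} [P.IsCrystallographic] [P.IsReduced] [P.IsIrreducible] [P.IsRootSystem] {b : P.Base} {K : Type} [Field K] [CharZero K]

/-- The simple roots `i` and `j` are adjacent and simply laced. -/
def Adj (b : P.Base) (i j : b.support) : Prop := P.pairingIn ℤ (i : ι) (j : ι) = -1 ∧ P.pairingIn ℤ (j : ι) (i : ι) = -1

theorem Adj.symm {i j : b.support} (h : Adj b i j) : Adj b j i := ⟨h.2, h.1⟩

/-- PROOF. `pairingIn i i = 2`. -/
theorem Adj.ne {i j : b.support} (h : Adj b i j) : i ≠ j := by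
  rintro rfl
  have h1 := h.1
  rw [RootPairing.pairingIn_same] at h1
  norm_num at h1

theorem hs0_ne {i j : b.support} (h : Adj b i j) : P.coroot' (i : ι) (P.root i + (P.root i + P.root j)) = 3 := by
  have h1 : P.coroot' (i : ι) (P.root (j : ι)) = -1 := by
    have h2 : P.coroot' (i : ι) (P.root (j : ι)) = P.pairing j i := by simp
    rw [h2, ← P.algebraMap_pairingIn ℤ (j : ι) (i : ι), h.2]
    simp
  have h3 : P.coroot' (i : ι) (P.root (i : ι)) = 2 := by simp
  rw [map_add, map_add, h1, h3]
  norm_num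

/-- The Serre relation over `ℤ`. -/
theorem hs0_int {i j : b.support} (h : Adj b i j) : eZ b i * (eZ b i * eZ b j - eZ b j * eZ b i) - (eZ b i * eZ b j - eZ b j * eZ b i) * eZ b i = 0 := by
  by_contra hne
  set X : Matrix (I b) (I b) ℚ := toA ℚ (eZ b i * (eZ b i * eZ b j - eZ b j * eZ b i) - (eZ b i * eZ b j - eZ b j * eZ b i) * eZ b i) with hX
  have h0 : X ≠ 0 := by
    intro h0
    apply hne
    apply toA_inj (A := ℚ)
    rw [← hX, h0]
    ext r c
    simp [toA]
  have hee : toA ℚ (eZ b i) * toA ℚ (eZ b j) - toA ℚ (eZ b j) * toA ℚ (eZ b i) ∈ gR b ℚ := gR_lie b ((gg_iff b _).1 (eZ_mem i)) ((gg_iff b _).1 (eZ_mem j))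
  have hmem : X ∈ gg b := by
    rw [gg_iff, hX, toA_sub, toA_mul, toA_mul, toA_sub, toA_mul, toA_mul]
    exact gR_lie b ((gg_iff b _).1 (eZ_mem i)) hee
  have hw : HasWt b (P.root i + (P.root i + P.root j)) X := by
    rw [hX]
    exact HasWt.toA ((hasWt_eZ i).lie ((hasWt_eZ i).lie (hasWt_eZ j)))
  have hμ : P.root (i : ι) + (P.root (i : ι) + P.root (j : ι)) ≠ 0 := by
    intro h1
    have h2 := hs0_ne h
    rw [h1, map_zero] at h2
    norm_num at h2
  obtain ⟨β, hβ⟩ := gg_root hmem h0 hμ hw
  apply b.sub_notMem_range_root j.2 i.2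
  refine ⟨P.reflectionPerm (i : ι) β, ?_⟩
  rw [P.root_reflectionPerm, hβ, RootPairing.reflection_apply, hs0_ne h]
  module

/-- Serre: `[e_i, [e_i, e_j]] = 0`. PROOF. Over `ℚ` first (or directly): `X = toA ℚ`-version of `[e_i, [e_i, e_j]]` is in `gg b` (`gR b ℚ`; `eA_mem`, `ee_mem`, `gR_lie`), of weight `2 α_i + α_j` (`HasWt.lie`, `eA_wt`, `ee_wt`); if `X ≠ 0` then `2 α_i + α_j` is a root `β` (`L116.gg_root`; it is `≠ 0` because `α_i, α_j` are
linearly independent, or because its coroot pairings are `(3, 0)`), then `s_i β = -2 α_i + α_j + α_i = α_j - α_i` is a root (`⟨β, α_i^∨⟩ = 4 - 1 = 3`), but a difference of two simple roots is not a root (`Base.sub_notMem_range_root` in Mathlib: `b.sub_notMem_range_root`). The general field: `eA b K i = toA K (eZ b i)` is the image of the integral matrices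
(`toA` of `ℤ`-matrices; the identity over `ℚ` gives the identity over `ℤ`, as `toA ℚ` is injective). Then `[e_i, θ] = 0` for `θ = ee b K i j`; for `e_j`: `θ = -ee b K j i` (`ee_swap`) and the first statement for `(j, i)`. -/
theorem b0_serre {i j : b.support} (h : Adj b i j) : eA b K i * ee b K i j = ee b K i j * eA b K i := by
  unfold ee eA
  rw [← toA_mul, ← toA_mul, ← toA_sub, ← toA_mul, ← toA_mul, sub_eq_zero.1 (hs0_int h)]

theorem b0_serre' {i j : b.support} (h : Adj b i j) : eA b K j * ee b K i j = ee b K i j * eA b K j := by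
  have h1 := b0_serre (K := K) h.symm
  rw [ee_swap i j, mul_neg, neg_mul] at h1
  exact neg_injective h1

/-- `[f_i, [e_i, e_j]] = e_j`. PROOF. Jacobi: `[f_i, [e_i, e_j]] = [[f_i, e_i], e_j] + [e_i, [f_i, e_j]] = -[h_i, e_j] = -⟨α_j, α_i^∨⟩ e_j = e_j` (`eA_fA_same`, `eA_fA_ne`, `hA_eA`: expand and use `noncomm_ring` or `linear_combination (exp := 1)` in the noncommutative ring: write all as products). -/
theorem b0_fe {i j : b.support} (h : Adj b i j) : fA b K i * ee b K i j - ee b K i j * fA b K i = eA b K j := by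
  have h1 := eA_fA_same (b := b) (A := K) i
  have h2 := eA_fA_ne (b := b) (A := K) h.ne.symm
  have h3 := hA_eA (b := b) (A := K) i j
  rw [h.2] at h3
  have h4 : fA b K i * ee b K i j - ee b K i j * fA b K i = -((eA b K i * fA b K i - fA b K i * eA b K i) * eA b K j - eA b K j * (eA b K i * fA b K i - fA b K i * eA b K i)) -
      (eA b K i * (eA b K j * fA b K i - fA b K i * eA b K j) - (eA b K j * fA b K i - fA b K i * eA b K j) * eA b K i) := by
    unfold ee
    noncomm_ring
  rw [h4, h1, h2, h3, mul_zero, zero_mul, sub_zero, sub_zero]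
  push_cast
  rw [neg_one_smul, neg_neg]

/-- `[f_j, [e_i, e_j]] = -e_i`. PROOF. `ee_swap` and `b0_fe` for `(j, i)`. -/
theorem b0_fe' {i j : b.support} (h : Adj b i j) : fA b K j * ee b K i j - ee b K i j * fA b K j = -eA b K i := by
  have h1 := b0_fe (K := K) h.symm
  rw [ee_swap i j] at h1
  rw [← h1]
  noncomm_ring

theorem hs0_om_ee (i j : b.support) : om b K * ee b K i j * om b K = ff b K i j := by
  rw [← om_ff, om_om]

/-- PROOF. Conjugate `b0_serre` by `om` (`om_conj`, `om_fA`, `om_eA`, `om_ff`; `om * om = 1`). -/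
theorem b0_serre_f {i j : b.support} (h : Adj b i j) : fA b K i * ff b K i j = ff b K i j * fA b K i := by
  have h1 := congrArg (fun X => om b K * X * om b K) (b0_serre (K := K) h)
  simp only [om_conj, om_eA, hs0_om_ee] at h1
  exact h1

theorem b0_serre_f' {i j : b.support} (h : Adj b i j) : fA b K j * ff b K i j = ff b K i j * fA b K j := by
  have h1 := congrArg (fun X => om b K * X * om b K) (b0_serre' (K := K) h)
  simp only [om_conj, om_eA, hs0_om_ee] at h1
  exact h1

/-- PROOF. Conjugate `b0_fe` by `om`. -/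
theorem b0_ef {i j : b.support} (h : Adj b i j) : eA b K i * ff b K i j - ff b K i j * eA b K i = fA b K j := by
  have h1 := congrArg (fun X => om b K * X * om b K) (b0_fe (K := K) h)
  simp only [mul_sub, sub_mul, om_conj, om_eA, om_fA, hs0_om_ee] at h1
  exact h1

theorem b0_ef' {i j : b.support} (h : Adj b i j) : eA b K j * ff b K i j - ff b K i j * eA b K j = -fA b K i := by
  have h1 := congrArg (fun X => om b K * X * om b K) (b0_fe' (K := K) h)
  simp only [mul_sub, sub_mul, mul_neg, neg_mul, om_conj, om_eA, om_fA, hs0_om_ee] at h1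
  exact h1

end

end Pool.Agent.Lib.L8.HS
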