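import Pool.Agent.Lib.L8.HS.B0
import Pool.Agent.Lib.L1S.QB0
import Pool.Agent.Lib.L1S.QX2

/-!
# HS, chunk B1 (M/L): two adjacent simple roots of equal length: relations in the group
-/

namespace Pool.Agent.Lib.L8.HS

open Matrix NumberField Pool.Agent.Lib.H89N Pool.Agent.Lib.L1S
open Pool.Agent.Lib.L8.FI (fx fn fh)

noncomputable section

set_option linter.unusedSectionVars false

variable {ι M N : Type} [Fintype ι] [DecidableEq ι] [AddCommGroup M] [Module ℚ M] [AddCommGroup N] [Module ℚ N]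
  {P : RootPairing ι ℚ M N} [P.IsCrystallographic] [P.IsReduced] [P.IsIrreducible] [P.IsRootSystem] {b : P.Base} {K : Type} [Field K] [NumberField K]

/-- `x_θ(t) = exp(t [e_i, e_j])`, `θ = α_i + α_j`. -/
def xt (b : P.Base) (i j : b.support) (t : K) : GK b K := fn b K i * fx b (j : ι) t * (fn b K i)⁻¹

/-- `y_θ(t) = exp(t [f_i, f_j])`. -/
def yt (b : P.Base) (i j : b.support) (t : K) : GK b K := fn b K j * fx b (ng P i) t * (fn b K j)⁻¹

/-! ### Exponentials -/

section Exp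

variable {n : Type} [Fintype n] [DecidableEq n] {F : Type} [Field F] [CharZero F]

theorem hs1_exp {X Y Z : Matrix n n F} (hX : IsNilpotent X) (h1 : X * Y - Y * X = Z) (h2 : X * Z - Z * X = 0) : IsNilpotent.exp X * Y = (Y + Z) * IsNilpotent.exp X := by
  have h := qx_exp3 (W := 0) hX h1 (by rw [h2, smul_zero]) (by rw [mul_zero, zero_mul, sub_zero])
  rw [add_zero] at h
  exact h

theorem hs1_exp0 {X Y : Matrix n n F} (hX : IsNilpotent X) (h1 : X * Y - Y * X = 0) : IsNilpotent.exp X * Y = Y * IsNilpotent.exp X := by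
  have h := hs1_exp hX h1 (by rw [mul_zero, zero_mul, sub_zero])
  rw [add_zero] at h
  exact h

theorem hs1_comm {X Y : Matrix n n F} (hX : IsNilpotent X) (hY : IsNilpotent Y) (h : X * Y = Y * X) : IsNilpotent.exp X * IsNilpotent.exp Y = IsNilpotent.exp Y * IsNilpotent.exp X :=
  qb0_comm hY hY (hs1_exp0 hX (by rw [h, sub_self]))

/-- `exp(X) exp(Y) = exp(Y) exp(Z) exp(X)` with `Z = [X, Y]` central. -/
theorem hs1_heis {X Y Z : Matrix n n F} (hX : IsNilpotent X) (hY : IsNilpotent Y) (hZ : IsNilpotent Z) (h1 : X * Y - Y * X = Z) (h2 : X * Z - Z * X = 0) (h3 : Y * Z = Z * Y) :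
    IsNilpotent.exp X * IsNilpotent.exp Y = IsNilpotent.exp Y * IsNilpotent.exp Z * IsNilpotent.exp X := by
  have hYZ : Commute Y Z := h3
  rw [← IsNilpotent.exp_add_of_commute hYZ hY hZ]
  exact qb0_comm hY (hYZ.isNilpotent_add hY hZ) (hs1_exp hX h1 h2)

end Exp

theorem hs1_neA (i : b.support) : IsNilpotent (eA b K i) := by
  refine ⟨4, ?_⟩
  unfold eA
  rw [← E_simple, ← toA_pow, (DP_E b (i : ι)).pow4]
  exact Matrix.map_zero _ Int.cast_zero

theorem hs1_nfA (i : b.support) : IsNilpotent (fA b K i) := by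
  refine ⟨4, ?_⟩
  unfold fA
  rw [← E_neg_simple, ← toA_pow, (DP_E b (ng P i)).pow4]
  exact Matrix.map_zero _ Int.cast_zero

theorem hs1_nee (i j : b.support) : IsNilpotent (ee b K i j) := b3_nil (ee_raise i j)

theorem hs1_nff (i j : b.support) : IsNilpotent (ff b K i j) := by
  obtain ⟨k, hk⟩ := hs1_nee (K := K) i j
  refine ⟨k, ?_⟩
  rw [← hs0_om_ee, om_pow, hk, mul_zero, zero_mul]

theorem hs1_x (i : b.support) (t : K) : (fx b (i : ι) t).1.1 = IsNilpotent.exp (t • eA b K i) := by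
  have h : (fx b (i : ι) t).1.1 = IsNilpotent.exp (t • toA K (E b (i : ι))) := (DP_E b (i : ι)).ex_eq_exp t
  rw [h, E_simple]
  rfl

theorem hs1_y (i : b.support) (t : K) : (fx b (ng P i) t).1.1 = IsNilpotent.exp (t • fA b K i) := by
  have h : (fx b (ng P i) t).1.1 = IsNilpotent.exp (t • toA K (E b (ng P i))) := (DP_E b (ng P i)).ex_eq_exp t
  rw [h, E_neg_simple]
  rfl

theorem hs1_n (i : b.support) : (fn b K i).1.1 = IsNilpotent.exp (eA b K i) * IsNilpotent.exp (-fA b K i) * IsNilpotent.exp (eA b K i) := by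
  rw [FI.fn_eq, FI.f_mul, FI.f_mul, hs1_x, hs1_y, one_smul, neg_one_smul]

/-- `g (t X) = (t Y) g` gives `g exp(t X) g⁻¹ = exp(t Y)`. -/
theorem hs1_conj {g : GK b K} {X Y : Matrix (I b) (I b) K} (hX : IsNilpotent X) (hY : IsNilpotent Y) (h : g.1.1 * X = Y * g.1.1) (t : K) : g.1.1 * IsNilpotent.exp (t • X) = IsNilpotent.exp (t • Y) * g.1.1 :=
  qb0_comm (hX.smul t) (hY.smul t) (by rw [mul_smul_comm, smul_mul_assoc, h])

section Step1

variable {i j : b.support}

/-- `n_i e_j = θ n_i`. -/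
theorem hs1_ne (h : Adj b i j) : (fn b K i).1.1 * eA b K j = ee b K i j * (fn b K i).1.1 := by
  have a1 : IsNilpotent.exp (eA b K i) * eA b K j = (eA b K j + ee b K i j) * IsNilpotent.exp (eA b K i) := hs1_exp (hs1_neA i) rfl (sub_eq_zero.2 (b0_serre h))
  have a2 : IsNilpotent.exp (eA b K i) * ee b K i j = ee b K i j * IsNilpotent.exp (eA b K i) := hs1_exp0 (hs1_neA i) (sub_eq_zero.2 (b0_serre h))
  have e0 := eA_fA_ne (b := b) (A := K) h.ne.symm
  have a3 : IsNilpotent.exp (-fA b K i) * eA b K j = eA b K j * IsNilpotent.exp (-fA b K i) := hs1_exp0 (hs1_nfA i).neg (by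
    rw [neg_mul, mul_neg, sub_neg_eq_add, neg_add_eq_sub, e0])
  have a4 : IsNilpotent.exp (-fA b K i) * ee b K i j = (ee b K i j + -eA b K j) * IsNilpotent.exp (-fA b K i) := hs1_exp (hs1_nfA i).neg (by
    rw [neg_mul, mul_neg, ← neg_sub', b0_fe h]) (by
    rw [neg_mul_neg, neg_mul_neg, ← neg_sub, e0, neg_zero])
  rw [hs1_n]
  calc IsNilpotent.exp (eA b K i) * IsNilpotent.exp (-fA b K i) * IsNilpotent.exp (eA b K i) * eA b K j
      = IsNilpotent.exp (eA b K i) * (IsNilpotent.exp (-fA b K i) * (IsNilpotent.exp (eA b K i) * eA b K j)) := by simp only [Matrix.mul_assoc]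
    _ = IsNilpotent.exp (eA b K i) * ((IsNilpotent.exp (-fA b K i) * eA b K j + IsNilpotent.exp (-fA b K i) * ee b K i j) * IsNilpotent.exp (eA b K i)) := by
        rw [a1, ← Matrix.mul_add, Matrix.mul_assoc]
    _ = (IsNilpotent.exp (eA b K i) * ee b K i j) * IsNilpotent.exp (-fA b K i) * IsNilpotent.exp (eA b K i) := by
        rw [a3, a4, ← Matrix.add_mul]
        have e : eA b K j + (ee b K i j + -eA b K j) = ee b K i j := by abel
        rw [e]
        simp only [Matrix.mul_assoc]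
    _ = _ := by
        rw [a2]
        simp only [Matrix.mul_assoc]

/-- `n_i θ = -e_j n_i`. -/
theorem hs1_nt (h : Adj b i j) : (fn b K i).1.1 * ee b K i j = -eA b K j * (fn b K i).1.1 := by
  have a1 : IsNilpotent.exp (eA b K i) * eA b K j = (eA b K j + ee b K i j) * IsNilpotent.exp (eA b K i) := hs1_exp (hs1_neA i) rfl (sub_eq_zero.2 (b0_serre h))
  have a2 : IsNilpotent.exp (eA b K i) * ee b K i j = ee b K i j * IsNilpotent.exp (eA b K i) := hs1_exp0 (hs1_neA i) (sub_eq_zero.2 (b0_serre h))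
  have e0 := eA_fA_ne (b := b) (A := K) h.ne.symm
  have a4 : IsNilpotent.exp (-fA b K i) * ee b K i j = (ee b K i j + -eA b K j) * IsNilpotent.exp (-fA b K i) := hs1_exp (hs1_nfA i).neg (by
    rw [neg_mul, mul_neg, ← neg_sub', b0_fe h]) (by
    rw [neg_mul_neg, neg_mul_neg, ← neg_sub, e0, neg_zero])
  rw [hs1_n]
  calc IsNilpotent.exp (eA b K i) * IsNilpotent.exp (-fA b K i) * IsNilpotent.exp (eA b K i) * ee b K i j
      = IsNilpotent.exp (eA b K i) * (IsNilpotent.exp (-fA b K i) * (IsNilpotent.exp (eA b K i) * ee b K i j)) := by simp only [Matrix.mul_assoc]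
    _ = (IsNilpotent.exp (eA b K i) * (ee b K i j - eA b K j)) * IsNilpotent.exp (-fA b K i) * IsNilpotent.exp (eA b K i) := by
        rw [a2, ← Matrix.mul_assoc (IsNilpotent.exp (-fA b K i)), a4, ← sub_eq_add_neg]
        simp only [Matrix.mul_assoc]
    _ = _ := by
        rw [Matrix.mul_sub, a2, a1, ← Matrix.sub_mul]
        have e : ee b K i j - (eA b K j + ee b K i j) = -eA b K j := by abel
        rw [e]
        simp only [Matrix.mul_assoc]

/-- `n_i f_j = -φ n_i`. -/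
theorem hs1_nf (h : Adj b i j) : (fn b K i).1.1 * fA b K j = -ff b K i j * (fn b K i).1.1 := by
  have e0 := eA_fA_ne (b := b) (A := K) h.ne
  have a1 : IsNilpotent.exp (eA b K i) * fA b K j = fA b K j * IsNilpotent.exp (eA b K i) := hs1_exp0 (hs1_neA i) e0
  have a2 : IsNilpotent.exp (-fA b K i) * fA b K j = (fA b K j + -ff b K i j) * IsNilpotent.exp (-fA b K i) := hs1_exp (hs1_nfA i).neg (by
    rw [neg_mul, mul_neg, ← neg_sub']
    rfl) (by
    rw [neg_mul_neg, neg_mul_neg, b0_serre_f h, sub_self])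
  have a3 : IsNilpotent.exp (eA b K i) * ff b K i j = (ff b K i j + fA b K j) * IsNilpotent.exp (eA b K i) := hs1_exp (hs1_neA i) (b0_ef h) e0
  rw [hs1_n]
  calc IsNilpotent.exp (eA b K i) * IsNilpotent.exp (-fA b K i) * IsNilpotent.exp (eA b K i) * fA b K j
      = IsNilpotent.exp (eA b K i) * (IsNilpotent.exp (-fA b K i) * (IsNilpotent.exp (eA b K i) * fA b K j)) := by simp only [Matrix.mul_assoc]
    _ = (IsNilpotent.exp (eA b K i) * fA b K j - IsNilpotent.exp (eA b K i) * ff b K i j) * IsNilpotent.exp (-fA b K i) * IsNilpotent.exp (eA b K i) := by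
        rw [a1, ← Matrix.mul_assoc (IsNilpotent.exp (-fA b K i)), a2, ← a1, ← Matrix.mul_sub, ← sub_eq_add_neg]
        simp only [Matrix.mul_assoc]
    _ = _ := by
        rw [a1, a3, ← Matrix.sub_mul]
        have e : fA b K j - (ff b K i j + fA b K j) = -ff b K i j := by abel
        rw [e]
        simp only [Matrix.mul_assoc]

/-- `n_i φ = f_j n_i`. -/
theorem hs1_np (h : Adj b i j) : (fn b K i).1.1 * ff b K i j = fA b K j * (fn b K i).1.1 := by
  have e0 := eA_fA_ne (b := b) (A := K) h.ne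
  have a1 : IsNilpotent.exp (eA b K i) * fA b K j = fA b K j * IsNilpotent.exp (eA b K i) := hs1_exp0 (hs1_neA i) e0
  have a2 : IsNilpotent.exp (-fA b K i) * fA b K j = (fA b K j + -ff b K i j) * IsNilpotent.exp (-fA b K i) := hs1_exp (hs1_nfA i).neg (by
    rw [neg_mul, mul_neg, ← neg_sub']
    rfl) (by
    rw [neg_mul_neg, neg_mul_neg, b0_serre_f h, sub_self])
  have a3 : IsNilpotent.exp (eA b K i) * ff b K i j = (ff b K i j + fA b K j) * IsNilpotent.exp (eA b K i) := hs1_exp (hs1_neA i) (b0_ef h) e0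
  have a4 : IsNilpotent.exp (-fA b K i) * ff b K i j = ff b K i j * IsNilpotent.exp (-fA b K i) := hs1_exp0 (hs1_nfA i).neg (by
    rw [neg_mul, mul_neg, ← neg_sub', b0_serre_f h, sub_self, neg_zero])
  rw [hs1_n]
  calc IsNilpotent.exp (eA b K i) * IsNilpotent.exp (-fA b K i) * IsNilpotent.exp (eA b K i) * ff b K i j
      = IsNilpotent.exp (eA b K i) * (IsNilpotent.exp (-fA b K i) * (IsNilpotent.exp (eA b K i) * ff b K i j)) := by simp only [Matrix.mul_assoc]
    _ = IsNilpotent.exp (eA b K i) * ((IsNilpotent.exp (-fA b K i) * ff b K i j + IsNilpotent.exp (-fA b K i) * fA b K j) * IsNilpotent.exp (eA b K i)) := by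
        rw [a3, ← Matrix.mul_add, Matrix.mul_assoc]
    _ = (IsNilpotent.exp (eA b K i) * fA b K j) * IsNilpotent.exp (-fA b K i) * IsNilpotent.exp (eA b K i) := by
        rw [a4, a2, ← Matrix.add_mul]
        have e : ff b K i j + (fA b K j + -ff b K i j) = fA b K j := by abel
        rw [e]
        simp only [Matrix.mul_assoc]
    _ = _ := by
        rw [a1]
        simp only [Matrix.mul_assoc]

/-- `n_j θ = e_i n_j`. -/
theorem hs1_nt' (h : Adj b i j) : (fn b K j).1.1 * ee b K i j = eA b K i * (fn b K j).1.1 := by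
  have h1 := hs1_nt (K := K) h.symm
  rw [ee_swap i j, mul_neg, neg_mul] at h1
  exact neg_injective h1

/-- `n_j f_i = φ n_j`. -/
theorem hs1_nf' (h : Adj b i j) : (fn b K j).1.1 * fA b K i = ff b K i j * (fn b K j).1.1 := by
  have h1 := hs1_nf (K := K) h.symm
  rw [ff_swap i j, neg_neg] at h1
  exact h1

/-- `n_j φ = -f_i n_j`. -/
theorem hs1_np' (h : Adj b i j) : (fn b K j).1.1 * ff b K i j = -fA b K i * (fn b K j).1.1 := by
  have h1 := hs1_np (K := K) h.symm
  rw [ff_swap i j, mul_neg] at h1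
  rw [neg_mul, ← h1, neg_neg]

end Step1

/-! PROOF of all statements of this file. `(fx b i t).1.1 = xx b i t = exp(t • eA b K i)`, `(fx b (ng P i) t).1.1 = exp(t • fA b K i)` (`FI.fx_val`, `(DP_E b β).ex_eq_exp`, `E_simple`, `E_neg_simple`), `fn b K i = fx i 1 * fx (ng i) (-1) * fx i 1` (`FI.fn_eq`). Let `n_i = (fn b K i).1.1`, `θ = ee b K i j`, `φ = ff b K i j`.
Step 1 (matrices): `n_i e_j = θ n_i`, `n_i θ = -e_j n_i`, `n_j e_i = -θ n_j`, `n_j θ = e_i n_j`, `n_i f_j = -φ n_i`, `n_i φ = f_j n_i`, `n_j f_i = φ n_j`, `n_j φ = -f_i n_j`. Each from `exp(X) Y = (Y + [X, Y]) exp(X)` when `[X, [X, Y]] = 0` (`QX2.qx_exp3` with `W = 0`): e.g. `exp(e_i) e_j = (e_j + θ) exp(e_i)`, `exp(e_i) θ = θ exp(e_i)`,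
`exp(-f_i) e_j = e_j exp(-f_i)`, `exp(-f_i) θ = (θ - e_j) exp(-f_i)`; so `exp(e_i) exp(-f_i) exp(e_i) e_j = exp(e_i) exp(-f_i) (e_j + θ) exp(e_i) = exp(e_i) (e_j + θ - e_j) ... = θ n_i`. The statements for `j` follow from those for `(j, i)` with `ee b K j i = -θ`, `ff b K j i = -φ`.
Step 2: `QB0.qb0_comm`: `X A = B X` gives `X exp(A) = exp(B) X` (nilpotent matrices), so e.g. `(xt b i j t).1.1 = exp(t • θ)` (`xt_val`), `(yt b i j t).1.1 = exp(t • φ)` (`yt_val`), and all the relations. -/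

theorem xt_val {i j : b.support} (h : Adj b i j) (t : K) : (xt b i j t).1.1 = IsNilpotent.exp (t • ee b K i j) := by
  unfold xt
  rw [FI.f_mul, FI.f_mul, hs1_x, hs1_conj (hs1_neA j) (hs1_nee i j) (hs1_ne h), Matrix.mul_assoc, FI.f_mi, Matrix.mul_one]

theorem yt_val {i j : b.support} (h : Adj b i j) (t : K) : (yt b i j t).1.1 = IsNilpotent.exp (t • ff b K i j) := by
  unfold yt
  rw [FI.f_mul, FI.f_mul, hs1_y, hs1_conj (hs1_nfA i) (hs1_nff i j) (hs1_nf' h), Matrix.mul_assoc, FI.f_mi, Matrix.mul_one]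

theorem xt_add (i j : b.support) (s t : K) : xt b i j (s + t) = xt b i j s * xt b i j t := by
  unfold xt
  rw [FI.fx_add]
  group

theorem xt_zero (i j : b.support) : xt b i j (0 : K) = 1 := by
  unfold xt
  rw [FI.fx_zero]
  group

theorem xt_neg (i j : b.support) (t : K) : xt b i j (-t) = (xt b i j t)⁻¹ := by
  unfold xt
  rw [FI.fx_neg]
  group

theorem xt_swap {i j : b.support} (h : Adj b i j) (t : K) : xt b j i t = xt b i j (-t) := by
  refine FI.f_ext ?_
  rw [xt_val h.symm, xt_val h, ee_swap i j, smul_neg, neg_smul]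

/-- (a) -/
theorem r_a {i j : b.support} (h : Adj b i j) (t : K) : (fn b K j)⁻¹ * fx b (i : ι) t * fn b K j = xt b i j t := by
  rw [mul_assoc, inv_mul_eq_iff_eq_mul]
  refine FI.f_ext ?_
  rw [FI.f_mul, FI.f_mul, hs1_x, xt_val h, hs1_conj (hs1_nee i j) (hs1_neA i) (hs1_nt' h)]

/-- (b) -/
theorem r_b {i j : b.support} (h : Adj b i j) (t : K) : (fn b K i)⁻¹ * fx b (j : ι) t * fn b K i = xt b i j (-t) := by
  rw [mul_assoc, inv_mul_eq_iff_eq_mul]
  refine FI.f_ext ?_
  rw [FI.f_mul, FI.f_mul, hs1_x, xt_val h, hs1_conj (hs1_nee i j) (hs1_neA j).neg (hs1_nt h), smul_neg, neg_smul, neg_neg]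

/-- (c) PROOF. `[e_i, e_j] = θ` commutes with both: `exp(p e_i) (q e_j) = (q e_j + p q θ) exp(p e_i)`, so `exp(p e_i) exp(q e_j) exp(-p e_i) = exp(q e_j + p q θ) = exp(q e_j) exp(p q θ)` (commuting nilpotent matrices: `IsNilpotent.exp_add_of_commute`). -/
theorem r_c {i j : b.support} (h : Adj b i j) (p q : K) : fx b (i : ι) p * fx b (j : ι) q = fx b (j : ι) q * fx b (i : ι) p * xt b i j (p * q) := by
  refine FI.f_ext ?_
  rw [FI.f_mul, FI.f_mul, FI.f_mul, hs1_x, hs1_x, xt_val h]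
  rw [hs1_heis (Z := (p * q) • ee b K i j) ((hs1_neA i).smul p) ((hs1_neA j).smul q) ((hs1_nee i j).smul (p * q)), Matrix.mul_assoc, Matrix.mul_assoc]
  · congr 1
    refine hs1_comm ((hs1_nee i j).smul (p * q)) ((hs1_neA i).smul p) ?_
    rw [smul_mul_smul_comm, smul_mul_smul_comm, b0_serre h, mul_comm]
  · unfold ee
    rw [smul_mul_smul_comm, smul_mul_smul_comm, mul_comm q p, smul_sub]
  · rw [smul_mul_smul_comm, smul_mul_smul_comm, b0_serre h, mul_comm (p * q) p, sub_self]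
  · rw [smul_mul_smul_comm, smul_mul_smul_comm, b0_serre' h, mul_comm (p * q) q]

/-- (d) -/
theorem r_di {i j : b.support} (h : Adj b i j) (t p : K) : xt b i j t * fx b (i : ι) p = fx b (i : ι) p * xt b i j t := by
  refine FI.f_ext ?_
  rw [FI.f_mul, FI.f_mul, hs1_x, xt_val h]
  refine hs1_comm ((hs1_nee i j).smul t) ((hs1_neA i).smul p) ?_
  rw [smul_mul_smul_comm, smul_mul_smul_comm, b0_serre h, mul_comm]

theorem r_dj {i j : b.support} (h : Adj b i j) (t p : K) : xt b i j t * fx b (j : ι) p = fx b (j : ι) p * xt b i j t := by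
  refine FI.f_ext ?_
  rw [FI.f_mul, FI.f_mul, hs1_x, xt_val h]
  refine hs1_comm ((hs1_nee i j).smul t) ((hs1_neA j).smul p) ?_
  rw [smul_mul_smul_comm, smul_mul_smul_comm, b0_serre' h, mul_comm]

/-- (e) PROOF. `r_a` and the definition of `xt`. -/
theorem r_e {i j : b.support} (h : Adj b i j) (y : K) : (fn b K i)⁻¹ * (fn b K j)⁻¹ * fx b (i : ι) y * fn b K j * fn b K i = fx b (j : ι) y := by
  have h1 : (fn b K i)⁻¹ * (fn b K j)⁻¹ * fx b (i : ι) y * fn b K j * fn b K i = (fn b K i)⁻¹ * ((fn b K j)⁻¹ * fx b (i : ι) y * fn b K j) * fn b K i := by group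
  rw [h1, r_a h]
  unfold xt
  group

/-- (f) The braid relation. PROOF. `n_i n_j n_i⁻¹ = exp(θ) exp(φ) exp(θ)` (`n_i e_j n_i⁻¹ = θ`, `n_i (-f_j) n_i⁻¹ = φ`) and `n_j⁻¹ n_i n_j = exp(θ) exp(φ) exp(θ)` (`n_j⁻¹ e_i n_j = θ`, `n_j⁻¹ (-f_i) n_j = φ`), so `n_i n_j n_i⁻¹ = n_j⁻¹ n_i n_j`. -/
theorem r_f {i j : b.support} (h : Adj b i j) : fn b K i * fn b K j * fn b K i = fn b K j * fn b K i * fn b K j := by
  have c1 : (fn b K i).1.1 * IsNilpotent.exp (eA b K j) = IsNilpotent.exp (ee b K i j) * (fn b K i).1.1 := qb0_comm (hs1_neA j) (hs1_nee i j) (hs1_ne h)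
  have c2 : (fn b K i).1.1 * IsNilpotent.exp (-fA b K j) = IsNilpotent.exp (ff b K i j) * (fn b K i).1.1 := qb0_comm (hs1_nfA j).neg (hs1_nff i j) (by
    rw [mul_neg, hs1_nf h, neg_mul, neg_neg])
  have c3 : (fn b K j).1.1 * IsNilpotent.exp (ee b K i j) = IsNilpotent.exp (eA b K i) * (fn b K j).1.1 := qb0_comm (hs1_nee i j) (hs1_neA i) (hs1_nt' h)
  have c4 : (fn b K j).1.1 * IsNilpotent.exp (ff b K i j) = IsNilpotent.exp (-fA b K i) * (fn b K j).1.1 := qb0_comm (hs1_nff i j) (hs1_nfA i).neg (hs1_np' h)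
  set T : Matrix (I b) (I b) K := IsNilpotent.exp (ee b K i j) * IsNilpotent.exp (ff b K i j) * IsNilpotent.exp (ee b K i j) with hT
  have d1 : (fn b K i).1.1 * (fn b K j).1.1 = T * (fn b K i).1.1 := by
    rw [hs1_n j, ← Matrix.mul_assoc, ← Matrix.mul_assoc, c1, Matrix.mul_assoc (IsNilpotent.exp (ee b K i j)), c2, hT]
    simp only [Matrix.mul_assoc]
    rw [c1]
  have d2 : (fn b K i).1.1 * (fn b K j).1.1 = (fn b K j).1.1 * T := by
    rw [hs1_n i, hT, ← Matrix.mul_assoc, ← Matrix.mul_assoc, c3, Matrix.mul_assoc (IsNilpotent.exp (eA b K i)) (fn b K j).1.1, c4]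
    simp only [Matrix.mul_assoc]
    rw [c3]
  refine FI.f_ext ?_
  rw [FI.f_mul, FI.f_mul, FI.f_mul, FI.f_mul, Matrix.mul_assoc (fn b K j).1.1, d1, ← Matrix.mul_assoc (fn b K j).1.1, ← d2, d1]

/-- (g) -/
theorem r_g {i j : b.support} (h : Adj b i j) (t : K) : (fn b K i)⁻¹ * fx b (ng P j) t * fn b K i = yt b i j t := by
  rw [mul_assoc, inv_mul_eq_iff_eq_mul]
  refine FI.f_ext ?_
  rw [FI.f_mul, FI.f_mul, hs1_y, yt_val h, hs1_conj (hs1_nff i j) (hs1_nfA j) (hs1_np h)]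

/-- (h) PROOF. `[e_i, φ] = f_j` and `[e_i, f_j] = 0`, `[φ, f_j] = 0`: `exp(-q e_i) (c φ) exp(q e_i) = c φ - q c f_j`. -/
theorem r_h {i j : b.support} (h : Adj b i j) (q c : K) : (fx b (i : ι) q)⁻¹ * yt b i j c * fx b (i : ι) q = yt b i j c * fx b (ng P j) (-(q * c)) := by
  have key : fx b (i : ι) (-q) * yt b i j c = yt b i j c * fx b (ng P j) (-(q * c)) * fx b (i : ι) (-q) := by
    refine FI.f_ext ?_
    rw [FI.f_mul, FI.f_mul, FI.f_mul, hs1_x, hs1_y, yt_val h]
    refine hs1_heis ((hs1_neA i).smul _) ((hs1_nff i j).smul c) ((hs1_nfA j).smul _) ?_ ?_ ?_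
    · rw [smul_mul_smul_comm, smul_mul_smul_comm, mul_comm c (-q), ← smul_sub, b0_ef h, neg_mul]
    · rw [smul_mul_smul_comm, smul_mul_smul_comm, mul_comm (-(q * c)) (-q), ← smul_sub, eA_fA_ne h.ne, smul_zero]
    · rw [smul_mul_smul_comm, smul_mul_smul_comm, b0_serre_f' h, mul_comm]
  have hq : fx b (i : ι) (-q) = (fx b (i : ι) q)⁻¹ := FI.fx_neg _ _
  rw [← hq, key, hq]
  group

end

end Pool.Agent.Lib.L8.HS
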