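import Pool.Agent.Lib.L8.HS.B1

/-!
# HS, chunk B2 (M): heights of the words of one and three letters
-/

namespace Pool.Agent.Lib.L8.HS

open Matrix NumberField IsDedekindDomain Pool.Agent.Lib.H89N Pool.Agent.Lib.L1S
open Pool.Agent.Lib.L8.FI (fx fn fh)
open Pool.Agent.Lib.L8.FL (av aI Gv Kv Ah TK tv PJ G1 Chi nW wW Uw)

noncomputable section

set_option linter.unusedSectionVars false

variable {ι M N : Type} [Fintype ι] [DecidableEq ι] [AddCommGroup M] [Module ℚ M] [AddCommGroup N] [Module ℚ N]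
  {P : RootPairing ι ℚ M N} [P.IsCrystallographic] [P.IsReduced] [P.IsIrreducible] [P.IsRootSystem] {b : P.Base} {K : Type} [Field K] [NumberField K]

/-- One letter. -/
def nx (i : b.support) (r : K) (g : GK b K) : GK b K := fn b K i * fx b (i : ι) r * g

/-- The factor of one letter: `max (A_i(g), |r + c|_w)`. -/
def mz (w : HeightOneSpectrum (𝓞 K)) (i : b.support) (g : GK b K) (r : K) : ℝ := Real.sqrt (Ah b w g i / Ah b w (nx i r g) i)

theorem b2_loc {𝔫 : Ideal (𝓞 K)} (w : HeightOneSpectrum (𝓞 K)) (i : b.support) (g : GK b K) :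
    ∃ c : K, (∀ r, mz w i g r = max (Ah b w g i) (av w (r + c))) ∧
      (∀ (r : K) (k : b.support), Ah b w (nx i r g) k = Ah b w g k * mz w i g r ^ (-(b.cartanMatrix k i))) ∧
      ∀ r : K, Chi b 𝔫 i g → Chi b 𝔫 i (nx i r g) → Ah b w g i ≤ aI w 𝔫 * mz w i g r := by
  obtain ⟨c, -, h1, -, h3⟩ := FI.g1_loc b w (𝔫 := 𝔫) i g
  have key : ∀ r, mz w i g r = max (Ah b w g i) (av w (r + c)) := by
    intro r
    have hA := FI.Ah_pos b w g i
    have hm : 0 < max (Ah b w g i) (av w (r + c)) := lt_max_of_lt_left hA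
    have h2 : Ah b w (nx i r g) i = Ah b w g i * max (Ah b w g i) (av w (r + c)) ^ (-(b.cartanMatrix i i)) := h1 r i
    rw [RootPairing.Base.cartanMatrix_apply_same] at h2
    unfold mz
    rw [h2]
    have h4 : Ah b w g i / (Ah b w g i * max (Ah b w g i) (av w (r + c)) ^ (-(2 : ℤ))) = max (Ah b w g i) (av w (r + c)) ^ 2 := by
      rw [_root_.zpow_neg]
      have h5 : max (Ah b w g i) (av w (r + c)) ^ (2 : ℤ) = max (Ah b w g i) (av w (r + c)) ^ 2 := by norm_cast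
      rw [h5]
      field_simp
    rw [h4, Real.sqrt_sq hm.le]
  refine ⟨c, key, fun r k => ?_, fun r h h' => ?_⟩
  · rw [key r]
    exact h1 r k
  · rw [key r]
    exact h3 r h h'

theorem b2_cm_ij {i j : b.support} (h : Adj b i j) : b.cartanMatrix i j = -1 := h.1

theorem b2_cm_ji {i j : b.support} (h : Adj b i j) : b.cartanMatrix j i = -1 := h.2

/-- PROOF (all statements about `mz`): `FI.g1_loc b w (𝔫 := 𝔫) i g` gives `c` with `Ah (n_i x_i(r) g) k = Ah g k * m ^ (-(cartan k i))`, `m = max (A_i(g)) |r + c|`; for `k = i` (`cartanMatrix i i = 2`) `Ah g i / Ah (..) i = m ^ 2`, so `mz = m` (`b1m b K i 1 = fn b K i`, `b1x = fx`: rfl). -/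
theorem mz_ex (w : HeightOneSpectrum (𝓞 K)) (i : b.support) (g : GK b K) : ∃ c : K, ∀ r, mz w i g r = max (Ah b w g i) (av w (r + c)) := by
  obtain ⟨c, h, -⟩ := b2_loc (𝔫 := ⊤) w i g
  exact ⟨c, h⟩

theorem mz_pos (w : HeightOneSpectrum (𝓞 K)) (i : b.support) (g : GK b K) (r : K) : 0 < mz w i g r := by
  obtain ⟨c, h⟩ := mz_ex w i g
  rw [h]
  exact lt_max_of_lt_left (FI.Ah_pos b w g i)

/-- PROOF. `Ah_val` for `Ah`; `av w (r + c)` if `r + c ≠ 0`, else the maximum is `Ah`. -/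
theorem mz_val (w : HeightOneSpectrum (𝓞 K)) (i : b.support) (g : GK b K) (r : K) : ∃ y : K, y ≠ 0 ∧ mz w i g r = av w y := by
  obtain ⟨c, h⟩ := mz_ex w i g
  rw [h]
  rcases le_total (Ah b w g i) (av w (r + c)) with h1 | h1
  · refine ⟨r + c, ?_, max_eq_right h1⟩
    intro h2
    have h3 := FI.Ah_pos b w g i
    rw [h2, map_zero] at h1
    linarith
  · obtain ⟨y, hy, h2⟩ := FI.Ah_val b w g i
    exact ⟨y, hy, (max_eq_left h1).trans h2⟩

theorem Ah_nx (w : HeightOneSpectrum (𝓞 K)) (i k : b.support) (g : GK b K) (r : K) : Ah b w (nx i r g) k = Ah b w g k * mz w i g r ^ (-(b.cartanMatrix k i)) := by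
  obtain ⟨c, -, h, -⟩ := b2_loc (𝔫 := ⊤) w i g
  exact h r k

theorem Ah_le_mz (w : HeightOneSpectrum (𝓞 K)) (i : b.support) (g : GK b K) (r : K) : Ah b w g i ≤ mz w i g r := by
  obtain ⟨c, h⟩ := mz_ex w i g
  rw [h]
  exact le_max_left _ _

/-- PROOF. `r - r' = (r + c) - (r' + c)`. -/
theorem mz_sub (w : HeightOneSpectrum (𝓞 K)) (i : b.support) (g : GK b K) (r r' : K) : av w (r - r') ≤ max (mz w i g r) (mz w i g r') := by
  obtain ⟨c, h⟩ := mz_ex w i g
  rw [h, h]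
  have h1 : r - r' = (r + c) + -(r' + c) := by ring
  have h2 := FI.g1_nonarch w (r + c) (-(r' + c))
  rw [← h1, AbsoluteValue.map_neg] at h2
  exact h2.trans (max_le_max (le_max_right _ _) (le_max_right _ _))

/-- PROOF. Last clause of `g1_loc`. -/
theorem mz_lev {𝔫 : Ideal (𝓞 K)} (w : HeightOneSpectrum (𝓞 K)) {i : b.support} {g : GK b K} {r : K} (h : Chi b 𝔫 i g) (h' : Chi b 𝔫 i (nx i r g)) : Ah b w g i ≤ aI w 𝔫 * mz w i g r := by
  obtain ⟨c, -, -, h1⟩ := b2_loc (𝔫 := 𝔫) w i g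
  exact h1 r h h'

/-- Three letters: `n_i x_i(y) n_j x_j(s) n_i x_i(x) z`. -/
def hz (i j : b.support) (z : GK b K) (x s y : K) : GK b K := nx i y (nx j s (nx i x z))

/-- `A_i A_j ^ 2`. -/
def Ph (w : HeightOneSpectrum (𝓞 K)) (i j : b.support) (g : GK b K) : ℝ := Ah b w g i * Ah b w g j ^ 2

/-- The content for the letter `j`: `(Ph z / Ph g) ^ (1/3) / (A_i A_j)(z)`. -/
def dd (w : HeightOneSpectrum (𝓞 K)) (i j : b.support) (z g : GK b K) : ℝ := (Ph w i j z / Ph w i j g) ^ ((3 : ℝ)⁻¹) / (Ah b w z i * Ah b w z j)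

theorem Ph_pos (w : HeightOneSpectrum (𝓞 K)) (i j : b.support) (g : GK b K) : 0 < Ph w i j g := by
  have h1 := FI.Ah_pos b w g i
  have h2 := FI.Ah_pos b w g j
  unfold Ph
  positivity

/-- PROOF. `Ah_nx` with `cartan i i = 2`, `cartan j i = -1` (`cartanMatrix j i = pairingIn j i`): `A_i m⁻² (A_j m)² = A_i A_j²`. -/
theorem Ph_nx_i (w : HeightOneSpectrum (𝓞 K)) {i j : b.support} (h : Adj b i j) (g : GK b K) (r : K) : Ph w i j (nx i r g) = Ph w i j g := by
  have hm := mz_pos w i g r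
  unfold Ph
  rw [Ah_nx, Ah_nx, RootPairing.Base.cartanMatrix_apply_same, b2_cm_ji h, neg_neg, zpow_one, _root_.zpow_neg]
  have h5 : mz w i g r ^ (2 : ℤ) = mz w i g r ^ 2 := by norm_cast
  rw [h5]
  field_simp

/-- PROOF. `A_i m (A_j m⁻²)² = A_i A_j² m⁻³`. -/
theorem Ph_nx_j (w : HeightOneSpectrum (𝓞 K)) {i j : b.support} (h : Adj b i j) (g : GK b K) (r : K) : Ph w i j (nx j r g) = Ph w i j g * (mz w j g r ^ 3)⁻¹ := by
  have hm := mz_pos w j g r
  unfold Ph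
  rw [Ah_nx, Ah_nx, RootPairing.Base.cartanMatrix_apply_same, b2_cm_ij h, neg_neg, zpow_one, _root_.zpow_neg]
  have h5 : mz w j g r ^ (2 : ℤ) = mz w j g r ^ 2 := by norm_cast
  rw [h5]
  field_simp

theorem dd_j (w : HeightOneSpectrum (𝓞 K)) {i j : b.support} (h : Adj b i j) (z : GK b K) (x s y : K) : dd w i j z (hz i j z x s y) = mz w j (nx i x z) s / (Ah b w z i * Ah b w z j) := by
  have hm := mz_pos w j (nx i x z) s
  have hP := Ph_pos w i j z
  unfold dd hz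
  rw [Ph_nx_i w h, Ph_nx_j w h, Ph_nx_i w h]
  have h1 : Ph w i j z / (Ph w i j z * (mz w j (nx i x z) s ^ 3)⁻¹) = mz w j (nx i x z) s ^ 3 := by
    field_simp
  rw [h1]
  congr 1
  rw [← Real.rpow_natCast, ← Real.rpow_mul hm.le]
  norm_num

theorem dd_i (w : HeightOneSpectrum (𝓞 K)) {i j : b.support} (h : Adj b i j) (z : GK b K) (x s y : K) :
    dd w j i z (hz i j z x s y) = mz w i z x * mz w i (nx j s (nx i x z)) y / (Ah b w z i * Ah b w z j) := by
  have hm := mz_pos w i z x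
  have hm' := mz_pos w i (nx j s (nx i x z)) y
  have hP := Ph_pos w j i z
  unfold dd hz
  rw [Ph_nx_j w h.symm, Ph_nx_i w h.symm, Ph_nx_j w h.symm]
  have h1 : Ph w j i z / (Ph w j i z * (mz w i z x ^ 3)⁻¹ * (mz w i (nx j s (nx i x z)) y ^ 3)⁻¹)
      = (mz w i z x * mz w i (nx j s (nx i x z)) y) ^ 3 := by
    field_simp
  rw [h1, mul_comm (Ah b w z j) (Ah b w z i)]
  congr 1
  rw [← Real.rpow_natCast, ← Real.rpow_mul (by positivity)]
  norm_num

/-- PROOF. `mz_j(s; g₁) ≥ A_j(g₁) = A_j(z) mz_i(x; z) ≥ A_j(z) A_i(z)`, `g₁ = nx i x z`. -/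
theorem dd_j_one (w : HeightOneSpectrum (𝓞 K)) {i j : b.support} (h : Adj b i j) (z : GK b K) (x s y : K) : 1 ≤ dd w i j z (hz i j z x s y) := by
  have hi := FI.Ah_pos b w z i
  have hj := FI.Ah_pos b w z j
  rw [dd_j w h, one_le_div (by positivity)]
  have h1 := Ah_le_mz w j (nx i x z) s
  rw [Ah_nx, b2_cm_ji h, neg_neg, zpow_one] at h1
  have h2 := mul_le_mul_of_nonneg_left (Ah_le_mz w i z x) hj.le
  linarith

/-- PROOF. `mz_i(y; g₂) ≥ A_i(g₂) = A_i(z) mz_i(x; z)⁻² mz_j(s; g₁)` and `mz_j(s; g₁) ≥ A_j(z) mz_i(x; z)`, so `mz_i(x; z) mz_i(y; g₂) ≥ A_i(z) mz_i(x; z)⁻¹ mz_j(s; g₁) ≥ A_i(z) A_j(z)`. -/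
theorem dd_i_one (w : HeightOneSpectrum (𝓞 K)) {i j : b.support} (h : Adj b i j) (z : GK b K) (x s y : K) : 1 ≤ dd w j i z (hz i j z x s y) := by
  have hi := FI.Ah_pos b w z i
  have hj := FI.Ah_pos b w z j
  have hm1 := mz_pos w i z x
  have hm2 := mz_pos w j (nx i x z) s
  rw [dd_i w h, one_le_div (by positivity)]
  have h1 := Ah_le_mz w j (nx i x z) s
  rw [Ah_nx, b2_cm_ji h, neg_neg, zpow_one] at h1
  have h2 := Ah_le_mz w i (nx j s (nx i x z)) y
  rw [Ah_nx, b2_cm_ij h, neg_neg, zpow_one, Ah_nx, RootPairing.Base.cartanMatrix_apply_same, _root_.zpow_neg] at h2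
  have h5 : mz w i z x ^ (2 : ℤ) = mz w i z x ^ 2 := by norm_cast
  rw [h5] at h2
  calc Ah b w z i * Ah b w z j = Ah b w z i * (mz w i z x)⁻¹ * (Ah b w z j * mz w i z x) := by
        field_simp
    _ ≤ Ah b w z i * (mz w i z x)⁻¹ * mz w j (nx i x z) s := mul_le_mul_of_nonneg_left h1 (by positivity)
    _ = mz w i z x * (Ah b w z i * (mz w i z x ^ 2)⁻¹ * mz w j (nx i x z) s) := by
        field_simp
    _ ≤ mz w i z x * mz w i (nx j s (nx i x z)) y := mul_le_mul_of_nonneg_left h2 hm1.le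

theorem dd_j_val (w : HeightOneSpectrum (𝓞 K)) {i j : b.support} (h : Adj b i j) (z : GK b K) (x s y : K) : ∃ c : K, c ≠ 0 ∧ dd w i j z (hz i j z x s y) = av w c := by
  obtain ⟨c, hc, h1⟩ := mz_val w j (nx i x z) s
  obtain ⟨p, hp, h2⟩ := FI.Ah_val b w z i
  obtain ⟨q, hq, h3⟩ := FI.Ah_val b w z j
  refine ⟨c / (p * q), div_ne_zero hc (mul_ne_zero hp hq), ?_⟩
  rw [dd_j w h, h1, h2, h3, map_div₀, map_mul]

theorem dd_i_val (w : HeightOneSpectrum (𝓞 K)) {i j : b.support} (h : Adj b i j) (z : GK b K) (x s y : K) : ∃ c : K, c ≠ 0 ∧ dd w j i z (hz i j z x s y) = av w c := by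
  obtain ⟨c, hc, h1⟩ := mz_val w i z x
  obtain ⟨d, hd, h1'⟩ := mz_val w i (nx j s (nx i x z)) y
  obtain ⟨p, hp, h2⟩ := FI.Ah_val b w z i
  obtain ⟨q, hq, h3⟩ := FI.Ah_val b w z j
  refine ⟨c * d / (p * q), div_ne_zero (mul_ne_zero hc hd) (mul_ne_zero hp hq), ?_⟩
  rw [dd_i w h, h1, h1', h2, h3, map_div₀, map_mul, map_mul]

/-- PROOF. `FI.Ah_fin`: almost all heights of `z` and `g` are `1`. -/
theorem dd_fin (i j : b.support) (z g : GK b K) : {w : HeightOneSpectrum (𝓞 K) | dd w i j z g ≠ 1}.Finite := by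
  refine (((FI.Ah_fin b z i).union (FI.Ah_fin b z j)).union ((FI.Ah_fin b g i).union (FI.Ah_fin b g j))).subset ?_
  intro w hw
  by_contra h
  simp only [Set.mem_union, Set.mem_ofPred_eq, not_or, not_not] at h
  apply hw
  unfold dd Ph
  rw [h.1.1, h.1.2, h.2.1, h.2.2]
  norm_num

/-- **The heights.** PROOF. `Ah_nx` three times: `Ah g k = Ah z k (m₁ m₃) ^ (-a_ki) m₂ ^ (-a_kj)`, and `m₁ m₃ = a d_i`, `m₂ = a d_j`, `a = A_i(z) A_j(z)`. -/
theorem Ah_hz (w : HeightOneSpectrum (𝓞 K)) {i j : b.support} (h : Adj b i j) (z : GK b K) (x s y : K) (k : b.support) :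
    Ah b w (hz i j z x s y) k = Ah b w z k * (Ah b w z i * Ah b w z j * dd w j i z (hz i j z x s y)) ^ (-(b.cartanMatrix k i)) * (Ah b w z i * Ah b w z j * dd w i j z (hz i j z x s y)) ^ (-(b.cartanMatrix k j)) := by
  have hi := FI.Ah_pos b w z i
  have hj := FI.Ah_pos b w z j
  have h1 : Ah b w z i * Ah b w z j * dd w j i z (hz i j z x s y) = mz w i z x * mz w i (nx j s (nx i x z)) y := by
    rw [dd_i w h]
    field_simp
  have h2 : Ah b w z i * Ah b w z j * dd w i j z (hz i j z x s y) = mz w j (nx i x z) s := by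
    rw [dd_j w h]
    field_simp
  rw [h1, h2, mul_zpow]
  unfold hz
  rw [Ah_nx, Ah_nx, Ah_nx]
  ring

/-- (C1) PROOF. `|x - x'| ≤ max (mz_i(x; z)) (mz_i(x'; z))`, and `mz_i(x; z) ≤ mz_j(s; nx i x z) / A_j(z) = A_i(z) d_j`. -/
theorem dd_C1 (w : HeightOneSpectrum (𝓞 K)) {i j : b.support} (h : Adj b i j) (z : GK b K) (x s y x' s' y' : K) :
    av w (x - x') ≤ Ah b w z i * max (dd w i j z (hz i j z x s y)) (dd w i j z (hz i j z x' s' y')) := by
  have key : ∀ x s y, mz w i z x ≤ Ah b w z i * dd w i j z (hz i j z x s y) := by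
    intro x s y
    have hi := FI.Ah_pos b w z i
    have hj := FI.Ah_pos b w z j
    have h1 := Ah_le_mz w j (nx i x z) s
    rw [Ah_nx, b2_cm_ji h, neg_neg, zpow_one] at h1
    rw [dd_j w h]
    have h2 : Ah b w z i * (mz w j (nx i x z) s / (Ah b w z i * Ah b w z j)) = mz w j (nx i x z) s / Ah b w z j := by
      field_simp
    rw [h2, le_div_iff₀ hj]
    linarith
  have hi := FI.Ah_pos b w z i
  rw [mul_max_of_nonneg _ _ hi.le]
  exact (mz_sub w i z x x').trans (max_le_max (key x s y) (key x' s' y'))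

/-- (C3) PROOF. `mz_sub` for the letter `j` and `g₁ = nx i x z`. -/
theorem dd_C3 (w : HeightOneSpectrum (𝓞 K)) {i j : b.support} (h : Adj b i j) (z : GK b K) (x s y s' y' : K) :
    av w (s - s') ≤ Ah b w z i * Ah b w z j * max (dd w i j z (hz i j z x s y)) (dd w i j z (hz i j z x s' y')) := by
  have hi := FI.Ah_pos b w z i
  have hj := FI.Ah_pos b w z j
  have key : ∀ s y, mz w j (nx i x z) s = Ah b w z i * Ah b w z j * dd w i j z (hz i j z x s y) := by
    intro s y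
    rw [dd_j w h]
    field_simp
  rw [mul_max_of_nonneg _ _ (by positivity), ← key, ← key]
  exact mz_sub w j (nx i x z) s s'

end

end Pool.Agent.Lib.L8.HS
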