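import Pool.Agent.Lib.L8.HS.B4
import Pool.Agent.Lib.L8.QF.FQ2
import Pool.Agent.Lib.L8.QF.EQ3
import Pool.Agent.Lib.H29Q.GC4A
import Pool.Agent.Lib.H29Q.GE

/-!
# HS, chunk B6 (M/L): the elements of the letter group which are fixed by the Galois group
-/

namespace Pool.Agent.Lib.L8.HS

open Matrix NumberField IsDedekindDomain Pool.Agent.Lib.H89N Pool.Agent.Lib.L1S Pool.Agent.Lib.L8.QF Pool.Agent.Lib.H29Q
open Pool.Agent.Lib.L8.FI (fx fn fh fc)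
open Pool.Agent.Lib.L8.FL (av aI Gv Kv Ah TK tv PJ G1 Chi nW wW Uw RedW)

noncomputable section

set_option linter.unusedSectionVars false

variable {ι M N : Type} [Fintype ι] [DecidableEq ι] [AddCommGroup M] [Module ℚ M] [AddCommGroup N] [Module ℚ N]
  {P : RootPairing ι ℚ M N} [P.IsCrystallographic] [P.IsReduced] [P.IsIrreducible] [P.IsRootSystem] {b : P.Base}
  {K L : Type} [Field K] [NumberField K] [Field L] [NumberField L] [Algebra K L] {Q : QS b K L} {i j : b.support}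

/-- The orbit of `i` is the adjacent pair `{i, j}`. -/
structure AdQ (Q : QS b K L) (i j : b.support) : Prop where
  adj : Adj b i j
  orb : orb Q i = {i, j}
  ow : ow Q i = [i, j, i]

/-- PROOF. `H29Q.orb_adj` gives `j`; `ow Q i = [i, hi.choose, i]` (`dif_pos`), `hi.choose ∈ orb Q i = {i, j}` is not `i`, so it is `j`. -/
theorem adQ_ex (hi : ∃ j ∈ orb Q i, j ≠ i ∧ b.cartanMatrix i j ≠ 0) : ∃ j, AdQ Q i j := by
  obtain ⟨j, hne, horb, h1, h2⟩ := orb_adj hi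
  refine ⟨j, ⟨h1, h2⟩, horb, ?_⟩
  have h3 := hi.choose_spec
  have h4 : hi.choose = j := by
    have h5 : hi.choose ∈ ({i, j} : Finset b.support) := by
      rw [← horb]
      exact h3.1
    rcases Finset.mem_insert.1 h5 with h6 | h6
    · exact absurd h6 h3.2.1
    · exact Finset.mem_singleton.1 h6
  have h7 : ow Q i = [i, hi.choose, i] := by
    unfold ow
    exact dif_pos hi
  rw [h7, h4]

theorem AdQ.b6_mem (h : AdQ Q i j) (σ : L ≃ₐ[K] L) : (Q.da σ).sp i = i ∨ (Q.da σ).sp i = j := by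
  have h1 : (Q.da σ).sp i ∈ QF.orb Q i := H29Q.mem_orb.2 ⟨σ, rfl⟩
  rw [h.orb, Finset.mem_insert, Finset.mem_singleton] at h1
  exact h1

theorem AdQ.b6_j (h : AdQ Q i j) : ∃ σ : L ≃ₐ[K] L, (Q.da σ).sp i = j := by
  refine H29Q.mem_orb.1 ?_
  rw [h.orb]
  exact Finset.mem_insert_of_mem (Finset.mem_singleton_self j)

theorem AdQ.b6_spi (h : AdQ Q i j) {σ : L ≃ₐ[K] L} (hσ : σ ∉ StQ Q i) : (Q.da σ).sp i = j := by
  rcases h.b6_mem σ with h1 | h1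
  · exact absurd (mem_StQ.2 h1) hσ
  · exact h1

/-- PROOF (all five). The orbit is stable under the group, the maps `sp` are injective, `i ≠ j`; `StQ Q i` is the stabiliser of `i` (`mem_StQ`); `j ∈ orb Q i` gives `σ₀`. -/
theorem AdQ.sp_st (h : AdQ Q i j) {σ : L ≃ₐ[K] L} (hσ : σ ∈ StQ Q i) : (Q.da σ).sp j = j := by
  obtain ⟨σ₀, hσ₀⟩ := h.b6_j
  rcases h.b6_mem (σ * σ₀) with h1 | h1
  · rw [sp_mul, hσ₀] at h1
    have h2 : (Q.da σ).sp i = i := mem_StQ.1 hσ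
    exact absurd ((Q.da σ).sp.injective (h1.trans h2.symm)) h.adj.ne.symm
  · rw [sp_mul, hσ₀] at h1
    exact h1

theorem AdQ.sp_i (h : AdQ Q i j) {σ : L ≃ₐ[K] L} (hσ : σ ∉ StQ Q i) : (Q.da σ).sp i = j := by
  rcases h.b6_mem σ with h1 | h1
  · exact absurd (mem_StQ.2 h1) hσ
  · exact h1

theorem AdQ.sp_j (h : AdQ Q i j) {σ : L ≃ₐ[K] L} (hσ : σ ∉ StQ Q i) : (Q.da σ).sp j = i := by
  obtain ⟨σ₀, hσ₀⟩ := h.b6_j
  rcases h.b6_mem (σ * σ₀) with h1 | h1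
  · rw [sp_mul, hσ₀] at h1
    exact h1
  · rw [sp_mul, hσ₀] at h1
    exact absurd ((Q.da σ).sp.injective (h1.trans (h.b6_spi hσ).symm)) h.adj.ne.symm

theorem AdQ.exs (h : AdQ Q i j) : ∃ σ : L ≃ₐ[K] L, σ ∉ StQ Q i := by
  obtain ⟨σ₀, hσ₀⟩ := h.b6_j
  exact ⟨σ₀, fun h1 => h.adj.ne ((mem_StQ.1 h1).symm.trans hσ₀)⟩

/-- PROOF. `sp_mul`, `sp_cancel`. -/
theorem AdQ.mul_mem (h : AdQ Q i j) {σ τ : L ≃ₐ[K] L} (hσ : σ ∉ StQ Q i) (hτ : τ ∉ StQ Q i) : σ * τ ∈ StQ Q i := by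
  rw [mem_StQ, sp_mul, h.sp_i hτ, h.sp_j hσ]

/-- PROOF. `fx b i t = b1x b L i t` and `fn b L i = b1m b L i 1` (rfl): `Tq.b1x`, `Tq.b1m`, `Tq.mul`, `Tq.inv`, `map_neg`. -/
theorem Tq_uO (Q : QS b K L) (σ : L ≃ₐ[K] L) (i j : b.support) (x s y : L) : Tq Q σ (uO b i j x s y) (uO b ((Q.da σ).sp i) ((Q.da σ).sp j) (σ x) (σ s) (σ y)) := by
  have h1 := ((Tq.b1x (Q := Q) σ j y).mul (((Tq.b1m (Q := Q) σ i).mul (Tq.b1x (Q := Q) σ j (-s))).mul (Tq.b1m (Q := Q) σ i).inv)).mul (Tq.b1x (Q := Q) σ i x)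
  rw [map_neg] at h1
  exact h1

/-- **The fixed elements.** PROOF. `Fx Q g.1.1` for `g = uO b i j x s y` means `Tq Q σ g g` for all `σ` (`fx_iff`, `Tq.of_Fx`, `Tq.uniq`; `mem_HF` for the other direction). With `Tq_uO` this is `uO b (σ i) (σ j) (σ x) (σ s) (σ y) = uO b i j x s y`: for `σ ∈ StQ Q i` use `uO_inj`; for `σ ∉ StQ Q i` the left side is `uO b j i (σ x) (σ s) (σ y)`
and the right side is `uO b j i y (-s - x y) x` (`uO_swap`), so `uO_inj` for `(j, i)`. -/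
theorem uO_HF (h : AdQ Q i j) (x s y : L) : uO b i j x s y ∈ HF Q ↔ (∀ σ ∈ StQ Q i, σ x = x ∧ σ s = s ∧ σ y = y) ∧ ∀ σ : L ≃ₐ[K] L, σ ∉ StQ Q i → σ x = y ∧ σ s = -s - x * y ∧ σ y = x := by
  constructor
  · intro hu
    have h0 : ∀ σ : L ≃ₐ[K] L, uO b i j x s y = uO b ((Q.da σ).sp i) ((Q.da σ).sp j) (σ x) (σ s) (σ y) := fun σ =>
      (Tq.of_Fx hu.1 σ).uniq (Tq_uO Q σ i j x s y)
    refine ⟨fun σ hσ => ?_, fun σ hσ => ?_⟩
    · have h1 := h0 σ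
      rw [mem_StQ.1 hσ, h.sp_st hσ] at h1
      obtain ⟨h2, h3, h4⟩ := uO_inj h.adj h1
      exact ⟨h2.symm, h3.symm, h4.symm⟩
    · have h1 := h0 σ
      rw [h.sp_i hσ, h.sp_j hσ, uO_swap h.adj] at h1
      obtain ⟨h2, h3, h4⟩ := uO_inj h.adj.symm h1
      exact ⟨h2.symm, h3.symm, h4.symm⟩
  · rintro ⟨h1, h2⟩
    refine mem_HF (fx_iff.2 fun σ => ?_)
    have h3 : Tq Q σ (uO b i j x s y) (uO b i j x s y) := by
      have h4 := Tq_uO Q σ i j x s y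
      by_cases hσ : σ ∈ StQ Q i
      · obtain ⟨h5, h6, h7⟩ := h1 σ hσ
        rw [mem_StQ.1 hσ, h.sp_st hσ, h5, h6, h7] at h4
        exact h4
      · obtain ⟨h5, h6, h7⟩ := h2 σ hσ
        rw [h.sp_i hσ, h.sp_j hσ, h5, h6, h7, ← uO_swap h.adj] at h4
        exact h4
    exact Eq.symm h3

/-- PROOF. `nq Q i = nW b L [i, j, i]`; `Tq.nW` gives `τ_σ` of it: `nW b L [i, j, i]` or `nW b L [j, i, j]`, `nW_braid`; `mem_HF`, `fx_iff`. -/
theorem nq_HF (h : AdQ Q i j) : nq Q i ∈ HF Q := by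
  refine mem_HF (fx_iff.2 fun σ => ?_)
  have h3 : Tq Q σ (nq Q i) (nq Q i) := by
    unfold nq
    rw [h.ow]
    have h4 := Tq.nW (Q := Q) σ [i, j, i]
    rw [List.map_cons, List.map_cons, List.map_cons, List.map_nil] at h4
    by_cases hσ : σ ∈ StQ Q i
    · rw [mem_StQ.1 hσ, h.sp_st hσ] at h4
      exact h4
    · rw [h.sp_i hσ, h.sp_j hσ, ← nW_braid h.adj] at h4
      exact h4
  exact Eq.symm h3

/-- PROOF. `nW_uO`. -/
theorem nq_uO (h : AdQ Q i j) (z : GK b L) (x s y : L) : nq Q i * uO b i j x s y * z = hz i j z x s y := by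
  unfold nq
  rw [h.ow]
  exact nW_uO h.adj z x s y

/-- PROOF. `Xq Q i = Uw b L (ow Q i) ⊓ HF Q`: `uO_ex`, `uO_mem`. -/
theorem mem_Xq (h : AdQ Q i j) (u : GK b L) : u ∈ Xq Q i ↔ (∃ x s y, u = uO b i j x s y) ∧ u ∈ HF Q := by
  unfold Xq
  rw [Subgroup.mem_inf, h.ow]
  constructor
  · rintro ⟨h1, h2⟩
    exact ⟨uO_ex h.adj h1, h2⟩
  · rintro ⟨⟨x, s, y, rfl⟩, h2⟩
    exact ⟨uO_mem h.adj x s y, h2⟩

end

end Pool.Agent.Lib.L8.HS
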