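import Pool.Agent.Lib.L8.HS.B6

/-!
# HS, chunk B6C (M/L): the coordinates of the fixed elements
-/

namespace Pool.Agent.Lib.L8.HS

open Matrix NumberField IsDedekindDomain Pool.Agent.Lib.H89N Pool.Agent.Lib.L1S Pool.Agent.Lib.L8.QF Pool.Agent.Lib.H29Q
open Pool.Agent.Lib.L8.FI (fx fn fh fc)
open Pool.Agent.Lib.L8.FL (av aI Gv Kv Ah TK tv PJ G1 Chi nW wW Uw RedW)

noncomputable section

set_option linter.unusedSectionVars false

variable {ι M N : Type} [Fintype ι] [DecidableEq ι] [AddCommGroup M] [Module ℚ M] [AddCommGroup N] [Module ℚ N]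
  {P : RootPairing ι ℚ M N} [P.IsCrystallographic] [P.IsReduced] [P.IsIrreducible] [P.IsRootSystem] {b : P.Base}
  {K L : Type} [Field K] [NumberField K] [Field L] [NumberField L] [Algebra K L] {Q : QS b K L} {i j : b.support}

open scoped Classical in
/-- The central coordinate: `so b i j (uO b i j x s y) = s`. -/
def so (b : P.Base) (i j : b.support) (u : GK b L) : L := if h : ∃ q : L × L × L, u = uO b i j q.1 q.2.1 q.2.2 then h.choose.2.1 else 0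

open scoped Classical in
/-- The abelian coordinate of the fixed elements, with values in the field `FO Q i` of the orbit. -/
def rq (Q : QS b K L) (i : b.support) (u : ↥(Xq Q i)) : FO Q i := if h : fc i (u : GK b L) ∈ FO Q i then ⟨_, h⟩ else 0

open scoped Classical in
/-- The coordinate of the centre: `s = θ t`. -/
def tq (Q : QS b K L) (i j : b.support) (θ : L) (u : ↥(Xq Q i)) : K := if h : ∃ t : K, so b i j (u : GK b L) = θ * algebraMap K L t then h.choose else 0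

/-- `θ` is integral, fixed by the stabiliser of `i` and `σ θ = -θ` for the other `σ`. -/
structure IsTh (Q : QS b K L) (i : b.support) (θ : L) : Prop where
  ne : θ ≠ 0
  int : ∃ o : 𝓞 L, (o : L) = θ
  st : ∀ σ ∈ StQ Q i, σ θ = θ
  nst : ∀ σ : L ≃ₐ[K] L, σ ∉ StQ Q i → σ θ = -θ

/-- PROOF. `η` of `fo_pair` (`i ≠ j`: `h.adj.ne`), as an element of `L`: `σ η = η` for `σ ∈ StQ Q i` (`IntermediateField.mem_fixedField_iff`), `= -η` else; multiply by a positive integer to get an integral element (`IsLocalization` or `exists_integral_multiple`; `𝓞 L` is the integral closure). -/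
theorem th_ex [IsGalois K L] (h : AdQ Q i j) : ∃ θ : L, IsTh Q i θ := by
  obtain ⟨τ, η, -, -, -, -, hη, hτη, hs, -⟩ := fo_pair Q h.adj.ne h.orb
  have hη' : (η : L) ≠ 0 := fun h0 => hη (Subtype.ext h0)
  have halg : IsAlgebraic ℤ (η : L) := (IsFractionRing.isAlgebraic_iff ℤ ℚ L).2 (Algebra.IsAlgebraic.isAlgebraic (η : L))
  obtain ⟨m, hm, hint⟩ := halg.exists_integral_multiple
  have hm' : ((m : ℤ) : L) ≠ 0 := by exact_mod_cast hm
  refine ⟨m • (η : L), ?_, ⟨⟨m • (η : L), hint⟩, rfl⟩, fun σ hσ => ?_, fun σ hσ => ?_⟩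
  · rw [zsmul_eq_mul]
    exact mul_ne_zero hm' hη'
  · rw [map_zsmul, (IntermediateField.mem_fixedField_iff (StQ Q i) (η : L)).1 η.2 σ hσ]
  · rw [map_zsmul, hs σ hσ η, hτη]
    have e : ((-η : FO Q i) : L) = -(η : L) := rfl
    rw [e, smul_neg]

/-- PROOF. `uO_inj`. -/
theorem so_uO (h : Adj b i j) (x s y : L) : so b i j (uO b i j x s y) = s := by
  have hex : ∃ q : L × L × L, uO b i j x s y = uO b i j q.1 q.2.1 q.2.2 := ⟨(x, s, y), rfl⟩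
  unfold so
  rw [dif_pos hex]
  exact (uO_inj h hex.choose_spec).2.1.symm

/-- PROOF. `mem_Xq`, `fc_uO_i`, `uO_HF` (the first coordinate is fixed by `StQ Q i`). -/
theorem rq_val (h : AdQ Q i j) (u : ↥(Xq Q i)) : ((rq Q i u : FO Q i) : L) = fc i (u : GK b L) := by
  obtain ⟨⟨x, s, y, e⟩, hF⟩ := (mem_Xq h _).1 u.2
  rw [e] at hF
  have h1 := ((uO_HF h x s y).1 hF).1
  have hx : fc i (u : GK b L) ∈ FO Q i := by
    rw [e, fc_uO_i h.adj]
    exact (IntermediateField.mem_fixedField_iff (StQ Q i) x).2 fun σ hσ => (h1 σ hσ).1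
  unfold rq
  rw [dif_pos hx]

/-- **The coordinates.** PROOF. `mem_Xq`, `uO_HF` for `σ₀`, `so_uO`, `fc_uO_i`, `rq_val`. -/
theorem xq_coord (h : AdQ Q i j) {σ₀ : L ≃ₐ[K] L} (hσ : σ₀ ∉ StQ Q i) (u : ↥(Xq Q i)) : (u : GK b L) = uO b i j (rq Q i u : L) (so b i j (u : GK b L)) (σ₀ (rq Q i u : L)) := by
  have h0 := rq_val h u
  obtain ⟨⟨x, s, y, e⟩, hF⟩ := (mem_Xq h _).1 u.2
  rw [e] at hF
  have h1 := ((uO_HF h x s y).1 hF).2 σ₀ hσ
  rw [h0, e, fc_uO_i h.adj, so_uO h.adj, h1.1]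

theorem b6c_zero (h : AdQ Q i j) (u : ↥(Xq Q i)) (hr : rq Q i u = 0) : ∃ s : L, (u : GK b L) = uO b i j 0 s 0 ∧ (∀ σ ∈ StQ Q i, σ s = s) ∧ ∀ σ : L ≃ₐ[K] L, σ ∉ StQ Q i → σ s = -s := by
  have h0 := rq_val h u
  obtain ⟨⟨x, s, y, e⟩, hF⟩ := (mem_Xq h _).1 u.2
  have hx : x = 0 := by
    rw [e, fc_uO_i h.adj, hr] at h0
    exact h0.symm
  rw [e] at hF
  have h1 := (uO_HF h x s y).1 hF
  obtain ⟨σ₀, hσ₀⟩ := h.exs
  have hy : y = 0 := by
    have h2 := (h1.2 σ₀ hσ₀).1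
    rw [hx, map_zero] at h2
    exact h2.symm
  refine ⟨s, ?_, fun σ hσ => (h1.1 σ hσ).2.1, fun σ hσ => ?_⟩
  · rw [e, hx, hy]
  · rw [(h1.2 σ hσ).2.1, hx, zero_mul, sub_zero]

/-- PROOF. `x = 0`, so `y = σ₀ x = 0` and `σ s = s` or `-s`; so `s / θ` is fixed by the Galois group (`IsGalois.mem_bot_iff_fixed` or `IsGalois.mem_range_algebraMap_iff_fixed`). -/
theorem xq_zero [IsGalois K L] (h : AdQ Q i j) {θ : L} (hθ : IsTh Q i θ) (u : ↥(Xq Q i)) (hr : rq Q i u = 0) : so b i j (u : GK b L) = θ * algebraMap K L (tq Q i j θ u) := by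
  obtain ⟨s, e, h1, h2⟩ := b6c_zero h u hr
  have hfin : FiniteDimensional K L := Module.Finite.of_restrictScalars_finite ℚ K L
  have hfix : ∀ σ : L ≃ₐ[K] L, σ (s / θ) = s / θ := by
    intro σ
    rw [map_div₀]
    by_cases hσ : σ ∈ StQ Q i
    · rw [h1 σ hσ, hθ.st σ hσ]
    · rw [h2 σ hσ, hθ.nst σ hσ, neg_div_neg_eq]
  have hex : ∃ t : K, so b i j (u : GK b L) = θ * algebraMap K L t := by
    obtain ⟨t, ht⟩ := (IsGalois.mem_range_algebraMap_iff_fixed (F := K) (E := L) (s / θ)).2 hfix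
    refine ⟨t, ?_⟩
    rw [ht, e, so_uO h.adj, mul_div_cancel₀ _ hθ.ne]
  unfold tq
  rw [dif_pos hex]
  exact hex.choose_spec

/-- PROOF. `uO_mul` (or `FI.fc_mul`) and `rq_val`. -/
theorem rq_mul (h : AdQ Q i j) (u u' : ↥(Xq Q i)) : rq Q i (u * u') = rq Q i u + rq Q i u' := by
  refine Subtype.ext ?_
  have e0 : ((rq Q i u + rq Q i u' : FO Q i) : L) = (rq Q i u : L) + (rq Q i u' : L) := rfl
  rw [e0, rq_val h, rq_val h, rq_val h]
  obtain ⟨⟨x, s, y, e⟩, -⟩ := (mem_Xq h _).1 u.2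
  obtain ⟨⟨x', s', y', e'⟩, -⟩ := (mem_Xq h _).1 u'.2
  rw [Subgroup.coe_mul, e, e', uO_mul h.adj, fc_uO_i h.adj, fc_uO_i h.adj, fc_uO_i h.adj]

/-- PROOF. `uO_mul` with `x = 0`: `so (u u') = so u + so u'`, `xq_zero`, cancel `θ`, `algebraMap` is injective. -/
theorem tq_mul [IsGalois K L] (h : AdQ Q i j) {θ : L} (hθ : IsTh Q i θ) (u u' : ↥(Xq Q i)) (hr : rq Q i u = 0) (hr' : rq Q i u' = 0) : tq Q i j θ (u * u') = tq Q i j θ u + tq Q i j θ u' := by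
  have hr2 : rq Q i (u * u') = 0 := by rw [rq_mul h, hr, hr', add_zero]
  obtain ⟨s, e, -, -⟩ := b6c_zero h u hr
  obtain ⟨s', e', -, -⟩ := b6c_zero h u' hr'
  have k1 := xq_zero h hθ u hr
  have k2 := xq_zero h hθ u' hr'
  have k3 := xq_zero h hθ (u * u') hr2
  rw [Subgroup.coe_mul, e, e', uO_mul h.adj, so_uO h.adj, zero_mul, sub_zero] at k3
  rw [e, so_uO h.adj] at k1
  rw [e', so_uO h.adj] at k2
  apply (algebraMap K L).injective
  apply mul_left_cancel₀ hθ.ne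
  rw [← k3, map_add, mul_add, ← k1, ← k2]

/-- PROOF. `xq_coord`, `xq_zero`, `uO_one`. -/
theorem tq_inj [IsGalois K L] (h : AdQ Q i j) {θ : L} (hθ : IsTh Q i θ) (u : ↥(Xq Q i)) (hr : rq Q i u = 0) (ht : tq Q i j θ u = 0) : u = 1 := by
  obtain ⟨s, e, -, -⟩ := b6c_zero h u hr
  have k1 := xq_zero h hθ u hr
  rw [ht, map_zero, mul_zero, e, so_uO h.adj] at k1
  refine Subtype.ext ?_
  rw [e, k1, uO_one]
  rfl

/-- PROOF. `u = uO x s y`, `u' = uO x s' y` (`xq_coord`), `u⁻¹ u' = uO 0 (s' - s) 0` (`uO_inv`, `uO_mul`), `rq (u⁻¹ u') = 0`, `xq_zero`. -/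
theorem tq_sub [IsGalois K L] (h : AdQ Q i j) {θ : L} (hθ : IsTh Q i θ) (u u' : ↥(Xq Q i)) (hr : rq Q i u = rq Q i u') : θ * algebraMap K L (tq Q i j θ (u⁻¹ * u')) = so b i j (u' : GK b L) - so b i j (u : GK b L) := by
  obtain ⟨σ₀, hσ₀⟩ := h.exs
  have e1 := xq_coord h hσ₀ u
  have e2 := xq_coord h hσ₀ u'
  rw [← hr] at e2
  set x : L := (rq Q i u : L) with hx
  set y : L := σ₀ x with hy
  set s : L := so b i j (u : GK b L) with hs
  set s' : L := so b i j (u' : GK b L) with hs'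
  have e3 : ((u⁻¹ * u' : ↥(Xq Q i)) : GK b L) = uO b i j 0 (s' - s) 0 := by
    rw [Subgroup.coe_mul, Subgroup.coe_inv, e1, e2, uO_inv h.adj, uO_mul h.adj, neg_add_cancel, neg_add_cancel]
    congr 1
    ring
  have hr3 : rq Q i (u⁻¹ * u') = 0 := by
    refine Subtype.ext ?_
    rw [rq_val h, e3, fc_uO_i h.adj]
    rfl
  have k := xq_zero h hθ (u⁻¹ * u') hr3
  rw [e3, so_uO h.adj] at k
  exact k.symm

/-- **Elements with given coordinates.** PROOF. `mem_Xq`, `uO_HF`. For `σ ∈ StQ Q i`: `σ x = x`, `σ s = s`, `σ (σ₀ x) = σ₀ (σ₀⁻¹ σ σ₀) x = σ₀ x` (`σ₀⁻¹ σ σ₀ ∈ StQ Q i`: `AdQ.mul_mem`, `sp_st`). For `σ ∉ StQ Q i`: `σ₀⁻¹ σ ∈ StQ Q i`, so `σ x = σ₀ x`, `σ s = σ₀ s`; `σ σ₀ ∈ StQ Q i`, so `σ (σ₀ x) = x`. -/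
theorem xq_mk (h : AdQ Q i j) {σ₀ : L ≃ₐ[K] L} (hσ : σ₀ ∉ StQ Q i) (x : FO Q i) (s : L) (hs : ∀ σ ∈ StQ Q i, σ s = s) (hs' : σ₀ s = -s - x * σ₀ x) : uO b i j (x : L) s (σ₀ (x : L)) ∈ Xq Q i := by
  have hx : ∀ σ ∈ StQ Q i, σ (x : L) = x := fun σ hσ => (IntermediateField.mem_fixedField_iff (StQ Q i) (x : L)).1 x.2 σ hσ
  have hinv : σ₀⁻¹ ∉ StQ Q i := fun h1 => hσ (by simpa using inv_mem h1)
  have hcan : ∀ z : L, σ₀ (σ₀⁻¹ z) = z := fun z => σ₀.apply_symm_apply z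
  refine (mem_Xq h _).2 ⟨⟨x, s, σ₀ x, rfl⟩, (uO_HF h x s (σ₀ x)).2 ⟨fun σ h1 => ⟨hx σ h1, hs σ h1, ?_⟩, fun σ h1 => ?_⟩⟩
  · have h2 : σ * σ₀ ∉ StQ Q i := fun h3 => hσ (by
      have h4 := mul_mem (inv_mem h1) h3
      rwa [inv_mul_cancel_left] at h4)
    have h5 := hx _ (h.mul_mem hinv h2)
    have h6 : σ₀⁻¹ (σ (σ₀ (x : L))) = x := h5
    have h7 := congrArg σ₀ h6
    rwa [hcan] at h7
  · have h2 : σ₀⁻¹ * σ ∈ StQ Q i := h.mul_mem hinv h1
    have h3 : σ₀⁻¹ (σ (x : L)) = x := hx _ h2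
    have h4 : σ₀⁻¹ (σ s) = s := hs _ h2
    have h5 := congrArg σ₀ h3
    have h6 := congrArg σ₀ h4
    rw [hcan] at h5 h6
    refine ⟨h5, ?_, ?_⟩
    · rw [h6, hs']
    · exact hx _ (h.mul_mem h1 hσ)

end

end Pool.Agent.Lib.L8.HS
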