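import Pool.Agent.Lib.L8.HS.A0
import Pool.Agent.Lib.L8.FL.M2A
import Pool.Agent.Lib.L8.FR.R0
import Pool.Agent.Lib.H29F.FB1
import Pool.Agent.Lib.H29F.FH1
import Pool.Agent.Lib.L1S.QC1
import Pool.Agent.Lib.L8.QF.EQ3

/-!
# HS, J0 (helper29): the Heisenberg letter with both levels: definitions

`HJ`: as `HH` (A0), where moreover `z` has the level `𝔫`: the contents are at least `1 / ν_w` and the differences of the coordinates are smaller by the factor `ν_w`.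
-/

namespace Pool.Agent.Lib.L8.HS

open NumberField IsDedekindDomain Pool.Agent.Lib.L1S Pool.Agent.Lib.L8.QF Pool.Agent.Lib.H29F

noncomputable section

set_option linter.unusedSectionVars false

/-- The data of a Heisenberg letter, both levels. -/
structure HJ (K : Type) {E L : Type} [Field K] [NumberField K] [Field E] [NumberField E] [Field L] [NumberField L] [Algebra K L] [Algebra E L] {N : Type} [Group N] (𝔫 : Ideal (𝓞 K)) (σ₀ : L ≃ₐ[K] L) (θ : L)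
    (r : N → E) (s : N → K) (B : Subgroup N) (rB : AddSubgroup E) (sB : AddSubgroup K) (T : Finset N) (X : Set N)
    (a₁ a₂ : HeightOneSpectrum (𝓞 L) → ℝ) (d₁ d₂ : HeightOneSpectrum (𝓞 L) → N → ℝ) : Prop extends HH K 𝔫 σ₀ θ r s B rB sB T X a₁ a₂ d₁ d₂ where
  lev₁ : ∀ u ∈ X, ∀ w, 1 ≤ nu L 𝔫 w * d₁ w u
  lev₂ : ∀ u ∈ X, ∀ w, 1 ≤ nu L 𝔫 w * d₂ w u
  est₁' : ∀ u ∈ X, ∀ u' ∈ X, Eqc d₁ d₂ u u' → ∀ w, av w (algebraMap E L (r u' - r u)) ≤ nu L 𝔫 w * (a₁ w * d₂ w u)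
  est₂' : ∀ u ∈ X, ∀ u' ∈ X, Eqc d₁ d₂ u u' → ∀ w, av w (σ₀ (algebraMap E L (r u' - r u))) ≤ nu L 𝔫 w * (a₂ w * d₁ w u)

variable {K L : Type} [Field K] [NumberField K] [Field L] [NumberField L] [Algebra K L]

/-- `∏_w ν_w = N(𝔫) ^ (- f)`. -/
theorem nu_prod {𝔫 : Ideal (𝓞 K)} (h : 𝔫 ≠ ⊥) : ∏ᶠ w, nu L 𝔫 w = ((Ideal.absNorm 𝔫 : ℝ) ^ Module.finrank K L)⁻¹ := by
  show ∏ᶠ w, nv (up L 𝔫) w = _
  rw [nv_prod (qc_up_bot h), FL.m2_norm, Nat.cast_pow]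

theorem nu_pos (𝔫 : Ideal (𝓞 K)) (w : HeightOneSpectrum (𝓞 L)) : 0 < nu L 𝔫 w := nv_pos _ _

theorem nu_fin {𝔫 : Ideal (𝓞 K)} (h : 𝔫 ≠ ⊥) : {w | nu L 𝔫 w ≠ 1}.Finite := nv_fin (qc_up_bot h)

theorem nu_le (𝔫 : Ideal (𝓞 K)) (w : HeightOneSpectrum (𝓞 L)) : nu L 𝔫 w ≤ 1 := nv_le_one _ _

theorem nu_top (w : HeightOneSpectrum (𝓞 L)) : nu L (⊤ : Ideal (𝓞 K)) w = 1 := by
  have h1 : up L (⊤ : Ideal (𝓞 K)) = ⊤ := by
    unfold up
    exact Ideal.map_top _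
  show nv (up L ⊤) w = 1
  rw [h1]
  unfold nv
  have h2 : (Associates.mk (⊤ : Ideal (𝓞 L))) = 1 := by
    rw [← Ideal.one_eq_top]
    rfl
  rw [h2, Associates.factors_one, Associates.count_zero w.associates_irreducible, pow_zero]

/-- `ν_w` depends only on the place of `K` below `w`. -/
theorem nu_below [IsGalois K L] (𝔫 : Ideal (𝓞 K)) {w w' : HeightOneSpectrum (𝓞 L)} (h : CFT.below K w = CFT.below K w') : nu L 𝔫 w = nu L 𝔫 w' := by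
  obtain ⟨σ, hσ⟩ := exists_trn h
  have h1 : w' = spl σ w := eq3_place hσ
  show nv (up L 𝔫) w = nv (up L 𝔫) w'
  rw [h1, ← H29F.aI_eq, ← H29F.aI_eq, aI_spl]

end

end Pool.Agent.Lib.L8.HS
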