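import Pool.Agent.Lib.L8.HS.B2
import Pool.Agent.Lib.L8.FC.D3

/-!
# HS, J6 (helper29): the height product of a Heisenberg letter
-/

namespace Pool.Agent.Lib.L8.HS

open Matrix NumberField IsDedekindDomain Pool.Agent.Lib.H89N Pool.Agent.Lib.L1S
open Pool.Agent.Lib.L8.FI (fx fn fh fc)
open Pool.Agent.Lib.L8.FL (av aI Gv Kv Ah TK tv PJ G1 Chi nW wW Uw RedW fe eW se mu xe)

noncomputable section

set_option linter.unusedSectionVars false

variable {ι M N : Type} [Fintype ι] [DecidableEq ι] [AddCommGroup M] [Module ℚ M] [AddCommGroup N] [Module ℚ N]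
  {P : RootPairing ι ℚ M N} [P.IsCrystallographic] [P.IsReduced] [P.IsIrreducible] [P.IsRootSystem] {b : P.Base} {K : Type} [Field K] [NumberField K]

/-- The parameters after the letter. -/
theorem eW_adj {i j : b.support} (h : Adj b i j) {e : b.support → ℝ} {m : ℝ} (hi : FL.mu b e i = m) (hj : FL.mu b e j = m) (k : b.support) :
    eW b e [i, j, i] k = if k = i ∨ k = j then e k - 2 * m else e k := by
  have hij : i ≠ j := h.ne
  have c1 : (b.cartanMatrix i j : ℝ) = -1 := by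
    have := b2_cm_ij h
    exact_mod_cast this
  have c2 : (b.cartanMatrix j i : ℝ) = -1 := by
    have := b2_cm_ji h
    exact_mod_cast this
  have c3 : (b.cartanMatrix i i : ℝ) = 2 := by
    have := b.cartanMatrix_apply_same i
    exact_mod_cast this
  have m1 : FL.mu b (se b i e) j = 2 * m := by
    rw [FC.mu_se, hi, hj, c1]
    ring
  have m2 : FL.mu b (se b i e) i = -m := by
    rw [FC.mu_se, hi, c3]
    ring
  have m3 : FL.mu b (se b j (se b i e)) i = m := by
    rw [FC.mu_se, m1, m2, c2]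
    ring
  have e0 : eW b e [i, j, i] = se b i (se b j (se b i e)) := rfl
  rw [e0]
  unfold se at m1 m3 ⊢
  by_cases hki : k = i
  · subst hki
    rw [if_pos rfl, m3, if_neg hij, if_pos rfl, if_pos (Or.inl rfl), hi]
    ring
  · by_cases hkj : k = j
    · subst hkj
      rw [if_neg hki, if_pos rfl, m1, if_neg hki, if_pos (Or.inr rfl)]
    · rw [if_neg hki, if_neg hkj, if_neg hki, if_neg (by tauto)]

/-- One place. -/
theorem j6_loc (w : HeightOneSpectrum (𝓞 K)) {i j : b.support} (h : Adj b i j) {e : b.support → ℝ} {m : ℝ} (hi : FL.mu b e i = m) (hj : FL.mu b e j = m) (z : GK b K) (x s y : K) :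
    ∏ k, Ah b w (hz i j z x s y) k ^ e k = (∏ k, Ah b w z k ^ eW b e [i, j, i] k) * (Ah b w z i * Ah b w z j) ^ (-2 : ℝ) * (dd w i j z (hz i j z x s y) * dd w j i z (hz i j z x s y)) ^ (-(1 + m)) := by
  classical
  have hij : i ≠ j := h.ne
  have pA : ∀ k, 0 < Ah b w z k := fun k => FI.Ah_pos b w z k
  have hdi : 0 < dd w j i z (hz i j z x s y) := lt_of_lt_of_le one_pos (dd_i_one w h z x s y)
  have hdj : 0 < dd w i j z (hz i j z x s y) := lt_of_lt_of_le one_pos (dd_j_one w h z x s y)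
  set a : ℝ := Ah b w z i * Ah b w z j with ha
  have pa : 0 < a := mul_pos (pA i) (pA j)
  set di : ℝ := dd w j i z (hz i j z x s y) with hdi'
  set dj : ℝ := dd w i j z (hz i j z x s y) with hdj'
  have x1 : ∑ k, (b.cartanMatrix k i : ℝ) * e k = 1 + m := by
    have h1 : FL.mu b e i = ∑ k, e k * (b.cartanMatrix k i : ℝ) - 1 := rfl
    rw [hi] at h1
    have h2 : ∑ k, (b.cartanMatrix k i : ℝ) * e k = ∑ k, e k * (b.cartanMatrix k i : ℝ) := Finset.sum_congr rfl fun k _ => mul_comm _ _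
    linarith
  have x2 : ∑ k, (b.cartanMatrix k j : ℝ) * e k = 1 + m := by
    have h1 : FL.mu b e j = ∑ k, e k * (b.cartanMatrix k j : ℝ) - 1 := rfl
    rw [hj] at h1
    have h2 : ∑ k, (b.cartanMatrix k j : ℝ) * e k = ∑ k, e k * (b.cartanMatrix k j : ℝ) := Finset.sum_congr rfl fun k _ => mul_comm _ _
    linarith
  have l1 : ∀ k, Ah b w (hz i j z x s y) k ^ e k = Ah b w z k ^ e k * ((a * di) ^ (-((b.cartanMatrix k i : ℝ) * e k)) * (a * dj) ^ (-((b.cartanMatrix k j : ℝ) * e k))) := by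
    intro k
    rw [Ah_hz w h, ← ha, ← hdi', ← hdj']
    have q1 : (a * di) ^ (-(b.cartanMatrix k i)) = (a * di) ^ (-(b.cartanMatrix k i : ℝ)) := by
      rw [← Real.rpow_intCast]
      push_cast
      rfl
    have q2 : (a * dj) ^ (-(b.cartanMatrix k j)) = (a * dj) ^ (-(b.cartanMatrix k j : ℝ)) := by
      rw [← Real.rpow_intCast]
      push_cast
      rfl
    have p1 : 0 < a * di := mul_pos pa hdi
    have p2 : 0 < a * dj := mul_pos pa hdj
    rw [q1, q2, Real.mul_rpow (mul_pos (pA k) (Real.rpow_pos_of_pos p1 _)).le (Real.rpow_pos_of_pos p2 _).le, Real.mul_rpow (pA k).le (Real.rpow_pos_of_pos p1 _).le,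
      ← Real.rpow_mul p1.le, ← Real.rpow_mul p2.le, mul_assoc, neg_mul, neg_mul]
  have l2 : ∏ k, Ah b w (hz i j z x s y) k ^ e k = (∏ k, Ah b w z k ^ e k) * ((a * di) ^ (-(1 + m)) * (a * dj) ^ (-(1 + m))) := by
    rw [Finset.prod_congr rfl fun k _ => l1 k, Finset.prod_mul_distrib, Finset.prod_mul_distrib, ← Real.rpow_sum_of_pos (mul_pos pa hdi), ← Real.rpow_sum_of_pos (mul_pos pa hdj),
      Finset.sum_neg_distrib, Finset.sum_neg_distrib, x1, x2]
  have l3 : ∏ k, Ah b w z k ^ eW b e [i, j, i] k = (∏ k, Ah b w z k ^ e k) * a ^ (-(2 * m)) := by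
    have r1 : ∀ k, Ah b w z k ^ eW b e [i, j, i] k = Ah b w z k ^ e k * ((if k = i then Ah b w z i ^ (-(2 * m)) else 1) * (if k = j then Ah b w z j ^ (-(2 * m)) else 1)) := by
      intro k
      rw [eW_adj h hi hj]
      by_cases hki : k = i
      · subst hki
        rw [if_pos (Or.inl rfl), if_pos rfl, if_neg hij, mul_one, sub_eq_add_neg, Real.rpow_add (pA k)]
      · by_cases hkj : k = j
        · subst hkj
          rw [if_pos (Or.inr rfl), if_neg hki, if_pos rfl, one_mul, sub_eq_add_neg, Real.rpow_add (pA k)]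
        · rw [if_neg (by tauto), if_neg hki, if_neg hkj, mul_one, mul_one]
    rw [Finset.prod_congr rfl fun k _ => r1 k, Finset.prod_mul_distrib, Finset.prod_mul_distrib, Finset.prod_ite_eq' Finset.univ i, Finset.prod_ite_eq' Finset.univ j, if_pos (Finset.mem_univ _), if_pos (Finset.mem_univ _),
      ← Real.mul_rpow (pA i).le (pA j).le]
  rw [l2, l3, Real.mul_rpow pa.le hdi.le, Real.mul_rpow pa.le hdj.le, Real.mul_rpow hdj.le hdi.le]
  have h5 : a ^ (-(1 + m)) * a ^ (-(1 + m)) = a ^ (-(2 * m)) * a ^ (-2 : ℝ) := by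
    rw [← Real.rpow_add pa, ← Real.rpow_add pa]
    congr 1
    ring
  calc (∏ k, Ah b w z k ^ e k) * (a ^ (-(1 + m)) * di ^ (-(1 + m)) * (a ^ (-(1 + m)) * dj ^ (-(1 + m))))
      = (∏ k, Ah b w z k ^ e k) * (a ^ (-(1 + m)) * a ^ (-(1 + m))) * (dj ^ (-(1 + m)) * di ^ (-(1 + m))) := by ring
    _ = _ := by
      rw [h5]
      ring

/-- A product with a real power. -/
theorem fp_rpow {X : Type} {f : X → ℝ} (h0 : ∀ w, 0 ≤ f w) (hf : {w | f w ≠ 1}.Finite) (t : ℝ) : (∏ᶠ w, f w) ^ t = ∏ᶠ w, f w ^ t := by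
  have h1 : ∏ᶠ w, f w = ∏ w ∈ hf.toFinset, f w := finprod_eq_prod_of_mulSupport_subset _ fun w hw => by
    rw [Finset.mem_coe, hf.mem_toFinset]
    exact hw
  have h2 : ∏ᶠ w, f w ^ t = ∏ w ∈ hf.toFinset, f w ^ t := finprod_eq_prod_of_mulSupport_subset _ fun w hw => by
    rw [Finset.mem_coe, hf.mem_toFinset]
    intro h3
    apply hw
    show f w ^ t = 1
    rw [h3, Real.one_rpow]
  rw [h1, h2, Real.finsetProd_rpow _ _ fun w _ => h0 w]

theorem rpow_fin {X : Type} {f : X → ℝ} (hf : {w | f w ≠ 1}.Finite) (t : ℝ) : {w | f w ^ t ≠ 1}.Finite :=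
  hf.subset fun w hw h => hw (by
    show f w ^ t = 1
    rw [h, Real.one_rpow])

theorem mulfin {X : Type} {f g : X → ℝ} (hf : {w | f w ≠ 1}.Finite) (hg : {w | g w ≠ 1}.Finite) : {w | f w * g w ≠ 1}.Finite := by
  refine (hf.union hg).subset fun w hw => ?_
  by_contra h
  rw [Set.mem_union, not_or] at h
  apply hw
  have h1 : f w = 1 := not_not.1 h.1
  have h2 : g w = 1 := not_not.1 h.2
  show f w * g w = 1
  rw [h1, h2, mul_one]

/-- The finiteness of the product of the heights. -/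
theorem prodA_fin (z : GK b K) (e : b.support → ℝ) : {w : HeightOneSpectrum (𝓞 K) | (∏ k, Ah b w z k ^ e k) ≠ 1}.Finite := by
  refine (Set.finite_iUnion fun k : b.support => FI.Ah_fin b z k).subset fun w hw => ?_
  by_contra h
  apply hw
  refine Finset.prod_eq_one fun k _ => ?_
  have h3 : Ah b w z k = 1 := by
    by_contra h4
    exact h (Set.mem_iUnion.2 ⟨k, h4⟩)
  rw [h3, Real.one_rpow]

/-- **The height product.** -/
theorem j6_fe_hz {i j : b.support} (h : Adj b i j) {e : b.support → ℝ} {m : ℝ} (hi : FL.mu b e i = m) (hj : FL.mu b e j = m) (z : GK b K) (x s y : K) :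
    fe b e (hz i j z x s y) = fe b (eW b e [i, j, i]) z * (∏ᶠ w : HeightOneSpectrum (𝓞 K), Ah b w z i * Ah b w z j) ^ (-2 : ℝ) *
      (∏ᶠ w : HeightOneSpectrum (𝓞 K), dd w i j z (hz i j z x s y) * dd w j i z (hz i j z x s y)) ^ (-(1 + m)) := by
  have f1 : {w : HeightOneSpectrum (𝓞 K) | Ah b w z i * Ah b w z j ≠ 1}.Finite := mulfin (FI.Ah_fin b z i) (FI.Ah_fin b z j)
  have f2 : {w : HeightOneSpectrum (𝓞 K) | dd w i j z (hz i j z x s y) * dd w j i z (hz i j z x s y) ≠ 1}.Finite := mulfin (dd_fin i j z _) (dd_fin j i z _)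
  have p1 : ∀ w : HeightOneSpectrum (𝓞 K), 0 ≤ Ah b w z i * Ah b w z j := fun w => (mul_pos (FI.Ah_pos b w z i) (FI.Ah_pos b w z j)).le
  have p2 : ∀ w : HeightOneSpectrum (𝓞 K), 0 ≤ dd w i j z (hz i j z x s y) * dd w j i z (hz i j z x s y) := fun w => mul_nonneg (zero_le_one.trans (dd_j_one w h z x s y)) (zero_le_one.trans (dd_i_one w h z x s y))
  rw [fp_rpow p1 f1, fp_rpow p2 f2]
  unfold FL.fe
  have g1 : (Function.mulSupport fun w : HeightOneSpectrum (𝓞 K) => ∏ k, Ah b w z k ^ eW b e [i, j, i] k).Finite := prodA_fin z _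
  have g2 : (Function.mulSupport fun w : HeightOneSpectrum (𝓞 K) => (Ah b w z i * Ah b w z j) ^ (-2 : ℝ)).Finite := rpow_fin f1 _
  have g3 : (Function.mulSupport fun w : HeightOneSpectrum (𝓞 K) => (dd w i j z (hz i j z x s y) * dd w j i z (hz i j z x s y)) ^ (-(1 + m))).Finite := rpow_fin f2 _
  have g4 : (Function.mulSupport fun w : HeightOneSpectrum (𝓞 K) => (∏ k, Ah b w z k ^ eW b e [i, j, i] k) * (Ah b w z i * Ah b w z j) ^ (-2 : ℝ)).Finite := mulfin (prodA_fin z _) (rpow_fin f1 _)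
  rw [← finprod_mul_distrib g1 g2, ← finprod_mul_distrib g4 g3]
  exact finprod_congr fun w => j6_loc w h hi hj z x s y

end

end Pool.Agent.Lib.L8.HS
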