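import Pool.Agent.Lib.L8.HS.J0
import Pool.Agent.Lib.L8.HS.A2
import Pool.Agent.Lib.L8.HS.A4

/-!
# HS, J8 (helper29): the number of elements with given contents, both levels
-/

namespace Pool.Agent.Lib.L8.HS

open NumberField IsDedekindDomain Pool.Agent.Lib.L1S Pool.Agent.Lib.L8.QF Pool.Agent.Lib.H29F

noncomputable section

set_option linter.unusedSectionVars false

variable {K E L : Type} [Field K] [NumberField K] [Field E] [NumberField E] [Field L] [NumberField L] [Algebra K L] [Algebra E L]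

theorem val_pos {x : ℝ} {w : HeightOneSpectrum (𝓞 L)} (h : ∃ y : L, y ≠ 0 ∧ x = av w y) : 0 < x := by
  obtain ⟨y, hy, rfl⟩ := h
  exact (av w).pos hy

theorem mul_fin {X : Type} {f g : X → ℝ} (hf : {w | f w ≠ 1}.Finite) (hg : {w | g w ≠ 1}.Finite) : {w | f w * g w ≠ 1}.Finite := by
  refine (hf.union hg).subset fun w hw => ?_
  by_contra h
  rw [Set.mem_union, not_or] at h
  apply hw
  have h1 : f w = 1 := not_not.1 h.1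
  have h2 : g w = 1 := not_not.1 h.2
  show f w * g w = 1
  rw [h1, h2, mul_one]

theorem min_fin {X : Type} {f g : X → ℝ} (hf : {w | f w ≠ 1}.Finite) (hg : {w | g w ≠ 1}.Finite) : {w | min (f w) (g w) ≠ 1}.Finite := by
  refine (hf.union hg).subset fun w hw => ?_
  by_contra h
  rw [Set.mem_union, not_or] at h
  apply hw
  have h1 : f w = 1 := not_not.1 h.1
  have h2 : g w = 1 := not_not.1 h.2
  show min (f w) (g w) = 1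
  rw [h1, h2, min_self]

theorem av_ne_fin {x : L} (hx : x ≠ 0) : {w : HeightOneSpectrum (𝓞 L) | av w x ≠ 1}.Finite := H29F.av_fin_ne hx

/-- **The number of elements with given contents.** -/
theorem class_bound3 [IsGalois K L] [IsGalois E L] (hKE : Module.finrank K L = 2 * Module.finrank E L) {θ : L} (hθ : θ ≠ 0) : ∃ C : ℝ, 1 ≤ C ∧
    ∀ (N : Type) [Group N] (𝔫 : Ideal (𝓞 K)) (σ₀ : L ≃ₐ[K] L) (r : N → E) (s : N → K) (B : Subgroup N) (rB : AddSubgroup E) (sB : AddSubgroup K) (T : Finset N) (X : Set N) (a₁ a₂ : HeightOneSpectrum (𝓞 L) → ℝ) (d₁ d₂ : HeightOneSpectrum (𝓞 L) → N → ℝ),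
    HJ K 𝔫 σ₀ θ r s B rB sB T X a₁ a₂ d₁ d₂ → ∀ u₀ ∈ X, (∀ u ∈ T, Eqc d₁ d₂ u u₀) →
    (T.card : ℝ) ≤ C * agi (OK E) rB * agi (OK K) sB * (∏ᶠ w, nu L 𝔫 w ^ 2 * (a₁ w * a₂ w) * (d₁ w u₀ * d₂ w u₀)) ^ ((Module.finrank K L : ℝ)⁻¹) *
      (∏ᶠ w, a₁ w * a₂ w * min (d₁ w u₀) (d₂ w u₀)) ^ ((Module.finrank K L : ℝ)⁻¹) := by
  classical
  set f' : ℝ := (Module.finrank K L : ℝ)⁻¹ with hf'
  refine ⟨max 1 ((∏ᶠ w : HeightOneSpectrum (𝓞 L), av w θ) ^ (-f')), le_max_left _ _, ?_⟩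
  intro N _ 𝔫 σ₀ r s B rB sB T X a₁ a₂ d₁ d₂ h u₀ hu₀ hT
  have pa₁ : ∀ w, 0 < a₁ w := fun w => val_pos (h.a₁_val w)
  have pa₂ : ∀ w, 0 < a₂ w := fun w => val_pos (h.a₂_val w)
  have pd₁ : ∀ w, 0 < d₁ w u₀ := fun w => val_pos (h.d₁_val w u₀)
  have pd₂ : ∀ w, 0 < d₂ w u₀ := fun w => val_pos (h.d₂_val w u₀)
  have pn : ∀ w, 0 < nu L 𝔫 w := fun w => nu_pos 𝔫 w
  have fn := nu_fin (L := L) h.n0
  set X' : Set N := {u | u ∈ X ∧ Eqc d₁ d₂ u₀ u} with hX'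
  have hsym : ∀ {u u' : N}, Eqc d₁ d₂ u u' → Eqc d₁ d₂ u' u := fun h w => ⟨(h w).1.symm, (h w).2.symm⟩
  have htr : ∀ {u u' u'' : N}, Eqc d₁ d₂ u u' → Eqc d₁ d₂ u' u'' → Eqc d₁ d₂ u u'' := fun h h' w => ⟨(h w).1.trans (h' w).1, (h w).2.trans (h' w).2⟩
  have hXB : ∀ u ∈ X', ∀ β ∈ B, u * β ∈ X' := fun u hu β hβ => ⟨h.XB u hu.1 β hβ, htr hu.2 (hsym (h.dB u β hβ))⟩
  have hTX : ∀ u ∈ T, u ∈ X' := fun u hu => ⟨h.TX u hu, hsym (hT u hu)⟩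
  have r_one : r 1 = 0 := by
    have h1 := h.r_mul 1 1
    rw [mul_one] at h1
    exact (add_eq_left.mp h1.symm)
  have r_inv : ∀ u, r u⁻¹ = - r u := by
    intro u
    have h1 := h.r_mul u⁻¹ u
    rw [inv_mul_cancel, r_one] at h1
    exact (neg_eq_of_add_eq_zero_left h1.symm).symm
  -- the coordinate `r`
  have e1 : ∀ w u, u ∈ X' → d₁ w u = d₁ w u₀ := fun w u hu => (hu.2 w).1.symm
  have e2 : ∀ w u, u ∈ X' → d₂ w u = d₂ w u₀ := fun w u hu => (hu.2 w).2.symm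
  have key1 : ∀ u ∈ X', ∀ u' ∈ X', ∀ w, av w (algebraMap E L (r u' - r u)) ≤ nu L 𝔫 w * (a₁ w * d₂ w u₀) ∧ av w (σ₀ (algebraMap E L (r u' - r u))) ≤ nu L 𝔫 w * (a₂ w * d₁ w u₀) := by
    intro u hu u' hu' w
    have h1 := h.est₁' u hu.1 u' hu'.1 (htr (hsym hu.2) hu'.2) w
    have h2 := h.est₂' u hu.1 u' hu'.1 (htr (hsym hu.2) hu'.2) w
    rw [e2 w u hu] at h1
    rw [e1 w u hu] at h2
    exact ⟨h1, h2⟩
  have hu₀' : u₀ ∈ X' := ⟨hu₀, fun w => ⟨rfl, rfl⟩⟩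
  have p1 : ∀ w, 0 < nu L 𝔫 w * (a₁ w * d₂ w u₀) := fun w => mul_pos (pn w) (mul_pos (pa₁ w) (pd₂ w))
  have p2 : ∀ w, 0 < nu L 𝔫 w * (a₂ w * d₁ w u₀) := fun w => mul_pos (pn w) (mul_pos (pa₂ w) (pd₁ w))
  have f1 := mul_fin fn (mul_fin h.a₁_fin (h.d₂_fin u₀))
  have f2 := mul_fin fn (mul_fin h.a₂_fin (h.d₁_fin u₀))
  have hrB : ∀ x ∈ rB, ∀ w, av w (algebraMap E L x) ≤ nu L 𝔫 w * (a₁ w * d₂ w u₀) ∧ av w (σ₀ (algebraMap E L x)) ≤ nu L 𝔫 w * (a₂ w * d₁ w u₀) := by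
    intro x hx w
    obtain ⟨β, hβ, rfl⟩ := (h.mem_rB x).1 hx
    have h1 := key1 u₀ hu₀' (u₀ * β) (hXB u₀ hu₀' β hβ) w
    rwa [h.r_mul, add_sub_cancel_left] at h1
  -- the centre
  set S : HeightOneSpectrum (𝓞 L) → ℝ := fun w => a₁ w * a₂ w * min (d₁ w u₀) (d₂ w u₀) with hS
  have pS : ∀ w, 0 < S w := fun w => mul_pos (mul_pos (pa₁ w) (pa₂ w)) (lt_min (pd₁ w) (pd₂ w))
  have fS : {w | S w ≠ 1}.Finite := mul_fin (mul_fin h.a₁_fin h.a₂_fin) (min_fin (h.d₁_fin u₀) (h.d₂_fin u₀))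
  have pθ : ∀ w : HeightOneSpectrum (𝓞 L), 0 < av w θ := fun w => (av w).pos hθ
  have fθ : {w : HeightOneSpectrum (𝓞 L) | (av w θ)⁻¹ ≠ 1}.Finite := (av_ne_fin hθ).subset fun w hw h1 => hw (by rw [h1, inv_one])
  have key2 : ∀ u ∈ X', ∀ u' ∈ X', r u = r u' → ∀ w, av w (algebraMap K L (s (u⁻¹ * u'))) ≤ S w * (av w θ)⁻¹ := by
    intro u hu u' hu' hr w
    have h1 := h.estz u hu.1 u' hu'.1 (htr (hsym hu.2) hu'.2) hr w
    rw [e1 w u hu, e2 w u hu, map_mul] at h1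
    have h2 : av w θ * av w (algebraMap K L (s (u⁻¹ * u'))) ≤ S w := h1.trans (mul_le_mul_of_nonneg_left (min_le_left _ _) (mul_pos (pa₁ w) (pa₂ w)).le)
    rw [← div_eq_mul_inv, le_div_iff₀ (pθ w), mul_comm]
    exact h2
  have hF := count h.r_mul h.s_mul h.s_inj h.mem_rB h.mem_sB h.inc hTX hXB (𝔞 := rB) le_rfl (by rw [AddSubgroup.relIndex_self]; exact one_ne_zero)
    (c₁ := agi (OK E) rB * (∏ᶠ w, nu L 𝔫 w * (a₁ w * d₂ w u₀) * (nu L 𝔫 w * (a₂ w * d₁ w u₀))) ^ f')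
    (c₂ := agi (OK K) sB * (∏ᶠ w, S w * (av w θ)⁻¹) ^ f') ?_ ?_ ?_
  · rw [AddSubgroup.relIndex_self, Nat.cast_one, mul_one] at hF
    refine hF.trans ?_
    have g1 : (∏ᶠ w, nu L 𝔫 w * (a₁ w * d₂ w u₀) * (nu L 𝔫 w * (a₂ w * d₁ w u₀))) = ∏ᶠ w, nu L 𝔫 w ^ 2 * (a₁ w * a₂ w) * (d₁ w u₀ * d₂ w u₀) := finprod_congr fun w => by ring
    have g2 : (∏ᶠ w, S w * (av w θ)⁻¹) = (∏ᶠ w, S w) * (∏ᶠ w, av w θ)⁻¹ := by
      rw [finprod_mul_distrib fS fθ, finprod_inv_distrib]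
    have g3 : (0 : ℝ) < ∏ᶠ w : HeightOneSpectrum (𝓞 L), av w θ := finprod_induction (fun x : ℝ => 0 < x) one_pos (fun _ _ => mul_pos) fun w => pθ w
    have g4 : (0 : ℝ) ≤ ∏ᶠ w, S w := finprod_nonneg fun w => (pS w).le
    have g5 : (0 : ℝ) ≤ ∏ᶠ w, nu L 𝔫 w ^ 2 * (a₁ w * a₂ w) * (d₁ w u₀ * d₂ w u₀) := finprod_nonneg fun w => by
      have := pn w; have := pa₁ w; have := pa₂ w; have := pd₁ w; have := pd₂ w
      positivity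
    rw [g1, g2, Real.mul_rpow g4 (inv_nonneg.2 g3.le), Real.inv_rpow g3.le, ← Real.rpow_neg g3.le]
    have a1 : 0 ≤ agi (OK E) rB := div_nonneg (Nat.cast_nonneg _) (Nat.cast_nonneg _)
    have a2 : 0 ≤ agi (OK K) sB := div_nonneg (Nat.cast_nonneg _) (Nat.cast_nonneg _)
    have h9 := Real.rpow_nonneg g4 f'
    have h10 := Real.rpow_nonneg g5 f'
    calc agi (OK E) rB * (∏ᶠ w, nu L 𝔫 w ^ 2 * (a₁ w * a₂ w) * (d₁ w u₀ * d₂ w u₀)) ^ f' * (agi (OK K) sB * ((∏ᶠ w, S w) ^ f' * (∏ᶠ w : HeightOneSpectrum (𝓞 L), av w θ) ^ (-f')))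
        = (∏ᶠ w : HeightOneSpectrum (𝓞 L), av w θ) ^ (-f') * (agi (OK E) rB * agi (OK K) sB * (∏ᶠ w, nu L 𝔫 w ^ 2 * (a₁ w * a₂ w) * (d₁ w u₀ * d₂ w u₀)) ^ f' * (∏ᶠ w, S w) ^ f') := by ring
      _ ≤ max 1 ((∏ᶠ w : HeightOneSpectrum (𝓞 L), av w θ) ^ (-f')) * (agi (OK E) rB * agi (OK K) sB * (∏ᶠ w, nu L 𝔫 w ^ 2 * (a₁ w * a₂ w) * (d₁ w u₀ * d₂ w u₀)) ^ f' * (∏ᶠ w, S w) ^ f') :=
        mul_le_mul_of_nonneg_right (le_max_right _ _) (by positivity)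
      _ = _ := by ring
  · have a2 : 0 ≤ agi (OK K) sB := div_nonneg (Nat.cast_nonneg _) (Nat.cast_nonneg _)
    exact mul_nonneg a2 (Real.rpow_nonneg (finprod_nonneg fun w => mul_nonneg (pS w).le (inv_nonneg.2 (pθ w).le)) _)
  · intro F hF1 hF2
    refine lat2_card hKE σ₀ p1 p2 f1 f2 h.rB₁ h.rB₂ hrB F (fun x hx y hy w => ?_) hF2
    obtain ⟨u, hu, rfl⟩ := hF1 x hx
    obtain ⟨u', hu', rfl⟩ := hF1 y hy
    exact key1 u' hu' u hu w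
  · intro u₁ hu₁ F hF1 hF2
    refine lat_card (E := K) (ρ := fun w => S w * (av w θ)⁻¹) (fun w => mul_pos (pS w) (inv_pos.2 (pθ w))) (mul_fin fS fθ) h.sB₁ h.sB₂ (fun x hx w => ?_) F (fun x hx y hy w => ?_) hF2
    · obtain ⟨β, hβ, hr, rfl⟩ := (h.mem_sB x).1 hx
      have h1 := key2 u₁ hu₁ (u₁ * β) (hXB u₁ hu₁ β hβ) (by rw [h.r_mul, hr, add_zero]) w
      rwa [inv_mul_cancel_left] at h1
    · obtain ⟨u, hu, hru, rfl⟩ := hF1 x hx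
      obtain ⟨u', hu', hru', rfl⟩ := hF1 y hy
      have h1 := key2 u' hu' u hu (by rw [hru, hru']) w
      have h2 : s (u₁⁻¹ * u) - s (u₁⁻¹ * u') = s (u'⁻¹ * u) := by
        have h3 := h.s_mul (u₁⁻¹ * u') (u'⁻¹ * u) (by rw [h.r_mul, r_inv, hru', neg_add_cancel]) (by rw [h.r_mul, r_inv, hru, hru', neg_add_cancel])
        have h4 : u₁⁻¹ * u' * (u'⁻¹ * u) = u₁⁻¹ * u := by group
        rw [h4] at h3
        rw [h3, add_sub_cancel_left]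
      rw [h2]
      exact h1

end

end Pool.Agent.Lib.L8.HS
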