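import Pool.Agent.Lib.H29F.FA1
import Pool.Agent.Lib.H29F.FA2
import Pool.Agent.Lib.H29F.FA4

/-!
# HS, K7 (helper29): comparison of the indices for a Heisenberg letter

`r : N → E` the abelian coordinate, `s` the coordinate of the centre: `agi (O_E, r(B)) agi (O_K, s(B ∩ ker r)) = agi (O_E, r(Γ)) agi (O_K, s(Γ ∩ ker r)) gi (Γ, B)`.
-/

namespace Pool.Agent.Lib.L8.HS

open Pool.Agent.Lib.H29F

noncomputable section

set_option linter.unusedSectionVars false

variable {N E K : Type} [Group N] [AddCommGroup E] [AddCommGroup K]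

/-- The subgroup of the values of `r`. -/
def rS (r : N →* Multiplicative E) (B : Subgroup N) : AddSubgroup E := (B.map r).toAddSubgroup'

theorem mem_rS {r : N →* Multiplicative E} {B : Subgroup N} {x : E} : x ∈ rS r B ↔ ∃ u ∈ B, r u = Multiplicative.ofAdd x := by
  unfold rS
  exact Iff.rfl

/-- The subgroup of the values of `s` on the kernel of `r`. -/
def sS (r : N →* Multiplicative E) (s : r.ker →* Multiplicative K) (B : Subgroup N) : AddSubgroup K := ((B.subgroupOf r.ker).map s).toAddSubgroup'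

theorem mem_sS {r : N →* Multiplicative E} {s : r.ker →* Multiplicative K} {B : Subgroup N} {x : K} : x ∈ sS r s B ↔ ∃ u : r.ker, u.1 ∈ B ∧ s u = Multiplicative.ofAdd x := by
  unfold sS
  exact Iff.rfl

theorem rS_relIndex (r : N →* Multiplicative E) {A B : Subgroup N} (h : A.relIndex B ≠ 0) : (rS r A).relIndex (rS r B) ≠ 0 := by
  show (A.map r).relIndex (B.map r) ≠ 0
  have h2 : (A.map r).relIndex (B.map r) = (A ⊔ r.ker).relIndex (B ⊔ r.ker) := Subgroup.relIndex_map_map _ _ _
  have h3 : A.relIndex B = (A ⊓ B).relIndex B := by rw [Subgroup.inf_relIndex_right]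
  have h4 := fib_le r (inf_le_right : A ⊓ B ≤ B)
  rw [h3, h4] at h
  have h5 := left_ne_zero_of_mul h
  intro h6
  apply h5
  exact Subgroup.relIndex_eq_zero_of_le_left (Subgroup.map_mono inf_le_left) h6

theorem sS_relIndex (r : N →* Multiplicative E) {s : r.ker →* Multiplicative K} (hs : Function.Injective s) (A B : Subgroup N) : (sS r s A).relIndex (sS r s B) = (A ⊓ r.ker).relIndex (B ⊓ r.ker) := by
  show ((A.subgroupOf r.ker).map s).relIndex ((B.subgroupOf r.ker).map s) = _
  rw [Subgroup.relIndex_map_map_of_injective _ _ hs, ← Subgroup.relIndex_map_map_of_injective (f := r.ker.subtype) _ _ r.ker.subtype_injective, Subgroup.subgroupOf_map_subtype, Subgroup.subgroupOf_map_subtype]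

theorem ker_relIndex (r : N →* Multiplicative E) {A B : Subgroup N} (h : A.relIndex B ≠ 0) : (A ⊓ r.ker).relIndex (B ⊓ r.ker) ≠ 0 := by
  rw [← Subgroup.inf_relIndex_right] at h
  have h4 := fib_le r (inf_le_right : A ⊓ B ≤ B)
  rw [h4] at h
  have h5 := right_ne_zero_of_mul h
  intro h6
  apply h5
  exact Subgroup.relIndex_eq_zero_of_le_left (inf_le_inf_right _ inf_le_left) h6

/-- **The comparison of the indices.** -/
theorem k7 (r : N →* Multiplicative E) {s : r.ker →* Multiplicative K} (hs : Function.Injective s) {OE : AddSubgroup E} {O : AddSubgroup K} {Γ B : Subgroup N} (h1 : Γ.relIndex B ≠ 0) (h2 : B.relIndex Γ ≠ 0)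
    (e1 : (rS r Γ).relIndex OE ≠ 0) (e2 : OE.relIndex (rS r Γ) ≠ 0) (k1 : (sS r s Γ).relIndex O ≠ 0) (k2 : O.relIndex (sS r s Γ) ≠ 0) :
    (rS r B).relIndex OE ≠ 0 ∧ OE.relIndex (rS r B) ≠ 0 ∧ (sS r s B).relIndex O ≠ 0 ∧ O.relIndex (sS r s B) ≠ 0 ∧
      agi OE (rS r B) * agi O (sS r s B) = agi OE (rS r Γ) * agi O (sS r s Γ) * gi Γ B := by
  have a1 := rS_relIndex r h1
  have a2 := rS_relIndex r h2
  have b1 : (sS r s Γ).relIndex (sS r s B) ≠ 0 := by
    rw [sS_relIndex r hs]
    exact ker_relIndex r h1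
  have b2 : (sS r s B).relIndex (sS r s Γ) ≠ 0 := by
    rw [sS_relIndex r hs]
    exact ker_relIndex r h2
  have g1 : agi (sS r s Γ) (sS r s B) = gi (Γ ⊓ r.ker) (B ⊓ r.ker) := by
    unfold agi gi
    rw [sS_relIndex r hs, sS_relIndex r hs]
  have g2 := gi_fib r h1 h2
  have g3 : agi (rS r Γ) (rS r B) = agi (Γ.map r).toAddSubgroup' (B.map r).toAddSubgroup' := rfl
  refine ⟨AddSubgroup.relIndex_ne_zero_trans a2 e1, AddSubgroup.relIndex_ne_zero_trans e2 a1, AddSubgroup.relIndex_ne_zero_trans b2 k1, AddSubgroup.relIndex_ne_zero_trans k2 b1, ?_⟩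
  rw [← agi_trans e2 e1 a1 a2, ← agi_trans k2 k1 b1 b2, g2, ← g3, ← g1]
  ring

end

end Pool.Agent.Lib.L8.HS
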