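import Pool.Agent.Lib.L8.HS.B6C
import Pool.Agent.Lib.L8.HS.K7
import Pool.Agent.Lib.L8.FR.R0
import Pool.Agent.Lib.L8.FR.R2
import Pool.Agent.Lib.H29Q.GC0

/-!
# HS, K8 (helper29; chunk B7): comparison of the indices for a Heisenberg letter of a quasi-split group
-/

namespace Pool.Agent.Lib.L8.HS

open Matrix NumberField IsDedekindDomain Pool.Agent.Lib.H89N Pool.Agent.Lib.L1S Pool.Agent.Lib.L8.QF Pool.Agent.Lib.H29Q
open Pool.Agent.Lib.L8.FI (fx fn fh fc)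
open Pool.Agent.Lib.L8.FL (av aI Gv Kv Ah TK tv PJ G1 Chi nW wW Uw RedW)
open Pool.Agent.Lib.H29F (OK agi gi)

noncomputable section

set_option linter.unusedSectionVars false

section arithmetic

variable {F : Type} [Field F] [NumberField F]

theorem k8_mem {x : F} : x ∈ OK F ↔ ∃ z : 𝓞 F, (z : F) = x := Iff.rfl

theorem k8_idx {m : ℕ} (hm : m ≠ 0) {A : AddSubgroup F} (h : ∀ x ∈ OK F, (m : F) * x ∈ A) : A.relIndex (OK F) ≠ 0 := by
  intro h0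
  have h1 : FR.IO (Ideal.span {(m : 𝓞 F)}) ≤ A := by
    rintro x ⟨z, hz, rfl⟩
    obtain ⟨y, rfl⟩ := Ideal.mem_span_singleton'.1 hz
    have h2 := h (y : F) ⟨y, rfl⟩
    have h3 : (algebraMap (𝓞 F) F : 𝓞 F →+ F) (y * (m : 𝓞 F)) = (m : F) * (y : F) := by
      show algebraMap (𝓞 F) F (y * (m : 𝓞 F)) = _
      rw [map_mul, map_natCast, mul_comm]
    rw [h3]
    exact h2
  have h2 := AddSubgroup.relIndex_eq_zero_of_le_left h1 h0
  have h3 := FR.IO_index (Ideal.span {(m : 𝓞 F)})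
  have h4 : (FR.IO (Ideal.span {(m : 𝓞 F)})).relIndex (OK F) = (FR.IO (Ideal.span {(m : 𝓞 F)})).relIndex (FR.OO F) := rfl
  rw [h4, h3, Ideal.absNorm_eq_zero_iff, Ideal.span_singleton_eq_bot] at h2
  exact hm (by exact_mod_cast h2)

theorem k8_idx' {m : ℕ} (hm : m ≠ 0) {A : AddSubgroup F} (h : ∀ x ∈ A, (m : F) * x ∈ OK F) : (OK F).relIndex A ≠ 0 := by
  have hm' : (m : F) ≠ 0 := Nat.cast_ne_zero.2 hm
  rw [← FR.mlt_index hm']
  intro h0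
  have h1 : A.map (FR.mlt (m : F)) ≤ OK F := by
    rintro x ⟨y, hy, rfl⟩
    exact h y hy
  have h3 := k8_idx (F := F) hm (A := (OK F).map (FR.mlt (m : F))) fun x hx => ⟨x, hx, rfl⟩
  exact h3 (AddSubgroup.relIndex_eq_zero_of_le_right h1 h0)

theorem k8_two : IsIntegral ℤ (2 : F) := by
  have h := isIntegral_algebraMap (R := ℤ) (A := F) (x := 2)
  rwa [map_ofNat] at h

end arithmetic

variable {ι M N : Type} [Fintype ι] [DecidableEq ι] [AddCommGroup M] [Module ℚ M] [AddCommGroup N] [Module ℚ N]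
  {P : RootPairing ι ℚ M N} [P.IsCrystallographic] [P.IsReduced] [P.IsIrreducible] [P.IsRootSystem] {b : P.Base}
  {K L : Type} [Field K] [NumberField K] [Field L] [NumberField L] [Algebra K L] {Q : QS b K L} {i j : b.support}

theorem k8_uO_G1 (i j : b.support) {x s y : L} (hx : IsIntegral ℤ x) (hs : IsIntegral ℤ s) (hy : IsIntegral ℤ y) : uO b i j x s y ∈ G1 b (⊤ : Ideal (𝓞 L)) := by
  unfold uO xt
  have h1 : ∀ (k : b.support) (t : L), IsIntegral ℤ t → fx b (k : ι) t ∈ G1 b (⊤ : Ideal (𝓞 L)) := fun k t ht => x_G1' (k : ι) (⟨t, ht⟩ : 𝓞 L)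
  have h2 : fn b L i ∈ G1 b (⊤ : Ideal (𝓞 L)) := m_G1' i
  exact mul_mem (mul_mem (h1 j y hy) (mul_mem (mul_mem h2 (h1 j _ hs.neg)) (inv_mem h2))) (h1 i x hx)

/-- `r` as a homomorphism. -/
def rH (h : AdQ Q i j) : ↥(Xq Q i) →* Multiplicative (FO Q i) where
  toFun u := Multiplicative.ofAdd (rq Q i u)
  map_one' := by
    have h1 := rq_mul h 1 1
    rw [mul_one] at h1
    have h2 : rq Q i 1 = 0 := (add_eq_left.mp h1.symm)
    rw [h2]
    rfl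
  map_mul' u u' := by
    rw [rq_mul h]
    rfl

theorem rH_ker {h : AdQ Q i j} {u : ↥(Xq Q i)} : u ∈ (rH h).ker ↔ rq Q i u = 0 := by
  rw [MonoidHom.mem_ker]
  exact Iff.rfl

/-- `s` as a homomorphism. -/
def sH [IsGalois K L] (h : AdQ Q i j) {θ : L} (hθ : IsTh Q i θ) : (rH h).ker →* Multiplicative K where
  toFun u := Multiplicative.ofAdd (tq Q i j θ u.1)
  map_one' := by
    have h0 : rq Q i (1 : ↥(Xq Q i)) = 0 := rH_ker.1 (one_mem (rH h).ker)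
    have h1 := tq_mul h hθ 1 1 h0 h0
    rw [mul_one] at h1
    have h2 : tq Q i j θ 1 = 0 := (add_eq_left.mp h1.symm)
    show Multiplicative.ofAdd (tq Q i j θ 1) = 1
    rw [h2]
    rfl
  map_mul' u u' := by
    show Multiplicative.ofAdd (tq Q i j θ (u.1 * u'.1)) = _
    rw [tq_mul h hθ _ _ (rH_ker.1 u.2) (rH_ker.1 u'.2)]
    rfl

theorem sH_inj [IsGalois K L] (h : AdQ Q i j) {θ : L} (hθ : IsTh Q i θ) : Function.Injective (sH h hθ) := by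
  rw [injective_iff_map_eq_one]
  intro u hu
  have h1 : tq Q i j θ u.1 = 0 := hu
  exact Subtype.ext (tq_inj h hθ u.1 (rH_ker.1 u.2) h1)

/-- `X ∩ G(𝓞)`. -/
def GO (Q : QS b K L) (i : b.support) : Subgroup ↥(Xq Q i) := (G1 b (⊤ : Ideal (𝓞 L))).subgroupOf (Xq Q i)

theorem k8_r1 (h : AdQ Q i j) : rS (rH h) (GO Q i) ≤ OK (FO Q i) := by
  intro x hx
  obtain ⟨u, hu, hr⟩ := mem_rS.1 hx
  have h0 : rq Q i u = x := hr
  obtain ⟨y, hy⟩ := cc_int i (show (u : GK b L) ∈ G1 b (⊤ : Ideal (𝓞 L)) from hu)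
  have h1 := rq_val h u
  have h2 : ((rq Q i u : FO Q i) : L) = (y : L) := h1.trans hy
  have h3 : IsIntegral ℤ ((x : FO Q i) : L) := by
    rw [← h0, h2]
    exact y.2
  have h4 : IsIntegral ℤ (x : FO Q i) := by
    rwa [← isIntegral_algebraMap_iff (B := L) (algebraMap (FO Q i) L).injective]
  exact ⟨⟨x, h4⟩, rfl⟩

theorem k8_fix {σ : L ≃ₐ[K] L} (hσ : σ ∈ StQ Q i) (x : FO Q i) : σ (x : L) = (x : L) := x.2 ⟨σ, hσ⟩

theorem k8_r2 (h : AdQ Q i j) {x : FO Q i} (hx : x ∈ OK (FO Q i)) : ((2 : ℕ) : FO Q i) * x ∈ rS (rH h) (GO Q i) := by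
  obtain ⟨σ₀, hσ⟩ := h.exs
  obtain ⟨z, hz⟩ := hx
  have hx1 : IsIntegral ℤ (x : L) := by
    have h1 : IsIntegral ℤ (algebraMap (𝓞 (FO Q i)) (FO Q i) z) := z.2
    have hz' : algebraMap (𝓞 (FO Q i)) (FO Q i) z = x := hz
    rw [hz'] at h1
    exact h1.map (algebraMap (FO Q i) L).toIntAlgHom
  have hx2 : IsIntegral ℤ (σ₀ (x : L)) := hx1.map (σ₀ : L →+* L).toIntAlgHom
  have hss : ∀ σ ∈ StQ Q i, σ (σ₀ (x : L)) = σ₀ (x : L) := by
    intro σ hs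
    have h1 : σ₀ * σ₀ ∈ StQ Q i := h.mul_mem hσ hσ
    have h2 : σ₀⁻¹ ∉ StQ Q i := fun h' => hσ (by simpa using inv_mem h')
    have h3 : σ * σ₀ ∉ StQ Q i := fun h' => hσ (by simpa using mul_mem (inv_mem hs) h')
    have h4 : σ₀⁻¹ * (σ * σ₀) ∈ StQ Q i := h.mul_mem h2 h3
    have h5 : σ₀⁻¹ (σ (σ₀ (x : L))) = (x : L) := k8_fix h4 x
    have h6 : σ₀ (σ₀⁻¹ (σ (σ₀ (x : L)))) = σ (σ₀ (x : L)) := σ₀.apply_symm_apply _
    rw [h5] at h6
    exact h6.symm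
  have hsq : σ₀ (σ₀ (x : L)) = (x : L) := k8_fix (h.mul_mem hσ hσ) x
  have hc : (((2 : ℕ) : FO Q i) * x : FO Q i) = ((2 * (x : L) : L)) := by
    push_cast
    rfl
  have hmem : uO b i j (((((2 : ℕ) : FO Q i) * x : FO Q i) : L)) (-(2 * ((x : L) * σ₀ (x : L)))) (σ₀ ((((2 : ℕ) : FO Q i) * x : FO Q i) : L)) ∈ Xq Q i := by
    refine xq_mk h hσ _ _ ?_ ?_
    · intro σ hs
      rw [map_neg, map_mul, map_mul, hss σ hs, k8_fix hs x, map_ofNat]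
    · rw [hc, map_neg, map_mul, map_mul, map_mul, hsq, map_ofNat]
      ring
  rw [mem_rS]
  refine ⟨⟨_, hmem⟩, ?_, ?_⟩
  · refine k8_uO_G1 i j ?_ ?_ ?_
    · rw [hc]
      exact k8_two.mul hx1
    · refine IsIntegral.neg ?_
      exact k8_two.mul (hx1.mul hx2)
    · rw [hc, map_mul, map_ofNat]
      exact k8_two.mul hx2
  · show Multiplicative.ofAdd (rq Q i ⟨_, hmem⟩) = _
    congr 1
    refine Subtype.ext ?_
    rw [rq_val h]
    exact fc_uO_i h.adj _ _ _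

theorem k8_s1 [IsGalois K L] (h : AdQ Q i j) {θ : L} (hθ : IsTh Q i θ) {x : K} (hx : x ∈ OK K) : ((1 : ℕ) : K) * x ∈ sS (rH h) (sH h hθ) (GO Q i) := by
  obtain ⟨σ₀, hσ⟩ := h.exs
  obtain ⟨z, hz⟩ := hx
  have hz' : algebraMap (𝓞 K) K z = x := hz
  have hx1 : IsIntegral ℤ (algebraMap K L x) := by
    have h1 : IsIntegral ℤ (algebraMap (𝓞 K) K z) := z.2
    rw [hz'] at h1
    exact h1.map (algebraMap K L).toIntAlgHom
  obtain ⟨o, ho⟩ := hθ.int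
  have hθ1 : IsIntegral ℤ θ := by
    rw [← ho]
    exact o.2
  have hmem : uO b i j ((0 : FO Q i) : L) (θ * algebraMap K L x) (σ₀ ((0 : FO Q i) : L)) ∈ Xq Q i := by
    refine xq_mk h hσ _ _ ?_ ?_
    · intro σ hs
      rw [map_mul, hθ.st σ hs, AlgEquiv.commutes]
    · rw [map_mul, hθ.nst σ₀ hσ, AlgEquiv.commutes]
      push_cast
      ring
  have hr : rq Q i ⟨_, hmem⟩ = 0 := by
    refine Subtype.ext ?_
    rw [rq_val h]
    exact fc_uO_i h.adj _ _ _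
  have ht := xq_zero h hθ ⟨_, hmem⟩ hr
  rw [show so b i j (((⟨_, hmem⟩ : ↥(Xq Q i)) : GK b L)) = θ * algebraMap K L x from so_uO h.adj _ _ _] at ht
  have ht' : x = tq Q i j θ ⟨_, hmem⟩ := (algebraMap K L).injective (mul_left_cancel₀ hθ.ne ht)
  rw [Nat.cast_one, one_mul, mem_sS]
  refine ⟨⟨⟨_, hmem⟩, rH_ker.2 hr⟩, ?_, ?_⟩
  · refine k8_uO_G1 i j ?_ (hθ1.mul hx1) ?_
    · push_cast
      exact isIntegral_zero
    · push_cast
      rw [map_zero]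
      exact isIntegral_zero
  · show Multiplicative.ofAdd (tq Q i j θ ⟨_, hmem⟩) = _
    rw [← ht']

theorem k8_s2 [IsGalois K L] (h : AdQ Q i j) {θ : L} (hθ : IsTh Q i θ) : ∃ m : ℕ, m ≠ 0 ∧ ∀ x ∈ sS (rH h) (sH h hθ) (GO Q i), (m : K) * x ∈ OK K := by
  have halg : IsAlgebraic ℤ (θ⁻¹ : L) := (IsFractionRing.isAlgebraic_iff ℤ ℚ L).2 (Algebra.IsAlgebraic.isAlgebraic (R := ℚ) (θ⁻¹ : L))
  obtain ⟨m, hm0, hm⟩ := halg.exists_integral_multiple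
  refine ⟨m.natAbs, Int.natAbs_ne_zero.2 hm0, fun x hx => ?_⟩
  obtain ⟨u, hu, hs⟩ := mem_sS.1 hx
  have hs' : tq Q i j θ u.1 = x := hs
  have h0 := rH_ker.1 u.2
  obtain ⟨σ₀, hσ⟩ := h.exs
  have hco := xq_coord h hσ u.1
  have hso := xq_zero h hθ u.1 h0
  rw [hs'] at hso
  have hxx : (rq Q i u.1 : L) = 0 := by
    rw [h0]
    rfl
  rw [hso, hxx, map_zero] at hco
  have hxt : uO b i j (0 : L) (θ * algebraMap K L x) 0 = fn b L i * fx b (j : ι) (-(θ * algebraMap K L x)) * (fn b L i)⁻¹ := by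
    unfold uO xt
    rw [FI.fx_zero, FI.fx_zero, one_mul, mul_one]
  have hfx : fx b (j : ι) (-(θ * algebraMap K L x)) ∈ G1 b (⊤ : Ideal (𝓞 L)) := by
    have h1 : (fn b L i)⁻¹ * (u.1 : GK b L) * fn b L i = fx b (j : ι) (-(θ * algebraMap K L x)) := by
      rw [hco, hxt]
      group
    rw [← h1]
    exact mul_mem (mul_mem (inv_mem (m_G1' i)) hu) (m_G1' i)
  obtain ⟨y, hy⟩ := cc_int j hfx
  have hy' : -(θ * algebraMap K L x) = (y : L) := (FI.fc_x j (-(θ * algebraMap K L x))).symm.trans hy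
  have hint : IsIntegral ℤ (θ * algebraMap K L x) := by
    have h1 : IsIntegral ℤ (-(θ * algebraMap K L x)) := by
      rw [hy']
      exact y.2
    have h2 := h1.neg
    rwa [neg_neg] at h2
  have hprod : IsIntegral ℤ (algebraMap K L (((m : ℤ) : K) * x)) := by
    have h1 := hm.mul hint
    have h2 : m • θ⁻¹ * (θ * algebraMap K L x) = algebraMap K L (((m : ℤ) : K) * x) := by
      rw [zsmul_eq_mul, map_mul, map_intCast, mul_assoc, inv_mul_cancel_left₀ hθ.ne]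
    rwa [h2] at h1
  have hprod' : IsIntegral ℤ (((m : ℤ) : K) * x) := by
    rwa [← isIntegral_algebraMap_iff (B := L) (algebraMap K L).injective]
  have hfin : IsIntegral ℤ ((m.natAbs : K) * x) := by
    rcases Int.natAbs_eq m with he | he
    · rw [he] at hprod'
      push_cast at hprod'
      rw [Nat.cast_natAbs]
      exact hprod'
    · rw [he] at hprod'
      push_cast at hprod'
      have h1 := hprod'.neg
      rw [neg_mul, neg_neg] at h1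
      rw [Nat.cast_natAbs]
      exact h1
  exact ⟨⟨_, hfin⟩, rfl⟩

/-- **Comparison of the indices (chunk B7).** -/
theorem k8 [IsGalois K L] (h : AdQ Q i j) {θ : L} (hθ : IsTh Q i θ) : ∃ C : ℝ, 1 ≤ C ∧ ∀ 𝔞 : Subgroup (GK b L), 𝔞 ≤ Xq Q i → 𝔞.relIndex (Xq Q i ⊓ G1 b ⊤) ≠ 0 → (Xq Q i ⊓ G1 b ⊤).relIndex 𝔞 ≠ 0 →
    ∃ (rB : AddSubgroup (FO Q i)) (sB : AddSubgroup K), (∀ x, x ∈ rB ↔ ∃ u ∈ 𝔞.subgroupOf (Xq Q i), rq Q i u = x) ∧ (∀ x, x ∈ sB ↔ ∃ u ∈ 𝔞.subgroupOf (Xq Q i), rq Q i u = 0 ∧ tq Q i j θ u = x) ∧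
      rB.relIndex (OK (FO Q i)) ≠ 0 ∧ (OK (FO Q i)).relIndex rB ≠ 0 ∧ sB.relIndex (OK K) ≠ 0 ∧ (OK K).relIndex sB ≠ 0 ∧
      agi (OK (FO Q i)) rB * agi (OK K) sB ≤ C * gi (Xq Q i ⊓ G1 b ⊤) 𝔞 := by
  have e1 : (rS (rH h) (GO Q i)).relIndex (OK (FO Q i)) ≠ 0 := k8_idx two_ne_zero fun x hx => k8_r2 h hx
  have e2 : (OK (FO Q i)).relIndex (rS (rH h) (GO Q i)) ≠ 0 := by
    rw [AddSubgroup.relIndex_eq_one.2 (k8_r1 h)]
    exact one_ne_zero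
  have k1 : (sS (rH h) (sH h hθ) (GO Q i)).relIndex (OK K) ≠ 0 := k8_idx one_ne_zero fun x hx => k8_s1 h hθ hx
  have k2 : (OK K).relIndex (sS (rH h) (sH h hθ) (GO Q i)) ≠ 0 := by
    obtain ⟨m, hm0, hm⟩ := k8_s2 h hθ
    exact k8_idx' hm0 hm
  refine ⟨max 1 (agi (OK (FO Q i)) (rS (rH h) (GO Q i)) * agi (OK K) (sS (rH h) (sH h hθ) (GO Q i))), le_max_left _ _, ?_⟩
  intro 𝔞 hX h1 h2
  have hm : ∀ A : Subgroup (GK b L), (A.subgroupOf (Xq Q i)).map (Xq Q i).subtype = A ⊓ Xq Q i := fun A => Subgroup.subgroupOf_map_subtype _ _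
  have hGm : (GO Q i).map (Xq Q i).subtype = Xq Q i ⊓ G1 b ⊤ := by
    unfold GO
    rw [hm, _root_.inf_comm]
  have hAm : (𝔞.subgroupOf (Xq Q i)).map (Xq Q i).subtype = 𝔞 := by
    rw [hm, inf_of_le_left hX]
  have i1 : (GO Q i).relIndex (𝔞.subgroupOf (Xq Q i)) ≠ 0 := by
    rw [← Subgroup.relIndex_map_map_of_injective (f := (Xq Q i).subtype) _ _ (Xq Q i).subtype_injective, hGm, hAm]
    exact h2
  have i2 : (𝔞.subgroupOf (Xq Q i)).relIndex (GO Q i) ≠ 0 := by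
    rw [← Subgroup.relIndex_map_map_of_injective (f := (Xq Q i).subtype) _ _ (Xq Q i).subtype_injective, hGm, hAm]
    exact h1
  have i3 : gi (GO Q i) (𝔞.subgroupOf (Xq Q i)) = gi (Xq Q i ⊓ G1 b ⊤) 𝔞 := by
    rw [← H29F.gi_map (Xq Q i).subtype (Xq Q i).subtype_injective, hGm, hAm]
  obtain ⟨f1, f2, f3, f4, f5⟩ := k7 (rH h) (sH_inj h hθ) (OE := OK (FO Q i)) (O := OK K) i1 i2 e1 e2 k1 k2
  refine ⟨rS (rH h) (𝔞.subgroupOf (Xq Q i)), sS (rH h) (sH h hθ) (𝔞.subgroupOf (Xq Q i)), ?_, ?_, f1, f2, f3, f4, ?_⟩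
  · intro x
    rw [mem_rS]
    exact Iff.rfl
  · intro x
    rw [mem_sS]
    constructor
    · rintro ⟨u, hu, hs⟩
      exact ⟨u.1, hu, rH_ker.1 u.2, hs⟩
    · rintro ⟨u, hu, hr, hs⟩
      exact ⟨⟨u, rH_ker.2 hr⟩, hu, hs⟩
  · rw [f5, i3]
    have hg : 0 ≤ gi (Xq Q i ⊓ G1 b ⊤) 𝔞 := (H29F.gi_pos h2 h1).le
    exact mul_le_mul_of_nonneg_right (le_max_right _ _) hg

end

end Pool.Agent.Lib.L8.HS
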